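import Pool.Agent.Lib.MP_dde81e_an.Defs

/-! MP_dde81e_an, module MP : minimum principle -/

namespace Muntz
open MeasureTheory Set Metric
open scoped ENNReal

theorem MP_ofReal_integral_le {α : Type*} [MeasurableSpace α] {μ : Measure α} {g : α → ℝ}
    (hg : Integrable g μ) :
    ENNReal.ofReal (∫ x, g x ∂μ) ≤ ∫⁻ x, ENNReal.ofReal (g x) ∂μ := by
  rw [integral_eq_lintegral_pos_part_sub_lintegral_neg_part hg]
  refine (ENNReal.ofReal_le_ofReal (sub_le_self _ ENNReal.toReal_nonneg)).trans ?_
  exact ENNReal.ofReal_toReal_le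

theorem MP_cav_ge {u : ℂ → ℝ≥0∞} {g : ℂ → ℝ} {z : ℂ} {r : ℝ}
    (hg : CircleIntegrable g z r)
    (h : ∀ θ : ℝ, ENNReal.ofReal (g (circleMap z r θ)) ≤ u (circleMap z r θ)) :
    ENNReal.ofReal (Real.circleAverage g z r) ≤ cav u z r := by
  have hpi : 0 < 2 * Real.pi := Real.two_pi_pos
  unfold cav Real.circleAverage
  rw [smul_eq_mul, intervalIntegral.integral_of_le hpi.le, ENNReal.ofReal_mul (by positivity),
    one_div]
  gcongr
  refine le_trans (MP_ofReal_integral_le ?_) (lintegral_mono fun θ => h θ)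
  have := hg
  unfold CircleIntegrable at this
  rwa [intervalIntegrable_iff_integrableOn_Ioc_of_le hpi.le] at this

theorem MP_avg_normSq (z : ℂ) (r : ℝ) :
    Real.circleAverage (fun w => Complex.normSq w) z r = Complex.normSq z + r ^ 2 := by
  unfold Real.circleAverage
  have h1 : ∀ θ : ℝ, Complex.normSq (circleMap z r θ)
      = (Complex.normSq z + r ^ 2) + (2 * r * z.re) * Real.cos θ + (2 * r * z.im) * Real.sin θ := by
    intro θ
    rw [Complex.normSq_apply, Complex.normSq_apply]
    have hre : (circleMap z r θ).re = z.re + r * Real.cos θ := by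
      simp [circleMap, Complex.exp_re]
    have him : (circleMap z r θ).im = z.im + r * Real.sin θ := by
      simp [circleMap, Complex.exp_im]
    rw [hre, him]
    have := Real.sin_sq_add_cos_sq θ
    linear_combination r ^ 2 * this
  simp only [h1]
  rw [intervalIntegral.integral_add, intervalIntegral.integral_add,
    intervalIntegral.integral_const, intervalIntegral.integral_const_mul,
    intervalIntegral.integral_const_mul, integral_cos, integral_sin]
  · simp
    field_simp
  · exact (by fun_prop : Continuous fun x : ℝ => Complex.normSq z + r ^ 2).intervalIntegrable _ _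
  · exact (by fun_prop : Continuous fun x : ℝ => 2 * r * z.re * Real.cos x).intervalIntegrable _ _
  · exact (by fun_prop : Continuous fun θ : ℝ =>
      Complex.normSq z + r ^ 2 + 2 * r * z.re * Real.cos θ).intervalIntegrable _ _
  · exact (by fun_prop : Continuous fun θ : ℝ =>
      2 * r * z.im * Real.sin θ).intervalIntegrable _ _

theorem min_principle {Ω : Set ℂ} (hΩ : IsOpen Ω) (hbd : Bornology.IsBounded Ω)
    {u : ℂ → ℝ≥0∞} {v : ℂ → ℝ}
    (hu : LowerSemicontinuousOn u (closure Ω))
    (hum : ∀ z r, 0 < r → closedBall z r ⊆ Ω → cav u z r ≤ u z)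
    (hv : ContinuousOn v (closure Ω))
    (hvm : ∀ z r, 0 < r → closedBall z r ⊆ Ω → v z ≤ Real.circleAverage v z r)
    (hfr : ∀ z ∈ frontier Ω, ENNReal.ofReal (v z) ≤ u z) :
    ∀ z ∈ Ω, ENNReal.ofReal (v z) ≤ u z := by
  intro z₁ hz₁
  by_contra hcon
  push Not at hcon
  have hcl : IsCompact (closure Ω) := hbd.isCompact_closure
  -- bounds
  obtain ⟨B, hB⟩ : ∃ B : ℝ, ∀ z ∈ closure Ω, Complex.normSq z ≤ B := by
    obtain ⟨B, hB⟩ := hcl.bddAbove_image (f := fun z => Complex.normSq z)
      Complex.continuous_normSq.continuousOn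
    exact ⟨B, fun z hz => hB (mem_image_of_mem _ hz)⟩
  set a : ℝ := (u z₁).toReal with ha
  have hu1 : u z₁ ≠ ⊤ := ne_top_of_lt hcon
  have hav : a < v z₁ := by
    rw [← ENNReal.ofReal_toReal hu1] at hcon
    exact (ENNReal.ofReal_lt_ofReal_iff_of_nonneg ENNReal.toReal_nonneg).1 hcon
  have ha0 : 0 ≤ a := ENNReal.toReal_nonneg
  have hB0 : 0 ≤ B := (Complex.normSq_nonneg z₁).trans (hB z₁ (subset_closure hz₁))
  obtain ⟨ε, hε, hε1⟩ : ∃ ε : ℝ, 0 < ε ∧ ε * B < v z₁ - a := by
    have h1 : 0 < v z₁ - a := by linarith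
    refine ⟨(v z₁ - a) / (2 * (B + 1)), by positivity, ?_⟩
    rw [div_mul_eq_mul_div, div_lt_iff₀ (by positivity)]
    nlinarith
  set v' : ℂ → ℝ := fun z => v z - ε * (B - Complex.normSq z) with hv'
  have hv'c : ContinuousOn v' (closure Ω) :=
    hv.sub (continuousOn_const.mul (continuousOn_const.sub
      Complex.continuous_normSq.continuousOn))
  have hv'le : ∀ z ∈ closure Ω, v' z ≤ v z := by
    intro z hz
    have := hB z hz
    simp only [hv']
    nlinarith
  have hv'1 : a < v' z₁ := by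
    simp only [hv']
    have := Complex.normSq_nonneg z₁
    nlinarith
  obtain ⟨K, hK⟩ : ∃ K : ℝ, ∀ z ∈ closure Ω, v' z ≤ K := by
    obtain ⟨K, hK⟩ := hcl.bddAbove_image (f := v') hv'c
    exact ⟨K, fun z hz => hK (mem_image_of_mem _ hz)⟩
  have hψ : LowerSemicontinuousOn (fun z => u z + ENNReal.ofReal (K - v' z)) (closure Ω) := by
    refine hu.add ?_
    refine ContinuousOn.lowerSemicontinuousOn ?_
    exact ENNReal.continuous_ofReal.comp_continuousOn (continuousOn_const.sub hv'c)
  obtain ⟨z₀, hz₀, hmin⟩ := hψ.exists_isMinOn ⟨z₁, subset_closure hz₁⟩ hcl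
  have hK1 : v' z₁ ≤ K := hK z₁ (subset_closure hz₁)
  have hK0 : v' z₀ ≤ K := hK z₀ hz₀
  have hKpos : 0 < K := by linarith
  have hlt : u z₀ + ENNReal.ofReal (K - v' z₀) < ENNReal.ofReal K := by
    refine lt_of_le_of_lt (hmin (subset_closure hz₁)) ?_
    show u z₁ + ENNReal.ofReal (K - v' z₁) < ENNReal.ofReal K
    rw [← ENNReal.ofReal_toReal hu1, ← ENNReal.ofReal_add ENNReal.toReal_nonneg (by linarith)]
    rw [ENNReal.ofReal_lt_ofReal_iff hKpos]
    linarith
  have hu0 : u z₀ ≠ ⊤ := by
    intro h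
    rw [h, top_add] at hlt
    exact not_top_lt hlt
  set a₀ : ℝ := (u z₀).toReal with ha₀
  have hua : u z₀ = ENNReal.ofReal a₀ := (ENNReal.ofReal_toReal hu0).symm
  have ha₀0 : 0 ≤ a₀ := ENNReal.toReal_nonneg
  have h1 : a₀ < v' z₀ := by
    rw [hua, ← ENNReal.ofReal_add ha₀0 (by linarith), ENNReal.ofReal_lt_ofReal_iff hKpos] at hlt
    linarith
  have hz₀Ω : z₀ ∈ Ω := by
    by_contra hn
    have hf : z₀ ∈ frontier Ω := ⟨hz₀, by rwa [hΩ.interior_eq]⟩
    have h2 := hfr z₀ hf
    rw [hua] at h2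
    have h3 : v z₀ ≤ a₀ := (ENNReal.ofReal_le_ofReal_iff ha₀0).1 h2
    have := hv'le z₀ hz₀
    linarith
  obtain ⟨r, hr, hball⟩ := Metric.nhds_basis_closedBall.mem_iff.1 (hΩ.mem_nhds hz₀Ω)
  have hsub : closedBall z₀ r ⊆ closure Ω := hball.trans subset_closure
  have hcirc : ∀ θ : ℝ, circleMap z₀ r θ ∈ closure Ω := fun θ =>
    hsub (circleMap_mem_closedBall z₀ hr.le θ)
  have hvI : CircleIntegrable v z₀ r := by
    refine ContinuousOn.circleIntegrable hr.le (hv.mono ?_)
    exact sphere_subset_closedBall.trans hsub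
  have hnI : CircleIntegrable (fun w => Complex.normSq w) z₀ r :=
    ContinuousOn.circleIntegrable hr.le Complex.continuous_normSq.continuousOn
  set g : ℂ → ℝ := fun w => v w + (ε * Complex.normSq w + (a₀ - v' z₀ - ε * B)) with hg
  have hgI2 : CircleIntegrable (fun w => ε * Complex.normSq w) z₀ r :=
    ContinuousOn.circleIntegrable hr.le
      (continuous_const.mul Complex.continuous_normSq).continuousOn
  have hgI : CircleIntegrable g z₀ r := by
    refine hvI.add (hgI2.add ?_)
    exact circleIntegrable_const _ _ _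
  have hge := MP_cav_ge (u := u) hgI (by
    intro θ
    have hw := hmin (hcirc θ)
    set w := circleMap z₀ r θ with hwdef
    have hw' : u z₀ + ENNReal.ofReal (K - v' z₀) ≤ u w + ENNReal.ofReal (K - v' w) := hw
    rw [hua, ← ENNReal.ofReal_add ha₀0 (by linarith)] at hw'
    have hKw : v' w ≤ K := hK w (hcirc θ)
    have h5 : ENNReal.ofReal ((a₀ + (K - v' z₀)) - (K - v' w)) ≤ u w := by
      rw [ENNReal.ofReal_sub _ (by linarith)]
      exact tsub_le_iff_right.2 hw'
    refine le_trans (ENNReal.ofReal_le_ofReal ?_) h5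
    simp only [hg, hv']
    linarith)
  have havg : Real.circleAverage g z₀ r
      = Real.circleAverage v z₀ r + (ε * (Complex.normSq z₀ + r ^ 2) + (a₀ - v' z₀ - ε * B)) := by
    have e1 : g = v + ((fun w => ε * Complex.normSq w) + fun _ => (a₀ - v' z₀ - ε * B)) := by
      funext w
      simp [hg]
    rw [e1, Real.circleAverage_add hvI (hgI2.add (circleIntegrable_const _ _ _)),
      Real.circleAverage_add hgI2 (circleIntegrable_const _ _ _), Real.circleAverage_const]
    have e2 : Real.circleAverage (fun w => ε * Complex.normSq w) z₀ r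
        = ε * (Complex.normSq z₀ + r ^ 2) := by
      rw [← MP_avg_normSq z₀ r]
      exact Real.circleAverage_fun_smul (a := ε) (f := fun w => Complex.normSq w)
    rw [e2]
  have hfin : a₀ + ε * r ^ 2 ≤ Real.circleAverage g z₀ r := by
    rw [havg]
    have := hvm z₀ r hr hball
    simp only [hv']
    linarith
  have hlast := (ENNReal.ofReal_le_ofReal hfin).trans (hge.trans (hum z₀ r hr hball))
  rw [hua, ENNReal.ofReal_le_ofReal_iff ha₀0] at hlast
  have : 0 < ε * r ^ 2 := by positivity
  linarith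

end Muntz
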