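import Pool.Agent.Lib.MP_dde81e_an.TK2
import Pool.Agent.Lib.MP_dde81e_an.MP

/-! MP_dde81e_an, module BAR : barrier -/

namespace Muntz
open MeasureTheory Set Metric
open scoped ENNReal

/-- the barrier function (to be used through `log ‖·‖`). -/
noncomputable def BAR_q (R : ℝ) (z : ℂ) : ℂ :=
  (z + R) / (z - R) * Complex.exp (-((2 / 3969 / R : ℝ) : ℂ) * z)

theorem BAR_norm_sq (R : ℝ) (z : ℂ) :
    ‖z + R‖ ^ 2 = ‖z - R‖ ^ 2 + 4 * R * z.re := by
  rw [← Complex.normSq_eq_norm_sq, ← Complex.normSq_eq_norm_sq, Complex.normSq_apply,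
    Complex.normSq_apply]
  simp
  ring

theorem BAR_log (R : ℝ) (z : ℂ) (h1 : z - R ≠ 0) (h2 : z + R ≠ 0) :
    Real.log ‖BAR_q R z‖
      = Real.log (1 + 4 * R * z.re / ‖z - R‖ ^ 2) / 2 - 2 / 3969 * (z.re / R) := by
  have e0 : 0 < ‖z - R‖ := norm_pos_iff.2 h1
  have e2 : 0 < ‖z + R‖ := norm_pos_iff.2 h2
  have e1 : (‖z + R‖ / ‖z - R‖) ^ 2 = 1 + 4 * R * z.re / ‖z - R‖ ^ 2 := by
    rw [div_pow, BAR_norm_sq]
    field_simp
  rw [← e1, Real.log_pow]
  unfold BAR_q
  rw [norm_mul, norm_div, Complex.norm_exp, Real.log_mul (by positivity) (Real.exp_ne_zero _),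
    Real.log_exp]
  simp
  ring

theorem barrier_real {h : ℂ → ℂ} {R m : ℝ} (hR : 0 < R) (hm : 0 ≤ m)
    (hh : AnalyticOnNhd ℂ h RH) (hb : ∀ ζ ∈ RH, ‖ζ‖ ≤ 64 * R → ‖h ζ‖ ≤ 1)
    (hmb : ∀ z ∈ closedBall (R : ℂ) (R / 4), ENNReal.ofReal m ≤ nl (h z)) {ζ : ℂ}
    (h0 : 0 < ζ.re) (h1 : ‖ζ‖ = R / 8) :
    ENNReal.ofReal (1 / (2 * Real.log 9) * (ζ.re / R) * m) ≤ nl (h ζ) := by
  have hlog : 0 < Real.log 9 := Real.log_pos (by norm_num)
  set Ω : Set ℂ := {z | 0 < z.re ∧ ‖z‖ < 64 * R ∧ R / 4 < ‖z - R‖} with hΩdef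
  have hΩo : IsOpen Ω := by
    have i1 : IsOpen {z : ℂ | 0 < z.re} := isOpen_lt continuous_const Complex.continuous_re
    have i2 : IsOpen {z : ℂ | ‖z‖ < 64 * R} := isOpen_lt continuous_norm continuous_const
    have i3 : IsOpen {z : ℂ | R / 4 < ‖z - (R : ℂ)‖} :=
      isOpen_lt continuous_const (by fun_prop)
    exact i1.inter (i2.inter i3)
  have hΩb : Bornology.IsBounded Ω := by
    refine (Metric.isBounded_closedBall (x := (0 : ℂ)) (r := 64 * R)).subset ?_
    intro z hz
    rw [mem_closedBall_zero_iff]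
    exact hz.2.1.le
  have hΩc : closure Ω ⊆ {z | 0 ≤ z.re ∧ ‖z‖ ≤ 64 * R ∧ R / 4 ≤ ‖z - R‖} := by
    refine closure_minimal ?_ ?_
    · intro z hz
      exact ⟨hz.1.le, hz.2.1.le, hz.2.2.le⟩
    · have i1 : IsClosed {z : ℂ | 0 ≤ z.re} := isClosed_le continuous_const Complex.continuous_re
      have i2 : IsClosed {z : ℂ | ‖z‖ ≤ 64 * R} := isClosed_le continuous_norm continuous_const
      have i3 : IsClosed {z : ℂ | R / 4 ≤ ‖z - (R : ℂ)‖} :=
        isClosed_le continuous_const (by fun_prop)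
      exact i1.inter (i2.inter i3)
  have hRH : closure Ω ⊆ RH := fun z hz => (hΩc hz).1
  have hne1 : ∀ z ∈ closure Ω, z - R ≠ 0 := by
    intro z hz h
    have := (hΩc hz).2.2
    rw [h, norm_zero] at this
    linarith
  have hne2 : ∀ z ∈ closure Ω, z + R ≠ 0 := by
    intro z hz h
    have h3 := (hΩc hz).1
    have h4 := congrArg Complex.re h
    simp at h4
    linarith
  have hqa : ∀ z ∈ closure Ω, AnalyticAt ℂ (BAR_q R) z := by
    intro z hz
    unfold BAR_q
    refine AnalyticAt.mul (AnalyticAt.div (by fun_prop) (by fun_prop) (hne1 z hz)) ?_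
    fun_prop
  have hq0 : ∀ z ∈ closure Ω, BAR_q R z ≠ 0 := by
    intro z hz
    unfold BAR_q
    exact mul_ne_zero (div_ne_zero (hne2 z hz) (hne1 z hz)) (Complex.exp_ne_zero _)
  set κ : ℝ := m / Real.log 9 with hκ
  have hκ0 : 0 ≤ κ := by positivity
  set v : ℂ → ℝ := fun z => κ * Real.log ‖BAR_q R z‖ with hv
  have key := min_principle (Ω := Ω) (u := fun z => nl (h z)) (v := v) hΩo hΩb ?_ ?_ ?_ ?_ ?_ ζ ?_
  · refine le_trans (ENNReal.ofReal_le_ofReal ?_) key
    -- lower bound of v at ζ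
    have hζR : ‖ζ‖ < 64 * R := by rw [h1]; linarith
    have hn1 : 7 / 8 * R ≤ ‖ζ - R‖ := by
      have := norm_sub_norm_le (R : ℂ) ζ
      rw [norm_sub_rev] at this
      simp only [Complex.norm_real, Real.norm_eq_abs, abs_of_pos hR] at this
      rw [h1] at this
      linarith
    have hn2 : ‖ζ - R‖ ≤ 9 / 8 * R := by
      have := norm_sub_le ζ (R : ℂ)
      simp only [Complex.norm_real, Real.norm_eq_abs, abs_of_pos hR] at this
      rw [h1] at this
      linarith
    have hζle : ζ.re ≤ R / 8 := h1 ▸ Complex.re_le_norm ζ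
    have hz1 : ζ - R ≠ 0 := norm_pos_iff.1 (by linarith)
    have hz2 : ζ + R ≠ 0 := by
      intro h
      have h4 := congrArg Complex.re h
      simp at h4
      linarith
    have hpos : 0 < ‖ζ - R‖ := norm_pos_iff.2 hz1
    have hlogv := BAR_log R ζ hz1 hz2
    simp only [hv, hκ]
    rw [hlogv]
    set x : ℝ := 4 * R * ζ.re / ‖ζ - R‖ ^ 2 with hx
    set y : ℝ := ζ.re / R with hy
    have hy0 : 0 < y := by positivity
    have hy1 : y ≤ 1 / 8 := by
      rw [hy, div_le_iff₀ hR]
      linarith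
    have hxl : 3 * y ≤ x := by
      rw [hx, hy, le_div_iff₀ (by positivity), ← mul_div_assoc, div_mul_eq_mul_div,
        div_le_iff₀ hR]
      have : ‖ζ - R‖ ^ 2 ≤ (9 / 8 * R) ^ 2 := by gcongr
      nlinarith [mul_nonneg h0.le (sq_nonneg R)]
    have hxu : x ≤ 1 := by
      rw [hx, div_le_iff₀ (by positivity)]
      have : (7 / 8 * R) ^ 2 ≤ ‖ζ - R‖ ^ 2 := by gcongr
      nlinarith
    have hx0 : 0 < x := by positivity
    have hlogx : x / 2 ≤ Real.log (1 + x) := by
      have := Real.one_sub_inv_le_log_of_pos (show 0 < 1 + x by linarith)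
      refine le_trans ?_ this
      rw [div_le_iff₀ (by norm_num : (0:ℝ) < 2), sub_mul, ← sub_nonneg]
      have e : 1 * 2 - (1 + x)⁻¹ * 2 - x = x * (1 - x) / (1 + x) := by
        field_simp
        ring
      rw [e]
      apply div_nonneg
      · nlinarith
      · linarith
    have hfin : y / 2 ≤ Real.log (1 + x) / 2 - 2 / 3969 * y := by linarith
    calc 1 / (2 * Real.log 9) * y * m = m / Real.log 9 * (y / 2) := by
          field_simp
      _ ≤ _ := mul_le_mul_of_nonneg_left hfin hκ0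
  · -- lsc
    refine ContinuousOn.lowerSemicontinuousOn ?_
    exact nl_continuous.comp_continuousOn (hh.continuousOn.mono hRH)
  · intro z r hr hball
    refine cav_le_center (hh.mono (fun w hw => hRH (subset_closure (hball hw)))) ?_ hr.le
    intro w hw
    exact hb w (hRH (subset_closure (hball hw))) (hball hw).2.1.le
  · -- continuity of v
    refine continuousOn_const.mul ?_
    refine ContinuousOn.log ?_ ?_
    · exact ContinuousOn.norm (fun z hz => (hqa z hz).continuousAt.continuousWithinAt)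
    · intro z hz
      exact norm_ne_zero_iff.2 (hq0 z hz)
  · intro z r hr hball
    have h5 : Real.circleAverage (fun w => Real.log ‖BAR_q R w‖) z r
        = Real.log ‖BAR_q R z‖ := by
      refine AnalyticOnNhd.circleAverage_log_norm_of_ne_zero ?_ ?_
      · rw [abs_of_pos hr]
        exact fun w hw => hqa w (subset_closure (hball hw))
      · rw [abs_of_pos hr]
        exact fun w hw => hq0 w (subset_closure (hball hw))
    have h6 : Real.circleAverage v z r
        = κ * Real.circleAverage (fun w => Real.log ‖BAR_q R w‖) z r :=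
      Real.circleAverage_fun_smul (a := κ) (f := fun w => Real.log ‖BAR_q R w‖)
    rw [h6, h5]
  · -- frontier
    intro z hz
    have hzc : z ∈ closure Ω := hz.1
    have hzn : z ∉ Ω := by
      have := hz.2
      rwa [hΩo.interior_eq] at this
    obtain ⟨c1, c2, c3⟩ := hΩc hzc
    have hpos : 0 < ‖z - R‖ := by linarith
    have hlogv := BAR_log R z (hne1 z hzc) (hne2 z hzc)
    by_cases d1 : z.re = 0
    · have : v z = 0 := by
        simp only [hv]
        rw [hlogv, d1]
        simp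
      rw [this]
      simp
    by_cases d2 : ‖z‖ = 64 * R
    · have hn : 63 * R ≤ ‖z - R‖ := by
        have := norm_sub_norm_le z (R : ℂ)
        simp only [Complex.norm_real, Real.norm_eq_abs, abs_of_pos hR] at this
        linarith
      have hle : v z ≤ 0 := by
        simp only [hv]
        refine mul_nonpos_of_nonneg_of_nonpos hκ0 ?_
        rw [hlogv]
        have hx0 : 0 ≤ 4 * R * z.re / ‖z - R‖ ^ 2 := by positivity
        have h7 : Real.log (1 + 4 * R * z.re / ‖z - R‖ ^ 2) ≤ 4 * R * z.re / ‖z - R‖ ^ 2 := by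
          have := Real.log_le_sub_one_of_pos (show 0 < 1 + 4 * R * z.re / ‖z - R‖ ^ 2 by linarith)
          linarith
        have h8 : 4 * R * z.re / ‖z - R‖ ^ 2 ≤ 4 / 3969 * (z.re / R) := by
          rw [div_le_iff₀ (by positivity)]
          have : (63 * R) ^ 2 ≤ ‖z - R‖ ^ 2 := by gcongr
          have e : 4 * R * z.re = 4 / 3969 * (z.re / R) * (63 * R) ^ 2 := by
            field_simp
            ring
          rw [e]
          gcongr
        linarith
      rw [ENNReal.ofReal_of_nonpos hle]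
      exact bot_le
    have d3 : ‖z - R‖ = R / 4 := by
      by_contra hcon
      apply hzn
      exact ⟨lt_of_le_of_ne c1 (Ne.symm d1), lt_of_le_of_ne c2 d2,
        lt_of_le_of_ne c3 (Ne.symm hcon)⟩
    have hmem : z ∈ closedBall (R : ℂ) (R / 4) := by
      rw [mem_closedBall, dist_eq_norm]
      exact d3.le
    refine le_trans (ENNReal.ofReal_le_ofReal ?_) (hmb z hmem)
    have hre : z.re ≤ 5 / 4 * R := by
      have h9 := Complex.re_le_norm (z - R)
      rw [d3] at h9
      simp at h9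
      linarith
    have h10 : Real.log (1 + 4 * R * z.re / ‖z - R‖ ^ 2) / 2 ≤ Real.log 9 := by
      have e81 : Real.log 81 = 2 * Real.log 9 := by
        rw [show (81 : ℝ) = 9 ^ 2 by norm_num, Real.log_pow]
        norm_num
      have : Real.log (1 + 4 * R * z.re / ‖z - R‖ ^ 2) ≤ Real.log 81 := by
        apply Real.log_le_log
        · positivity
        · rw [d3]
          have : 4 * R * z.re / (R / 4) ^ 2 ≤ 80 := by
            rw [div_le_iff₀ (by positivity)]
            nlinarith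
          linarith
      linarith
    simp only [hv, hκ]
    rw [hlogv]
    have h11 : 0 ≤ 2 / 3969 * (z.re / R) := by positivity
    calc m / Real.log 9 * (Real.log (1 + 4 * R * z.re / ‖z - R‖ ^ 2) / 2 - 2 / 3969 * (z.re / R))
        ≤ m / Real.log 9 * Real.log 9 := by
          refine mul_le_mul_of_nonneg_left ?_ hκ0
          linarith
      _ = m := by field_simp
  · refine ⟨h0, by rw [h1]; linarith, ?_⟩
    have := norm_sub_norm_le (R : ℂ) ζ
    rw [norm_sub_rev] at this
    simp only [Complex.norm_real, Real.norm_eq_abs, abs_of_pos hR] at this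
    rw [h1] at this
    linarith

theorem barrier : ∃ c : ℝ, 0 < c ∧ ∀ (h : ℂ → ℂ) (R : ℝ) (m : ℝ≥0∞), 0 < R →
    AnalyticOnNhd ℂ h RH → (∀ ζ ∈ RH, ‖ζ‖ ≤ 64 * R → ‖h ζ‖ ≤ 1) →
    (∀ z ∈ closedBall (R : ℂ) (R / 4), m ≤ nl (h z)) →
    ∀ ζ : ℂ, 0 < ζ.re → ‖ζ‖ = R / 8 → ENNReal.ofReal (c * (ζ.re / R)) * m ≤ nl (h ζ) := by
  have hlog : 0 < Real.log 9 := Real.log_pos (by norm_num)
  refine ⟨1 / (2 * Real.log 9), by positivity, ?_⟩
  intro h R m hR hh hb hmb ζ h0 h1
  have key : ∀ x : ℝ, 0 ≤ x → ENNReal.ofReal x ≤ m →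
      ENNReal.ofReal (1 / (2 * Real.log 9) * (ζ.re / R)) * ENNReal.ofReal x ≤ nl (h ζ) := by
    intro x hx hxm
    rw [← ENNReal.ofReal_mul (by positivity)]
    exact barrier_real hR hx hh hb (fun z hz => hxm.trans (hmb z hz)) h0 h1
  have hc : 0 < ENNReal.ofReal (1 / (2 * Real.log 9) * (ζ.re / R)) :=
    ENNReal.ofReal_pos.2 (by positivity)
  by_cases hm : m = ⊤
  · have hall : ∀ x : ℝ, 0 ≤ x → ENNReal.ofReal x ≤
        (ENNReal.ofReal (1 / (2 * Real.log 9) * (ζ.re / R)))⁻¹ * nl (h ζ) := by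
      intro x hx
      have h2 := key x hx (by rw [hm]; exact le_top)
      rw [mul_comm, ← div_eq_mul_inv, ENNReal.le_div_iff_mul_le (Or.inl hc.ne')
        (Or.inl ENNReal.ofReal_ne_top), mul_comm]
      exact h2
    have htop : (ENNReal.ofReal (1 / (2 * Real.log 9) * (ζ.re / R)))⁻¹ * nl (h ζ) = ⊤ := by
      refine ENNReal.eq_top_of_forall_nnreal_le fun r => ?_
      have := hall r r.2
      rwa [ENNReal.ofReal_coe_nnreal] at this
    have h3 : nl (h ζ) = ⊤ := by
      by_contra hne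
      have := ENNReal.mul_ne_top (ENNReal.inv_ne_top.2 hc.ne') hne
      exact this htop
    rw [h3]
    exact le_top
  · have := key m.toReal ENNReal.toReal_nonneg (by rw [ENNReal.ofReal_toReal hm])
    rwa [ENNReal.ofReal_toReal hm] at this

end Muntz
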