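import Pool.Agent.Lib.MP_dde81e_an.Defs

/-! MP_dde81e_an, module BD : finite Blaschke decomposition on the unit disc -/

namespace Muntz
open MeasureTheory Set Metric
open scoped ENNReal

theorem BD_factor {h : ℂ → ℂ} (hh : AnalyticOnNhd ℂ h (closedBall 0 1))
    (hne : ∃ z ∈ closedBall (0:ℂ) 1, h z ≠ 0) :
    ∃ (S : Finset ℂ) (n : ℂ → ℕ) (g : ℂ → ℂ), AnalyticOnNhd ℂ g (closedBall 0 1) ∧
      (∀ z ∈ closedBall (0:ℂ) 1, g z ≠ 0) ∧
      ∀ z ∈ closedBall (0:ℂ) 1, h z = (∏ u ∈ S, (z - u) ^ n u) * g z := by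
  have hmer : MeromorphicOn h (closedBall 0 1) := hh.meromorphicOn
  have hcon : IsConnected (closedBall (0:ℂ) 1) :=
    ⟨⟨0, by simp⟩, (convex_closedBall (0:ℂ) 1).isPreconnected⟩
  have hord : ∀ u : closedBall (0:ℂ) 1, meromorphicOrderAt h u ≠ ⊤ := by
    rw [← hmer.exists_meromorphicOrderAt_ne_top_iff_forall hcon]
    obtain ⟨z, hz, hz0⟩ := hne
    refine ⟨⟨z, hz⟩, ?_⟩
    have h1 : analyticOrderAt h z = 0 := (hh z hz).analyticOrderAt_eq_zero.2 hz0
    have h2 : meromorphicOrderAt h z = 0 := by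
      rw [(hh z hz).meromorphicOrderAt_eq, h1]
      rfl
    simp only [h2]
    exact WithTop.zero_ne_top
  have hfin := (MeromorphicOn.divisor h (closedBall (0:ℂ) 1)).finiteSupport
    (isCompact_closedBall 0 1)
  obtain ⟨g, hg, hg0, hEq⟩ := hmer.extract_zeros_poles hord hfin
  set D := MeromorphicOn.divisor h (closedBall (0:ℂ) 1) with hD
  have hDnn : ∀ u, 0 ≤ D u := fun u => (MeromorphicOn.AnalyticOnNhd.divisor_nonneg hh) u
  refine ⟨hfin.toFinset, fun u => (D u).toNat, g, hg, fun z hz => hg0 ⟨z, hz⟩, ?_⟩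
  have hprod : (∏ᶠ u, (· - u) ^ (D u) : ℂ → ℂ) = fun z => ∏ u ∈ hfin.toFinset, (z - u) ^ (D u).toNat := by
    rw [Function.FactorizedRational.finprod_eq_fun hfin]
    ext z
    rw [finprod_eq_prod_of_mulSupport_subset (s := hfin.toFinset)]
    · refine Finset.prod_congr rfl fun u _ => ?_
      conv_lhs => rw [← Int.toNat_of_nonneg (hDnn u)]
      rw [zpow_natCast]
    · intro u
      contrapose
      intro hu
      simp only [Finite.coe_toFinset, Function.mem_support, ne_eq, not_not] at hu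
      simp [hu]
  rw [hprod] at hEq
  intro z hz
  have hacc : AccPt z (Filter.principal (closedBall (0:ℂ) 1)) := by
    have hnt : (closedBall (0:ℂ) 1).Nontrivial :=
      ⟨0, by simp, 1, by simp, by simp⟩
    exact hcon.isPreconnected.preperfect_of_nontrivial hnt z hz
  have ha1 : AnalyticAt ℂ h z := hh z hz
  have ha2 : AnalyticAt ℂ ((fun z => ∏ u ∈ hfin.toFinset, (z - u) ^ (D u).toNat) • g) z := by
    apply AnalyticAt.smul _ (hg z hz)
    fun_prop
  have := MeromorphicAt.eventuallyEq_nhdsNE_of_eventuallyEq_codiscreteWithin ha1.meromorphicAt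
    ha2.meromorphicAt hz hacc hEq
  have h3 := (ha1.continuousAt.eventuallyEq_nhds_iff_eventuallyEq_nhdsNE ha2.continuousAt).1 this
  simpa using h3.eq_of_nhds

theorem blaschke_decomp {h : ℂ → ℂ} {θ : ℝ} (hθ : 0 < θ) (hθ1 : θ < 1)
    (hh : AnalyticOnNhd ℂ h (closedBall 0 1)) (hb : ∀ z ∈ closedBall (0:ℂ) 1, ‖h z‖ ≤ 1)
    (hne : ∃ z ∈ closedBall (0:ℂ) 1, h z ≠ 0) :
    ∃ (s : Multiset ℂ) (g : ℂ → ℂ), (∀ a ∈ s, ‖a‖ ≤ θ) ∧ AnalyticOnNhd ℂ g (closedBall 0 1) ∧
      (∀ z ∈ closedBall (0:ℂ) 1, ‖g z‖ ≤ 1) ∧ (∀ z ∈ closedBall (0:ℂ) θ, g z ≠ 0) ∧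
      ∀ z ∈ closedBall (0:ℂ) 1,
        h z = (s.map (fun a => (z - a) / (1 - (starRingEnd ℂ) a * z))).prod * g z := by
  obtain ⟨S, n, g, hg, hg0, hE⟩ := BD_factor hh hne
  set S1 := S.filter (fun u => ‖u‖ ≤ θ) with hS1
  set S2 := S.filter (fun u => ¬ ‖u‖ ≤ θ) with hS2
  set G : ℂ → ℂ := fun z => (∏ u ∈ S1, (1 - (starRingEnd ℂ) u * z) ^ n u) *
    ((∏ u ∈ S2, (z - u) ^ n u) * g z) with hG
  have hne1 : ∀ u ∈ S1, ∀ z ∈ closedBall (0:ℂ) 1, 1 - (starRingEnd ℂ) u * z ≠ 0 := by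
    intro u hu z hz h0
    have hu' : ‖u‖ ≤ θ := (Finset.mem_filter.1 hu).2
    have h1 : (starRingEnd ℂ) u * z = 1 := (sub_eq_zero.1 h0).symm
    have h2 : ‖(starRingEnd ℂ) u * z‖ = 1 := by rw [h1]; simp
    rw [norm_mul, RCLike.norm_conj] at h2
    have hz' : ‖z‖ ≤ 1 := by simpa using hz
    nlinarith [norm_nonneg u, norm_nonneg z]
  have hGa : AnalyticOnNhd ℂ G (closedBall 0 1) := by
    intro z hz
    have := hg z hz
    simp only [hG]
    fun_prop
  have hfac : ∀ z ∈ closedBall (0:ℂ) 1, h z =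
      (∏ u ∈ S1, ((z - u) / (1 - (starRingEnd ℂ) u * z)) ^ n u) * G z := by
    intro z hz
    rw [hE z hz, ← Finset.prod_filter_mul_prod_filter_not S (fun u => ‖u‖ ≤ θ)]
    simp only [hG]
    rw [← mul_assoc (∏ u ∈ S1, ((z - u) / (1 - (starRingEnd ℂ) u * z)) ^ n u),
      ← Finset.prod_mul_distrib, mul_assoc]
    congr 1
    refine Finset.prod_congr rfl fun u hu => ?_
    rw [← mul_pow, div_mul_cancel₀ _ (hne1 u hu z hz)]
  refine ⟨S1.val.bind (fun u => Multiset.replicate (n u) u), G, ?_, hGa, ?_, ?_, ?_⟩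
  · intro a ha
    rw [Multiset.mem_bind] at ha
    obtain ⟨u, hu, hau⟩ := ha
    rw [Multiset.eq_of_mem_replicate hau]
    exact (Finset.mem_filter.1 (show u ∈ S1 from hu)).2
  · intro z hz
    have hfr : ∀ w ∈ frontier (ball (0:ℂ) 1), ‖G w‖ ≤ 1 := by
      intro w hw
      rw [frontier_ball (0:ℂ) one_ne_zero] at hw
      have hw1 : ‖w‖ = 1 := by simpa using hw
      have hwc : w ∈ closedBall (0:ℂ) 1 := sphere_subset_closedBall hw
      have h1 := hfac w hwc
      have h2 : ‖∏ u ∈ S1, ((w - u) / (1 - (starRingEnd ℂ) u * w)) ^ n u‖ = 1 := by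
        rw [norm_prod]
        refine Finset.prod_eq_one fun u hu => ?_
        rw [norm_pow, norm_div]
        have h3 : ‖w - u‖ = ‖1 - (starRingEnd ℂ) u * w‖ := by
          have h4 : w * (starRingEnd ℂ) w = 1 := by
            rw [Complex.mul_conj, Complex.normSq_eq_norm_sq, hw1]; norm_num
          have h5 : 1 - (starRingEnd ℂ) u * w = w * (starRingEnd ℂ) (w - u) := by
            rw [map_sub, mul_sub, h4]; ring
          rw [h5, norm_mul, hw1, one_mul, RCLike.norm_conj]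
        rw [h3, div_self (norm_ne_zero_iff.2 (hne1 u hu w hwc)), one_pow]
      have h6 : ‖h w‖ = ‖G w‖ := by rw [h1, norm_mul, h2, one_mul]
      rw [← h6]; exact hb w hwc
    refine Complex.norm_le_of_forall_mem_frontier_norm_le isBounded_ball ?_ hfr ?_
    · have hd : DifferentiableOn ℂ G (closedBall 0 1) := hGa.differentiableOn
      exact hd.diffContOnCl_ball subset_rfl
    · rw [closure_ball (0:ℂ) one_ne_zero]; exact hz
  · intro z hz
    have hz' : ‖z‖ ≤ θ := by simpa using hz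
    have hzc : z ∈ closedBall (0:ℂ) 1 := by simp; linarith
    refine mul_ne_zero (Finset.prod_ne_zero_iff.2 fun u hu => pow_ne_zero _ (hne1 u hu z hzc))
      (mul_ne_zero (Finset.prod_ne_zero_iff.2 fun u hu => pow_ne_zero _ ?_) (hg0 z hzc))
    intro h0
    have hu := (Finset.mem_filter.1 hu).2
    rw [sub_eq_zero] at h0
    rw [h0] at hz'
    exact hu hz'
  · intro z hz
    rw [hfac z hz, Multiset.map_bind, Multiset.prod_bind]
    congr 1
    simp only [Multiset.map_replicate, Multiset.prod_replicate]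
    rfl

end Muntz
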