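import Pool.Agent.Lib.MP_dde81e_an.TK2

/-! MP_dde81e_an, module GSH : superharmonicity and measurability of the averages (helper37) -/

namespace Muntz
open MeasureTheory Set Metric
open scoped ENNReal

theorem leaf_good {F : ℂ × ℂ → ℂ} (hF : GoodF F) {τ : ℝ} {β : ℂ} (hτ : 0 ≤ τ)
    (hβ : -1 < β.re) : AnalyticOnNhd ℂ (leaf F τ β) RH ∧ ∀ z ∈ RH, ‖leaf F τ β z‖ ≤ 1 := by
  have hre : ∀ z ∈ RH, -1 < z.re ∧ -1 < ((τ : ℂ) * z + β).re := by
    intro z hz
    have hz' : 0 ≤ z.re := hz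
    have e : ((τ : ℂ) * z + β).re = τ * z.re + β.re := by simp
    rw [e]
    constructor
    · linarith
    · have := mul_nonneg hτ hz'
      linarith
  constructor
  · have hopen : IsOpen {z : ℂ | -1 < z.re ∧ -1 < ((τ : ℂ) * z + β).re} := by
      apply IsOpen.inter
      · exact isOpen_lt continuous_const Complex.continuous_re
      · exact isOpen_lt continuous_const (Complex.continuous_re.comp (by fun_prop))
    have hd : DifferentiableOn ℂ (leaf F τ β)
        {z : ℂ | -1 < z.re ∧ -1 < ((τ : ℂ) * z + β).re} := by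
      have h1 : DifferentiableOn ℂ (fun z : ℂ => ((z, (τ : ℂ) * z + β) : ℂ × ℂ))
          {z : ℂ | -1 < z.re ∧ -1 < ((τ : ℂ) * z + β).re} :=
        (differentiable_id.prodMk (by fun_prop)).differentiableOn
      exact hF.diff.comp h1 (fun z hz => hz)
    exact (hd.analyticOnNhd hopen).mono hre
  · intro z hz
    exact hF.bound _ (hre z hz).1 (hre z hz).2

theorem GSH_meas {F : ℂ × ℂ → ℂ} (hF : GoodF F) (b : ℝ) :
    Measurable (fun p : ℂ × ℝ => nl (F (p.1, (p.2 : ℂ) * p.1 + (b : ℂ) * Complex.I))) := by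
  apply nl_continuous.measurable.comp
  apply hF.meas.comp
  apply Measurable.prodMk measurable_fst
  have : Measurable (fun p : ℂ × ℝ => (p.2 : ℂ)) := Complex.measurable_ofReal.comp measurable_snd
  exact (this.mul measurable_fst).add_const _

theorem GSH_core {F : ℂ × ℂ → ℂ} (hF : GoodF F) (μ : Measure ℝ) [SFinite μ]
    (hμ : ∀ᵐ t ∂μ, (0 : ℝ) ≤ t) (b : ℝ) :
    SH (fun ζ => ∫⁻ t : ℝ, nl (F (ζ, (t : ℂ) * ζ + (b : ℂ) * Complex.I)) ∂μ) ∧
      Measurable (fun ζ => ∫⁻ t : ℝ, nl (F (ζ, (t : ℂ) * ζ + (b : ℂ) * Complex.I)) ∂μ) := by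
  have hb : -1 < ((b : ℂ) * Complex.I).re := by simp
  refine ⟨⟨?_, ?_⟩, (GSH_meas hF b).lintegral_prod_right'⟩
  · intro ζ₀ hζ₀ y hy
    by_contra hcon
    rw [Filter.not_eventually] at hcon
    obtain ⟨s, hs, hsf⟩ := Filter.exists_seq_forall_of_frequently hcon
    have hs0 : Filter.Tendsto s Filter.atTop (nhds ζ₀) := tendsto_nhds_of_tendsto_nhdsWithin hs
    have hpt : ∀ᵐ t : ℝ ∂μ, nl (F (ζ₀, (t : ℂ) * ζ₀ + (b : ℂ) * Complex.I))
        = Filter.liminf (fun n => nl (F (s n, (t : ℂ) * s n + (b : ℂ) * Complex.I)))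
            Filter.atTop := by
      filter_upwards [hμ] with t ht
      have han := (leaf_good hF ht hb).1 ζ₀ hζ₀
      have hc : ContinuousAt (leaf F t ((b : ℂ) * Complex.I)) ζ₀ := han.continuousAt
      have := (nl_continuous.continuousAt.comp hc).tendsto.comp hs0
      exact (this.liminf_eq).symm
    have hf : (∫⁻ t : ℝ, nl (F (ζ₀, (t : ℂ) * ζ₀ + (b : ℂ) * Complex.I)) ∂μ)
        ≤ Filter.liminf (fun n => ∫⁻ t : ℝ, nl (F (s n, (t : ℂ) * s n + (b : ℂ) * Complex.I)) ∂μ)
            Filter.atTop := by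
      rw [lintegral_congr_ae hpt]
      apply lintegral_liminf_le
      intro n
      exact (GSH_meas hF b).comp (measurable_const.prodMk measurable_id)
    have hle : Filter.liminf (fun n => ∫⁻ t : ℝ, nl (F (s n, (t : ℂ) * s n + (b : ℂ) * Complex.I)) ∂μ)
        Filter.atTop ≤ y := by
      apply Filter.liminf_le_of_le
      · isBoundedDefault
      · intro z hz
        obtain ⟨n, hn⟩ := hz.exists
        exact hn.trans (not_lt.1 (hsf n))
    exact absurd (hf.trans hle) (not_le.2 hy)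
  · intro c r hr hrc
    have hsub : closedBall c r ⊆ RH := by
      intro z hz
      have h1 : |z.re - c.re| ≤ r := by
        have h2 : ‖z - c‖ ≤ r := by simpa [dist_eq_norm] using hz
        have h3 := Complex.abs_re_le_norm (z - c)
        simp only [Complex.sub_re] at h3
        exact h3.trans h2
      have h4 := (abs_le.1 h1).1
      show 0 ≤ z.re
      linarith
    have hmc : Measurable (fun p : ℝ × ℝ => nl (F (circleMap c r p.1,
        (p.2 : ℂ) * circleMap c r p.1 + (b : ℂ) * Complex.I))) := by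
      have h1 : Measurable (fun p : ℝ × ℝ => ((circleMap c r p.1, p.2) : ℂ × ℝ)) :=
        ((continuous_circleMap c r).measurable.comp measurable_fst).prodMk measurable_snd
      exact (GSH_meas hF b).comp h1
    have hswap : (∫⁻ θ in Ioc (0 : ℝ) (2 * Real.pi), ∫⁻ t : ℝ, nl (F (circleMap c r θ,
          (t : ℂ) * circleMap c r θ + (b : ℂ) * Complex.I)) ∂μ)
        = ∫⁻ t : ℝ, ∫⁻ θ in Ioc (0 : ℝ) (2 * Real.pi), (nl (F (circleMap c r θ,
          (t : ℂ) * circleMap c r θ + (b : ℂ) * Complex.I))) ∂volume ∂μ :=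
      lintegral_lintegral_swap (f := fun θ t : ℝ => nl (F (circleMap c r θ,
          (t : ℂ) * circleMap c r θ + (b : ℂ) * Complex.I))) hmc.aemeasurable
    show ENNReal.ofReal (1 / (2 * Real.pi)) * (∫⁻ θ in Ioc (0 : ℝ) (2 * Real.pi), ∫⁻ t : ℝ,
      nl (F (circleMap c r θ, (t : ℂ) * circleMap c r θ + (b : ℂ) * Complex.I)) ∂μ)
      ≤ ∫⁻ t : ℝ, nl (F (c, (t : ℂ) * c + (b : ℂ) * Complex.I)) ∂μ
    rw [hswap, ← lintegral_const_mul]
    · apply lintegral_mono_ae
      filter_upwards [hμ] with t ht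
      have hg := leaf_good hF ht hb
      exact cav_le_center (h := leaf F t ((b : ℂ) * Complex.I)) (hg.1.mono hsub)
        (fun z hz => hg.2 z (hsub hz)) hr.le
    · exact (hmc.comp measurable_swap).lintegral_prod_right'

theorem G_SH {F : ℂ × ℂ → ℂ} {A B : ℝ} {w : ℝ → ℝ} (hF : GoodF F) (hA : 0 < A) (hAB : A ≤ B)
    (hw : Wt A B w) (b : ℝ) : SH (G F w b) ∧ Measurable (G F w b) := by
  have hwm : Measurable (fun t : ℝ => ENNReal.ofReal (w t)) :=
    (hw.smooth.continuous.measurable).ennreal_ofReal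
  have hμ : ∀ᵐ t ∂((volume : Measure ℝ).withDensity fun t => ENNReal.ofReal (w t)), (0 : ℝ) ≤ t := by
    rw [ae_withDensity_iff hwm]
    filter_upwards with t ht
    by_contra h
    apply ht
    have : w t = 0 := by
      apply hw.supp
      intro hmem
      have := hmem.1
      have h' := not_le.1 h
      linarith
    simp [this]
  have hG : G F w b = fun ζ => ∫⁻ t : ℝ, nl (F (ζ, (t : ℂ) * ζ + (b : ℂ) * Complex.I))
      ∂((volume : Measure ℝ).withDensity fun t => ENNReal.ofReal (w t)) := by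
    funext ζ
    have hm : Measurable (fun t : ℝ => nl (F (ζ, (t : ℂ) * ζ + (b : ℂ) * Complex.I))) :=
      (GSH_meas hF b).comp (measurable_const.prodMk measurable_id)
    exact (lintegral_withDensity_eq_lintegral_mul volume hwm hm).symm
  rw [hG]
  exact GSH_core hF _ hμ b

theorem G2_SH {F : ℂ × ℂ → ℂ} {A B : ℝ} (hF : GoodF F) (hA : 0 < A) (hAB : A ≤ B) :
    SH (G2 F A B) ∧ Measurable (G2 F A B) := by
  have hμ : ∀ᵐ t ∂((volume : Measure ℝ).restrict (Icc (A / 4) (4 * B))), (0 : ℝ) ≤ t := by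
    rw [ae_restrict_iff' measurableSet_Icc]
    filter_upwards with t ht
    have := ht.1
    linarith
  have hG : G2 F A B = fun ζ => ∫⁻ t : ℝ, nl (F (ζ, (t : ℂ) * ζ + ((0 : ℝ) : ℂ) * Complex.I))
      ∂((volume : Measure ℝ).restrict (Icc (A / 4) (4 * B))) := by
    funext ζ
    simp [G2]
  rw [hG]
  exact GSH_core hF _ hμ 0

end Muntz
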