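import Pool.Agent.Lib.MP_dde81e_an.TK2
import Pool.Agent.Lib.MP_dde81e_an.MP

/-! MP_dde81e_an, module SHM : monotonicity of `af`, interior bound, closure properties -/

namespace Muntz
open MeasureTheory Set Metric
open scoped ENNReal

theorem SHM_circleAverage_re (a : ℝ) (z : ℂ) (r : ℝ) :
    Real.circleAverage (fun w : ℂ => a * w.re) z r = a * z.re := by
  have h5 : Real.circleAverage (fun w => Real.log ‖Complex.exp w‖) z r
      = Real.log ‖Complex.exp z‖ := by
    refine AnalyticOnNhd.circleAverage_log_norm_of_ne_zero ?_ ?_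
    · exact fun w _ => by fun_prop
    · exact fun w _ => Complex.exp_ne_zero w
  have h6 : Real.circleAverage (fun w : ℂ => a * w.re) z r
      = a * Real.circleAverage (fun w : ℂ => w.re) z r :=
    Real.circleAverage_fun_smul (a := a) (f := fun w : ℂ => w.re)
  have h7 : (fun w : ℂ => Real.log ‖Complex.exp w‖) = fun w : ℂ => w.re := by
    funext w
    rw [Complex.norm_exp, Real.log_exp]
  rw [h7] at h5
  rw [h6, h5, Complex.norm_exp, Real.log_exp]

theorem SHM_af_mul_le {u : ℂ → ℝ≥0∞} {ζ : ℂ} (hζ : 0 < ζ.re) :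
    af u ‖ζ‖ * ENNReal.ofReal ζ.re ≤ u ζ := by
  have h1 : af u ‖ζ‖ ≤ u ζ / ENNReal.ofReal ζ.re := by
    unfold af
    exact iInf₂_le ζ ⟨rfl, hζ⟩
  exact ENNReal.mul_le_of_le_div h1

theorem af_interior {u : ℂ → ℝ≥0∞} (hu : SH u) {ρ : ℝ} {ζ : ℂ} (hζ : 0 < ζ.re)
    (hρ : ‖ζ‖ ≤ ρ) : af u ρ * ENNReal.ofReal ζ.re ≤ u ζ := by
  rcases hρ.eq_or_lt with heq | hlt
  · rw [← heq]
    exact SHM_af_mul_le hζ
  have hpos : ENNReal.ofReal ζ.re ≠ 0 := by
    rw [Ne, ENNReal.ofReal_eq_zero, not_le]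
    exact hζ
  rw [← ENNReal.le_div_iff_mul_le (Or.inl hpos) (Or.inl ENNReal.ofReal_ne_top)]
  refine le_of_forall_lt fun c hc => ?_
  obtain ⟨d, hcd, hd⟩ := exists_between hc
  refine lt_of_lt_of_le hcd ?_
  rw [ENNReal.le_div_iff_mul_le (Or.inl hpos) (Or.inl ENNReal.ofReal_ne_top)]
  have hdt : d ≠ ⊤ := ne_top_of_lt hd
  set a : ℝ := d.toReal with ha
  have ha0 : 0 ≤ a := ENNReal.toReal_nonneg
  have hda : d = ENNReal.ofReal a := (ENNReal.ofReal_toReal hdt).symm
  set Ω : Set ℂ := {z | 0 < z.re ∧ ‖z‖ < ρ} with hΩdef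
  have hΩo : IsOpen Ω := by
    have i1 : IsOpen {z : ℂ | 0 < z.re} := isOpen_lt continuous_const Complex.continuous_re
    have i2 : IsOpen {z : ℂ | ‖z‖ < ρ} := isOpen_lt continuous_norm continuous_const
    exact i1.inter i2
  have hΩb : Bornology.IsBounded Ω := by
    refine (Metric.isBounded_closedBall (x := (0 : ℂ)) (r := ρ)).subset ?_
    intro z hz
    rw [mem_closedBall_zero_iff]
    exact hz.2.le
  have hΩc : closure Ω ⊆ {z | 0 ≤ z.re ∧ ‖z‖ ≤ ρ} := by
    refine closure_minimal ?_ ?_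
    · intro z hz
      exact ⟨hz.1.le, hz.2.le⟩
    · have i1 : IsClosed {z : ℂ | 0 ≤ z.re} := isClosed_le continuous_const Complex.continuous_re
      have i2 : IsClosed {z : ℂ | ‖z‖ ≤ ρ} := isClosed_le continuous_norm continuous_const
      exact i1.inter i2
  have hRH : closure Ω ⊆ RH := fun z hz => (hΩc hz).1
  have key := min_principle (Ω := Ω) (u := u) (v := fun z => a * z.re) hΩo hΩb
    (hu.lsc.mono hRH) ?_ ?_ ?_ ?_ ζ ⟨hζ, hlt⟩
  · calc d * ENNReal.ofReal ζ.re = ENNReal.ofReal (a * ζ.re) := by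
          rw [hda, ENNReal.ofReal_mul ha0]
      _ ≤ u ζ := key
  · intro z r hr hball
    refine hu.mean z r hr ?_
    have h1 : z - r ∈ closedBall z r := by
      rw [mem_closedBall, dist_eq_norm]
      simp [abs_of_pos hr]
    have h2 := (hball h1).1
    simp at h2
    linarith
  · exact (Continuous.continuousOn (by fun_prop))
  · intro z r hr _
    rw [SHM_circleAverage_re a z r]
  · intro z hz
    have hzc : z ∈ closure Ω := hz.1
    have hzn : z ∉ Ω := by
      have := hz.2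
      rwa [hΩo.interior_eq] at this
    obtain ⟨c1, c2⟩ := hΩc hzc
    by_cases d1 : z.re = 0
    · simp [d1]
    have d2 : 0 < z.re := lt_of_le_of_ne c1 (Ne.symm d1)
    have d3 : ‖z‖ = ρ := by
      by_contra hcon
      exact hzn ⟨d2, lt_of_le_of_ne c2 hcon⟩
    calc ENNReal.ofReal (a * z.re) = d * ENNReal.ofReal z.re := by
          rw [hda, ENNReal.ofReal_mul ha0]
      _ ≤ af u ‖z‖ * ENNReal.ofReal z.re := by
          rw [d3]
          gcongr
      _ ≤ u z := SHM_af_mul_le d2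

theorem af_anti {u : ℂ → ℝ≥0∞} (hu : SH u) {ρ ρ' : ℝ} (h0 : 0 < ρ) (h : ρ ≤ ρ') :
    af u ρ' ≤ af u ρ := by
  have _ := h0
  conv_rhs => unfold af
  refine le_iInf₂ fun ζ hζ => ?_
  have hpos : ENNReal.ofReal ζ.re ≠ 0 := by
    rw [Ne, ENNReal.ofReal_eq_zero, not_le]
    exact hζ.2
  rw [ENNReal.le_div_iff_mul_le (Or.inl hpos) (Or.inl ENNReal.ofReal_ne_top)]
  exact af_interior hu hζ.2 (hζ.1.trans_le h)

theorem SH_nl {h : ℂ → ℂ} (hh : AnalyticOnNhd ℂ h RH) (hb : ∀ z ∈ RH, ‖h z‖ ≤ 1) :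
    SH (fun z => nl (h z)) := by
  refine ⟨?_, ?_⟩
  · refine ContinuousOn.lowerSemicontinuousOn ?_
    exact nl_continuous.comp_continuousOn hh.continuousOn
  · intro c r hr hrc
    have hsub : closedBall c r ⊆ RH := by
      intro w hw
      rw [mem_closedBall, dist_eq_norm] at hw
      have h1 := Complex.abs_re_le_norm (w - c)
      have h2 := (abs_le.1 (h1.trans hw)).1
      simp at h2
      show 0 ≤ w.re
      linarith
    exact cav_le_center (hh.mono hsub) (fun z hz => hb z (hsub hz)) hr.le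

theorem SH_add_smul {u v : ℂ → ℝ≥0∞} (hu : SH u) (hv : SH v) (hum : Measurable u) (c : ℝ) :
    SH (fun z => u z + ENNReal.ofReal c * v z) := by
  refine ⟨?_, ?_⟩
  · refine LowerSemicontinuousOn.add hu.lsc ?_
    exact (ENNReal.continuous_const_mul ENNReal.ofReal_ne_top).comp_lowerSemicontinuousOn hv.lsc
      (fun a b hab => mul_le_mul_right hab _)
  · intro z r hr hrz
    have h1 : cav (fun z => u z + ENNReal.ofReal c * v z) z r
        = cav u z r + ENNReal.ofReal c * cav v z r := by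
      unfold cav
      have hm : Measurable fun θ : ℝ => u (circleMap z r θ) :=
        hum.comp (measurable_circleMap z r)
      simp only []
      rw [lintegral_add_left hm, lintegral_const_mul' _ _ ENNReal.ofReal_ne_top]
      ring
    rw [h1]
    exact add_le_add (hu.mean z r hr hrz) (mul_le_mul_right (hv.mean z r hr hrz) _)

end Muntz
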