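import Pool.Agent.Lib.MP_dde81e_an.SEG
import Pool.Agent.Lib.MP_dde81e_an.SHM
import Pool.Agent.Lib.MP_dde81e_an.GSH

/-! MP_dde81e_an, module FIN : finiteness -/

namespace Muntz
open MeasureTheory Set Metric
open scoped ENNReal

theorem FIN_af_le {u : ℂ → ℝ≥0∞} (hu : SH u) {x ρ : ℝ} (hx : 0 < x) (h : x ≤ ρ) :
    af u ρ ≤ (ENNReal.ofReal x)⁻¹ * u (x : ℂ) := by
  refine (af_anti hu hx h).trans ?_
  unfold af
  have hc : ‖(x : ℂ)‖ = x ∧ 0 < (x : ℂ).re := by
    refine ⟨?_, ?_⟩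
    · rw [Complex.norm_real, Real.norm_eq_abs, abs_of_pos hx]
    · rw [Complex.ofReal_re]
      exact hx
  refine (iInf₂_le (x : ℂ) hc).trans ?_
  rw [Complex.ofReal_re, ENNReal.div_eq_inv_mul]

/-- uniform bound for the integral over slopes. -/
theorem FIN_slope {F : ℂ × ℂ → ℂ} (hF : GoodF F) {A B x y : ℝ} (hA : 0 < A) (hAB : A ≤ B)
    (hx : 0 < x) (hy : 0 ≤ y) (hne : F ((x : ℂ), (y : ℂ)) ≠ 0) :
    ∃ M : ℝ≥0∞, M ≠ ⊤ ∧ ∀ β ∈ closedBall (0 : ℂ) (1 / 2),
      ∫⁻ τ in Icc (A / 4) (4 * B), nl (F ((x : ℂ), (τ : ℂ) * (x : ℂ) + β)) ≤ M := by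
  have hB : 0 < B := lt_of_lt_of_le hA hAB
  set N : ℝ := y + 4 * B * x + 1 with hN
  have hN1 : 1 ≤ N := by
    have : 0 < 4 * B * x := by positivity
    linarith
  set θ : ℝ := (N + 5 / 8) / (N + 3 / 4) with hθ
  have hθ0 : 0 < θ := by positivity
  have hθ1 : θ < 1 := by
    rw [hθ, div_lt_one (by linarith)]
    linarith
  have hθN : θ * (N + 3 / 4) = N + 5 / 8 := by
    rw [hθ]
    field_simp
  obtain ⟨C, hC, hseg⟩ := seg θ hθ0 hθ1
  refine ⟨ENNReal.ofReal (C * ((N + 3 / 4) / x)) * nl (F ((x : ℂ), (y : ℂ))),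
    ENNReal.mul_ne_top ENNReal.ofReal_ne_top (nl_ne_top hne), ?_⟩
  intro β hβ
  rw [mem_closedBall_zero_iff] at hβ
  have hxc : (x : ℂ) ≠ 0 := by exact_mod_cast hx.ne'
  have hscale : ∀ (z : ℂ) (s : ℝ), z ∈ closedBall (((N : ℂ) - β) / x) (s / x) ↔
      ‖z * x + β - N‖ ≤ s := by
    intro z s
    have e : z - ((N : ℂ) - β) / x = (z * x + β - N) / x := by
      field_simp
      ring
    rw [mem_closedBall, dist_eq_norm, e, norm_div, Complex.norm_real, Real.norm_eq_abs,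
      abs_of_pos hx, div_le_div_iff_of_pos_right hx]
  have hre : ∀ z ∈ closedBall (((N : ℂ) - β) / x) ((N + 3 / 4) / x),
      -1 < (z * x + β).re := by
    intro z hz
    rw [hscale] at hz
    have h1 := (abs_le.1 ((Complex.abs_re_le_norm (z * x + β - N)).trans hz)).1
    have h2 : (z * x + β - N).re = (z * x + β).re - N := by simp
    rw [h2] at h1
    linarith
  have key := hseg (((N : ℂ) - β) / x) ((N + 3 / 4) / x)
    (fun z => F ((x : ℂ), z * (x : ℂ) + β)) (((y : ℂ) - β) / x) (A / 4) (4 * B) 0 (by positivity)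
    ?_ ?_ ?_ (by linarith) ?_
  · have e1 : ((y : ℂ) - β) / x * x + β = y := by
      field_simp
      ring
    simp only [e1] at key
    simpa using key
  · intro z hz
    have hopen : IsOpen {p : ℂ × ℂ | -1 < p.1.re ∧ -1 < p.2.re} := by
      have i1 : IsOpen {p : ℂ × ℂ | -1 < p.1.re} := isOpen_lt continuous_const (by fun_prop)
      have i2 : IsOpen {p : ℂ × ℂ | -1 < p.2.re} := isOpen_lt continuous_const (by fun_prop)
      exact i1.inter i2
    have hopen2 : IsOpen {z : ℂ | -1 < (z * x + β).re} :=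
      isOpen_lt continuous_const (by fun_prop)
    have hd : DifferentiableOn ℂ (fun z : ℂ => F ((x : ℂ), z * (x : ℂ) + β))
        {z : ℂ | -1 < (z * x + β).re} := by
      intro w hw
      have hp : ((x : ℂ), w * (x : ℂ) + β) ∈ {p : ℂ × ℂ | -1 < p.1.re ∧ -1 < p.2.re} :=
        ⟨by simp; linarith, hw⟩
      have h1 : DifferentiableAt ℂ F ((x : ℂ), w * (x : ℂ) + β) :=
        (hF.diff _ hp).differentiableAt (hopen.mem_nhds hp)
      have h2 : DifferentiableAt ℂ (fun z : ℂ => ((x : ℂ), z * (x : ℂ) + β)) w := by fun_prop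
      exact (DifferentiableAt.comp w (f := fun z : ℂ => ((x : ℂ), z * (x : ℂ) + β)) h1
        h2).differentiableWithinAt
    exact hd.analyticOnNhd hopen2 z (hre z hz)
  · intro z hz
    exact hF.bound _ (by simp; linarith) (hre z hz)
  · rw [← mul_div_assoc, hθN, hscale]
    have e1 : ((y : ℂ) - β) / x * x + β - N = ((y - N : ℝ) : ℂ) := by
      push_cast
      field_simp
      ring
    rw [e1, Complex.norm_real, Real.norm_eq_abs, abs_le]
    constructor
    · linarith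
    · have : 0 < 4 * B * x := by positivity
      linarith
  · intro τ hτ
    rw [← mul_div_assoc, hθN, hscale]
    have e1 : ((τ : ℂ) + ((0 : ℝ) : ℂ) * Complex.I) * x + β - N
        = ((τ * x - N : ℝ) : ℂ) + β := by
      push_cast
      ring
    rw [e1]
    have h0 : 0 < τ := lt_of_lt_of_le (by positivity) hτ.1
    have h1 : 0 < τ * x := by positivity
    have h2 : τ * x ≤ 4 * B * x := by
      have := hτ.2
      gcongr
    have hne1 : |τ * x - N| ≤ N := by
      rw [abs_le]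
      constructor <;> linarith
    calc ‖((τ * x - N : ℝ) : ℂ) + β‖ ≤ ‖((τ * x - N : ℝ) : ℂ)‖ + ‖β‖ := norm_add_le _ _
      _ ≤ N + 1 / 2 := by
          rw [Complex.norm_real, Real.norm_eq_abs]
          linarith
      _ ≤ N + 5 / 8 := by linarith

theorem fin {F : ℂ × ℂ → ℂ} (hF : GoodF F) {A B : ℝ} {w : ℝ → ℝ} (hA : 0 < A) (hAB : A ≤ B)
    (hw : Wt A B w) : ∃ ρ₀ : ℝ, 0 < ρ₀ ∧ ∀ ρ, ρ₀ ≤ ρ →
      (∫⁻ τ in Icc (A / 4) (4 * B), ∫⁻ β in closedBall (0 : ℂ) (1 / 2),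
        af (fun z => nl (leaf F τ β z)) ρ) < ⊤ ∧
      (∫⁻ τ in Icc (A / 4) (4 * B), af (fun z => nl (leaf F τ 0 z)) ρ) < ⊤ ∧
      af (G F w 0) ρ < ⊤ := by
  obtain ⟨x, y, hx, hy, hne⟩ := hF.ne
  have hB : 0 < B := lt_of_lt_of_le hA hAB
  obtain ⟨M, hM, hslope⟩ := FIN_slope hF hA hAB hx hy hne
  have hxi : (ENNReal.ofReal x)⁻¹ ≠ ⊤ := by
    rw [ENNReal.inv_ne_top, Ne, ENNReal.ofReal_eq_zero, not_le]
    exact hx
  have hleaf : ∀ τ ∈ Icc (A / 4) (4 * B), ∀ β ∈ closedBall (0 : ℂ) (1 / 2), ∀ ρ, x ≤ ρ →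
      af (fun z => nl (leaf F τ β z)) ρ
        ≤ (ENNReal.ofReal x)⁻¹ * nl (F ((x : ℂ), (τ : ℂ) * (x : ℂ) + β)) := by
    intro τ hτ β hβ ρ hρ
    have hτ0 : 0 ≤ τ := le_trans (by positivity) hτ.1
    have hβre : -1 < β.re := by
      rw [mem_closedBall_zero_iff] at hβ
      have := (abs_le.1 ((Complex.abs_re_le_norm β).trans hβ)).1
      linarith
    obtain ⟨h1, h2⟩ := leaf_good hF hτ0 hβre
    exact FIN_af_le (SH_nl h1 h2) hx hρ
  have h0mem : (0 : ℂ) ∈ closedBall (0 : ℂ) (1 / 2) := by simp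
  have hmeas : Measurable fun p : ℝ × ℂ => nl (F ((x : ℂ), (p.1 : ℂ) * (x : ℂ) + p.2)) := by
    refine nl_continuous.measurable.comp (hF.meas.comp ?_)
    fun_prop
  refine ⟨x, hx, fun ρ hρ => ⟨?_, ?_, ?_⟩⟩
  · calc (∫⁻ τ in Icc (A / 4) (4 * B), ∫⁻ β in closedBall (0 : ℂ) (1 / 2),
        af (fun z => nl (leaf F τ β z)) ρ)
        ≤ ∫⁻ τ in Icc (A / 4) (4 * B), ∫⁻ β in closedBall (0 : ℂ) (1 / 2),
          (ENNReal.ofReal x)⁻¹ * nl (F ((x : ℂ), (τ : ℂ) * (x : ℂ) + β)) := by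
          refine setLIntegral_mono' measurableSet_Icc fun τ hτ => ?_
          refine setLIntegral_mono' measurableSet_closedBall fun β hβ => ?_
          exact hleaf τ hτ β hβ ρ hρ
      _ = (ENNReal.ofReal x)⁻¹ * ∫⁻ τ in Icc (A / 4) (4 * B),
          ∫⁻ β in closedBall (0 : ℂ) (1 / 2), nl (F ((x : ℂ), (τ : ℂ) * (x : ℂ) + β)) := by
          rw [← lintegral_const_mul' _ _ hxi]
          refine lintegral_congr fun τ => ?_
          rw [lintegral_const_mul' _ _ hxi]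
      _ = (ENNReal.ofReal x)⁻¹ * ∫⁻ β in closedBall (0 : ℂ) (1 / 2),
          ∫⁻ τ in Icc (A / 4) (4 * B), nl (F ((x : ℂ), (τ : ℂ) * (x : ℂ) + β)) := by
          rw [lintegral_lintegral_swap]
          exact hmeas.aemeasurable
      _ ≤ (ENNReal.ofReal x)⁻¹ * ∫⁻ _ in closedBall (0 : ℂ) (1 / 2), M := by
          refine mul_le_mul_right ?_ _
          exact setLIntegral_mono' measurableSet_closedBall fun β hβ => hslope β hβ
      _ < ⊤ := by
          rw [setLIntegral_const]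
          refine ENNReal.mul_lt_top hxi.lt_top (ENNReal.mul_lt_top hM.lt_top ?_)
          exact measure_closedBall_lt_top
  · calc (∫⁻ τ in Icc (A / 4) (4 * B), af (fun z => nl (leaf F τ 0 z)) ρ)
        ≤ ∫⁻ τ in Icc (A / 4) (4 * B),
          (ENNReal.ofReal x)⁻¹ * nl (F ((x : ℂ), (τ : ℂ) * (x : ℂ) + 0)) := by
          refine setLIntegral_mono' measurableSet_Icc fun τ hτ => ?_
          exact hleaf τ hτ 0 h0mem ρ hρ
      _ = (ENNReal.ofReal x)⁻¹ * ∫⁻ τ in Icc (A / 4) (4 * B),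
          nl (F ((x : ℂ), (τ : ℂ) * (x : ℂ) + 0)) := lintegral_const_mul' _ _ hxi
      _ ≤ (ENNReal.ofReal x)⁻¹ * M := mul_le_mul_right (hslope 0 h0mem) _
      _ < ⊤ := ENNReal.mul_lt_top hxi.lt_top hM.lt_top
  · calc af (G F w 0) ρ ≤ (ENNReal.ofReal x)⁻¹ * G F w 0 (x : ℂ) :=
          FIN_af_le (G_SH hF hA hAB hw 0).1 hx hρ
      _ ≤ (ENNReal.ofReal x)⁻¹ * ∫⁻ τ in Icc (A / 4) (4 * B),
          nl (F ((x : ℂ), (τ : ℂ) * (x : ℂ) + 0)) := by
          refine mul_le_mul_right ?_ _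
          unfold G
          rw [← lintegral_indicator measurableSet_Icc]
          refine lintegral_mono fun t => ?_
          by_cases ht : t ∈ Icc (A / 4) (4 * B)
          · rw [indicator_of_mem ht]
            simp only [Complex.ofReal_zero, zero_mul]
            calc ENNReal.ofReal (w t) * nl (F ((x : ℂ), (t : ℂ) * (x : ℂ) + 0))
                ≤ 1 * nl (F ((x : ℂ), (t : ℂ) * (x : ℂ) + 0)) := by
                  refine mul_le_mul_left ?_ _
                  rw [← ENNReal.ofReal_one]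
                  exact ENNReal.ofReal_le_ofReal (hw.le_one t)
              _ = _ := one_mul _
          · rw [indicator_of_notMem ht]
            have ht2 : t ∉ Icc (A / 2) (2 * B) := by
              intro h
              exact ht ⟨by linarith [h.1], by linarith [h.2]⟩
            rw [hw.supp t ht2]
            simp
      _ ≤ (ENNReal.ofReal x)⁻¹ * M := mul_le_mul_right (hslope 0 h0mem) _
      _ < ⊤ := ENNReal.mul_lt_top hxi.lt_top hM.lt_top

end Muntz
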