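import Pool.Agent.Lib.MP_dde81e_an.SEG
import Pool.Agent.Lib.MP_dde81e_an.SHM
import Pool.Agent.Lib.MP_dde81e_an.BAR

/-! MP_dde81e_an, module LEAF : one leaf -/

namespace Muntz
open MeasureTheory Set Metric
open scoped ENNReal

/-- the function `h` multiplied by `e^{a z}` -/
noncomputable def LEAF_tw (h : ℂ → ℂ) (a : ℝ) (z : ℂ) : ℂ := h z * Complex.exp ((a : ℂ) * z)

theorem LEAF_re (a : ℝ) (z : ℂ) : ((a : ℂ) * z).re = a * z.re := by simp

theorem LEAF_an {h : ℂ → ℂ} {a : ℝ} (hh : AnalyticOnNhd ℂ h RH) :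
    AnalyticOnNhd ℂ (LEAF_tw h a) RH := by
  intro z hz
  exact (hh z hz).mul ((analyticAt_const.mul analyticAt_id).cexp)

theorem LEAF_bound {h : ℂ → ℂ} {R a : ℝ} (hh : AnalyticOnNhd ℂ h RH)
    (hb : ∀ ζ ∈ RH, ‖h ζ‖ ≤ 1) (ha : 0 ≤ a)
    (haf : ENNReal.ofReal a ≤ af (fun z => nl (h z)) (64 * R)) :
    ∀ ζ ∈ RH, ‖ζ‖ ≤ 64 * R → ‖LEAF_tw h a ζ‖ ≤ 1 := by
  intro ζ hζ hζR
  have hζ' : 0 ≤ ζ.re := hζ
  unfold LEAF_tw
  rw [norm_mul, Complex.norm_exp, LEAF_re]
  rcases hζ'.eq_or_lt with h0 | h0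
  · rw [← h0, mul_zero, Real.exp_zero, mul_one]
    exact hb ζ hζ
  · have h1 := af_interior (SH_nl hh hb) h0 hζR
    have h2 : ENNReal.ofReal (a * ζ.re) ≤ nl (h ζ) := by
      rw [ENNReal.ofReal_mul ha]
      exact (mul_le_mul_left haf _).trans h1
    by_cases hz : h ζ = 0
    · rw [hz, norm_zero, zero_mul]; norm_num
    · have hpos : 0 < ‖h ζ‖ := norm_pos_iff.2 hz
      unfold nl at h2
      rw [if_neg hz] at h2
      have hlog : 0 ≤ -Real.log ‖h ζ‖ := by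
        have := Real.log_nonpos hpos.le (hb ζ hζ)
        linarith
      have h3 : a * ζ.re ≤ -Real.log ‖h ζ‖ := (ENNReal.ofReal_le_ofReal_iff hlog).1 h2
      have h4 : ‖h ζ‖ = Real.exp (Real.log ‖h ζ‖) := (Real.exp_log hpos).symm
      rw [h4, ← Real.exp_add]
      apply Real.exp_le_one_iff.2
      linarith

theorem LEAF_nl {h : ℂ → ℂ} {R a : ℝ} (hh : AnalyticOnNhd ℂ h RH)
    (hb : ∀ ζ ∈ RH, ‖h ζ‖ ≤ 1) (ha : 0 ≤ a)
    (haf : ENNReal.ofReal a ≤ af (fun z => nl (h z)) (64 * R)) {ζ : ℂ} (hζ : ζ ∈ RH)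
    (hζR : ‖ζ‖ ≤ 64 * R) :
    nl (h ζ) = nl (LEAF_tw h a ζ) + ENNReal.ofReal (a * ζ.re) := by
  have h1 := LEAF_bound hh hb ha haf ζ hζ hζR
  have h2 : 0 ≤ ((a : ℂ) * ζ).re := by
    rw [LEAF_re]; exact mul_nonneg ha hζ
  have := nl_exp (h := h ζ) (z := (a : ℂ) * ζ) h2 h1
  rw [LEAF_re] at this
  exact this

/-- from a lower bound on the small disc to the bound of `af` -/
theorem LEAF_final {c : ℝ} (hc : 0 < c) {h : ℂ → ℂ} {R a : ℝ} {m : ℝ≥0∞} (hR : 0 < R)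
    (hh : AnalyticOnNhd ℂ h RH)
    (hb : ∀ ζ ∈ RH, ‖h ζ‖ ≤ 1) (ha : 0 ≤ a)
    (haf : ENNReal.ofReal a ≤ af (fun z => nl (h z)) (64 * R))
    (hm : ∀ ζ : ℂ, 0 < ζ.re → ‖ζ‖ = R / 8 →
      ENNReal.ofReal (c * (ζ.re / R)) * m ≤ nl (LEAF_tw h a ζ)) :
    m ≤ ENNReal.ofReal (R / c) * (af (fun z => nl (h z)) (R / 8) - ENNReal.ofReal a) := by
  have key : ENNReal.ofReal (c / R) * m + ENNReal.ofReal a ≤ af (fun z => nl (h z)) (R / 8) := by
    unfold af
    refine le_iInf fun ζ => le_iInf fun hζ => ?_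
    obtain ⟨hn, hre⟩ := hζ
    have hζRH : ζ ∈ RH := hre.le
    have hnorm : ‖ζ‖ ≤ 64 * R := by rw [hn]; linarith
    have hpos : ENNReal.ofReal ζ.re ≠ 0 := by
      rw [ne_eq, ENNReal.ofReal_eq_zero]; linarith
    rw [ENNReal.le_div_iff_mul_le (Or.inl hpos) (Or.inl ENNReal.ofReal_ne_top), add_mul]
    show _ ≤ nl (h ζ)
    rw [LEAF_nl hh hb ha haf hζRH hnorm, ← ENNReal.ofReal_mul ha]
    apply add_le_add _ le_rfl
    have h1 := hm ζ hre hn
    have e : c * (ζ.re / R) = (c / R) * ζ.re := by ring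
    rw [e, ENNReal.ofReal_mul (by positivity)] at h1
    calc ENNReal.ofReal (c / R) * m * ENNReal.ofReal ζ.re
        = ENNReal.ofReal (c / R) * ENNReal.ofReal ζ.re * m := by ring
      _ ≤ _ := h1
  have key2 : ENNReal.ofReal (c / R) * m ≤
      af (fun z => nl (h z)) (R / 8) - ENNReal.ofReal a :=
    ENNReal.le_sub_of_add_le_right ENNReal.ofReal_ne_top key
  calc m = ENNReal.ofReal (R / c) * (ENNReal.ofReal (c / R) * m) := by
        rw [← mul_assoc, ← ENNReal.ofReal_mul (by positivity)]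
        have : R / c * (c / R) = 1 := by field_simp
        rw [this, ENNReal.ofReal_one, one_mul]
    _ ≤ _ := mul_le_mul_right key2 _

theorem LEAF_ball_RH {R r : ℝ} (hr : r ≤ 4 * R) : closedBall ((4 * R : ℝ) : ℂ) r ⊆ RH := by
  intro z hz
  rw [mem_closedBall, dist_eq_norm] at hz
  have h1 := Complex.abs_re_le_norm (z - ((4 * R : ℝ) : ℂ))
  rw [Complex.sub_re, Complex.ofReal_re] at h1
  have h2 := (abs_le.1 (h1.trans hz)).1
  show 0 ≤ z.re
  linarith

theorem LEAF_ball_norm {R r : ℝ} (hR : 0 < R) (hr : r ≤ 4 * R) {z : ℂ}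
    (hz : z ∈ closedBall ((4 * R : ℝ) : ℂ) r) : ‖z‖ ≤ 64 * R := by
  rw [mem_closedBall, dist_eq_norm] at hz
  have h1 : ‖((4 * R : ℝ) : ℂ)‖ = 4 * R := by
    rw [Complex.norm_real, Real.norm_of_nonneg (by linarith)]
  calc ‖z‖ = ‖(z - ((4 * R : ℝ) : ℂ)) + ((4 * R : ℝ) : ℂ)‖ := by ring_nf
    _ ≤ ‖z - ((4 * R : ℝ) : ℂ)‖ + ‖((4 * R : ℝ) : ℂ)‖ := norm_add_le _ _
    _ ≤ r + 4 * R := by rw [h1]; linarith
    _ ≤ 64 * R := by linarith

theorem LEAF_z0 {R : ℝ} (hR : 0 < R) {z : ℂ} (hz : z ∈ closedBall (R : ℂ) (R / 4)) :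
    z ∈ closedBall ((4 * R : ℝ) : ℂ) (9 / 10 * (39 / 10 * R)) := by
  rw [mem_closedBall, dist_eq_norm] at hz ⊢
  have h1 : ‖(R : ℂ) - ((4 * R : ℝ) : ℂ)‖ = 3 * R := by
    rw [← Complex.ofReal_sub, Complex.norm_real]
    have : R - 4 * R = -(3 * R) := by ring
    rw [this, norm_neg, Real.norm_of_nonneg (by linarith)]
  calc ‖z - ((4 * R : ℝ) : ℂ)‖ = ‖(z - (R : ℂ)) + ((R : ℂ) - ((4 * R : ℝ) : ℂ))‖ := by ring_nf
    _ ≤ ‖z - (R : ℂ)‖ + ‖(R : ℂ) - ((4 * R : ℝ) : ℂ)‖ := norm_add_le _ _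
    _ ≤ R / 4 + 3 * R := by rw [h1]; linarith
    _ ≤ _ := by linarith

theorem LEAF_pt {R x y : ℝ} (hR : 0 < R) (hx : x ∈ Icc (R / 2) (5 * R)) (hy : |y| ≤ R / 8) :
    (x : ℂ) + (y : ℂ) * Complex.I ∈ closedBall ((4 * R : ℝ) : ℂ) (9 / 10 * (39 / 10 * R)) := by
  rw [mem_closedBall, dist_eq_norm]
  have e : (x : ℂ) + (y : ℂ) * Complex.I - ((4 * R : ℝ) : ℂ) = ⟨x - 4 * R, y⟩ := by
    apply Complex.ext <;> simp
  rw [e]
  apply (pow_le_pow_iff_left₀ (norm_nonneg _) (by positivity) two_ne_zero).1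
  rw [← Complex.normSq_eq_norm_sq, Complex.normSq_mk]
  have h1 : (x - 4 * R) * (x - 4 * R) ≤ (7 / 2 * R) * (7 / 2 * R) := by
    have := hx.1
    have := hx.2
    nlinarith
  have h2 : y * y ≤ (R / 8) * (R / 8) := by
    have := abs_le.1 hy
    nlinarith
  nlinarith [sq_nonneg R]

theorem leaf_strip : ∃ C : ℝ, 0 < C ∧ ∀ (h : ℂ → ℂ) (R y a : ℝ), 0 < R →
    AnalyticOnNhd ℂ h RH → (∀ ζ ∈ RH, ‖h ζ‖ ≤ 1) → |y| ≤ R / 8 → 0 ≤ a →
    ENNReal.ofReal a ≤ af (fun z => nl (h z)) (64 * R) →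
    ∫⁻ x in Icc (R / 2) (5 * R), nl (h ((x : ℂ) + (y : ℂ) * Complex.I))
      ≤ ENNReal.ofReal (a * (99 / 8 * R ^ 2))
        + ENNReal.ofReal (C * R ^ 2) * (af (fun z => nl (h z)) (R / 8) - ENNReal.ofReal a) := by
  obtain ⟨C, hC, hseg⟩ := seg (9 / 10) (by norm_num) (by norm_num)
  obtain ⟨c, hc, hbar⟩ := barrier
  refine ⟨C * (39 / 10) / c, by positivity, ?_⟩
  intro h R y a hR hh hb hy ha haf
  set g := LEAF_tw h a with hg
  have gan : AnalyticOnNhd ℂ g RH := LEAF_an hh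
  have gb : ∀ ζ ∈ RH, ‖ζ‖ ≤ 64 * R → ‖g ζ‖ ≤ 1 := LEAF_bound hh hb ha haf
  set T : ℝ≥0∞ := ∫⁻ x in Icc (R / 2) (5 * R), nl (g ((x : ℂ) + (y : ℂ) * Complex.I)) with hT
  have hCR : 0 < C * (39 / 10 * R) := by positivity
  have hCR0 : ENNReal.ofReal (C * (39 / 10 * R)) ≠ 0 := by
    rw [ne_eq, ENNReal.ofReal_eq_zero]; linarith
  have hm : ∀ z ∈ closedBall (R : ℂ) (R / 4), T / ENNReal.ofReal (C * (39 / 10 * R)) ≤ nl (g z) := by
    intro z hz
    rw [ENNReal.div_le_iff hCR0 ENNReal.ofReal_ne_top, mul_comm]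
    exact hseg ((4 * R : ℝ) : ℂ) (39 / 10 * R) g z (R / 2) (5 * R) y (by positivity)
      (fun w hw => gan w (LEAF_ball_RH (by linarith) hw))
      (fun w hw => gb w (LEAF_ball_RH (by linarith) hw) (LEAF_ball_norm hR (by linarith) hw))
      (LEAF_z0 hR hz) (by linarith) (fun x hx => LEAF_pt hR hx hy)
  have h1 := LEAF_final hc hR hh hb ha haf (hbar g R _ hR gan gb hm)
  have h2 : T ≤ ENNReal.ofReal (C * (39 / 10) / c * R ^ 2) *
      (af (fun z => nl (h z)) (R / 8) - ENNReal.ofReal a) := by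
    rw [ENNReal.div_le_iff hCR0 ENNReal.ofReal_ne_top] at h1
    calc T ≤ _ := h1
      _ = (ENNReal.ofReal (R / c) * ENNReal.ofReal (C * (39 / 10 * R))) *
          (af (fun z => nl (h z)) (R / 8) - ENNReal.ofReal a) := by ring
      _ = _ := by
          rw [← ENNReal.ofReal_mul (by positivity)]
          congr 2
          field_simp
  have h3 : ∫⁻ x in Icc (R / 2) (5 * R), nl (h ((x : ℂ) + (y : ℂ) * Complex.I)) =
      T + ∫⁻ x in Icc (R / 2) (5 * R), ENNReal.ofReal (a * x) := by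
    rw [hT, ← lintegral_add_right _ (by fun_prop)]
    apply setLIntegral_congr_fun measurableSet_Icc
    intro x hx
    have hp := LEAF_pt hR hx hy
    have hp' : (x : ℂ) + (y : ℂ) * Complex.I ∈ closedBall ((4 * R : ℝ) : ℂ) (4 * R) :=
      closedBall_subset_closedBall (by linarith) hp
    have := LEAF_nl hh hb ha haf (LEAF_ball_RH le_rfl hp') (LEAF_ball_norm hR le_rfl hp')
    have e : ((x : ℂ) + (y : ℂ) * Complex.I).re = x := by simp
    rw [e] at this
    exact this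
  have h4 : ∫⁻ x in Icc (R / 2) (5 * R), ENNReal.ofReal (a * x) =
      ENNReal.ofReal (a * (99 / 8 * R ^ 2)) := by
    rw [← ofReal_integral_eq_lintegral_ofReal]
    · congr 1
      rw [integral_Icc_eq_integral_Ioc, ← intervalIntegral.integral_of_le (by linarith),
        intervalIntegral.integral_const_mul, integral_id]
      ring
    · exact (continuous_const.mul continuous_id).integrableOn_Icc
    · rw [Filter.EventuallyLE, ae_restrict_iff' measurableSet_Icc]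
      filter_upwards with x hx
      have := hx.1
      exact mul_nonneg ha (by linarith)
  rw [h3, h4, add_comm]
  exact add_le_add le_rfl h2

theorem LEAF_cav_re {a m r : ℝ} (ha : 0 ≤ a) (hr : 0 ≤ r) (hrm : r ≤ m) :
    cav (fun z => ENNReal.ofReal (a * z.re)) (m : ℂ) r = ENNReal.ofReal (a * m) := by
  unfold cav
  have hre : ∀ θ : ℝ, (circleMap (m : ℂ) r θ).re = m + r * Real.cos θ := by
    intro θ
    simp [circleMap, Complex.exp_ofReal_mul_I_re]
  simp only [hre]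
  rw [← ofReal_integral_eq_lintegral_ofReal]
  · rw [← ENNReal.ofReal_mul (by positivity)]
    congr 1
    rw [← intervalIntegral.integral_of_le (by positivity), intervalIntegral.integral_const_mul,
      intervalIntegral.integral_add (by simp) (by
        apply Continuous.intervalIntegrable; fun_prop),
      intervalIntegral.integral_const_mul, integral_cos, intervalIntegral.integral_const]
    simp only [sub_zero, Real.sin_two_pi, Real.sin_zero, mul_zero, add_zero, smul_eq_mul]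
    have := Real.pi_pos
    field_simp
  · apply Integrable.mono_measure (ν := volume.restrict (Icc 0 (2 * Real.pi)))
    · apply Continuous.integrableOn_Icc
      fun_prop
    · exact Measure.restrict_mono Ioc_subset_Icc_self le_rfl
  · filter_upwards with θ
    have h1 := Real.neg_one_le_cos θ
    apply mul_nonneg ha
    nlinarith

theorem LEAF_cav {h : ℂ → ℂ} {R a : ℝ} (hR : 0 < R) (hh : AnalyticOnNhd ℂ h RH)
    (hb : ∀ ζ ∈ RH, ‖h ζ‖ ≤ 1) (ha : 0 ≤ a)
    (haf : ENNReal.ofReal a ≤ af (fun z => nl (h z)) (64 * R)) {m r : ℝ} (hm : R ≤ m)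
    (hm4 : m ≤ 4 * R) (hr : 0 ≤ r) (hrR : r ≤ R / 4) :
    cav (fun z => nl (h z)) (m : ℂ) r =
      cav (fun z => nl (LEAF_tw h a z)) (m : ℂ) r + ENNReal.ofReal (a * m) := by
  rw [← LEAF_cav_re ha hr (by linarith)]
  unfold cav
  rw [← mul_add, ← lintegral_add_right]
  · congr 1
    apply setLIntegral_congr_fun measurableSet_Ioc
    intro θ _
    have hmem : circleMap (m : ℂ) r θ ∈ closedBall ((4 * R : ℝ) : ℂ) (4 * R) := by
      rw [mem_closedBall, dist_eq_norm]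
      have e1 : ‖circleMap (m : ℂ) r θ - (m : ℂ)‖ = r := by
        rw [circleMap_sub_center, norm_circleMap_zero, abs_of_nonneg hr]
      have e2 : ‖(m : ℂ) - ((4 * R : ℝ) : ℂ)‖ ≤ 3 * R := by
        rw [← Complex.ofReal_sub, Complex.norm_real, Real.norm_eq_abs, abs_le]
        constructor <;> linarith
      calc ‖circleMap (m : ℂ) r θ - ((4 * R : ℝ) : ℂ)‖
          = ‖(circleMap (m : ℂ) r θ - (m : ℂ)) + ((m : ℂ) - ((4 * R : ℝ) : ℂ))‖ := by ring_nf
        _ ≤ r + 3 * R := (norm_add_le _ _).trans (by rw [e1]; linarith)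
        _ ≤ 4 * R := by linarith
    exact LEAF_nl hh hb ha haf (LEAF_ball_RH le_rfl hmem) (LEAF_ball_norm hR le_rfl hmem)
  · apply Measurable.ennreal_ofReal
    apply Measurable.const_mul
    exact Complex.measurable_re.comp (continuous_circleMap _ _).measurable

theorem leaf_defect : ∃ C : ℝ, 0 < C ∧ ∀ (h : ℂ → ℂ) (R s a : ℝ) (I : Finset ℝ), 0 < R →
    AnalyticOnNhd ℂ h RH → (∀ ζ ∈ RH, ‖h ζ‖ ≤ 1) → 0 < s → s ≤ R / 4 → 0 ≤ a →
    (∀ m ∈ I, R ≤ m ∧ m ≤ 4 * R) → (∀ m ∈ I, ∀ m' ∈ I, m ≠ m' → 2 * s < |m - m'|) →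
    ENNReal.ofReal a ≤ af (fun z => nl (h z)) (64 * R) →
    ∑ m ∈ I, (cav (fun z => nl (h z)) (m : ℂ) (s / 2) - cav (fun z => nl (h z)) (m : ℂ) s)
      ≤ ENNReal.ofReal (C * R) * (af (fun z => nl (h z)) (R / 8) - ENNReal.ofReal a) := by
  obtain ⟨C, hC, hdef⟩ := defect (9 / 10) (by norm_num) (by norm_num)
  obtain ⟨c, hc, hbar⟩ := barrier
  refine ⟨C / c, by positivity, ?_⟩
  intro h R s a I hR hh hb hs hsR ha hI hsep haf
  set g := LEAF_tw h a with hg
  have gan : AnalyticOnNhd ℂ g RH := LEAF_an hh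
  have gb : ∀ ζ ∈ RH, ‖ζ‖ ≤ 64 * R → ‖g ζ‖ ≤ 1 := LEAF_bound hh hb ha haf
  have hball : ∀ m ∈ I, closedBall (m : ℂ) s ⊆ closedBall ((4 * R : ℝ) : ℂ) (9 / 10 * (39 / 10 * R)) := by
    intro m hm
    obtain ⟨h1, h2⟩ := hI m hm
    apply closedBall_subset_closedBall'
    have e2 : dist (m : ℂ) ((4 * R : ℝ) : ℂ) ≤ 3 * R := by
      rw [dist_eq_norm, ← Complex.ofReal_sub, Complex.norm_real, Real.norm_eq_abs, abs_le]
      constructor <;> linarith
    linarith
  have hball' : ∀ m ∈ I, closedBall (m : ℂ) s ⊆ closedBall ((4 * R : ℝ) : ℂ) (4 * R) :=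
    fun m hm => (hball m hm).trans (closedBall_subset_closedBall (by linarith))
  -- pass to the twisted function
  have hterm : ∀ m ∈ I, cav (fun z => nl (h z)) (m : ℂ) (s / 2) - cav (fun z => nl (h z)) (m : ℂ) s
      = cav (fun z => nl (g z)) (m : ℂ) (s / 2) - cav (fun z => nl (g z)) (m : ℂ) s := by
    intro m hm
    obtain ⟨h1, h2⟩ := hI m hm
    rw [LEAF_cav hR hh hb ha haf h1 h2 (by linarith) (by linarith),
      LEAF_cav hR hh hb ha haf h1 h2 hs.le hsR, tsub_add_eq_tsub_tsub_swap,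
      ENNReal.add_sub_cancel_right ENNReal.ofReal_ne_top]
  rw [Finset.sum_congr rfl hterm]
  -- only finite means matter
  classical
  set I' : Finset ℝ := I.filter (fun m => cav (fun z => nl (g z)) (m : ℂ) s ≠ ⊤) with hI'
  have hI'I : I' ⊆ I := Finset.filter_subset _ _
  have hsum : ∑ m ∈ I, (cav (fun z => nl (g z)) (m : ℂ) (s / 2) - cav (fun z => nl (g z)) (m : ℂ) s)
      = ∑ m ∈ I', (cav (fun z => nl (g z)) (m : ℂ) (s / 2) - cav (fun z => nl (g z)) (m : ℂ) s) := by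
    symm
    apply Finset.sum_subset hI'I
    intro m hm hm'
    have : cav (fun z => nl (g z)) (m : ℂ) s = ⊤ := by
      by_contra hne
      exact hm' (Finset.mem_filter.2 ⟨hm, hne⟩)
    rw [this, ENNReal.sub_top]
  rw [hsum]
  set T : ℝ≥0∞ := ∑ m ∈ I', (cav (fun z => nl (g z)) (m : ℂ) (s / 2) - cav (fun z => nl (g z)) (m : ℂ) s)
    with hT
  have hC0 : ENNReal.ofReal C ≠ 0 := by
    rw [ne_eq, ENNReal.ofReal_eq_zero]; linarith
  have hfin : ∑ m ∈ I', cav (fun z => nl (g z)) (m : ℂ) s ≠ ⊤ := by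
    rw [ne_eq, ENNReal.sum_eq_top]
    rintro ⟨m, hm, hmt⟩
    exact (Finset.mem_filter.1 hm).2 hmt
  have hTle : ∀ z ∈ closedBall (R : ℂ) (R / 4), T ≤ ENNReal.ofReal C * nl (g z) := by
    intro z hz
    have h1 := hdef ((4 * R : ℝ) : ℂ) (39 / 10 * R) g z s (I'.image (fun m : ℝ => (m : ℂ)))
      (by positivity) hs
      (fun w hw => gan w (LEAF_ball_RH (by linarith) hw))
      (fun w hw => gb w (LEAF_ball_RH (by linarith) hw) (LEAF_ball_norm hR (by linarith) hw))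
      (LEAF_z0 hR hz)
      (by
        intro m hm
        obtain ⟨m', hm', rfl⟩ := Finset.mem_image.1 hm
        exact hball m' (hI'I hm'))
      (by
        intro m hm m' hm' hne
        obtain ⟨m1, hm1, rfl⟩ := Finset.mem_image.1 hm
        obtain ⟨m2, hm2, rfl⟩ := Finset.mem_image.1 hm'
        rw [← Complex.ofReal_sub, Complex.norm_real, Real.norm_eq_abs]
        exact hsep m1 (hI'I hm1) m2 (hI'I hm2) (fun e => hne (by rw [e])))
    rw [Finset.sum_image (fun x _ y _ e => Complex.ofReal_injective e),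
      Finset.sum_image (fun x _ y _ e => Complex.ofReal_injective e)] at h1
    have h2 : T + ∑ m ∈ I', cav (fun z => nl (g z)) (m : ℂ) s =
        ∑ m ∈ I', cav (fun z => nl (g z)) (m : ℂ) (s / 2) := by
      rw [hT, ← Finset.sum_add_distrib]
      apply Finset.sum_congr rfl
      intro m hm
      apply tsub_add_cancel_of_le
      have hm' := hI'I hm
      exact cav_anti (fun w hw => gan w (LEAF_ball_RH le_rfl (hball' m hm' hw)))
        (fun w hw => gb w (LEAF_ball_RH le_rfl (hball' m hm' hw))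
          (LEAF_ball_norm hR le_rfl (hball' m hm' hw))) (by linarith) (by linarith)
    rw [← h2, add_comm] at h1
    exact (ENNReal.add_le_add_iff_left hfin).1 h1
  have hm : ∀ z ∈ closedBall (R : ℂ) (R / 4), T / ENNReal.ofReal C ≤ nl (g z) := by
    intro z hz
    rw [ENNReal.div_le_iff hC0 ENNReal.ofReal_ne_top, mul_comm]
    exact hTle z hz
  have h1 := LEAF_final hc hR hh hb ha haf (hbar g R _ hR gan gb hm)
  rw [ENNReal.div_le_iff hC0 ENNReal.ofReal_ne_top] at h1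
  calc T ≤ _ := h1
    _ = (ENNReal.ofReal (R / c) * ENNReal.ofReal C) *
        (af (fun z => nl (h z)) (R / 8) - ENNReal.ofReal a) := by ring
    _ = _ := by
        rw [← ENNReal.ofReal_mul (by positivity)]
        congr 2
        field_simp

end Muntz
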