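import Pool.Agent.Lib.MP_dde81e_an.GSH

/-! MP_dde81e_an, module MEAS : measurability of `af` of the leaves -/

namespace Muntz
open MeasureTheory Set Metric
open scoped ENNReal

theorem MEAS_cont {F : ℂ × ℂ → ℂ} (hF : GoodF F) {X : Type*} [TopologicalSpace X] {τ : X → ℝ}
    {β : X → ℂ} (h1 : Continuous τ) (h2 : Continuous β) (h3 : ∀ x, 0 ≤ τ x)
    (h4 : ∀ x, -1 < (β x).re) {ζ : ℂ} (hζ : 0 < ζ.re) :
    Continuous (fun x => nl (leaf F (τ x) (β x) ζ) / ENNReal.ofReal ζ.re) := by
  have hc : ContinuousOn F {p | -1 < p.1.re ∧ -1 < p.2.re} := hF.diff.continuousOn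
  have hm : Continuous (fun x => (ζ, (τ x : ℂ) * ζ + β x)) := by fun_prop
  have hF2 : Continuous (fun x => F (ζ, (τ x : ℂ) * ζ + β x)) := by
    refine hc.comp_continuous hm fun x => ⟨by simp only; linarith, ?_⟩
    simp only [Complex.add_re, Complex.mul_re, Complex.ofReal_re, Complex.ofReal_im, zero_mul,
      sub_zero]
    nlinarith [h3 x, h4 x, mul_nonneg (h3 x) hζ.le]
  have hne : ENNReal.ofReal ζ.re ≠ 0 := by simpa using hζ
  unfold leaf
  exact (ENNReal.continuous_div_const _ hne).comp (nl_continuous.comp hF2)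

theorem MEAS_usc {F : ℂ × ℂ → ℂ} (hF : GoodF F) {X : Type*} [TopologicalSpace X] {τ : X → ℝ}
    {β : X → ℂ} (h1 : Continuous τ) (h2 : Continuous β) (h3 : ∀ x, 0 ≤ τ x)
    (h4 : ∀ x, -1 < (β x).re) (ρ : ℝ) :
    UpperSemicontinuous (fun x => af (fun z => nl (leaf F (τ x) (β x) z)) ρ) := by
  unfold af
  exact upperSemicontinuous_biInf fun ζ hζ =>
    (MEAS_cont hF h1 h2 h3 h4 hζ.2).upperSemicontinuous

theorem af_leaf_measurable {F : ℂ × ℂ → ℂ} (hF : GoodF F) {A B : ℝ} (hA : 0 < A) (ρ : ℝ)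
    (hρ : 0 < ρ) :
    AEMeasurable (fun p : ℝ × ℂ => af (fun z => nl (leaf F p.1 p.2 z)) ρ)
      ((volume.restrict (Icc A B)).prod (volume.restrict (closedBall (0 : ℂ) (1 / 2)))) ∧
    AEMeasurable (fun τ : ℝ => af (fun z => nl (leaf F τ 0 z)) ρ)
      (volume.restrict (Icc A B)) := by
  constructor
  · rw [Measure.prod_restrict]
    refine aemeasurable_restrict_of_measurable_subtype
      (measurableSet_Icc.prod measurableSet_closedBall) ?_
    refine (MEAS_usc hF (X := ↥(Icc A B ×ˢ closedBall (0 : ℂ) (1 / 2)))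
      (τ := fun x => (x : ℝ × ℂ).1) (β := fun x => (x : ℝ × ℂ).2)
      (continuous_fst.comp continuous_subtype_val) (continuous_snd.comp continuous_subtype_val)
      (fun x => ?_) (fun x => ?_) ρ).measurable
    · exact hA.le.trans x.2.1.1
    · have h := x.2.2
      rw [mem_closedBall, dist_zero_right] at h
      have := (abs_le.1 ((Complex.abs_re_le_norm _).trans h)).1
      linarith
  · refine aemeasurable_restrict_of_measurable_subtype measurableSet_Icc ?_
    refine (MEAS_usc hF (X := ↥(Icc A B)) (τ := fun x => (x : ℝ)) (β := fun _ => (0 : ℂ))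
      continuous_subtype_val continuous_const (fun x => ?_) (fun x => ?_) ρ).measurable
    · exact hA.le.trans x.2.1
    · simp

end Muntz
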