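import Pool.Agent.Lib.MP_dde81e_an.Defs

/-! MP_dde81e_an, module WT : existence of the weight -/

namespace Muntz
open MeasureTheory Set Metric
open scoped ENNReal

theorem exists_wt {A B : ℝ} (hA : 0 < A) (hAB : A ≤ B) : ∃ w, Wt A B w := by
  let f : ContDiffBump ((A + B) / 2 : ℝ) :=
    { rIn := B / 2 - A / 4
      rOut := B / 2
      rIn_pos := by linarith
      rIn_lt_rOut := by linarith }
  refine ⟨fun t => f t, ?_, ?_, ?_, ?_, ?_⟩
  · exact f.contDiff
  · intro t
    exact f.nonneg
  · intro t
    exact f.le_one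
  · intro t ht
    refine f.one_of_mem_closedBall ?_
    rw [Metric.mem_closedBall, Real.dist_eq, abs_le]
    have h1 := ht.1
    have h2 := ht.2
    show -(B / 2 - A / 4) ≤ _ ∧ _ ≤ B / 2 - A / 4
    constructor <;> linarith
  · intro t ht
    refine f.zero_of_le_dist ?_
    show B / 2 ≤ _
    rw [Real.dist_eq]
    by_contra hlt
    push Not at hlt
    rw [abs_lt] at hlt
    apply ht
    constructor <;> linarith [hlt.1, hlt.2]

end Muntz
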