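import Pool.Agent.Lib.MP_dde81e_an.TJ
import Pool.Agent.Lib.MP_dde81e_an.LEAF
import Pool.Agent.Lib.MP_dde81e_an.GSH
import Pool.Agent.Lib.MP_dde81e_an.MEAS
import Pool.Agent.Lib.MP_dde81e_an.FIN
import Pool.Agent.Lib.MP_dde81e_an.WT

/-! MP_dde81e_an, module CNT : counting (from TJ, LEAF, GSH) -/

namespace Muntz
open MeasureTheory Set Metric
open scoped ENNReal

theorem CNT_per {g : ℝ → ℝ≥0∞} (hg : Function.Periodic g (2 * Real.pi)) :
    ∫⁻ θ in Ioo (-Real.pi) Real.pi, g θ = ∫⁻ θ in Ioc (0 : ℝ) (2 * Real.pi), g θ := by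
  have hT : 0 < 2 * Real.pi := by positivity
  have hd1 := isAddFundamentalDomain_Ioc hT (-Real.pi)
  have hd2 := isAddFundamentalDomain_Ioc hT 0
  have := hd1.setLIntegral_eq hd2 g (by
    intro k x
    obtain ⟨k, n, rfl⟩ := k
    simp only [AddSubgroup.vadd_def, vadd_eq_add]
    have := hg.int_mul n x
    rw [add_comm]
    simpa [zsmul_eq_mul] using this)
  rw [zero_add] at this
  rw [← this, restrict_Ioo_eq_restrict_Ioc]
  congr 2
  congr 1
  ring

theorem CNT_circle_meas {X : Type*} [MeasurableSpace X] {c : X → ℂ} {r : X → ℝ}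
    (hc : Measurable c) (hr : Measurable r) :
    Measurable (fun p : X × ℝ => circleMap (c p.1) (r p.1) p.2) := by
  unfold circleMap
  fun_prop

/-- measurability of circle means in parameters -/
theorem CNT_cav_meas {X : Type*} [MeasurableSpace X] {u : X → ℂ → ℝ≥0∞} {c : X → ℂ} {r : X → ℝ}
    (hu : Measurable (fun p : X × ℂ => u p.1 p.2)) (hc : Measurable c) (hr : Measurable r) :
    Measurable (fun x => cav (u x) (c x) (r x)) := by
  unfold cav
  refine Measurable.const_mul ?_ _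
  have hm : Measurable (fun p : X × ℝ => u p.1 (circleMap (c p.1) (r p.1) p.2)) :=
    hu.comp (measurable_fst.prodMk (CNT_circle_meas hc hr))
  exact hm.lintegral_prod_right'

/-- polar coordinates -/
theorem CNT_polar {u : ℂ → ℝ≥0∞} (hu : Measurable u) (c : ℂ) {r1 r2 : ℝ} (h1 : 0 < r1) :
    ∫⁻ r in Icc r1 r2, cav u c r
      ≤ ENNReal.ofReal (1 / (2 * Real.pi * r1)) * ∫⁻ z in closedBall c r2, u z := by
  set v : ℂ → ℝ≥0∞ := (closedBall (0 : ℂ) r2).indicator (fun z => u (c + z)) with hv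
  have e1 : ∫⁻ z in closedBall c r2, u z = ∫⁻ z, v z := by
    rw [hv, lintegral_indicator measurableSet_closedBall]
    have hmp : MeasurePreserving (fun z : ℂ => c + z) volume volume :=
      measurePreserving_add_left volume c
    have hemb : MeasurableEmbedding (fun z : ℂ => c + z) := measurableEmbedding_addLeft c
    rw [← hmp.setLIntegral_comp_preimage_emb hemb u (closedBall c r2)]
    congr 2
    ext z
    simp
  have hcm : Measurable (fun p : ℝ × ℝ => u (circleMap c p.1 p.2)) :=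
    hu.comp (CNT_circle_meas measurable_const measurable_id)
  have e2 : ∫⁻ p in (Icc r1 r2) ×ˢ (Ioo (-Real.pi) Real.pi),
      ENNReal.ofReal r1 * u (circleMap c p.1 p.2) ≤ ∫⁻ z, v z := by
    rw [← Complex.lintegral_comp_polarCoord_symm v]
    have hsub : (Icc r1 r2) ×ˢ (Ioo (-Real.pi) Real.pi) ⊆ polarCoord.target := by
      rw [polarCoord_target]
      exact prod_mono (fun x hx => lt_of_lt_of_le h1 hx.1) le_rfl
    refine le_trans ?_ (lintegral_mono_set hsub)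
    refine setLIntegral_mono' (measurableSet_Icc.prod measurableSet_Ioo) ?_
    rintro ⟨r, θ⟩ ⟨hr, hθ⟩
    simp only at hr hθ
    have hr0 : 0 < r := lt_of_lt_of_le h1 hr.1
    have hsy : Complex.polarCoord.symm (r, θ) = circleMap 0 r θ := by
      rw [Complex.polarCoord_symm_apply]
      simp only [circleMap, zero_add]
      rw [Complex.exp_mul_I]
      push_cast
      ring
    have hmem : circleMap 0 r θ ∈ closedBall (0 : ℂ) r2 := by
      rw [mem_closedBall, dist_zero_right]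
      simpa [abs_of_pos hr0] using hr.2
    have hval : v (Complex.polarCoord.symm (r, θ)) = u (circleMap c r θ) := by
      rw [hsy, hv, indicator_of_mem hmem]
      simp [circleMap]
    simp only [smul_eq_mul]
    rw [hval]
    gcongr
    exact hr.1
  have e3 : ∫⁻ p in (Icc r1 r2) ×ˢ (Ioo (-Real.pi) Real.pi),
      ENNReal.ofReal r1 * u (circleMap c p.1 p.2)
      = ENNReal.ofReal r1 * ∫⁻ r in Icc r1 r2, ∫⁻ θ in Ioc (0 : ℝ) (2 * Real.pi),
          u (circleMap c r θ) := by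
    rw [lintegral_const_mul _ hcm, Measure.volume_eq_prod, ← Measure.prod_restrict,
      lintegral_prod _ hcm.aemeasurable]
    congr 1
    refine lintegral_congr fun r => ?_
    exact CNT_per (g := fun θ => u (circleMap c r θ)) (fun θ => by
      simp only [periodic_circleMap c r θ])
  rw [e1]
  have e4 : ∫⁻ r in Icc r1 r2, cav u c r = ENNReal.ofReal (1 / (2 * Real.pi)) *
      ∫⁻ r in Icc r1 r2, ∫⁻ θ in Ioc (0 : ℝ) (2 * Real.pi), u (circleMap c r θ) := by
    unfold cav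
    rw [lintegral_const_mul]
    exact hcm.lintegral_prod_right'
  rw [e4]
  calc ENNReal.ofReal (1 / (2 * Real.pi)) *
      ∫⁻ r in Icc r1 r2, ∫⁻ θ in Ioc (0 : ℝ) (2 * Real.pi), u (circleMap c r θ)
      = ENNReal.ofReal (1 / (2 * Real.pi * r1)) * (ENNReal.ofReal r1 *
        ∫⁻ r in Icc r1 r2, ∫⁻ θ in Ioc (0 : ℝ) (2 * Real.pi), u (circleMap c r θ)) := by
        rw [← mul_assoc, ← ENNReal.ofReal_mul (by positivity)]
        congr 2
        field_simp
    _ ≤ _ := by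
        gcongr
        rw [← e3]
        exact e2

theorem CNT_td_meas {F : ℂ × ℂ → ℂ} (hF : GoodF F) {X : Type*} [MeasurableSpace X]
    {ζ : X → ℂ} {τ : X → ℝ} {b : X → ℂ} {t : X → ℝ} (h1 : Measurable ζ) (h2 : Measurable τ)
    (h3 : Measurable b) (h4 : Measurable t) :
    Measurable (fun x => td F (ζ x) (τ x) (b x) (t x)) := by
  have hu : Measurable (fun p : X × ℂ => nl (F (ζ p.1, (τ p.1 : ℂ) * ζ p.1 + p.2))) := by
    refine nl_continuous.measurable.comp (hF.meas.comp ?_)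
    fun_prop
  unfold td
  exact (CNT_cav_meas (u := fun x β => nl (F (ζ x, (τ x : ℂ) * ζ x + β))) hu h3
    (h4.div_const 2)).sub
    (CNT_cav_meas (u := fun x β => nl (F (ζ x, (τ x : ℂ) * ζ x + β))) hu h3 h4)

theorem CNT_rd_meas {F : ℂ × ℂ → ℂ} (hF : GoodF F) {X : Type*} [MeasurableSpace X]
    {τ : X → ℝ} {b : X → ℂ} {s : X → ℝ} (m : ℂ) (h2 : Measurable τ)
    (h3 : Measurable b) (h4 : Measurable s) :
    Measurable (fun x => rd F (τ x) (b x) m (s x)) := by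
  have hu : Measurable (fun p : X × ℂ => nl (leaf F (τ p.1) (b p.1) p.2)) := by
    unfold leaf
    refine nl_continuous.measurable.comp (hF.meas.comp ?_)
    fun_prop
  unfold rd
  exact (CNT_cav_meas (u := fun x ζ => nl (leaf F (τ x) (b x) ζ)) hu measurable_const
    (h4.div_const 2)).sub
    (CNT_cav_meas (u := fun x ζ => nl (leaf F (τ x) (b x) ζ)) hu measurable_const h4)

/-- slopes for which the point is active -/
def CNT_act (p : ℕ × ℕ) : Set ℝ := {τ : ℝ | |(p.2 : ℝ) - τ * p.1| ≤ 1 / 8}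

theorem CNT_act_meas (p : ℕ × ℕ) : MeasurableSet (CNT_act p) := by
  unfold CNT_act
  exact measurableSet_le (by fun_prop) measurable_const

theorem CNT_act_eq {p : ℕ × ℕ} (hp : 0 < (p.1 : ℝ)) :
    CNT_act p = Icc (((p.2 : ℝ) - 1 / 8) / p.1) (((p.2 : ℝ) + 1 / 8) / p.1) := by
  ext τ
  simp only [CNT_act, mem_ofPred_eq, mem_Icc, abs_le, div_le_iff₀ hp, le_div_iff₀ hp]
  constructor
  · rintro ⟨h1, h2⟩; constructor <;> linarith
  · rintro ⟨h1, h2⟩; constructor <;> linarith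

theorem CNT_act_vol {p : ℕ × ℕ} (hp : 0 < (p.1 : ℝ)) :
    volume (CNT_act p) = ENNReal.ofReal (1 / (4 * p.1)) := by
  rw [CNT_act_eq hp, Real.volume_Icc]
  congr 1
  field_simp
  ring

theorem CNT_act_sub {p : ℕ × ℕ} {A B R : ℝ} (hA : 0 < A) (hR : 1 / A ≤ R) (hp : R ≤ p.1)
    (h1 : A * p.1 ≤ p.2) (h2 : (p.2 : ℝ) ≤ B * p.1) :
    CNT_act p ⊆ Icc (7 * A / 8) (B + A / 8) := by
  have hR0 : 0 < R := lt_of_lt_of_le (by positivity) hR
  have hp0 : 0 < (p.1 : ℝ) := lt_of_lt_of_le hR0 hp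
  have hAp : 1 ≤ A * p.1 := by
    have : 1 ≤ A * R := by
      rw [div_le_iff₀ hA] at hR; linarith
    nlinarith
  rw [CNT_act_eq hp0]
  refine Icc_subset_Icc ?_ ?_
  · rw [le_div_iff₀ hp0]; nlinarith
  · rw [div_le_iff₀ hp0]; nlinarith

/-- active points have separated first coordinates -/
theorem CNT_sep {P : Finset (ℕ × ℕ)} {R S τ : ℝ} (hR : 0 < R) (hS : S ≤ R / 8)
    (hP : ∀ p ∈ P, R ≤ (p.1 : ℝ) ∧ (p.1 : ℝ) ≤ 4 * R) (hI : Isolated P S)
    {p p' : ℕ × ℕ} (hp : p ∈ P) (hp' : p' ∈ P) (hne : p ≠ p') (h : τ ∈ CNT_act p)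
    (h' : τ ∈ CNT_act p') : 4 * S < |(p'.1 : ℝ) - p.1| := by
  rcases hI p hp p' hp' hne with h1 | h1
  · exact h1
  · by_contra hcon
    push Not at hcon
    have hp0 : 0 < (p.1 : ℝ) := lt_of_lt_of_le hR (hP p hp).1
    simp only [CNT_act, mem_ofPred_eq] at h h'
    have e : ((p'.2 : ℝ) - p.2) - (p.2 : ℝ) / p.1 * ((p'.1 : ℝ) - p.1)
        = (p'.2 - τ * p'.1) - (p.2 - τ * p.1) - (p.2 - τ * p.1) / p.1 * ((p'.1 : ℝ) - p.1) := by
      field_simp
      ring
    have h2 : |((p.2 : ℝ) - τ * p.1) / p.1 * ((p'.1 : ℝ) - p.1)| ≤ 1 / 16 := by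
      rw [abs_mul, abs_div, abs_of_pos hp0]
      have h3 : |(p.2 : ℝ) - τ * p.1| / p.1 ≤ (1 / 8) / R := by
        gcongr
        exact (hP p hp).1
      have h4 : |(p'.1 : ℝ) - p.1| ≤ R / 2 := by linarith
      calc |(p.2 : ℝ) - τ * p.1| / p.1 * |(p'.1 : ℝ) - p.1| ≤ (1/8)/R * (R/2) := by gcongr
        _ = 1/16 := by field_simp; norm_num
    rw [e] at h1
    have h5 := abs_sub (((p'.2 : ℝ) - τ * p'.1) - (p.2 - τ * p.1))
      (((p.2 : ℝ) - τ * p.1) / p.1 * ((p'.1 : ℝ) - p.1))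
    have h6 := abs_sub ((p'.2 : ℝ) - τ * p'.1) ((p.2 : ℝ) - τ * p.1)
    linarith

/-- first term -/
noncomputable def CNT_T1 (F : ℂ × ℂ → ℂ) (p : ℕ × ℕ) (t r τ : ℝ) : ℝ≥0∞ :=
  cav (fun ζ => td F ζ τ (((p.2 : ℝ) - τ * p.1 : ℝ) : ℂ) t) (p.1 : ℂ) r

/-- second term -/
noncomputable def CNT_T2 (F : ℂ × ℂ → ℂ) (p : ℕ × ℕ) (t r τ : ℝ) : ℝ≥0∞ :=
  cav (fun β => rd F τ β (p.1 : ℂ) (2 * r)) (((p.2 : ℝ) - τ * p.1 : ℝ) : ℂ) t

theorem CNT_T1_meas {F : ℂ × ℂ → ℂ} (hF : GoodF F) (p : ℕ × ℕ) {X : Type*} [MeasurableSpace X]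
    {t r τ : X → ℝ} (h1 : Measurable t) (h2 : Measurable r) (h3 : Measurable τ) :
    Measurable (fun x => CNT_T1 F p (t x) (r x) (τ x)) := by
  unfold CNT_T1
  refine CNT_cav_meas (u := fun x ζ => td F ζ (τ x) (((p.2 : ℝ) - τ x * p.1 : ℝ) : ℂ) (t x))
    ?_ measurable_const h2
  exact CNT_td_meas hF measurable_snd (h3.comp measurable_fst)
    (by fun_prop) (h1.comp measurable_fst)

theorem CNT_T2_meas {F : ℂ × ℂ → ℂ} (hF : GoodF F) (p : ℕ × ℕ) {X : Type*} [MeasurableSpace X]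
    {t r τ : X → ℝ} (h1 : Measurable t) (h2 : Measurable r) (h3 : Measurable τ) :
    Measurable (fun x => CNT_T2 F p (t x) (r x) (τ x)) := by
  unfold CNT_T2
  refine CNT_cav_meas (u := fun x β => rd F (τ x) β (p.1 : ℂ) (2 * r x)) ?_ (by fun_prop) h1
  exact CNT_rd_meas hF _ (h3.comp measurable_fst) measurable_snd (by fun_prop)

/-- Step A -/
theorem CNT_stepA {F : ℂ × ℂ → ℂ} {A B R S : ℝ} (hF : GoodF F) (hA : 0 < A) (hR : 1 / A ≤ R)
    (hS0 : 0 < S) (hS : S ≤ R / 8) {p : ℕ × ℕ} (hp : R ≤ (p.1 : ℝ) ∧ (p.1 : ℝ) ≤ 4 * R ∧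
      A * p.1 ≤ p.2 ∧ (p.2 : ℝ) ≤ B * p.1 ∧ F ((p.1 : ℂ), (p.2 : ℂ)) = 0) :
    ENNReal.ofReal (Real.log 2 * S / (256 * R)) ≤
      (∫⁻ t in Icc (1/8 : ℝ) (1/4), ∫⁻ τ in CNT_act p, ∫⁻ r in Icc (S / 2) S, CNT_T1 F p t r τ)
      + ∫⁻ τ in CNT_act p, ∫⁻ r in Icc (S / 2) S, ∫⁻ t in Icc (1/8 : ℝ) (1/4),
          CNT_T2 F p t r τ := by
  obtain ⟨h1, h2, h3, h4, h5⟩ := hp
  have hR0 : 0 < R := lt_of_lt_of_le (by positivity) hR
  have hp0 : 0 < (p.1 : ℝ) := lt_of_lt_of_le hR0 h1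
  have hsub := CNT_act_sub (B := B) hA hR h1 h3 h4
  have hlog : 0 < Real.log 2 := Real.log_pos (by norm_num)
  -- pointwise
  have hpt : ∀ τ ∈ CNT_act p, ∀ r ∈ Icc (S / 2) S, ∀ t ∈ Icc (1/8 : ℝ) (1/4),
      ENNReal.ofReal (Real.log 2) ≤ CNT_T1 F p t r τ + CNT_T2 F p t r τ := by
    intro τ hτ r hr t ht
    have hτ0 : 0 < τ := by
      have := (hsub hτ).1
      linarith
    have hτ' : |(p.2 : ℝ) - τ * p.1| ≤ 1 / 8 := hτ
    have := torus_jensen hF (τ := τ) (s := 2 * r) (t := t) (m := p.1) (n := p.2) hτ0 h5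
      (by linarith [hr.1]) (by linarith [hr.2]) (by linarith [ht.1]) (by linarith [ht.2])
    rw [show 2 * r / 2 = r by ring] at this
    exact this
  have hmA := CNT_act_meas p
  -- lower bound of the triple integral
  have e1 : ENNReal.ofReal (Real.log 2 * S / (256 * R)) ≤
      ∫⁻ τ in CNT_act p, ∫⁻ r in Icc (S / 2) S, ∫⁻ t in Icc (1/8 : ℝ) (1/4),
        (CNT_T1 F p t r τ + CNT_T2 F p t r τ) := by
    calc ENNReal.ofReal (Real.log 2 * S / (256 * R))
        ≤ ENNReal.ofReal (Real.log 2) * ENNReal.ofReal (1/4 - 1/8) * ENNReal.ofReal (S - S/2)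
          * ENNReal.ofReal (1 / (4 * p.1)) := by
          rw [← ENNReal.ofReal_mul hlog.le, ← ENNReal.ofReal_mul (by positivity),
            ← ENNReal.ofReal_mul (by
              have : 0 ≤ S - S/2 := by linarith
              positivity)]
          apply ENNReal.ofReal_le_ofReal
          rw [show Real.log 2 * (1 / 4 - 1 / 8) * (S - S / 2) * (1 / (4 * (p.1:ℝ)))
            = Real.log 2 * S / (64 * p.1) by field_simp; ring]
          have h64 : 64 * (p.1 : ℝ) ≤ 256 * R := by linarith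
          exact div_le_div_of_nonneg_left (by positivity) (by positivity) h64
      _ = ∫⁻ τ in CNT_act p, ∫⁻ r in Icc (S / 2) S, ∫⁻ t in Icc (1/8 : ℝ) (1/4),
            ENNReal.ofReal (Real.log 2) := by
          simp only [lintegral_const, Measure.restrict_apply_univ, Real.volume_Icc]
          rw [CNT_act_vol hp0]
      _ ≤ _ := by
          refine setLIntegral_mono' hmA fun τ hτ => ?_
          refine setLIntegral_mono' measurableSet_Icc fun r hr => ?_
          exact setLIntegral_mono' measurableSet_Icc fun t ht => hpt τ hτ r hr t ht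
  refine e1.trans (le_of_eq ?_)
  have e2 : ∀ τ r : ℝ, ∫⁻ t in Icc (1/8 : ℝ) (1/4), (CNT_T1 F p t r τ + CNT_T2 F p t r τ)
      = (∫⁻ t in Icc (1/8 : ℝ) (1/4), CNT_T1 F p t r τ)
        + ∫⁻ t in Icc (1/8 : ℝ) (1/4), CNT_T2 F p t r τ := fun τ r =>
    lintegral_add_left (CNT_T1_meas hF p measurable_id measurable_const measurable_const) _
  simp_rw [e2]
  have m1 : Measurable (fun q : ℝ × ℝ => ∫⁻ t in Icc (1/8 : ℝ) (1/4), CNT_T1 F p t q.2 q.1) := by
    have : Measurable (fun q : (ℝ × ℝ) × ℝ => CNT_T1 F p q.2 q.1.2 q.1.1) :=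
      CNT_T1_meas hF p (by fun_prop) (by fun_prop) (by fun_prop)
    exact this.lintegral_prod_right'
  have e3 : ∀ τ : ℝ, ∫⁻ r in Icc (S / 2) S, ((∫⁻ t in Icc (1/8 : ℝ) (1/4), CNT_T1 F p t r τ)
        + ∫⁻ t in Icc (1/8 : ℝ) (1/4), CNT_T2 F p t r τ)
      = (∫⁻ r in Icc (S / 2) S, ∫⁻ t in Icc (1/8 : ℝ) (1/4), CNT_T1 F p t r τ)
        + ∫⁻ r in Icc (S / 2) S, ∫⁻ t in Icc (1/8 : ℝ) (1/4), CNT_T2 F p t r τ := fun τ =>
    lintegral_add_left (m1.comp (measurable_const.prodMk measurable_id)) _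
  simp_rw [e3]
  rw [lintegral_add_left m1.lintegral_prod_right']
  congr 1
  have e4 : ∀ τ : ℝ, ∫⁻ r in Icc (S / 2) S, ∫⁻ t in Icc (1/8 : ℝ) (1/4), CNT_T1 F p t r τ
      = ∫⁻ t in Icc (1/8 : ℝ) (1/4), ∫⁻ r in Icc (S / 2) S, CNT_T1 F p t r τ := by
    intro τ
    rw [lintegral_lintegral_swap]
    exact (CNT_T1_meas hF p (by fun_prop) (by fun_prop) (by fun_prop)).aemeasurable
  simp_rw [e4]
  rw [lintegral_lintegral_swap]
  have : Measurable (fun q : (ℝ × ℝ) × ℝ => CNT_T1 F p q.1.2 q.2 q.1.1) :=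
      CNT_T1_meas hF p (by fun_prop) (by fun_prop) (by fun_prop)
  exact this.lintegral_prod_right'.aemeasurable

/-- Step B -/
theorem CNT_stepB {F : ℂ × ℂ → ℂ} {A B R S : ℝ} {P : Finset (ℕ × ℕ)} {K : ℝ≥0∞} (hF : GoodF F)
    (hA : 0 < A) (hR : 1 / A ≤ R) (hS0 : 0 < S) (hS : S ≤ R / 8)
    (hP : ∀ p ∈ P, R ≤ (p.1 : ℝ) ∧ (p.1 : ℝ) ≤ 4 * R ∧ A * p.1 ≤ p.2 ∧ (p.2 : ℝ) ≤ B * p.1 ∧
        F ((p.1 : ℂ), (p.2 : ℂ)) = 0) (hI : Isolated P S)
    (hK : ∀ t : ℝ, 1 / 8 ≤ t → t ≤ 1 / 4 → ∀ β : ℂ → ℝ → ℝ, (∀ ζ τ, |β ζ τ| ≤ 1 / 8) →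
        (∫⁻ ζ in {ζ : ℂ | R / 2 ≤ ζ.re ∧ ζ.re ≤ 5 * R ∧ |ζ.im| ≤ S},
          ∫⁻ τ in Icc (7 * A / 8) (B + A / 8), td F ζ τ (β ζ τ : ℂ) t) ≤ K)
    {t : ℝ} (ht : t ∈ Icc (1/8 : ℝ) (1/4)) :
    ∑ p ∈ P, ∫⁻ τ in CNT_act p, ∫⁻ r in Icc (S / 2) S, CNT_T1 F p t r τ
      ≤ ENNReal.ofReal (1 / (Real.pi * S)) * K := by
  classical
  have hR0 : 0 < R := lt_of_lt_of_le (by positivity) hR
  set X : Set ℂ := {ζ : ℂ | R / 2 ≤ ζ.re ∧ ζ.re ≤ 5 * R ∧ |ζ.im| ≤ S} with hX
  set I1 : Set ℝ := Icc (7 * A / 8) (B + A / 8) with hI1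
  have hXm : MeasurableSet X := by
    have h1 : MeasurableSet {ζ : ℂ | R / 2 ≤ ζ.re} :=
      measurableSet_le measurable_const Complex.measurable_re
    have h2 : MeasurableSet {ζ : ℂ | ζ.re ≤ 5 * R} :=
      measurableSet_le Complex.measurable_re measurable_const
    have h3 : MeasurableSet {ζ : ℂ | |ζ.im| ≤ S} :=
      measurableSet_le (by fun_prop) measurable_const
    exact h1.inter (h2.inter h3)
  -- the boxes
  set Q : ℕ × ℕ → Set (ℂ × ℝ) := fun p => closedBall (p.1 : ℂ) S ×ˢ CNT_act p with hQ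
  have hQm : ∀ p, MeasurableSet (Q p) := fun p => measurableSet_closedBall.prod (CNT_act_meas p)
  set H : ℕ × ℕ → ℂ × ℝ → ℝ≥0∞ := fun p q =>
    td F q.1 q.2 (((p.2 : ℝ) - q.2 * p.1 : ℝ) : ℂ) t with hH
  have hHm : ∀ p, Measurable (H p) := fun p =>
    CNT_td_meas hF measurable_fst measurable_snd (by fun_prop) measurable_const
  have hQsub : ∀ p ∈ P, Q p ⊆ X ×ˢ I1 := by
    intro p hp
    obtain ⟨h1, h2, h3, h4, h5⟩ := hP p hp
    refine prod_mono ?_ (CNT_act_sub hA hR h1 h3 h4)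
    intro ζ hζ
    rw [mem_closedBall, dist_eq_norm] at hζ
    have g1 := abs_le.1 ((Complex.abs_re_le_norm _).trans hζ)
    have g2 := (Complex.abs_im_le_norm _).trans hζ
    simp only [Complex.sub_re, Complex.sub_im, Complex.natCast_re, Complex.natCast_im,
      sub_zero] at g1 g2
    exact ⟨by linarith [g1.1], by linarith [g1.2], g2⟩
  have hdisj : ∀ p ∈ P, ∀ p' ∈ P, p ≠ p' → ∀ q, q ∈ Q p → q ∉ Q p' := by
    rintro p hp p' hp' hne ⟨ζ, τ⟩ ⟨h1, h2⟩ ⟨h3, h4⟩
    have h5 := CNT_sep hR0 hS (fun p hp => ⟨(hP p hp).1, (hP p hp).2.1⟩) hI hp hp' hne h2 h4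
    simp only at h1 h3
    have h6 : dist (p'.1 : ℂ) (p.1 : ℂ) ≤ 2 * S := by
      have := dist_triangle_left (p'.1 : ℂ) (p.1 : ℂ) ζ
      rw [mem_closedBall] at h1 h3
      linarith
    have h7 : dist (p'.1 : ℂ) (p.1 : ℂ) = |(p'.1 : ℝ) - p.1| := by
      rw [dist_eq_norm]
      have : (p'.1 : ℂ) - (p.1 : ℂ) = (((p'.1 : ℝ) - p.1 : ℝ) : ℂ) := by push_cast; ring
      rw [this, Complex.norm_real, Real.norm_eq_abs]
    linarith
  -- the selection
  set β : ℂ → ℝ → ℝ := fun ζ τ => ∑ p ∈ P, (Q p).indicator (fun q => (p.2 : ℝ) - q.2 * p.1) (ζ, τ)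
    with hβ
  have hβm : Measurable (fun q : ℂ × ℝ => β q.1 q.2) := by
    rw [hβ]
    refine Finset.measurable_sum _ fun p _ => ?_
    exact Measurable.indicator (by fun_prop) (hQm p)
  have hβval : ∀ p ∈ P, ∀ q ∈ Q p, β q.1 q.2 = (p.2 : ℝ) - q.2 * p.1 := by
    intro p hp q hq
    rw [hβ]
    simp only
    rw [Finset.sum_eq_single_of_mem p hp]
    · exact indicator_of_mem hq _
    · intro p' hp' hne
      exact indicator_of_notMem (hdisj p hp p' hp' hne.symm q hq) _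
  have hβ0 : ∀ q : ℂ × ℝ, (∀ p ∈ P, q ∉ Q p) → β q.1 q.2 = 0 := by
    intro q hq
    rw [hβ]
    simp only
    exact Finset.sum_eq_zero fun p hp => indicator_of_notMem (hq p hp) _
  have hβb : ∀ ζ τ, |β ζ τ| ≤ 1 / 8 := by
    intro ζ τ
    by_cases hq : ∃ p ∈ P, (ζ, τ) ∈ Q p
    · obtain ⟨p, hp, hq⟩ := hq
      rw [hβval p hp (ζ, τ) hq]
      exact hq.2
    · push Not at hq
      rw [hβ0 (ζ, τ) hq]
      norm_num
  have hKt := hK t ht.1 ht.2 β hβb
  -- inner radial integral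
  have e1 : ∀ p τ, ∫⁻ r in Icc (S / 2) S, CNT_T1 F p t r τ
      ≤ ENNReal.ofReal (1 / (Real.pi * S)) * ∫⁻ ζ in closedBall (p.1 : ℂ) S, H p (ζ, τ) := by
    intro p τ
    have := CNT_polar (u := fun ζ => H p (ζ, τ)) ((hHm p).comp (by fun_prop)) (p.1 : ℂ)
      (r1 := S / 2) (r2 := S) (by positivity)
    rw [show 2 * Real.pi * (S / 2) = Real.pi * S by ring] at this
    exact this
  calc ∑ p ∈ P, ∫⁻ τ in CNT_act p, ∫⁻ r in Icc (S / 2) S, CNT_T1 F p t r τ
      ≤ ∑ p ∈ P, ∫⁻ τ in CNT_act p, ENNReal.ofReal (1 / (Real.pi * S)) *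
          ∫⁻ ζ in closedBall (p.1 : ℂ) S, H p (ζ, τ) := by
        refine Finset.sum_le_sum fun p _ => lintegral_mono fun τ => e1 p τ
    _ = ENNReal.ofReal (1 / (Real.pi * S)) * ∑ p ∈ P, ∫⁻ q in Q p, H p q := by
        rw [Finset.mul_sum]
        refine Finset.sum_congr rfl fun p _ => ?_
        rw [lintegral_const_mul' _ _ ENNReal.ofReal_ne_top]
        congr 1
        rw [hQ, Measure.volume_eq_prod, ← Measure.prod_restrict,
          lintegral_prod_symm _ (hHm p).aemeasurable]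
    _ = ENNReal.ofReal (1 / (Real.pi * S)) * ∫⁻ q, ∑ p ∈ P, (Q p).indicator (H p) q := by
        congr 1
        rw [lintegral_finsetSum _ fun p _ => (hHm p).indicator (hQm p)]
        refine Finset.sum_congr rfl fun p _ => ?_
        rw [lintegral_indicator (hQm p)]
    _ ≤ ENNReal.ofReal (1 / (Real.pi * S)) *
          ∫⁻ q in X ×ˢ I1, td F q.1 q.2 (β q.1 q.2 : ℂ) t := by
        refine mul_le_mul' le_rfl ?_
        rw [← lintegral_indicator (hXm.prod measurableSet_Icc)]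
        refine lintegral_mono fun q => ?_
        by_cases hq : ∃ p ∈ P, q ∈ Q p
        · obtain ⟨p, hp, hq⟩ := hq
          rw [Finset.sum_eq_single_of_mem p hp
            (fun p' hp' hne => indicator_of_notMem (hdisj p hp p' hp' hne.symm q hq) _),
            indicator_of_mem hq, indicator_of_mem (hQsub p hp hq), hβval p hp q hq]
        · push Not at hq
          rw [Finset.sum_eq_zero fun p hp => indicator_of_notMem (hq p hp) _]
          exact bot_le
    _ = ENNReal.ofReal (1 / (Real.pi * S)) *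
          ∫⁻ ζ in X, ∫⁻ τ in I1, td F ζ τ (β ζ τ : ℂ) t := by
        congr 1
        rw [Measure.volume_eq_prod, ← Measure.prod_restrict, lintegral_prod]
        exact (CNT_td_meas hF measurable_fst measurable_snd
          (Complex.measurable_ofReal.comp hβm) measurable_const).aemeasurable
    _ ≤ _ := by gcongr

/-- radial defect averaged over the leaves -/
noncomputable def CNT_rI (F : ℂ × ℂ → ℂ) (p : ℕ × ℕ) (r τ : ℝ) : ℝ≥0∞ :=
  ∫⁻ β in closedBall (0 : ℂ) (1 / 2), rd F τ β (p.1 : ℂ) (2 * r)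

theorem CNT_rI_meas {F : ℂ × ℂ → ℂ} (hF : GoodF F) (p : ℕ × ℕ) {X : Type*} [MeasurableSpace X]
    {r τ : X → ℝ} (h2 : Measurable r) (h3 : Measurable τ) :
    Measurable (fun x => CNT_rI F p (r x) (τ x)) := by
  unfold CNT_rI
  have m0 : Measurable (fun q : X × ℂ => rd F (τ q.1) q.2 (p.1 : ℂ) (2 * r q.1)) :=
    CNT_rd_meas hF _ (by fun_prop) measurable_snd (by fun_prop)
  exact m0.lintegral_prod_right'

/-- Step C, one slope and one radius -/
theorem CNT_stepC {F : ℂ × ℂ → ℂ} {R S C' : ℝ} {P : Finset (ℕ × ℕ)} (hF : GoodF F)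
    (hR0 : 0 < R) (hS0 : 0 < S) (hS : S ≤ R / 8)
    (hLD : ∀ (h : ℂ → ℂ) (R s a : ℝ) (I : Finset ℝ), 0 < R →
      AnalyticOnNhd ℂ h RH → (∀ ζ ∈ RH, ‖h ζ‖ ≤ 1) → 0 < s → s ≤ R / 4 → 0 ≤ a →
      (∀ m ∈ I, R ≤ m ∧ m ≤ 4 * R) → (∀ m ∈ I, ∀ m' ∈ I, m ≠ m' → 2 * s < |m - m'|) →
      ENNReal.ofReal a ≤ af (fun z => nl (h z)) (64 * R) →
      ∑ m ∈ I, (cav (fun z => nl (h z)) (m : ℂ) (s / 2) - cav (fun z => nl (h z)) (m : ℂ) s)
        ≤ ENNReal.ofReal (C' * R) * (af (fun z => nl (h z)) (R / 8) - ENNReal.ofReal a))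
    (hP : ∀ p ∈ P, R ≤ (p.1 : ℝ) ∧ (p.1 : ℝ) ≤ 4 * R) (hI : Isolated P S)
    {τ r : ℝ} (hτ : 0 ≤ τ) (hr : r ∈ Icc (S / 2) S)
    (hfin : ∀ᵐ β ∂(volume.restrict (closedBall (0 : ℂ) (1 / 2))),
      af (fun z => nl (leaf F τ β z)) (64 * R) < ⊤) :
    ∑ p ∈ P, (CNT_act p).indicator (fun τ => CNT_rI F p r τ) τ
      ≤ ENNReal.ofReal (C' * R) * ∫⁻ β in closedBall (0 : ℂ) (1 / 2),
        (af (fun z => nl (leaf F τ β z)) (R / 8) - af (fun z => nl (leaf F τ β z)) (64 * R)) := by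
  classical
  rw [← lintegral_const_mul' _ _ ENNReal.ofReal_ne_top]
  have hrm : ∀ p : ℕ × ℕ, Measurable (fun β : ℂ => rd F τ β (p.1 : ℂ) (2 * r)) := fun p =>
    CNT_rd_meas hF _ measurable_const measurable_id measurable_const
  have e1 : ∑ p ∈ P, (CNT_act p).indicator (fun τ => CNT_rI F p r τ) τ
      = ∫⁻ β in closedBall (0 : ℂ) (1 / 2), ∑ p ∈ P.filter (fun p => τ ∈ CNT_act p),
          rd F τ β (p.1 : ℂ) (2 * r) := by
    rw [lintegral_finsetSum _ fun p _ => hrm p, Finset.sum_filter]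
    refine Finset.sum_congr rfl fun p _ => ?_
    by_cases h : τ ∈ CNT_act p
    · rw [indicator_of_mem h, if_pos h, CNT_rI]
    · rw [indicator_of_notMem h, if_neg h]
  rw [e1]
  refine lintegral_mono_ae ?_
  filter_upwards [hfin, ae_restrict_mem measurableSet_closedBall] with β hβ hmem
  have hβre : -1 < β.re := by
    rw [mem_closedBall, dist_zero_right] at hmem
    have := (abs_le.1 ((Complex.abs_re_le_norm β).trans hmem)).1
    linarith
  obtain ⟨hg1, hg2⟩ := leaf_good hF hτ hβre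
  set I : Finset ℝ := (P.filter (fun p => τ ∈ CNT_act p)).image (fun p => (p.1 : ℝ)) with hIdef
  have hsep : ∀ p ∈ P.filter (fun p => τ ∈ CNT_act p), ∀ p' ∈ P.filter (fun p => τ ∈ CNT_act p),
      p ≠ p' → 4 * S < |(p'.1 : ℝ) - p.1| := by
    intro p hp p' hp' hne
    rw [Finset.mem_filter] at hp hp'
    exact CNT_sep hR0 hS hP hI hp.1 hp'.1 hne hp.2 hp'.2
  have hinj : Set.InjOn (fun p : ℕ × ℕ => (p.1 : ℝ)) (P.filter (fun p => τ ∈ CNT_act p)) := by
    intro p hp p' hp' he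
    by_contra hne
    have := hsep p hp p' hp' hne
    simp only at he
    rw [he, sub_self, abs_zero] at this
    linarith
  have key := hLD (leaf F τ β) R (2 * r) (af (fun z => nl (leaf F τ β z)) (64 * R)).toReal I hR0
    hg1 hg2 (by linarith [hr.1]) (by linarith [hr.2]) ENNReal.toReal_nonneg
    (by
      intro m hm
      rw [hIdef, Finset.mem_image] at hm
      obtain ⟨p, hp, rfl⟩ := hm
      exact hP p (Finset.mem_filter.1 hp).1)
    (by
      intro m hm m' hm' hne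
      rw [hIdef, Finset.mem_image] at hm hm'
      obtain ⟨p, hp, rfl⟩ := hm
      obtain ⟨p', hp', rfl⟩ := hm'
      have hpp : p' ≠ p := fun h => hne (by rw [h])
      have := hsep p' hp' p hp hpp
      linarith [hr.2])
    (by rw [ENNReal.ofReal_toReal hβ.ne])
  rw [ENNReal.ofReal_toReal hβ.ne, hIdef, Finset.sum_image hinj] at key
  refine le_trans (le_of_eq ?_) key
  refine Finset.sum_congr rfl fun p _ => ?_
  unfold rd
  simp

theorem counting {F : ℂ × ℂ → ℂ} {A B : ℝ} (hF : GoodF F) (hA : 0 < A) (hAB : A ≤ B) :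
    ∃ C R₀ : ℝ, 0 < C ∧ 0 < R₀ ∧ ∀ (R S : ℝ) (P : Finset (ℕ × ℕ)) (K : ℝ≥0∞), R₀ ≤ R →
      1 / 4 ≤ S → S ≤ R / 8 →
      (∀ p ∈ P, R ≤ (p.1 : ℝ) ∧ (p.1 : ℝ) ≤ 4 * R ∧ A * p.1 ≤ p.2 ∧ (p.2 : ℝ) ≤ B * p.1 ∧
        F ((p.1 : ℂ), (p.2 : ℂ)) = 0) → Isolated P S →
      (∀ t : ℝ, 1 / 8 ≤ t → t ≤ 1 / 4 → ∀ β : ℂ → ℝ → ℝ, (∀ ζ τ, |β ζ τ| ≤ 1 / 8) →
        (∫⁻ ζ in {ζ : ℂ | R / 2 ≤ ζ.re ∧ ζ.re ≤ 5 * R ∧ |ζ.im| ≤ S},
          ∫⁻ τ in Icc (7 * A / 8) (B + A / 8), td F ζ τ (β ζ τ : ℂ) t) ≤ K) →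
      ENNReal.ofReal (P.card / R) ≤ ENNReal.ofReal (C / S ^ 2) * K
        + ENNReal.ofReal (C * R) * ∫⁻ τ in Icc (A / 4) (4 * B), ∫⁻ β in closedBall (0 : ℂ) (1 / 2),
            (af (fun z => nl (leaf F τ β z)) (R / 8) - af (fun z => nl (leaf F τ β z)) (64 * R)) := by
  classical
  obtain ⟨w, hw⟩ := exists_wt hA hAB
  obtain ⟨ρ₀, hρ₀, hfin⟩ := fin hF hA hAB hw
  obtain ⟨C', hC', hLD⟩ := leaf_defect
  have hlog : 0 < Real.log 2 := Real.log_pos (by norm_num)
  have hpi := Real.pi_pos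
  refine ⟨32 / (Real.pi * Real.log 2) + 512 * C' / (Real.pi * Real.log 2), max (1 / A) ρ₀,
    by positivity, by positivity, ?_⟩
  intro R S P K hR hS0 hS hP hI hK
  have hR1 : 1 / A ≤ R := (le_max_left _ _).trans hR
  have hR2 : ρ₀ ≤ 64 * R := by
    have := (le_max_right (1 / A) ρ₀).trans hR
    linarith
  have hS0' : 0 < S := by linarith
  have hR0 : 0 < R := lt_of_lt_of_le (by positivity) hR1
  set D : ℝ≥0∞ := ∫⁻ τ in Icc (A / 4) (4 * B), ∫⁻ β in closedBall (0 : ℂ) (1 / 2),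
    (af (fun z => nl (leaf F τ β z)) (R / 8) - af (fun z => nl (leaf F τ β z)) (64 * R)) with hD
  -- almost everywhere finiteness
  have hae : ∀ᵐ τ ∂(volume.restrict (Icc (A / 4) (4 * B))),
      ∀ᵐ β ∂(volume.restrict (closedBall (0 : ℂ) (1 / 2))),
        af (fun z => nl (leaf F τ β z)) (64 * R) < ⊤ := by
    have hm := (af_leaf_measurable hF (A := A / 4) (B := 4 * B) (by positivity) (64 * R)
      (by positivity)).1
    have h1 := (hfin (64 * R) hR2).1
    rw [← lintegral_prod _ hm] at h1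
    exact Measure.ae_ae_of_ae_prod (ae_lt_top' hm h1.ne)
  -- step A summed
  have hAsum : ∑ _p ∈ P, ENNReal.ofReal (Real.log 2 * S / (256 * R)) ≤
      (∑ p ∈ P, ∫⁻ t in Icc (1/8 : ℝ) (1/4), ∫⁻ τ in CNT_act p, ∫⁻ r in Icc (S / 2) S,
        CNT_T1 F p t r τ)
      + ∑ p ∈ P, ∫⁻ τ in CNT_act p, ∫⁻ r in Icc (S / 2) S, ∫⁻ t in Icc (1/8 : ℝ) (1/4),
          CNT_T2 F p t r τ := by
    rw [← Finset.sum_add_distrib]
    exact Finset.sum_le_sum fun p hp => CNT_stepA hF hA hR1 hS0' hS (hP p hp)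
  -- first term
  have hB : ∑ p ∈ P, ∫⁻ t in Icc (1/8 : ℝ) (1/4), ∫⁻ τ in CNT_act p, ∫⁻ r in Icc (S / 2) S,
        CNT_T1 F p t r τ ≤ ENNReal.ofReal (1 / (8 * Real.pi * S)) * K := by
    have hmeas : ∀ p ∈ P, Measurable (fun t => ∫⁻ τ in CNT_act p, ∫⁻ r in Icc (S / 2) S,
        CNT_T1 F p t r τ) := by
      intro p _
      have m0 : Measurable (fun q : (ℝ × ℝ) × ℝ => CNT_T1 F p q.1.1 q.2 q.1.2) :=
        CNT_T1_meas hF p (by fun_prop) (by fun_prop) (by fun_prop)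
      have m1 : Measurable (fun q : ℝ × ℝ => ∫⁻ r in Icc (S / 2) S, CNT_T1 F p q.1 r q.2) :=
        m0.lintegral_prod_right'
      exact m1.lintegral_prod_right'
    rw [← lintegral_finsetSum _ hmeas]
    calc ∫⁻ t in Icc (1/8 : ℝ) (1/4), ∑ p ∈ P, ∫⁻ τ in CNT_act p, ∫⁻ r in Icc (S / 2) S,
          CNT_T1 F p t r τ
        ≤ ∫⁻ _ in Icc (1/8 : ℝ) (1/4), ENNReal.ofReal (1 / (Real.pi * S)) * K :=
          setLIntegral_mono' measurableSet_Icc fun t ht =>
            CNT_stepB hF hA hR1 hS0' hS hP hI hK ht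
      _ = ENNReal.ofReal (1 / (8 * Real.pi * S)) * K := by
          rw [lintegral_const, Measure.restrict_apply_univ, Real.volume_Icc, mul_right_comm,
            ← ENNReal.ofReal_mul (by positivity)]
          congr 2
          field_simp
          norm_num
  -- second term
  have hCt : ∑ p ∈ P, ∫⁻ τ in CNT_act p, ∫⁻ r in Icc (S / 2) S, ∫⁻ t in Icc (1/8 : ℝ) (1/4),
          CNT_T2 F p t r τ ≤ ENNReal.ofReal (2 * C' * R * S / Real.pi) * D := by
    have e1 : ∀ p τ r, τ ∈ CNT_act p → ∫⁻ t in Icc (1/8 : ℝ) (1/4), CNT_T2 F p t r τ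
        ≤ ENNReal.ofReal (4 / Real.pi) * ∫⁻ β in closedBall (0 : ℂ) (1 / 2),
          rd F τ β (p.1 : ℂ) (2 * r) := by
      intro p τ r hτ
      have hm : Measurable (fun β : ℂ => rd F τ β (p.1 : ℂ) (2 * r)) :=
        CNT_rd_meas hF _ measurable_const measurable_id measurable_const
      have h1 := CNT_polar hm ((((p.2 : ℝ) - τ * p.1 : ℝ)) : ℂ) (r1 := 1/8) (r2 := 1/4)
        (by norm_num)
      refine h1.trans ?_
      have h2 : 1 / (2 * Real.pi * (1/8)) = 4 / Real.pi := by field_simp; norm_num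
      rw [h2]
      refine mul_le_mul' le_rfl (lintegral_mono_set ?_)
      refine closedBall_subset_closedBall' ?_
      rw [dist_zero_right, Complex.norm_real, Real.norm_eq_abs]
      have : |(p.2 : ℝ) - τ * p.1| ≤ 1 / 8 := hτ
      linarith
    -- rewrite as an integral over the window
    have hsubJ : ∀ p ∈ P, CNT_act p ⊆ Icc (A / 4) (4 * B) := by
      intro p hp
      obtain ⟨h1, h2, h3, h4, h5⟩ := hP p hp
      refine (CNT_act_sub hA hR1 h1 h3 h4).trans (Icc_subset_Icc (by linarith) (by linarith))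
    have hmr2 : ∀ p : ℕ × ℕ, Measurable (fun τ : ℝ => ∫⁻ r in Icc (S / 2) S,
        CNT_rI F p r τ) := by
      intro p
      have m0 : Measurable (fun q : ℝ × ℝ => CNT_rI F p q.2 q.1) :=
        CNT_rI_meas hF p measurable_snd measurable_fst
      exact m0.lintegral_prod_right'
    have hmτ : ∀ (p : ℕ × ℕ) (τ : ℝ), Measurable (fun r : ℝ => CNT_rI F p r τ) := fun p τ =>
      CNT_rI_meas hF p measurable_id measurable_const
    have e2 : ∀ τ : ℝ, ∑ p ∈ P, (CNT_act p).indicator (fun τ => ∫⁻ r in Icc (S / 2) S,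
          CNT_rI F p r τ) τ
        = ∫⁻ r in Icc (S / 2) S, ∑ p ∈ P, (CNT_act p).indicator (fun τ => CNT_rI F p r τ) τ := by
      intro τ
      rw [lintegral_finsetSum]
      · refine Finset.sum_congr rfl fun p _ => ?_
        by_cases h : τ ∈ CNT_act p
        · simp only [indicator_of_mem h]
        · simp only [indicator_of_notMem h, lintegral_zero]
      · intro p _
        by_cases h : τ ∈ CNT_act p
        · simp only [indicator_of_mem h]
          exact hmτ p τ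
        · simp only [indicator_of_notMem h]
          exact measurable_const
    calc ∑ p ∈ P, ∫⁻ τ in CNT_act p, ∫⁻ r in Icc (S / 2) S, ∫⁻ t in Icc (1/8 : ℝ) (1/4),
          CNT_T2 F p t r τ
        ≤ ∑ p ∈ P, ∫⁻ τ in CNT_act p, ∫⁻ r in Icc (S / 2) S, ENNReal.ofReal (4 / Real.pi) *
            CNT_rI F p r τ := by
          refine Finset.sum_le_sum fun p _ => ?_
          refine setLIntegral_mono' (CNT_act_meas p) fun τ hτ => ?_
          exact lintegral_mono fun r => e1 p τ r hτ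
      _ = ENNReal.ofReal (4 / Real.pi) * ∑ p ∈ P, ∫⁻ τ in CNT_act p, ∫⁻ r in Icc (S / 2) S,
            CNT_rI F p r τ := by
          rw [Finset.mul_sum]
          refine Finset.sum_congr rfl fun p _ => ?_
          rw [← lintegral_const_mul' _ _ ENNReal.ofReal_ne_top]
          refine lintegral_congr fun τ => ?_
          rw [lintegral_const_mul' _ _ ENNReal.ofReal_ne_top]
      _ = ENNReal.ofReal (4 / Real.pi) * ∫⁻ τ in Icc (A / 4) (4 * B), ∑ p ∈ P,
            (CNT_act p).indicator (fun τ => ∫⁻ r in Icc (S / 2) S, CNT_rI F p r τ) τ := by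
          congr 1
          rw [lintegral_finsetSum _ fun p _ => (hmr2 p).indicator (CNT_act_meas p)]
          refine Finset.sum_congr rfl fun p hp => ?_
          rw [lintegral_indicator (CNT_act_meas p), Measure.restrict_restrict (CNT_act_meas p),
            inter_eq_left.2 (hsubJ p hp)]
      _ ≤ ENNReal.ofReal (4 / Real.pi) * ∫⁻ τ in Icc (A / 4) (4 * B),
            ENNReal.ofReal (S - S / 2) * (ENNReal.ofReal (C' * R) *
              ∫⁻ β in closedBall (0 : ℂ) (1 / 2), (af (fun z => nl (leaf F τ β z)) (R / 8)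
                - af (fun z => nl (leaf F τ β z)) (64 * R))) := by
          refine mul_le_mul' le_rfl (lintegral_mono_ae ?_)
          filter_upwards [hae, ae_restrict_mem measurableSet_Icc] with τ hτf hτJ
          have hτ0 : 0 ≤ τ := by
            have := hτJ.1
            linarith
          rw [e2 τ]
          have e3 : ∫⁻ r in Icc (S / 2) S, ∑ p ∈ P, (CNT_act p).indicator
                (fun τ => CNT_rI F p r τ) τ
              ≤ ∫⁻ _ in Icc (S / 2) S, ENNReal.ofReal (C' * R) *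
                ∫⁻ β in closedBall (0 : ℂ) (1 / 2), (af (fun z => nl (leaf F τ β z)) (R / 8)
                  - af (fun z => nl (leaf F τ β z)) (64 * R)) :=
                setLIntegral_mono' measurableSet_Icc fun r hr =>
                  CNT_stepC hF hR0 hS0' hS hLD (fun p hp => ⟨(hP p hp).1, (hP p hp).2.1⟩)
                    hI hτ0 hr hτf
          rw [lintegral_const, Measure.restrict_apply_univ, Real.volume_Icc, mul_comm] at e3
          exact e3
      _ = ENNReal.ofReal (2 * C' * R * S / Real.pi) * D := by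
          rw [lintegral_const_mul' _ _ ENNReal.ofReal_ne_top,
            lintegral_const_mul' _ _ ENNReal.ofReal_ne_top, ← hD, ← mul_assoc, ← mul_assoc,
            ← ENNReal.ofReal_mul (by positivity), ← ENNReal.ofReal_mul (by
              have : 0 ≤ S - S / 2 := by linarith
              positivity)]
          congr 2
          field_simp
          ring
  have hsum := hAsum.trans (add_le_add hB hCt)
  rw [Finset.sum_const, nsmul_eq_mul] at hsum
  have hk : ENNReal.ofReal (P.card / R) = ENNReal.ofReal (256 / (Real.log 2 * S)) *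
      (P.card * ENNReal.ofReal (Real.log 2 * S / (256 * R))) := by
    rw [← ENNReal.ofReal_natCast, ← ENNReal.ofReal_mul (by positivity),
      ← ENNReal.ofReal_mul (by positivity)]
    congr 1
    field_simp
  rw [hk]
  refine (mul_le_mul' le_rfl hsum).trans ?_
  rw [mul_add, ← mul_assoc, ← mul_assoc, ← ENNReal.ofReal_mul (by positivity),
    ← ENNReal.ofReal_mul (by positivity)]
  refine add_le_add (mul_le_mul' (ENNReal.ofReal_le_ofReal ?_) le_rfl)
    (mul_le_mul' (ENNReal.ofReal_le_ofReal ?_) le_rfl)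
  · rw [show 256 / (Real.log 2 * S) * (1 / (8 * Real.pi * S))
      = (32 / (Real.pi * Real.log 2)) / S ^ 2 by field_simp; norm_num]
    gcongr
    have : 0 ≤ 512 * C' / (Real.pi * Real.log 2) := by positivity
    linarith
  · rw [show 256 / (Real.log 2 * S) * (2 * C' * R * S / Real.pi)
      = (512 * C' / (Real.pi * Real.log 2)) * R by field_simp; norm_num]
    gcongr
    have : 0 ≤ 32 / (Real.pi * Real.log 2) := by positivity
    linarith

end Muntz
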