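import Pool.Agent.Lib.MP_dde81e_an.Defs

/-! MP_dde81e_an, module CONC : one dimensional concavity lemma -/

namespace Muntz
open MeasureTheory Set Metric
open scoped ENNReal

/-- composition of a function, lower semicontinuous on an interval, with a shifted sine -/
theorem conc_lsc {y : ℝ → ℝ} {ρ : ℝ} (hl : LowerSemicontinuousOn y (Icc (-ρ) ρ)) {q r : ℝ}
    (hr : 0 ≤ r) (hqr : |q| + r ≤ ρ) :
    LowerSemicontinuous (fun φ : ℝ => y (q + r * Real.sin φ)) := by
  have hmem : ∀ φ : ℝ, q + r * Real.sin φ ∈ Icc (-ρ) ρ := by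
    intro φ
    have h1 := Real.neg_one_le_sin φ
    have h2 := Real.sin_le_one φ
    have h3 := abs_le.1 (le_refl |q|)
    constructor
    · nlinarith
    · nlinarith
  intro φ c hc
  have h1 := hl (q + r * Real.sin φ) (hmem φ) c hc
  have hcont : ContinuousWithinAt (fun φ : ℝ => q + r * Real.sin φ) univ φ := by
    apply Continuous.continuousWithinAt
    fun_prop
  have h2 : Filter.Tendsto (fun φ : ℝ => q + r * Real.sin φ) (nhds φ)
      (nhdsWithin (q + r * Real.sin φ) (Icc (-ρ) ρ)) := by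
    apply tendsto_nhdsWithin_of_tendsto_nhds_of_eventually_within
    · have : Continuous (fun φ : ℝ => q + r * Real.sin φ) := by fun_prop
      exact this.continuousAt
    · exact Filter.Eventually.of_forall hmem
  exact h2.eventually h1

theorem conc_int {y : ℝ → ℝ} {ρ M : ℝ} (hl : LowerSemicontinuousOn y (Icc (-ρ) ρ))
    (hM : ∀ q ∈ Icc (-ρ) ρ, 0 ≤ y q ∧ y q ≤ M) {q r : ℝ}
    (hr : 0 ≤ r) (hqr : |q| + r ≤ ρ) (a b : ℝ) :
    IntervalIntegrable (fun φ : ℝ => y (q + r * Real.sin φ)) volume a b := by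
  have hmem : ∀ φ : ℝ, q + r * Real.sin φ ∈ Icc (-ρ) ρ := by
    intro φ
    have h1 := Real.neg_one_le_sin φ
    have h2 := Real.sin_le_one φ
    have h3 := abs_le.1 (le_refl |q|)
    constructor
    · nlinarith
    · nlinarith
  have hmeas : Measurable (fun φ : ℝ => y (q + r * Real.sin φ)) :=
    (conc_lsc hl hr hqr).measurable
  have hc : IntervalIntegrable (fun _ : ℝ => M) volume a b := intervalIntegrable_const
  refine IntervalIntegrable.mono_fun hc hmeas.aestronglyMeasurable ?_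
  refine Filter.Eventually.of_forall (fun φ => ?_)
  have h := hM _ (hmem φ)
  simp only [Real.norm_eq_abs]
  rw [abs_of_nonneg h.1, abs_of_nonneg (h.1.trans h.2)]
  exact h.2

theorem conc {y : ℝ → ℝ} {D ρ M : ℝ} (hρ : 0 < ρ) (hD : 0 ≤ D)
    (hl : LowerSemicontinuousOn y (Icc (-ρ) ρ)) (hM : ∀ q ∈ Icc (-ρ) ρ, 0 ≤ y q ∧ y q ≤ M)
    (hm : ∀ q r, 0 < r → |q| + r ≤ ρ →
      (1 / (2 * Real.pi)) * ∫ φ in (0:ℝ)..(2 * Real.pi), y (q + r * Real.sin φ) ≤ y q + D * r ^ 2)
    (q r : ℝ) (hr : 0 ≤ r) (hqr : |q| + r ≤ ρ) :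
    y (q - r) + y (q + r) ≤ 2 * y q + 4 * D * r ^ 2 := by
  rcases hr.eq_or_lt with rfl | hr0
  · simp
    linarith
  by_contra hcon
  push Not at hcon
  have hq3 := abs_le.1 (le_refl |q|)
  set a := q - r with ha
  set b := q + r with hb
  have haρ : -ρ ≤ a := by linarith
  have hbρ : b ≤ ρ := by linarith
  have hab : a < b := by linarith
  -- the comparison function
  set s : ℝ := ((y b - 2 * D * b ^ 2) - (y a - 2 * D * a ^ 2)) / (b - a) with hs
  set Z : ℝ → ℝ := fun x => y x - 2 * D * x ^ 2 - ((y a - 2 * D * a ^ 2) + s * (x - a)) with hZ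
  have hZa : Z a = 0 := by simp [hZ]
  have hZb : Z b = 0 := by
    have h1 : s * (b - a) = (y b - 2 * D * b ^ 2) - (y a - 2 * D * a ^ 2) := by
      rw [hs]
      exact div_mul_cancel₀ _ (by linarith)
    simp only [hZ]
    rw [h1]
    ring
  have hZq : Z q < 0 := by
    have h1 : s * (q - a) = ((y b - 2 * D * b ^ 2) - (y a - 2 * D * a ^ 2)) / 2 := by
      have h2 : q - a = (b - a) / 2 := by rw [ha, hb]; ring
      have h3 : s * (b - a) = (y b - 2 * D * b ^ 2) - (y a - 2 * D * a ^ 2) := by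
        rw [hs]
        exact div_mul_cancel₀ _ (by linarith)
      rw [h2]
      linarith
    simp only [hZ]
    rw [h1]
    have h4 : 2 * D * (a ^ 2 + b ^ 2) = 4 * D * q ^ 2 + 4 * D * r ^ 2 := by rw [ha, hb]; ring
    linarith
  have hZl : LowerSemicontinuousOn Z (Icc a b) := by
    have h1 : LowerSemicontinuousOn y (Icc a b) := hl.mono (Icc_subset_Icc haρ hbρ)
    have h2 : ContinuousOn (fun x : ℝ => - 2 * D * x ^ 2 - ((y a - 2 * D * a ^ 2) + s * (x - a)))
        (Icc a b) := by fun_prop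
    have h3 := h1.add h2.lowerSemicontinuousOn
    have h4 : (fun x : ℝ => y x + (- 2 * D * x ^ 2 - ((y a - 2 * D * a ^ 2) + s * (x - a)))) = Z := by
      funext x
      simp only [hZ]
      ring
    rw [← h4]
    exact h3
  obtain ⟨x0, hx0, hx0min⟩ := hZl.exists_isMinOn ⟨a, left_mem_Icc.2 hab.le⟩ isCompact_Icc
  set μ := Z x0 with hμ
  have hμneg : μ < 0 := lt_of_le_of_lt (hx0min ⟨by linarith, by linarith⟩) hZq
  -- the set of minimisers
  have hKc : IsCompact (Icc a b ∩ Z ⁻¹' Iic μ) := hZl.isCompact_inter_preimage_Iic isCompact_Icc μ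
  obtain ⟨q1, hq1K, hq1min⟩ := hKc.exists_isLeast ⟨x0, hx0, le_refl μ⟩
  have hq1ab : q1 ∈ Icc a b := hq1K.1
  have hq1μ : Z q1 ≤ μ := hq1K.2
  have hmin : ∀ x ∈ Icc a b, μ ≤ Z x := fun x hx => hx0min hx
  have hstrict : ∀ x ∈ Icc a b, x < q1 → μ < Z x := by
    intro x hx hxq
    by_contra hc
    have : q1 ≤ x := hq1min ⟨hx, not_lt.1 hc⟩
    linarith
  have hq1a : a < q1 := by
    rcases hq1ab.1.eq_or_lt with h | h
    · rw [← h, hZa] at hq1μ
      linarith
    · exact h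
  have hq1b : q1 < b := by
    rcases hq1ab.2.eq_or_lt with h | h
    · rw [h, hZb] at hq1μ
      linarith
    · exact h
  obtain ⟨r1, hr1, hr1a, hr1b⟩ : ∃ r1 : ℝ, 0 < r1 ∧ a ≤ q1 - r1 ∧ q1 + r1 ≤ b :=
    ⟨min (q1 - a) (b - q1), lt_min (by linarith) (by linarith),
      by linarith [min_le_left (q1 - a) (b - q1)], by linarith [min_le_right (q1 - a) (b - q1)]⟩
  have hq1r : |q1| + r1 ≤ ρ := by
    rcases abs_cases q1 with ⟨h, _⟩ | ⟨h, _⟩ <;> rw [h] <;> linarith
  have hmem : ∀ φ : ℝ, q1 + r1 * Real.sin φ ∈ Icc a b := by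
    intro φ
    have h1 := Real.neg_one_le_sin φ
    have h2 := Real.sin_le_one φ
    constructor
    · nlinarith
    · nlinarith
  have hyint := conc_int hl hM hr1.le hq1r 0 (2 * Real.pi)
  have hmean := hm q1 r1 hr1 hq1r
  -- the integrand
  set g : ℝ → ℝ := fun φ => Z (q1 + r1 * Real.sin φ) - μ with hg
  have hgnn : ∀ φ, 0 ≤ g φ := fun φ => sub_nonneg.2 (hmin _ (hmem φ))
  have hpoly : Continuous (fun φ : ℝ => - (2 * D * (q1 + r1 * Real.sin φ) ^ 2)
      - ((y a - 2 * D * a ^ 2) + s * (q1 + r1 * Real.sin φ - a)) - μ) := by fun_prop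
  have hgeq : g = fun φ => y (q1 + r1 * Real.sin φ) + (- (2 * D * (q1 + r1 * Real.sin φ) ^ 2)
      - ((y a - 2 * D * a ^ 2) + s * (q1 + r1 * Real.sin φ - a)) - μ) := by
    funext φ
    simp only [hg, hZ]
    ring
  have hgint : ∀ c d : ℝ, IntervalIntegrable g volume c d := by
    intro c d
    rw [hgeq]
    exact (conc_int hl hM hr1.le hq1r c d).add (hpoly.intervalIntegrable c d)
  have hpi := Real.pi_pos
  have h1 : 0 ≤ ∫ φ in (0:ℝ)..Real.pi, g φ :=
    intervalIntegral.integral_nonneg hpi.le (fun φ _ => hgnn φ)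
  have h2 : 0 < ∫ φ in Real.pi..(2 * Real.pi), g φ := by
    apply intervalIntegral.intervalIntegral_pos_of_pos_on (hgint _ _) _ (by linarith)
    intro φ hφ
    have hsin : Real.sin φ < 0 := by
      have h3 : Real.sin (φ - Real.pi) = - Real.sin φ := Real.sin_sub_pi φ
      have h4 : 0 < Real.sin (φ - Real.pi) :=
        Real.sin_pos_of_pos_of_lt_pi (by linarith [hφ.1]) (by linarith [hφ.2])
      linarith
    have h5 : q1 + r1 * Real.sin φ < q1 := by nlinarith
    have h6 := hstrict _ (hmem φ) h5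
    simp only [hg]
    linarith
  have h3 : 0 < ∫ φ in (0:ℝ)..(2 * Real.pi), g φ := by
    rw [← intervalIntegral.integral_add_adjacent_intervals (hgint 0 Real.pi)
      (hgint Real.pi (2 * Real.pi))]
    linarith
  -- evaluation of the integral
  have h4 : ∫ φ in (0:ℝ)..(2 * Real.pi), g φ =
      (∫ φ in (0:ℝ)..(2 * Real.pi), y (q1 + r1 * Real.sin φ)) +
      ∫ φ in (0:ℝ)..(2 * Real.pi), (- (2 * D * (q1 + r1 * Real.sin φ) ^ 2)
      - ((y a - 2 * D * a ^ 2) + s * (q1 + r1 * Real.sin φ - a)) - μ) := by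
    rw [hgeq]
    exact intervalIntegral.integral_add hyint (hpoly.intervalIntegrable _ _)
  have h5 : ∫ φ in (0:ℝ)..(2 * Real.pi), (- (2 * D * (q1 + r1 * Real.sin φ) ^ 2)
      - ((y a - 2 * D * a ^ 2) + s * (q1 + r1 * Real.sin φ - a)) - μ) =
      2 * Real.pi * (- (2 * D * (q1 ^ 2 + r1 ^ 2 / 2))
      - ((y a - 2 * D * a ^ 2) + s * (q1 - a)) - μ) := by
    have e1 : ∀ φ : ℝ, (- (2 * D * (q1 + r1 * Real.sin φ) ^ 2)
      - ((y a - 2 * D * a ^ 2) + s * (q1 + r1 * Real.sin φ - a)) - μ) =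
      (- (2 * D * q1 ^ 2) - ((y a - 2 * D * a ^ 2) + s * (q1 - a)) - μ)
      + ((- (4 * D * q1 * r1) - s * r1) * Real.sin φ + (- (2 * D * r1 ^ 2)) * Real.sin φ ^ 2) := by
      intro φ
      ring
    have e2 : ∫ φ in (0:ℝ)..(2 * Real.pi), Real.sin φ = 0 := by
      rw [integral_sin]
      simp
    have e3 : ∫ φ in (0:ℝ)..(2 * Real.pi), Real.sin φ ^ 2 = Real.pi := by
      rw [integral_sin_sq]
      simp
    simp only [e1]
    rw [intervalIntegral.integral_add, intervalIntegral.integral_add,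
      intervalIntegral.integral_const_mul, intervalIntegral.integral_const_mul, e2, e3,
      intervalIntegral.integral_const]
    · simp only [smul_eq_mul]
      ring
    · exact (by fun_prop : Continuous _).intervalIntegrable _ _
    · exact (by fun_prop : Continuous _).intervalIntegrable _ _
    · exact (by fun_prop : Continuous _).intervalIntegrable _ _
    · exact (by fun_prop : Continuous _).intervalIntegrable _ _
  have h6 : (∫ φ in (0:ℝ)..(2 * Real.pi), y (q1 + r1 * Real.sin φ)) ≤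
      2 * Real.pi * (y q1 + D * r1 ^ 2) := by
    have h7 : (1 / (2 * Real.pi)) * (∫ φ in (0:ℝ)..(2 * Real.pi), y (q1 + r1 * Real.sin φ))
        = (∫ φ in (0:ℝ)..(2 * Real.pi), y (q1 + r1 * Real.sin φ)) / (2 * Real.pi) := by ring
    rw [h7, div_le_iff₀ (by linarith)] at hmean
    linarith
  have h7 : Z q1 = y q1 - 2 * D * q1 ^ 2 - ((y a - 2 * D * a ^ 2) + s * (q1 - a)) := rfl
  rw [h4, h5] at h3
  have h8 : 2 * Real.pi * (Z q1 - μ) = 2 * Real.pi * (y q1 + D * r1 ^ 2) +
      2 * Real.pi * (- (2 * D * (q1 ^ 2 + r1 ^ 2 / 2))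
      - ((y a - 2 * D * a ^ 2) + s * (q1 - a)) - μ) := by
    rw [h7]
    ring
  have h10 : 0 < 2 * Real.pi * (Z q1 - μ) := by
    rw [h8]
    linarith
  have h9 : 0 < Z q1 - μ := (mul_pos_iff_of_pos_left (by linarith)).1 h10
  linarith

end Muntz
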