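import Mathlib

/-!
Definitions for the partial result on MP_dde81e_an (Muntz type completeness on the unit square).
-/

namespace Muntz
open MeasureTheory Set Metric
open scoped ENNReal

/-- `-log |c|` as an extended nonnegative real (`⊤` at `0`, `0` for `1 ≤ |c|`). -/
noncomputable def nl (c : ℂ) : ℝ≥0∞ :=
  if c = 0 then ⊤ else ENNReal.ofReal (-Real.log ‖c‖)

/-- mean of `u` over the circle with centre `c` and radius `r`. -/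
noncomputable def cav (u : ℂ → ℝ≥0∞) (c : ℂ) (r : ℝ) : ℝ≥0∞ :=
  ENNReal.ofReal (1 / (2 * Real.pi)) * ∫⁻ θ in Ioc (0 : ℝ) (2 * Real.pi), u (circleMap c r θ)

/-- infimum of `u ζ / re ζ` over the right half of the circle `|ζ| = ρ`. -/
noncomputable def af (u : ℂ → ℝ≥0∞) (ρ : ℝ) : ℝ≥0∞ :=
  ⨅ (ζ : ℂ) (_ : ‖ζ‖ = ρ ∧ 0 < ζ.re), u ζ / ENNReal.ofReal ζ.re

/-- closed right half plane. -/
def RH : Set ℂ := {ζ | 0 ≤ ζ.re}

/-- closed rectangle. -/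
def rect (a b h : ℝ) : Set ℂ := {σ | σ.re ∈ Icc a b ∧ |σ.im| ≤ h}

/-- superharmonic on the right half plane (lower semicontinuity and super mean value property). -/
structure SH (u : ℂ → ℝ≥0∞) : Prop where
  lsc : LowerSemicontinuousOn u RH
  mean : ∀ (c : ℂ) (r : ℝ), 0 < r → r < c.re → cav u c r ≤ u c

/-- the class of functions coming from functionals on `C_0(Q)` (shifted by `(1,1)`). -/
structure GoodF (F : ℂ × ℂ → ℂ) : Prop where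
  meas : Measurable F
  diff : DifferentiableOn ℂ F {p | -1 < p.1.re ∧ -1 < p.2.re}
  bound : ∀ p : ℂ × ℂ, -1 < p.1.re → -1 < p.2.re → ‖F p‖ ≤ 1
  ne : ∃ x y : ℝ, 0 < x ∧ 0 ≤ y ∧ F ((x : ℂ), (y : ℂ)) ≠ 0

/-- restriction of `F` to the line `w = τ z + β`. -/
noncomputable def leaf (F : ℂ × ℂ → ℂ) (τ : ℝ) (β : ℂ) (ζ : ℂ) : ℂ :=
  F (ζ, (τ : ℂ) * ζ + β)

/-- smooth weight on slopes: `1` on a neighbourhood of `[A,B]`, supported in `[A/2, 2B]`. -/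
structure Wt (A B : ℝ) (w : ℝ → ℝ) : Prop where
  smooth : ContDiff ℝ 3 w
  nonneg : ∀ t, 0 ≤ w t
  le_one : ∀ t, w t ≤ 1
  one : ∀ t ∈ Icc (3 * A / 4) (B + A / 4), w t = 1
  supp : ∀ t, t ∉ Icc (A / 2) (2 * B) → w t = 0

/-- slope average of `-log |F|` on the lines `w = t z + i b`. -/
noncomputable def G (F : ℂ × ℂ → ℂ) (w : ℝ → ℝ) (b : ℝ) (ζ : ℂ) : ℝ≥0∞ :=
  ∫⁻ t : ℝ, ENNReal.ofReal (w t) * nl (F (ζ, (t : ℂ) * ζ + (b : ℂ) * Complex.I))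

/-- auxiliary average over a larger window of slopes. -/
noncomputable def G2 (F : ℂ × ℂ → ℂ) (A B : ℝ) (ζ : ℂ) : ℝ≥0∞ :=
  ∫⁻ t in Icc (A / 4) (4 * B), nl (F (ζ, (t : ℂ) * ζ))

/-- transversal defect at `ζ` on the line of slope `τ`, centre `β₀`, radius `t`. -/
noncomputable def td (F : ℂ × ℂ → ℂ) (ζ : ℂ) (τ : ℝ) (β₀ : ℂ) (t : ℝ) : ℝ≥0∞ :=
  cav (fun β => nl (F (ζ, (τ : ℂ) * ζ + β))) β₀ (t / 2)
    - cav (fun β => nl (F (ζ, (τ : ℂ) * ζ + β))) β₀ t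

/-- radial defect on the line `w = τ z + β`, centre `m`, radius `s`. -/
noncomputable def rd (F : ℂ × ℂ → ℂ) (τ : ℝ) (β : ℂ) (m : ℂ) (s : ℝ) : ℝ≥0∞ :=
  cav (fun ζ => nl (leaf F τ β ζ)) m (s / 2) - cav (fun ζ => nl (leaf F τ β ζ)) m s

/-- points of a finite set are isolated in radially aligned boxes `4S × 1`. -/
def Isolated (P : Finset (ℕ × ℕ)) (S : ℝ) : Prop :=
  ∀ p ∈ P, ∀ p' ∈ P, p ≠ p' → 4 * S < |(p'.1 : ℝ) - p.1| ∨
    1 / 2 < |((p'.2 : ℝ) - p.2) - (p.2 : ℝ) / p.1 * ((p'.1 : ℝ) - p.1)|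

/-- number of points of `Ω` with `2^j ≤ m < 2^(j+1)`, divided by `4^j`. -/
noncomputable def dens (Ω : Set (ℕ × ℕ)) (j : ℕ) : ℝ :=
  ((Ω ∩ {p | 2 ^ j ≤ p.1 ∧ p.1 < 2 ^ (j + 1)}).ncard : ℝ) / 4 ^ j

end Muntz
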