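import Mathlib

/-!
# Reduction of the Muntz problem on the square to bounded holomorphic functions

If the monomials `x^m y^n`, `(m,n) ∈ Ω`, do not span `C_0(Q)`, there is a bounded holomorphic
function on the product of two right half planes that vanishes on `Ω` and is not zero at some
point with positive integer coordinates.
-/

namespace Muntz2

open Set Topology Filter

/-- The unit square as a compact space. -/
abbrev Sq : Type := unitInterval × unitInterval

/-- The monomial `x^m y^n` as a continuous function on the square. -/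
def mono (p : ℕ × ℕ) : C(Sq, ℝ) where
  toFun q := (q.1 : ℝ) ^ p.1 * (q.2 : ℝ) ^ p.2
  continuous_toFun := by fun_prop

/-- The monomials with exponents in `Ω` span `C_0(Q)`: every continuous function on the square
that vanishes on both axes is a uniform limit of finite linear combinations. -/
def SpansC0 (Ω : Set (ℕ × ℕ)) : Prop :=
  ∀ f : C(Sq, ℝ), (∀ q : Sq, (q.1 : ℝ) = 0 ∨ (q.2 : ℝ) = 0 → f q = 0) →
    ∀ ε > 0, ∃ g ∈ Submodule.span ℝ (mono '' Ω), ‖f - g‖ < ε

theorem cpow_cont {z : ℂ} (hz : 0 < z.re) :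
    Continuous (fun x : unitInterval => ((x : ℝ) : ℂ) ^ z) := by
  exact (Complex.continuous_ofReal_cpow_const hz).comp continuous_subtype_val

theorem cpow_log_cont {z : ℂ} (hz : 0 < z.re) :
    Continuous (fun x : unitInterval => ((x : ℝ) : ℂ) ^ z * (Real.log (x : ℝ) : ℂ)) := by
  set c : ℝ := z.re / 2 with hc
  have hc0 : 0 < c := by positivity
  have h1 : Continuous (fun x : unitInterval => ((x : ℝ) : ℂ) ^ (z - (c : ℂ))) := by
    apply cpow_cont
    simp [hc]; linarith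
  have h2 : Continuous (fun x : unitInterval =>
      (((1 / c) * (((x : ℝ) ^ c) * Real.log ((x : ℝ) ^ c)) : ℝ) : ℂ)) := by
    refine Complex.continuous_ofReal.comp ?_
    refine continuous_const.mul ?_
    exact Real.continuous_mul_log.comp
      ((Real.continuous_rpow_const hc0.le).comp continuous_subtype_val)
  refine (h1.mul h2).congr ?_
  intro x
  rcases eq_or_lt_of_le x.2.1 with hx | hx
  · have hx0 : (x : ℝ) = 0 := hx.symm
    have hz0 : z ≠ 0 := by
      intro h; rw [h] at hz; simp at hz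
    have hzc : z - (c : ℂ) ≠ 0 := by
      intro h
      have := congrArg Complex.re h
      simp [hc] at this
      linarith
    simp [hx0, Complex.zero_cpow hz0, Complex.zero_cpow hzc]
  · have hxc : ((x : ℝ) : ℂ) ≠ 0 := by exact_mod_cast hx.ne'
    show ((x : ℝ) : ℂ) ^ (z - (c : ℂ)) *
      (((1 / c) * (((x : ℝ) ^ c) * Real.log ((x : ℝ) ^ c)) : ℝ) : ℂ) =
      ((x : ℝ) : ℂ) ^ z * (Real.log (x : ℝ) : ℂ)
    rw [Real.log_rpow hx]
    have e1 : ((x : ℝ) : ℂ) ^ z = ((x : ℝ) : ℂ) ^ (z - (c : ℂ)) * ((x : ℝ) : ℂ) ^ (c : ℂ) := by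
      rw [← Complex.cpow_add _ _ hxc]; simp
    have hcc : (c : ℂ) ≠ 0 := by exact_mod_cast hc0.ne'
    rw [e1, ← Complex.ofReal_cpow hx.le]
    push_cast
    field_simp

/-- the complex monomial `x^z y^w`, `0` if not both real parts are positive -/
noncomputable def cm (p : ℂ × ℂ) : C(Sq, ℂ) :=
  if h : 0 < p.1.re ∧ 0 < p.2.re then
    { toFun := fun q => ((q.1 : ℝ) : ℂ) ^ p.1 * ((q.2 : ℝ) : ℂ) ^ p.2
      continuous_toFun := ((cpow_cont h.1).comp continuous_fst).mul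
        ((cpow_cont h.2).comp continuous_snd) }
  else 0

theorem cm_apply {p : ℂ × ℂ} (h1 : 0 < p.1.re) (h2 : 0 < p.2.re) (q : Sq) :
    cm p q = ((q.1 : ℝ) : ℂ) ^ p.1 * ((q.2 : ℝ) : ℂ) ^ p.2 := by
  rw [cm, dif_pos ⟨h1, h2⟩]; rfl

theorem norm_cpow_le {z : ℂ} (hz : 0 < z.re) (x : unitInterval) :
    ‖((x : ℝ) : ℂ) ^ z‖ ≤ 1 := by
  rcases eq_or_lt_of_le x.2.1 with hx | hx
  · have hx0 : (x : ℝ) = 0 := hx.symm
    have hz0 : z ≠ 0 := by
      intro h; rw [h] at hz; simp at hz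
    simp [hx0, Complex.zero_cpow hz0]
  · rw [Complex.norm_cpow_eq_rpow_re_of_pos hx]
    exact Real.rpow_le_one hx.le x.2.2 hz.le

theorem norm_cm_le (p : ℂ × ℂ) : ‖cm p‖ ≤ 1 := by
  rw [ContinuousMap.norm_le _ zero_le_one]
  intro q
  by_cases h : 0 < p.1.re ∧ 0 < p.2.re
  · rw [cm_apply h.1 h.2, norm_mul]
    calc _ ≤ (1 : ℝ) * 1 := mul_le_mul (norm_cpow_le h.1 _) (norm_cpow_le h.2 _)
          (norm_nonneg _) zero_le_one
      _ = 1 := by norm_num
  · rw [cm, dif_neg h]; simp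

/-- `x^z log x · y^w` -/
noncomputable def cml1 (p : ℂ × ℂ) : C(Sq, ℂ) :=
  if h : 0 < p.1.re ∧ 0 < p.2.re then
    { toFun := fun q => (((q.1 : ℝ) : ℂ) ^ p.1 * (Real.log (q.1 : ℝ) : ℂ)) *
        ((q.2 : ℝ) : ℂ) ^ p.2
      continuous_toFun := ((cpow_log_cont h.1).comp continuous_fst).mul
        ((cpow_cont h.2).comp continuous_snd) }
  else 0

/-- `x^z · y^w log y` -/
noncomputable def cml2 (p : ℂ × ℂ) : C(Sq, ℂ) :=
  if h : 0 < p.1.re ∧ 0 < p.2.re then
    { toFun := fun q => ((q.1 : ℝ) : ℂ) ^ p.1 *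
        (((q.2 : ℝ) : ℂ) ^ p.2 * (Real.log (q.2 : ℝ) : ℂ))
      continuous_toFun := ((cpow_cont h.1).comp continuous_fst).mul
        ((cpow_log_cont h.2).comp continuous_snd) }
  else 0

theorem cml1_apply {p : ℂ × ℂ} (h1 : 0 < p.1.re) (h2 : 0 < p.2.re) (q : Sq) :
    cml1 p q = (((q.1 : ℝ) : ℂ) ^ p.1 * (Real.log (q.1 : ℝ) : ℂ)) *
        ((q.2 : ℝ) : ℂ) ^ p.2 := by
  rw [cml1, dif_pos ⟨h1, h2⟩]; rfl

theorem cml2_apply {p : ℂ × ℂ} (h1 : 0 < p.1.re) (h2 : 0 < p.2.re) (q : Sq) :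
    cml2 p q = ((q.1 : ℝ) : ℂ) ^ p.1 *
        (((q.2 : ℝ) : ℂ) ^ p.2 * (Real.log (q.2 : ℝ) : ℂ)) := by
  rw [cml2, dif_pos ⟨h1, h2⟩]; rfl

/-- elementary: `T² e^{-mT/2} ≤ 8/m²` -/
theorem sq_exp_le {m T : ℝ} (hm : 0 < m) (hT : 0 ≤ T) :
    T ^ 2 * Real.exp (-(m * T) / 2) ≤ 8 / m ^ 2 := by
  have h : (m * T / 2) ^ 2 / 2 ≤ Real.exp (m * T / 2) := by
    have := Real.quadratic_le_exp_of_nonneg (x := m * T / 2) (by positivity)
    nlinarith [mul_nonneg hm.le hT]
  have e : Real.exp (-(m * T) / 2) = (Real.exp (m * T / 2))⁻¹ := by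
    rw [← Real.exp_neg]; congr 1; ring
  rw [e, ← div_eq_mul_inv, div_le_div_iff₀ (Real.exp_pos _) (by positivity)]
  nlinarith [Real.exp_pos (m * T / 2)]

/-- the remainder estimate -/
theorem cm_rem {p : ℂ × ℂ} {m : ℝ} (hm : 0 < m) (h1 : m ≤ p.1.re) (h2 : m ≤ p.2.re)
    {h : ℂ × ℂ} (hh : ‖h‖ ≤ m / 2) :
    ‖cm (p + h) - cm p - (h.1 • cml1 p + h.2 • cml2 p)‖ ≤ (8 / m ^ 2) * ‖h‖ ^ 2 := by
  have hp1 : 0 < p.1.re := hm.trans_le h1
  have hp2 : 0 < p.2.re := hm.trans_le h2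
  have n1 : ‖h.1‖ ≤ ‖h‖ := norm_fst_le h
  have n2 : ‖h.2‖ ≤ ‖h‖ := norm_snd_le h
  have k1 : 0 < (p + h).1.re := by
    have := Complex.abs_re_le_norm h.1
    have := (abs_le.1 (this.trans (n1.trans hh))).1
    simp only [Prod.fst_add, Complex.add_re]; linarith
  have k2 : 0 < (p + h).2.re := by
    have := Complex.abs_re_le_norm h.2
    have := (abs_le.1 (this.trans (n2.trans hh))).1
    simp only [Prod.snd_add, Complex.add_re]; linarith
  rw [ContinuousMap.norm_le _ (by positivity)]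
  intro q
  simp only [ContinuousMap.sub_apply, ContinuousMap.add_apply, ContinuousMap.smul_apply,
    cm_apply hp1 hp2, cm_apply k1 k2, cml1_apply hp1 hp2, cml2_apply hp1 hp2, smul_eq_mul]
  obtain ⟨x, y⟩ := q
  simp only
  rcases eq_or_lt_of_le x.2.1 with hx | hx
  · have hx0 : (x : ℝ) = 0 := hx.symm
    have z1 : p.1 ≠ 0 := by intro h; rw [h] at hp1; simp at hp1
    have z2 : (p + h).1 ≠ 0 := by intro h; rw [h] at k1; simp at k1
    simp only [hx0, Complex.ofReal_zero, Complex.zero_cpow z1, Complex.zero_cpow z2]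
    simp
    positivity
  rcases eq_or_lt_of_le y.2.1 with hy | hy
  · have hy0 : (y : ℝ) = 0 := hy.symm
    have z1 : p.2 ≠ 0 := by intro h; rw [h] at hp2; simp at hp2
    have z2 : (p + h).2 ≠ 0 := by intro h; rw [h] at k2; simp at k2
    simp only [hy0, Complex.ofReal_zero, Complex.zero_cpow z1, Complex.zero_cpow z2]
    simp
    positivity
  have hxc : ((x : ℝ) : ℂ) ≠ 0 := by exact_mod_cast hx.ne'
  have hyc : ((y : ℝ) : ℂ) ≠ 0 := by exact_mod_cast hy.ne'
  set a : ℝ := Real.log (x : ℝ) with ha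
  set b : ℝ := Real.log (y : ℝ) with hb
  have ha0 : a ≤ 0 := Real.log_nonpos hx.le x.2.2
  have hb0 : b ≤ 0 := Real.log_nonpos hy.le y.2.2
  have ex : ∀ z : ℂ, ((x : ℝ) : ℂ) ^ z = Complex.exp (z * a) := by
    intro z
    rw [Complex.cpow_def_of_ne_zero hxc, ← Complex.ofReal_log hx.le, mul_comm]
  have ey : ∀ z : ℂ, ((y : ℝ) : ℂ) ^ z = Complex.exp (z * b) := by
    intro z
    rw [Complex.cpow_def_of_ne_zero hyc, ← Complex.ofReal_log hy.le, mul_comm]
  rw [ex, ey, ex, ey]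
  set s : ℂ := h.1 * a + h.2 * b with hs
  have key : Complex.exp ((p + h).1 * a) * Complex.exp ((p + h).2 * b) -
      Complex.exp (p.1 * a) * Complex.exp (p.2 * b) -
      (h.1 * (Complex.exp (p.1 * a) * a * Complex.exp (p.2 * b)) +
        h.2 * (Complex.exp (p.1 * a) * (Complex.exp (p.2 * b) * b))) =
      Complex.exp (p.1 * a + p.2 * b) * (Complex.exp s - 1 - s) := by
    simp only [Prod.fst_add, Prod.snd_add, hs]
    rw [show (p.1 + h.1) * (a : ℂ) = p.1 * a + h.1 * a by ring,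
      show (p.2 + h.2) * (b : ℂ) = p.2 * b + h.2 * b by ring]
    simp only [Complex.exp_add]
    ring
  rw [key, norm_mul]
  set T : ℝ := -a - b with hT
  have hT0 : 0 ≤ T := by rw [hT]; linarith
  have b1 : ‖Complex.exp (p.1 * a + p.2 * b)‖ ≤ Real.exp (-(m * T)) := by
    rw [Complex.norm_exp]
    apply Real.exp_le_exp.2
    simp only [Complex.add_re, Complex.mul_re, Complex.ofReal_re, Complex.ofReal_im, mul_zero,
      sub_zero]
    rw [hT]
    nlinarith
  have b2 : ‖s‖ ≤ ‖h‖ * T := by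
    rw [hs]
    calc ‖h.1 * (a : ℂ) + h.2 * (b : ℂ)‖ ≤ ‖h.1 * (a : ℂ)‖ + ‖h.2 * (b : ℂ)‖ := norm_add_le _ _
      _ = ‖h.1‖ * |a| + ‖h.2‖ * |b| := by
          rw [norm_mul, norm_mul, Complex.norm_real, Complex.norm_real, Real.norm_eq_abs,
            Real.norm_eq_abs]
      _ ≤ ‖h‖ * |a| + ‖h‖ * |b| := by gcongr
      _ = ‖h‖ * T := by rw [abs_of_nonpos ha0, abs_of_nonpos hb0, hT]; ring
  have b3 : ‖Complex.exp s - 1 - s‖ ≤ ‖s‖ ^ 2 * Real.exp ‖s‖ := by
    have := Complex.norm_exp_sub_sum_le_norm_mul_exp s 2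
    simpa [Finset.sum_range_succ, sub_sub] using this
  have hhT : ‖h‖ * T ≤ m * T / 2 := by nlinarith
  calc ‖Complex.exp (p.1 * a + p.2 * b)‖ * ‖Complex.exp s - 1 - s‖
      ≤ Real.exp (-(m * T)) * ((‖h‖ * T) ^ 2 * Real.exp (m * T / 2)) := by
        refine mul_le_mul b1 (b3.trans ?_) (norm_nonneg _) (Real.exp_pos _).le
        have e1 : ‖s‖ ^ 2 ≤ (‖h‖ * T) ^ 2 := by
          exact pow_le_pow_left₀ (norm_nonneg _) b2 2
        have e2 : Real.exp ‖s‖ ≤ Real.exp (m * T / 2) := Real.exp_le_exp.2 (b2.trans hhT)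
        exact mul_le_mul e1 e2 (Real.exp_pos _).le (by positivity)
    _ = ‖h‖ ^ 2 * (T ^ 2 * Real.exp (-(m * T) / 2)) := by
        have : Real.exp (-(m * T) / 2) = Real.exp (-(m * T)) * Real.exp (m * T / 2) := by
          rw [← Real.exp_add]; congr 1; ring
        rw [this]; ring
    _ ≤ ‖h‖ ^ 2 * (8 / m ^ 2) := by
        exact mul_le_mul_of_nonneg_left (sq_exp_le hm hT0) (by positivity)
    _ = (8 / m ^ 2) * ‖h‖ ^ 2 := by ring

/-- holomorphy of `(z,w) ↦ x^z y^w` -/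
theorem cm_hasFDerivAt {p : ℂ × ℂ} (h1 : 0 < p.1.re) (h2 : 0 < p.2.re) :
    HasFDerivAt cm ((ContinuousLinearMap.fst ℂ ℂ ℂ).smulRight (cml1 p) +
      (ContinuousLinearMap.snd ℂ ℂ ℂ).smulRight (cml2 p)) p := by
  set m : ℝ := min p.1.re p.2.re with hm
  have hm0 : 0 < m := lt_min h1 h2
  rw [hasFDerivAt_iff_isLittleO_nhds_zero]
  have hO : (fun h : ℂ × ℂ => cm (p + h) - cm p -
      ((ContinuousLinearMap.fst ℂ ℂ ℂ).smulRight (cml1 p) +
      (ContinuousLinearMap.snd ℂ ℂ ℂ).smulRight (cml2 p)) h) =O[𝓝 0]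
      (fun h : ℂ × ℂ => ‖h‖ ^ 2) := by
    refine Asymptotics.IsBigO.of_bound (8 / m ^ 2) ?_
    have : ∀ᶠ h : ℂ × ℂ in 𝓝 0, ‖h‖ ≤ m / 2 := by
      have := Metric.closedBall_mem_nhds (0 : ℂ × ℂ) (half_pos hm0)
      filter_upwards [this] with h hh
      simpa using hh
    filter_upwards [this] with h hh
    have := cm_rem hm0 (min_le_left _ _) (min_le_right _ _) hh
    simpa using this
  refine hO.trans_isLittleO ?_
  have := Asymptotics.isLittleO_norm_pow_id (E' := ℂ × ℂ) (n := 2) one_lt_two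
  exact this

/-- composition of a real continuous function with the embedding `ℝ → ℂ` -/
noncomputable def toC (f : C(Sq, ℝ)) : C(Sq, ℂ) := ⟨fun q => (f q : ℂ), by fun_prop⟩

/-- real part of a complex continuous function -/
noncomputable def reC : C(Sq, ℂ) →L[ℝ] C(Sq, ℝ) :=
  ContinuousLinearMap.compLeftContinuous ℝ Sq Complex.reCLM

theorem reC_apply (f : C(Sq, ℂ)) (q : Sq) : reC f q = (f q).re := rfl

theorem cm_nat {m n : ℕ} (hm : 1 ≤ m) (hn : 1 ≤ n) :
    cm ((m : ℂ), (n : ℂ)) = toC (mono (m, n)) := by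
  ext q
  have h1 : 0 < ((m : ℂ), (n : ℂ)).1.re := by simp; omega
  have h2 : 0 < ((m : ℂ), (n : ℂ)).2.re := by simp; omega
  rw [cm_apply h1 h2]
  simp [toC, mono]

/-- Hahn-Banach: a functional that vanishes on the span but not at `f`. -/
theorem hb {Ω : Set (ℕ × ℕ)} (h : ¬ SpansC0 Ω) :
    ∃ L : C(Sq, ℝ) →L[ℝ] ℝ, (∀ p ∈ Ω, L (mono p) = 0) ∧
      ∃ f : C(Sq, ℝ), (∀ q : Sq, (q.1 : ℝ) = 0 ∨ (q.2 : ℝ) = 0 → f q = 0) ∧ L f ≠ 0 := by
  unfold SpansC0 at h
  push Not at h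
  obtain ⟨f, hf0, ε, hε, hf⟩ := h
  set V : Submodule ℝ C(Sq, ℝ) := Submodule.span ℝ (mono '' Ω) with hV
  have hnot : f ∉ closure (V : Set C(Sq, ℝ)) := by
    intro hcl
    rw [Metric.mem_closure_iff] at hcl
    obtain ⟨g, hg, hd⟩ := hcl ε hε
    rw [dist_eq_norm] at hd
    exact absurd hd (not_lt.2 (hf g hg))
  have hconv : Convex ℝ (closure (V : Set C(Sq, ℝ))) := V.convex.closure
  obtain ⟨L, u, hL, hLf⟩ := geometric_hahn_banach_closed_point hconv isClosed_closure hnot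
  have hu : 0 < u := by
    have := hL 0 (subset_closure V.zero_mem)
    simpa using this
  have hV0 : ∀ g ∈ V, L g = 0 := by
    intro g hg
    by_contra hne
    have h1 : ((2 * u) / L g) • g ∈ V := V.smul_mem _ hg
    have h2 := hL _ (subset_closure h1)
    rw [map_smul, smul_eq_mul, div_mul_cancel₀ _ hne] at h2
    linarith
  refine ⟨L, fun p hp => hV0 _ (Submodule.subset_span ⟨p, hp, rfl⟩), f, hf0, ?_⟩
  linarith

/-- the monomials with positive exponents span `C_0(Q)` (Weierstrass) -/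
theorem weier {L : C(Sq, ℝ) →L[ℝ] ℝ} (hL : ∀ m n : ℕ, 1 ≤ m → 1 ≤ n → L (mono (m, n)) = 0)
    (f : C(Sq, ℝ)) (hf : ∀ q : Sq, (q.1 : ℝ) = 0 ∨ (q.2 : ℝ) = 0 → f q = 0) : L f = 0 := by
  -- the algebra of polynomials
  set A : Subalgebra ℝ C(Sq, ℝ) := Algebra.adjoin ℝ {mono (1, 0), mono (0, 1)} with hA
  have hsep : A.SeparatesPoints := by
    intro q r hqr
    by_cases h1 : q.1 = r.1
    · have h2 : q.2 ≠ r.2 := fun h2 => hqr (Prod.ext h1 h2)
      refine ⟨_, ⟨mono (0, 1), Algebra.subset_adjoin (by simp), rfl⟩, ?_⟩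
      simpa [mono, Subtype.ext_iff] using h2
    · refine ⟨_, ⟨mono (1, 0), Algebra.subset_adjoin (by simp), rfl⟩, ?_⟩
      simpa [mono, Subtype.ext_iff] using h1
  have htop := ContinuousMap.subalgebra_topologicalClosure_eq_top_of_separatesPoints A hsep
  -- L vanishes on mono (1,1) * A
  have hmul : ∀ p r : ℕ × ℕ, mono p * mono r = mono (p + r) := by
    intro p r
    ext q
    simp [mono, pow_add]
    ring
  have hspan : ∀ g ∈ A, g ∈ Submodule.span ℝ (Set.range mono) := by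
    intro g hg
    refine Algebra.adjoin_induction (p := fun g _ => g ∈ Submodule.span ℝ (Set.range mono))
      ?_ ?_ ?_ ?_ hg
    · rintro x (rfl | rfl)
      · exact Submodule.subset_span ⟨_, rfl⟩
      · exact Submodule.subset_span ⟨_, rfl⟩
    · intro r
      have : algebraMap ℝ C(Sq, ℝ) r = r • mono (0, 0) := by
        ext q
        simp [mono]
      rw [this]
      exact Submodule.smul_mem _ _ (Submodule.subset_span ⟨_, rfl⟩)
    · intro x y _ _ hx hy
      exact Submodule.add_mem _ hx hy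
    · intro x y _ _ hx hy
      have h1 : x * y ∈ (Submodule.span ℝ (Set.range mono)) *
          (Submodule.span ℝ (Set.range mono)) := Submodule.mul_mem_mul hx hy
      rw [Submodule.span_mul_span] at h1
      refine Submodule.span_mono ?_ h1
      rintro _ ⟨_, ⟨p, rfl⟩, _, ⟨r, rfl⟩, rfl⟩
      exact ⟨p + r, (hmul p r).symm⟩
  have hLA : ∀ g ∈ A, L (mono (1, 1) * g) = 0 := by
    intro g hg
    have hg' := hspan g hg
    refine Submodule.span_induction (p := fun g _ => L (mono (1, 1) * g) = 0) ?_ ?_ ?_ ?_ hg'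
    · rintro _ ⟨p, rfl⟩
      show L (mono (1, 1) * mono p) = 0
      rw [hmul]
      exact hL _ _ (by simp) (by simp)
    · simp
    · intro x y _ _ hx hy
      rw [mul_add, map_add, hx, hy, add_zero]
    · intro a x _ hx
      rw [mul_smul_comm, map_smul, hx, smul_zero]
  -- by continuity on mono (1,1) * everything
  have hLall : ∀ g : C(Sq, ℝ), L (mono (1, 1) * g) = 0 := by
    intro g
    have hg : g ∈ A.topologicalClosure := by rw [htop]; trivial
    have hcl : IsClosed {g : C(Sq, ℝ) | L (mono (1, 1) * g) = 0} :=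
      isClosed_eq (by fun_prop) continuous_const
    have hsub : (A : Set C(Sq, ℝ)) ⊆ {g : C(Sq, ℝ) | L (mono (1, 1) * g) = 0} :=
      fun g hg => hLA g hg
    exact (closure_minimal hsub hcl) hg
  -- approximation of f by mono (1,1) * g
  by_contra hne
  have hpos : 0 < |L f| := abs_pos.2 hne
  set ε : ℝ := |L f| / (2 * (‖L‖ + 1)) with hε
  have hε0 : 0 < ε := by positivity
  -- compactness
  have hK : ∃ η > 0, ∀ q : Sq, (q.1 : ℝ) * (q.2 : ℝ) < η → |f q| < ε := by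
    by_cases hne : ({q : Sq | ε ≤ |f q|}).Nonempty
    · have hcomp : IsCompact {q : Sq | ε ≤ |f q|} :=
        (isClosed_le continuous_const (by fun_prop)).isCompact
      obtain ⟨q0, hq0, hmin⟩ := hcomp.exists_isMinOn hne
        (f := fun q : Sq => (q.1 : ℝ) * (q.2 : ℝ)) (by fun_prop)
      refine ⟨(q0.1 : ℝ) * (q0.2 : ℝ), ?_, ?_⟩
      · have h1 : (q0.1 : ℝ) ≠ 0 := by
          intro h
          have := hf q0 (Or.inl h)
          simp only [Set.mem_ofPred_eq, this, abs_zero] at hq0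
          linarith
        have h2 : (q0.2 : ℝ) ≠ 0 := by
          intro h
          have := hf q0 (Or.inr h)
          simp only [Set.mem_ofPred_eq, this, abs_zero] at hq0
          linarith
        exact mul_pos (lt_of_le_of_ne q0.1.2.1 (Ne.symm h1)) (lt_of_le_of_ne q0.2.2.1 (Ne.symm h2))
      · intro q hq
        by_contra hcon
        have : q ∈ {q : Sq | ε ≤ |f q|} := not_lt.1 hcon
        exact absurd (hmin this) (not_le.2 hq)
    · refine ⟨1, one_pos, fun q _ => ?_⟩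
      by_contra hcon
      exact hne ⟨q, not_lt.1 hcon⟩
  obtain ⟨η, hη, hηf⟩ := hK
  set M : ℝ := ‖f‖ + 1 with hM
  have hM0 : 0 < M := by positivity
  set d : ℝ := η * ε / M with hd
  have hd0 : 0 < d := by positivity
  -- g = f / (xy + d)
  let g : C(Sq, ℝ) := ⟨fun q => f q / ((q.1 : ℝ) * (q.2 : ℝ) + d), by
    refine f.continuous.div (by fun_prop) ?_
    intro q
    have : 0 ≤ (q.1 : ℝ) * (q.2 : ℝ) := mul_nonneg q.1.2.1 q.2.2.1
    linarith⟩
  have hclose : ‖f - mono (1, 1) * g‖ ≤ ε := by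
    rw [ContinuousMap.norm_le _ hε0.le]
    intro q
    have hxy : 0 ≤ (q.1 : ℝ) * (q.2 : ℝ) := mul_nonneg q.1.2.1 q.2.2.1
    have hden : 0 < (q.1 : ℝ) * (q.2 : ℝ) + d := by linarith
    have e1 : (f - mono (1, 1) * g) q = f q * (d / ((q.1 : ℝ) * (q.2 : ℝ) + d)) := by
      simp only [ContinuousMap.sub_apply, ContinuousMap.mul_apply, mono, g,
        ContinuousMap.coe_mk, pow_one]
      field_simp
      ring
    rw [e1, Real.norm_eq_abs, abs_mul, abs_of_nonneg (div_nonneg hd0.le hden.le)]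
    rcases lt_or_ge ((q.1 : ℝ) * (q.2 : ℝ)) η with h | h
    · have h1 := hηf q h
      have h2 : d / ((q.1 : ℝ) * (q.2 : ℝ) + d) ≤ 1 := by
        rw [div_le_one hden]; linarith
      calc _ ≤ |f q| * 1 := mul_le_mul_of_nonneg_left h2 (abs_nonneg _)
        _ ≤ ε := by linarith
    · have h1 : |f q| ≤ M := by
        have := f.norm_coe_le_norm q
        rw [Real.norm_eq_abs] at this
        linarith
      have h2 : d / ((q.1 : ℝ) * (q.2 : ℝ) + d) ≤ d / η := by
        apply div_le_div_of_nonneg_left hd0.le hη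
        linarith
      calc _ ≤ M * (d / η) := mul_le_mul h1 h2 (div_nonneg hd0.le hden.le) hM0.le
        _ = ε := by rw [hd]; field_simp
  have h3 : |L f| ≤ ‖L‖ * ε := by
    have e2 : L f = L (f - mono (1, 1) * g) := by
      rw [map_sub, hLall, sub_zero]
    rw [e2]
    calc |L (f - mono (1, 1) * g)| ≤ ‖L‖ * ‖f - mono (1, 1) * g‖ := by
          rw [← Real.norm_eq_abs]; exact L.le_opNorm _
      _ ≤ ‖L‖ * ε := mul_le_mul_of_nonneg_left hclose L.opNorm_nonneg
  have h4 : ‖L‖ * ε < |L f| := by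
    rw [hε]
    have hn : 0 ≤ ‖L‖ := L.opNorm_nonneg
    rw [mul_div_assoc', div_lt_iff₀ (by positivity)]
    nlinarith
  linarith

/-- **Reduction.**  If the monomials with exponents in `Ω` do not span `C_0(Q)` there is a
function on `ℂ × ℂ`, holomorphic on the product of two right half planes, bounded by `1`, zero at
all points of `Ω` and not zero at some point with positive integer coordinates. -/
theorem reduction {Ω : Set (ℕ × ℕ)} (hpos : ∀ p ∈ Ω, 1 ≤ p.1 ∧ 1 ≤ p.2)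
    (h : ¬ SpansC0 Ω) :
    ∃ F : ℂ × ℂ → ℂ, (∀ p : ℂ × ℂ, 0 < p.1.re → 0 < p.2.re → DifferentiableAt ℂ F p) ∧
      (∀ p, ‖F p‖ ≤ 1) ∧ (∀ p ∈ Ω, F ((p.1 : ℂ), (p.2 : ℂ)) = 0) ∧
      ∃ m n : ℕ, 1 ≤ m ∧ 1 ≤ n ∧ F ((m : ℂ), (n : ℂ)) ≠ 0 := by
  obtain ⟨L, hL0, f, hf0, hLf⟩ := hb h
  set fr : StrongDual ℝ C(Sq, ℂ) := L.comp reC with hfr
  set Lc : StrongDual ℂ C(Sq, ℂ) := fr.extendRCLike with hLc
  have hLcr : ∀ g : C(Sq, ℝ), Lc (toC g) = (L g : ℂ) := by
    intro g
    rw [hLc, StrongDual.extendRCLike_apply]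
    have e1 : fr (toC g) = L g := by
      rw [hfr, ContinuousLinearMap.comp_apply]
      congr 1
    have e2 : fr ((RCLike.I : ℂ) • toC g) = 0 := by
      rw [hfr, ContinuousLinearMap.comp_apply]
      have : reC ((RCLike.I : ℂ) • toC g) = 0 := by
        ext q
        simp [reC_apply, toC]
      rw [this, map_zero]
    rw [e1, e2]
    simp
  set c : ℝ := ‖Lc‖ + 1 with hc
  have hc0 : 0 < c := by positivity
  refine ⟨fun p => (c : ℂ)⁻¹ * Lc (cm p), ?_, ?_, ?_, ?_⟩
  · intro p h1 h2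
    have := (cm_hasFDerivAt h1 h2).differentiableAt
    exact (Lc.differentiableAt.comp p this).const_mul _
  · intro p
    rw [norm_mul, norm_inv, Complex.norm_real, Real.norm_eq_abs, abs_of_pos hc0]
    have h1 : ‖Lc (cm p)‖ ≤ ‖Lc‖ * 1 :=
      (Lc.le_opNorm _).trans (mul_le_mul_of_nonneg_left (norm_cm_le p) (norm_nonneg _))
    rw [inv_mul_le_iff₀ hc0]
    linarith
  · intro p hp
    obtain ⟨h1, h2⟩ := hpos p hp
    show (c : ℂ)⁻¹ * Lc (cm ((p.1 : ℂ), (p.2 : ℂ))) = 0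
    rw [cm_nat h1 h2, hLcr, hL0 p hp]
    simp
  · by_contra hcon
    push Not at hcon
    apply hLf
    refine weier (fun m n hm hn => ?_) f hf0
    have := hcon m n hm hn
    simp only [cm_nat hm hn, hLcr, mul_eq_zero, inv_eq_zero, Complex.ofReal_eq_zero] at this
    rcases this with h | h
    · exact absurd h hc0.ne'
    · exact h

end Muntz2
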