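import Mathlib
import Pool.Agent.Lib.MP_dde81e_an.Red

/-!
# Spanning `C_0(Q)` implies spanning `L²(Q)`
-/

namespace Muntz2

open Set Topology Filter MeasureTheory

/-- Lebesgue measure on the unit square -/
noncomputable def muQ : Measure (ℝ × ℝ) := volume.restrict (Icc (0 : ℝ) 1 ×ˢ Icc (0 : ℝ) 1)

/-- the monomial `x^m y^n` as a function on the plane -/
def monoFun (p : ℕ × ℕ) : ℝ × ℝ → ℝ := fun q => q.1 ^ p.1 * q.2 ^ p.2

/-- The monomials with exponents in `Ω` span `L²(Q)`: every function in `L²(Q)` is an `L²`-limit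
of finite linear combinations. -/
def SpansL2 (Ω : Set (ℕ × ℕ)) : Prop :=
  ∀ f : ℝ × ℝ → ℝ, MemLp f 2 muQ →
    ∀ ε : ℝ, 0 < ε → ∃ g ∈ Submodule.span ℝ (monoFun '' Ω), eLpNorm (f - g) 2 muQ <
      ENNReal.ofReal ε

instance : IsFiniteMeasure muQ := by
  unfold muQ
  refine ⟨?_⟩
  rw [Measure.restrict_apply_univ]
  exact (isCompact_Icc.prod isCompact_Icc).measure_lt_top

theorem muQ_univ : muQ univ = 1 := by
  unfold muQ
  rw [Measure.restrict_apply_univ, Measure.volume_eq_prod, Measure.prod_prod]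
  simp

theorem ae_pos : ∀ᵐ q : ℝ × ℝ ∂muQ, 0 < q.1 * q.2 ∧ q ∈ Icc (0 : ℝ) 1 ×ˢ Icc (0 : ℝ) 1 := by
  have h1 : ∀ᵐ q : ℝ × ℝ ∂muQ, q ∈ Icc (0 : ℝ) 1 ×ˢ Icc (0 : ℝ) 1 :=
    ae_restrict_mem (measurableSet_Icc.prod measurableSet_Icc)
  have h2 : ∀ᵐ q : ℝ × ℝ ∂muQ, q.1 ≠ 0 := by
    refine ae_restrict_of_ae ?_
    rw [ae_iff]
    have : {a : ℝ × ℝ | ¬ a.1 ≠ 0} = ({0} : Set ℝ) ×ˢ (univ : Set ℝ) := by
      ext a; simp
    rw [this, Measure.volume_eq_prod, Measure.prod_prod]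
    simp
  have h3 : ∀ᵐ q : ℝ × ℝ ∂muQ, q.2 ≠ 0 := by
    refine ae_restrict_of_ae ?_
    rw [ae_iff]
    have : {a : ℝ × ℝ | ¬ a.2 ≠ 0} = (univ : Set ℝ) ×ˢ ({0} : Set ℝ) := by
      ext a; simp
    rw [this, Measure.volume_eq_prod, Measure.prod_prod]
    simp
  filter_upwards [h1, h2, h3] with q h1 h2 h3
  exact ⟨mul_pos (lt_of_le_of_ne h1.1.1 (Ne.symm h2)) (lt_of_le_of_ne h1.2.1 (Ne.symm h3)), h1⟩

theorem spansL2_of_spansC0 {Ω : Set (ℕ × ℕ)} (h : SpansC0 Ω) : SpansL2 Ω := by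
  intro f hf ε hε
  have hε3 : (0 : ℝ) < ε / 4 := by positivity
  obtain ⟨g0, hg0, hg0m⟩ := hf.exists_boundedContinuous_eLpNorm_sub_le (by norm_num)
    (ε := ENNReal.ofReal (ε / 4)) (by simpa using hε)
  -- cutoffs
  let w : ℕ → ℝ × ℝ → ℝ := fun n q => |q.1 * q.2| / (|q.1 * q.2| + 1 / ((n : ℝ) + 1))
  have hden : ∀ (n : ℕ) (q : ℝ × ℝ), 0 < |q.1 * q.2| + 1 / ((n : ℝ) + 1) := by
    intro n q; positivity
  have hwc : ∀ n, Continuous (w n) := by
    intro n
    refine Continuous.div (by fun_prop) (by fun_prop) (fun q => (hden n q).ne')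
  have hw1 : ∀ n q, |1 - w n q| ≤ 1 := by
    intro n q
    have h0 : 0 ≤ w n q := div_nonneg (abs_nonneg _) (hden n q).le
    have h1 : w n q ≤ 1 := by
      rw [div_le_one (hden n q)]
      have : 0 < 1 / ((n : ℝ) + 1) := by positivity
      linarith
    rw [abs_of_nonneg (by linarith)]; linarith
  have hwt : ∀ q : ℝ × ℝ, 0 < q.1 * q.2 → Tendsto (fun n => w n q) atTop (𝓝 1) := by
    intro q hq
    have h1 : Tendsto (fun n : ℕ => |q.1 * q.2| / (|q.1 * q.2| + 1 / ((n : ℝ) + 1))) atTop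
        (𝓝 (|q.1 * q.2| / (|q.1 * q.2| + 0))) := by
      refine Tendsto.div tendsto_const_nhds ?_ ?_
      · exact tendsto_const_nhds.add tendsto_one_div_add_atTop_nhds_zero_nat
      · rw [add_zero]; exact (abs_pos.2 hq.ne').ne'
    rw [add_zero, div_self (abs_pos.2 hq.ne').ne'] at h1
    exact h1
  have hlim : Tendsto (fun n => ∫⁻ q, ‖(g0 q - g0 q * w n q)‖ₑ ^ (2 : ℝ) ∂muQ) atTop
      (𝓝 (∫⁻ q, 0 ∂muQ)) := by
    refine tendsto_lintegral_of_dominated_convergence (fun q => ‖g0 q‖ₑ ^ (2 : ℝ)) ?_ ?_ ?_ ?_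
    · intro n
      have : Continuous (fun q => g0 q - g0 q * w n q) :=
        g0.continuous.sub (g0.continuous.mul (hwc n))
      exact (this.measurable.enorm).pow_const _
    · intro n
      refine Eventually.of_forall fun q => ?_
      refine ENNReal.rpow_le_rpow ?_ (by norm_num)
      have : g0 q - g0 q * w n q = g0 q * (1 - w n q) := by ring
      rw [this, enorm_mul]
      calc _ ≤ ‖g0 q‖ₑ * 1 := by
            gcongr
            rw [← ofReal_norm, Real.norm_eq_abs]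
            exact ENNReal.ofReal_le_one.2 (hw1 n q)
        _ = _ := mul_one _
    · have := hg0m
      have h2 := this.eLpNorm_lt_top
      rw [eLpNorm_eq_lintegral_rpow_enorm_toReal (by norm_num) (by norm_num)] at h2
      simp only [ENNReal.toReal_ofNat, one_div] at h2
      intro hcon
      rw [hcon] at h2
      rw [ENNReal.top_rpow_of_pos (by norm_num)] at h2
      exact lt_irrefl _ h2
    · filter_upwards [ae_pos] with q hq
      have h1 : Tendsto (fun n => g0 q - g0 q * w n q) atTop (𝓝 (g0 q - g0 q * 1)) :=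
        tendsto_const_nhds.sub (tendsto_const_nhds.mul (hwt q hq.1))
      rw [mul_one, sub_self] at h1
      have h2 : Tendsto (fun n => ‖g0 q - g0 q * w n q‖ₑ) atTop (𝓝 0) := by
        have := h1.enorm
        simpa using this
      have h3 := (ENNReal.continuous_rpow_const (y := (2 : ℝ))).tendsto 0 |>.comp h2
      simpa [Function.comp_def] using h3
  rw [lintegral_zero] at hlim
  have hlim2 : Tendsto (fun n => eLpNorm (fun q => g0 q - g0 q * w n q) 2 muQ) atTop (𝓝 0) := by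
    have h3 := (ENNReal.continuous_rpow_const (y := (1 / 2 : ℝ))).tendsto 0 |>.comp hlim
    have h4 : (0 : ENNReal) ^ (1 / 2 : ℝ) = 0 := ENNReal.zero_rpow_of_pos (by norm_num)
    rw [h4] at h3
    refine h3.congr ?_
    intro n
    rw [eLpNorm_eq_lintegral_rpow_enorm_toReal (by norm_num) (by norm_num)]
    simp
  have hpos4 : (0 : ENNReal) < ENNReal.ofReal (ε / 4) := by simpa using hε
  obtain ⟨n, hn⟩ := ((tendsto_order.1 hlim2).2 _ hpos4).exists
  -- the continuous function on the square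
  let g1 : C(Sq, ℝ) := ⟨fun q => g0 ((q.1 : ℝ), (q.2 : ℝ)) * w n ((q.1 : ℝ), (q.2 : ℝ)), by
    have h1 : Continuous (fun q : Sq => (((q.1 : ℝ), (q.2 : ℝ)) : ℝ × ℝ)) := by fun_prop
    exact (g0.continuous.comp h1).mul ((hwc n).comp h1)⟩
  have hg1 : ∀ q : Sq, (q.1 : ℝ) = 0 ∨ (q.2 : ℝ) = 0 → g1 q = 0 := by
    intro q hq
    show g0 ((q.1 : ℝ), (q.2 : ℝ)) * (|(q.1 : ℝ) * (q.2 : ℝ)| /
      (|(q.1 : ℝ) * (q.2 : ℝ)| + 1 / ((n : ℝ) + 1))) = 0
    have : (q.1 : ℝ) * (q.2 : ℝ) = 0 := mul_eq_zero.2 hq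
    rw [this]; simp
  obtain ⟨g2, hg2, hg2n⟩ := h g1 hg1 (ε / 4) hε3
  -- transfer of polynomials
  have htrans : ∀ g ∈ Submodule.span ℝ (mono '' Ω), ∃ G ∈ Submodule.span ℝ (monoFun '' Ω),
      ∀ q : Sq, G ((q.1 : ℝ), (q.2 : ℝ)) = g q := by
    intro g hg
    refine Submodule.span_induction (p := fun g _ => ∃ G ∈ Submodule.span ℝ (monoFun '' Ω),
      ∀ q : Sq, G ((q.1 : ℝ), (q.2 : ℝ)) = g q) ?_ ?_ ?_ ?_ hg
    · rintro _ ⟨p, hp, rfl⟩
      exact ⟨monoFun p, Submodule.subset_span ⟨p, hp, rfl⟩, fun q => rfl⟩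
    · exact ⟨0, Submodule.zero_mem _, fun q => rfl⟩
    · rintro x y _ _ ⟨G1, h1, k1⟩ ⟨G2, h2, k2⟩
      exact ⟨G1 + G2, Submodule.add_mem _ h1 h2, fun q => by simp [k1 q, k2 q]⟩
    · rintro a x _ ⟨G1, h1, k1⟩
      exact ⟨a • G1, Submodule.smul_mem _ _ h1, fun q => by simp [k1 q]⟩
  have hGcont : ∀ G ∈ Submodule.span ℝ (monoFun '' Ω), Continuous G := by
    intro G hG
    refine Submodule.span_induction (p := fun G _ => Continuous G) ?_ ?_ ?_ ?_ hG
    · rintro _ ⟨p, hp, rfl⟩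
      unfold monoFun; fun_prop
    · exact continuous_zero
    · intro x y _ _ hx hy; exact hx.add hy
    · intro a x _ hx; exact hx.const_smul a
  obtain ⟨G, hG, hGq⟩ := htrans g2 hg2
  have hGc := hGcont G hG
  refine ⟨G, hG, ?_⟩
  have e1 : f - G = (f - ⇑g0) + ((fun q => g0 q - g0 q * w n q) + (fun q => g0 q * w n q - G q)) := by
    ext q; simp
  have hf' : AEStronglyMeasurable f muQ := hf.1
  have m0 : AEStronglyMeasurable (⇑g0) muQ := g0.continuous.aestronglyMeasurable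
  have m1 : AEStronglyMeasurable (fun q => g0 q - g0 q * w n q) muQ :=
    (g0.continuous.sub (g0.continuous.mul (hwc n))).aestronglyMeasurable
  have m2 : AEStronglyMeasurable (fun q => g0 q * w n q - G q) muQ :=
    ((g0.continuous.mul (hwc n)).sub hGc).aestronglyMeasurable
  have b3 : eLpNorm (fun q => g0 q * w n q - G q) 2 muQ ≤ ENNReal.ofReal (ε / 4) := by
    have hb : ∀ᵐ q ∂muQ, ‖g0 q * w n q - G q‖ ≤ ε / 4 := by
      filter_upwards [ae_pos] with q hq
      let r : Sq := (⟨q.1, hq.2.1⟩, ⟨q.2, hq.2.2⟩)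
      have h1 : g0 q * w n q - G q = (g1 - g2) r := by
        have := hGq r
        have e : (((r.1 : ℝ), (r.2 : ℝ)) : ℝ × ℝ) = q := rfl
        rw [e] at this
        simp only [ContinuousMap.sub_apply, ← this]
        rfl
      rw [h1]
      exact ((g1 - g2).norm_coe_le_norm r).trans hg2n.le
    have := eLpNorm_le_of_ae_bound (p := 2) hb
    simpa [muQ_univ] using this
  rw [e1]
  calc eLpNorm ((f - ⇑g0) + ((fun q => g0 q - g0 q * w n q) + (fun q => g0 q * w n q - G q))) 2 muQ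
      ≤ eLpNorm (f - ⇑g0) 2 muQ + eLpNorm ((fun q => g0 q - g0 q * w n q) +
          (fun q => g0 q * w n q - G q)) 2 muQ :=
        eLpNorm_add_le (hf'.sub m0) (m1.add m2) (by norm_num)
    _ ≤ eLpNorm (f - ⇑g0) 2 muQ + (eLpNorm (fun q => g0 q - g0 q * w n q) 2 muQ +
          eLpNorm (fun q => g0 q * w n q - G q) 2 muQ) := by
        gcongr
        exact eLpNorm_add_le m1 m2 (by norm_num)
    _ ≤ ENNReal.ofReal (ε / 4) + (ENNReal.ofReal (ε / 4) + ENNReal.ofReal (ε / 4)) := by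
        gcongr
    _ = ENNReal.ofReal (ε / 4 + (ε / 4 + ε / 4)) := by
        rw [ENNReal.ofReal_add hε3.le (by positivity), ENNReal.ofReal_add hε3.le hε3.le]
    _ < ENNReal.ofReal ε := by
        rw [ENNReal.ofReal_lt_ofReal_iff hε]; linarith

end Muntz2
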