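import Pool.Agent.Lib.MP_dde81e_an.Defs
import Pool.Agent.Lib.MP_dde81e_an.L2

/-! MP_dde81e_an, module FA : functional analysis (adapting helper71's reduction) -/

namespace Muntz
open MeasureTheory Set Metric
open scoped ENNReal

theorem exists_goodF {Ω : Set (ℕ × ℕ)} (hpos : ∀ p ∈ Ω, 1 ≤ p.1 ∧ 1 ≤ p.2)
    (h : ¬ Muntz2.SpansC0 Ω) : ∃ F : ℂ × ℂ → ℂ, GoodF F ∧
      ∀ p ∈ Ω, F (((p.1 - 1 : ℕ) : ℂ), ((p.2 - 1 : ℕ) : ℂ)) = 0 := by
  classical
  obtain ⟨F1, hdiff, hb, hz, m, n, hm, hn, hne⟩ := Muntz2.reduction hpos h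
  obtain ⟨S, hS⟩ : ∃ S : Set (ℂ × ℂ), S = {p | -1 < p.1.re ∧ -1 < p.2.re} := ⟨_, rfl⟩
  have hSo : IsOpen S := by
    rw [hS]
    exact (isOpen_lt continuous_const (Complex.continuous_re.comp continuous_fst)).inter
      (isOpen_lt continuous_const (Complex.continuous_re.comp continuous_snd))
  obtain ⟨G, hG⟩ : ∃ G : ℂ × ℂ → ℂ, G = fun p => F1 (p.1 + 1, p.2 + 1) := ⟨_, rfl⟩
  have hGd : ∀ p ∈ S, DifferentiableAt ℂ G p := by
    intro p hp
    rw [hS] at hp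
    rw [hG]
    have h1 : DifferentiableAt ℂ F1 (p.1 + 1, p.2 + 1) :=
      hdiff _ (by simp only [Complex.add_re, Complex.one_re]; linarith [hp.1])
        (by simp only [Complex.add_re, Complex.one_re]; linarith [hp.2])
    have h2 : DifferentiableAt ℂ (fun p : ℂ × ℂ => (p.1 + 1, p.2 + 1)) p := by fun_prop
    exact DifferentiableAt.comp p h1 h2
  have hGon : DifferentiableOn ℂ G S := fun p hp => (hGd p hp).differentiableWithinAt
  have hcast : ∀ a : ℕ, 1 ≤ a → ((a - 1 : ℕ) : ℂ) + 1 = (a : ℂ) := by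
    intro a ha
    rw [Nat.cast_sub ha]
    push_cast
    ring
  have hmem : ∀ a b : ℝ, 0 ≤ a → 0 ≤ b → (((a : ℂ), (b : ℂ)) : ℂ × ℂ) ∈ S := by
    intro a b ha hb
    rw [hS]
    exact ⟨by simp only [Complex.ofReal_re]; linarith, by simp only [Complex.ofReal_re]; linarith⟩
  refine ⟨S.piecewise G (fun _ => 0), ⟨?_, ?_, ?_, ?_⟩, ?_⟩
  · exact ContinuousOn.measurable_piecewise hGon.continuousOn continuousOn_const hSo.measurableSet
  · rw [← hS]
    refine hGon.congr fun p hp => ?_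
    rw [Set.piecewise_eq_of_mem _ _ _ hp]
  · intro p _ _
    by_cases hp : p ∈ S
    · rw [Set.piecewise_eq_of_mem _ _ _ hp, hG]
      exact hb _
    · rw [Set.piecewise_eq_of_notMem _ _ _ hp]
      simp
  · -- nonvanishing at a point with positive first coordinate
    have hnn : ∀ a : ℕ, 1 ≤ a → (0 : ℝ) ≤ (a : ℝ) - 1 := by
      intro a ha
      have : (1 : ℝ) ≤ a := by exact_mod_cast ha
      linarith
    have hc : ContinuousAt (fun t : ℝ => G (((((m : ℝ) - 1 + t : ℝ)) : ℂ), (((n : ℝ) - 1 : ℝ) : ℂ))) 0 := by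
      have h1 : ContinuousAt G ((((((m : ℝ) - 1 + 0 : ℝ)) : ℂ), (((n : ℝ) - 1 : ℝ) : ℂ)) : ℂ × ℂ) :=
        (hGd _ (hmem _ _ (by rw [add_zero]; exact hnn m hm) (hnn n hn))).continuousAt
      have h2 : ContinuousAt (fun t : ℝ => ((((((m : ℝ) - 1 + t : ℝ)) : ℂ),
          (((n : ℝ) - 1 : ℝ) : ℂ)) : ℂ × ℂ)) 0 := by fun_prop
      exact ContinuousAt.comp (f := fun t : ℝ => ((((((m : ℝ) - 1 + t : ℝ)) : ℂ),
          (((n : ℝ) - 1 : ℝ) : ℂ)) : ℂ × ℂ)) (g := G) (x := 0) h1 h2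
    have h0 : G (((((m : ℝ) - 1 + 0 : ℝ)) : ℂ), (((n : ℝ) - 1 : ℝ) : ℂ)) ≠ 0 := by
      rw [hG]
      simp only
      have e1 : ((((m : ℝ) - 1 + 0 : ℝ)) : ℂ) + 1 = (m : ℂ) := by push_cast; ring
      have e2 : ((((n : ℝ) - 1 : ℝ)) : ℂ) + 1 = (n : ℂ) := by push_cast; ring
      rw [e1, e2]
      exact hne
    have hev := hc.eventually_ne h0
    rw [Metric.eventually_nhds_iff] at hev
    obtain ⟨ε, hε, hev⟩ := hev
    refine ⟨(m : ℝ) - 1 + ε / 2, (n : ℝ) - 1, ?_, hnn n hn, ?_⟩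
    · have := hnn m hm
      linarith
    · rw [Set.piecewise_eq_of_mem _ _ _ (hmem _ _ (by have := hnn m hm; linarith) (hnn n hn))]
      refine hev ?_
      rw [Real.dist_eq, sub_zero, abs_of_pos (by positivity)]
      linarith
  · intro p hp
    obtain ⟨h1, h2⟩ := hpos p hp
    have hpS : ((((p.1 - 1 : ℕ) : ℂ), ((p.2 - 1 : ℕ) : ℂ)) : ℂ × ℂ) ∈ S := by
      have := hmem ((p.1 - 1 : ℕ) : ℝ) ((p.2 - 1 : ℕ) : ℝ) (Nat.cast_nonneg _) (Nat.cast_nonneg _)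
      simpa using this
    rw [Set.piecewise_eq_of_mem _ _ _ hpS, hG]
    simp only
    rw [hcast _ h1, hcast _ h2]
    exact hz p hp

end Muntz
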