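import Pool.Agent.Lib.MP_dde81e_an.Defs

/-! MP_dde81e_an, module IND : independent subsets of digraphs of bounded out-degree -/

namespace Muntz
open MeasureTheory Set Metric
open scoped ENNReal

theorem IND_exists_low {α : Type} [DecidableEq α] (P : Finset α) (r : α → α → Prop)
    [DecidableRel r] (C : ℕ) (hC : ∀ p ∈ P, (P.filter (fun q => q ≠ p ∧ r p q)).card ≤ C)
    (hne : P.Nonempty) :
    ∃ p ∈ P, (P.filter (fun q => q ≠ p ∧ (r p q ∨ r q p))).card ≤ 2 * C := by
  by_contra hcon
  push Not at hcon
  have h1 : ∑ p ∈ P, (P.filter (fun q => q ≠ p ∧ r p q)).card ≤ P.card * C :=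
    Finset.sum_le_card_nsmul _ _ _ hC
  have h2 : ∑ p ∈ P, (P.filter (fun q => q ≠ p ∧ r q p)).card =
      ∑ p ∈ P, (P.filter (fun q => q ≠ p ∧ r p q)).card := by
    simp only [Finset.card_filter]
    rw [Finset.sum_comm]
    refine Finset.sum_congr rfl fun x _ => Finset.sum_congr rfl fun y _ => ?_
    simp only [ne_comm]
  have h3 : ∀ p ∈ P, 2 * C + 1 ≤ (P.filter (fun q => q ≠ p ∧ r p q)).card +
      (P.filter (fun q => q ≠ p ∧ r q p)).card := by
    intro p hp
    have h4 := hcon p hp
    have h5 : P.filter (fun q => q ≠ p ∧ (r p q ∨ r q p)) =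
        P.filter (fun q => q ≠ p ∧ r p q) ∪ P.filter (fun q => q ≠ p ∧ r q p) := by
      ext q
      simp only [Finset.mem_filter, Finset.mem_union]
      tauto
    have h6 := Finset.card_union_le (P.filter (fun q => q ≠ p ∧ r p q))
      (P.filter (fun q => q ≠ p ∧ r q p))
    rw [h5] at h4
    omega
  have h7 : P.card * (2 * C + 1) ≤ ∑ p ∈ P, ((P.filter (fun q => q ≠ p ∧ r p q)).card +
      (P.filter (fun q => q ≠ p ∧ r q p)).card) := by
    have := Finset.card_nsmul_le_sum P _ _ h3
    simpa using this
  rw [Finset.sum_add_distrib, h2] at h7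
  have h8 : 0 < P.card := hne.card_pos
  have h9 : P.card * (2 * C + 1) = 2 * (P.card * C) + P.card := by ring
  omega

theorem exists_independent {α : Type} [DecidableEq α] (P : Finset α) (r : α → α → Prop)
    [DecidableRel r] (C : ℕ) (hC : ∀ p ∈ P, (P.filter (fun q => q ≠ p ∧ r p q)).card ≤ C) :
    ∃ P' ⊆ P, P.card ≤ (2 * C + 1) * P'.card ∧ ∀ p ∈ P', ∀ q ∈ P', p ≠ q → ¬ r p q := by
  induction P using Finset.strongInduction with
  | H P ih =>
    rcases P.eq_empty_or_nonempty with h0 | hne
    · subst h0
      exact ⟨∅, Finset.Subset.refl _, by simp, by simp⟩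
    obtain ⟨p, hp, hdeg⟩ := IND_exists_low P r C hC hne
    obtain ⟨N, hN⟩ : ∃ N : Finset α, N = P.filter (fun q => q ≠ p ∧ (r p q ∨ r q p)) := ⟨_, rfl⟩
    rw [← hN] at hdeg
    obtain ⟨P1, hP1⟩ : ∃ P1 : Finset α, P1 = P \ insert p N := ⟨_, rfl⟩
    have hsub : P1 ⊆ P := by rw [hP1]; exact Finset.sdiff_subset
    have hss : P1 ⊂ P := by
      refine Finset.ssubset_iff_subset_ne.2 ⟨hsub, fun h => ?_⟩
      have : p ∈ P1 := by rw [h]; exact hp
      rw [hP1, Finset.mem_sdiff] at this
      exact this.2 (Finset.mem_insert_self _ _)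
    have hC1 : ∀ p ∈ P1, (P1.filter (fun q => q ≠ p ∧ r p q)).card ≤ C := fun q hq =>
      (Finset.card_le_card (Finset.filter_subset_filter _ hsub)).trans (hC q (hsub hq))
    obtain ⟨P', hP', hcard, hind⟩ := ih P1 hss hC1
    have hpP' : p ∉ P' := fun h => by
      have := hP' h
      rw [hP1, Finset.mem_sdiff] at this
      exact this.2 (Finset.mem_insert_self _ _)
    refine ⟨insert p P', ?_, ?_, ?_⟩
    · intro x hx
      rcases Finset.mem_insert.1 hx with h | h
      · rw [h]; exact hp
      · exact hsub (hP' h)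
    · rw [Finset.card_insert_of_notMem hpP']
      have h1 : P.card ≤ P1.card + (insert p N).card := by
        have := Finset.card_le_card_sdiff_add_card (s := P) (t := insert p N)
        rw [hP1]
        exact this
      have h2 : (insert p N).card ≤ N.card + 1 := Finset.card_insert_le _ _
      have h3 : (2 * C + 1) * (P'.card + 1) = (2 * C + 1) * P'.card + (2 * C + 1) := by ring
      omega
    · have key : ∀ q ∈ P', ¬ r p q ∧ ¬ r q p := by
        intro q hq
        have hq1 := hP' hq
        rw [hP1, Finset.mem_sdiff] at hq1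
        have hqp : q ≠ p := fun h => hpP' (h ▸ hq)
        have hqN : q ∉ N := fun h => hq1.2 (Finset.mem_insert_of_mem h)
        rw [hN, Finset.mem_filter] at hqN
        constructor
        · intro h
          exact hqN ⟨hq1.1, hqp, Or.inl h⟩
        · intro h
          exact hqN ⟨hq1.1, hqp, Or.inr h⟩
      intro a ha b hb hab
      rcases Finset.mem_insert.1 ha with h | h
      · rcases Finset.mem_insert.1 hb with h' | h'
        · exact absurd (h.trans h'.symm) hab
        · rw [h]; exact (key b h').1
      · rcases Finset.mem_insert.1 hb with h' | h'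
        · rw [h']; exact (key a h).2
        · exact hind a h b h' hab

end Muntz
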