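import Pool.Agent.Lib.MP_dde81e_an.Defs

/-! MP_dde81e_an, module KLI : the logarithmic integral -/

namespace Muntz
open MeasureTheory Set Metric
open scoped ENNReal

/-- antiderivative of `1/2 log (x^2 + y^2)` in `x`. -/
noncomputable def KLI_K (x y : ℝ) : ℝ :=
  x / 2 * Real.log (x ^ 2 + y ^ 2) - x + y * Real.arctan (x / y)

theorem KLI_deriv {x y : ℝ} (hy : y ≠ 0) :
    HasDerivAt (fun x => KLI_K x y) (Real.log (x ^ 2 + y ^ 2) / 2) x := by
  have hpos : 0 < x ^ 2 + y ^ 2 := by positivity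
  have h1 : HasDerivAt (fun x : ℝ => x ^ 2 + y ^ 2) (2 * x) x := by
    have := (hasDerivAt_pow 2 x).add_const (y ^ 2)
    simpa using this
  have h2 : HasDerivAt (fun x : ℝ => Real.log (x ^ 2 + y ^ 2)) (2 * x / (x ^ 2 + y ^ 2)) x :=
    h1.log hpos.ne'
  have h3 : HasDerivAt (fun x : ℝ => x / 2) (1 / 2) x := (hasDerivAt_id x).div_const 2
  have h4 : HasDerivAt (fun x : ℝ => x / y) (1 / y) x := (hasDerivAt_id x).div_const y
  have h5 := (h4.arctan).const_mul y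
  have h6 := ((h3.mul h2).sub (hasDerivAt_id x)).add h5
  refine h6.congr_deriv ?_
  have hy2 : 1 + (x / y) ^ 2 ≠ 0 := by positivity
  have e1 : y * (1 / (1 + (x / y) ^ 2) * (1 / y)) = y ^ 2 / (x ^ 2 + y ^ 2) := by
    field_simp
    ring
  rw [e1]
  have e2 : x / 2 * (2 * x / (x ^ 2 + y ^ 2)) = x ^ 2 / (x ^ 2 + y ^ 2) := by ring
  rw [e2]
  have e3 : x ^ 2 / (x ^ 2 + y ^ 2) + y ^ 2 / (x ^ 2 + y ^ 2) = 1 := by
    rw [← add_div, div_self hpos.ne']
  linarith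

theorem KLI_log_norm (t : ℝ) (u : ℂ) :
    Real.log ‖(t : ℂ) - u‖ = Real.log ((t - u.re) ^ 2 + u.im ^ 2) / 2 := by
  have h1 : ‖(t : ℂ) - u‖ = Real.sqrt ((t - u.re) ^ 2 + u.im ^ 2) := by
    rw [Complex.norm_def, Complex.normSq_apply]
    congr 1
    simp
    ring
  rw [h1, Real.log_sqrt (by positivity)]

theorem KLI_intble (a b : ℝ) (u : ℂ) :
    IntervalIntegrable (fun t : ℝ => Real.log ‖(t : ℂ) - u‖) volume a b := by
  have : MeromorphicOn (fun t : ℝ => (t : ℂ) - u) (uIcc a b) := by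
    intro t _
    apply AnalyticAt.meromorphicAt
    have h1 : AnalyticAt ℝ (fun t : ℝ => (t : ℂ)) t := Complex.ofRealCLM.analyticAt t
    exact h1.sub analyticAt_const
  exact this.intervalIntegrable_log_norm

theorem KLI_integral (a b : ℝ) (u : ℂ) :
    ∫ t in a..b, Real.log ‖(t : ℂ) - u‖ = KLI_K (b - u.re) u.im - KLI_K (a - u.re) u.im := by
  by_cases hy : u.im = 0
  · have h1 : (fun t : ℝ => Real.log ‖(t : ℂ) - u‖) = fun t => Real.log (t - u.re) := by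
      ext t
      rw [KLI_log_norm, hy]
      rw [show (t - u.re) ^ 2 + (0:ℝ) ^ 2 = (t - u.re) ^ 2 by ring, Real.log_pow]
      push_cast; ring
    rw [h1, intervalIntegral.integral_comp_sub_right (fun t => Real.log t), integral_log]
    unfold KLI_K
    rw [hy]
    have h2 : ∀ x : ℝ, Real.log (x ^ 2 + 0 ^ 2) = 2 * Real.log x := by
      intro x
      rw [show x ^ 2 + (0:ℝ) ^ 2 = x ^ 2 by ring, Real.log_pow]
      push_cast; ring
    rw [h2, h2]
    ring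
  · rw [intervalIntegral.integral_eq_sub_of_hasDerivAt (f := fun t => KLI_K (t - u.re) u.im)]
    · intro t _
      rw [KLI_log_norm]
      have := (KLI_deriv (x := t - u.re) hy)
      exact this.comp_sub_const t u.re
    · exact KLI_intble a b u

theorem KLI_convex {Y : ℝ} (hY : Y ≠ 0) : ConvexOn ℝ (Ici (0:ℝ)) (fun x => KLI_K x Y) := by
  apply MonotoneOn.convexOn_of_deriv (convex_Ici 0)
  · intro x _
    exact (KLI_deriv hY).continuousAt.continuousWithinAt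
  · intro x _
    exact (KLI_deriv hY).differentiableAt.differentiableWithinAt
  · intro x hx y hy hxy
    rw [interior_Ici] at hx hy
    rw [(KLI_deriv hY).deriv, (KLI_deriv hY).deriv]
    have hx' : 0 < x := hx
    have h1 : 0 < x ^ 2 + Y ^ 2 := by positivity
    have h2 : x ^ 2 ≤ y ^ 2 := by nlinarith
    have := Real.log_le_log h1 (by linarith : x ^ 2 + Y ^ 2 ≤ y ^ 2 + Y ^ 2)
    linarith

theorem KLI_shift {Y p ℓ : ℝ} (hY : Y ≠ 0) (hp : |p| ≤ ℓ) :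
    2 * KLI_K ℓ Y ≤ KLI_K (ℓ - p) Y + KLI_K (ℓ + p) Y := by
  obtain ⟨h1, h2⟩ := abs_le.1 hp
  have h := (KLI_convex hY).2 (show (ℓ - p) ∈ Ici (0:ℝ) by simp; linarith)
    (show (ℓ + p) ∈ Ici (0:ℝ) by simp; linarith)
    (show (0:ℝ) ≤ 1 / 2 by norm_num) (show (0:ℝ) ≤ 1 / 2 by norm_num) (by norm_num)
  simp only [smul_eq_mul] at h
  have h3 : 1 / 2 * (ℓ - p) + 1 / 2 * (ℓ + p) = ℓ := by ring
  rw [h3] at h
  linarith

theorem KLI_neg (x y : ℝ) : KLI_K (-x) y = - KLI_K x y := by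
  unfold KLI_K
  rw [show -x / y = -(x / y) by ring, Real.arctan_neg]
  rw [show (-x) ^ 2 = x ^ 2 by ring]
  ring

theorem KLI_neg_right (x y : ℝ) : KLI_K x (-y) = KLI_K x y := by
  unfold KLI_K
  rw [div_neg, Real.arctan_neg]
  rw [show (-y) ^ 2 = y ^ 2 by ring]
  ring

theorem KLI_form {ℓ y : ℝ} (hℓ : 0 < ℓ) (hy : 0 ≤ y) :
    KLI_K ℓ y = ℓ / 2 * Real.log (ℓ ^ 2 + y ^ 2) - ℓ + y * (Real.pi / 2 - Real.arctan (y / ℓ)) := by
  unfold KLI_K
  rcases hy.eq_or_lt with h | h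
  · rw [← h]; simp
  · have := Real.arctan_inv_of_pos (div_pos h hℓ)
    rw [inv_div] at this
    rw [this]

theorem KLI_arctan_le {x : ℝ} (hx : 0 ≤ x) : Real.arctan x ≤ x := by
  rcases hx.eq_or_lt with h | h
  · rw [← h]; simp
  · by_contra hc
    push Not at hc
    have h1 := Real.tan_lt_tan_of_nonneg_of_lt_pi_div_two hx (Real.arctan_lt_pi_div_two x) hc
    rw [Real.tan_arctan] at h1
    have h2 : x < Real.pi / 2 := lt_trans hc (Real.arctan_lt_pi_div_two x)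
    have h3 := Real.lt_tan h h2
    linarith

theorem KLI_incr {ℓ y y₀ : ℝ} (hℓ : 0 < ℓ) (hy₀ : 0 ≤ y₀) (hy : y₀ ≤ y) :
    Real.pi / 2 * (y - y₀) - y ^ 2 / ℓ ≤ KLI_K ℓ y - KLI_K ℓ y₀ := by
  rw [KLI_form hℓ hy₀, KLI_form hℓ (hy₀.trans hy)]
  have h1 : Real.log (ℓ ^ 2 + y₀ ^ 2) ≤ Real.log (ℓ ^ 2 + y ^ 2) := by
    apply Real.log_le_log (by positivity)
    nlinarith
  have h2 : 0 ≤ y₀ * Real.arctan (y₀ / ℓ) :=
    mul_nonneg hy₀ (Real.arctan_nonneg.2 (by positivity))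
  have hyy : 0 ≤ y := hy₀.trans hy
  have h3 : y * Real.arctan (y / ℓ) ≤ y ^ 2 / ℓ := by
    have := mul_le_mul_of_nonneg_left (KLI_arctan_le (x := y / ℓ) (by positivity)) hyy
    calc _ ≤ y * (y / ℓ) := this
      _ = y ^ 2 / ℓ := by ring
  have h4 : ℓ / 2 * Real.log (ℓ ^ 2 + y₀ ^ 2) ≤ ℓ / 2 * Real.log (ℓ ^ 2 + y ^ 2) :=
    mul_le_mul_of_nonneg_left h1 (by positivity)
  nlinarith

/-- the integral over the window `[re σ - ℓ, re σ + ℓ]`. -/
theorem KLI_window {ℓ : ℝ} (hℓ : 0 < ℓ) (σ v : ℂ) (hv : 0 < v.im) (hvℓ : 20 * v.im ≤ ℓ)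
    (hvr : |v.re| ≤ v.im / 2) (hσ : |σ.im| ≤ v.im / 4) :
    4 * v.im ≤ ∫ t in (σ.re - ℓ)..(σ.re + ℓ),
      (Real.log ‖(t : ℂ) - (σ - v)‖ + Real.log ‖(t : ℂ) - (σ + v)‖
        - 2 * Real.log ‖(t : ℂ) - σ‖) := by
  rw [intervalIntegral.integral_sub ((KLI_intble _ _ _).add (KLI_intble _ _ _))
    ((KLI_intble _ _ _).const_mul _),
    intervalIntegral.integral_add (KLI_intble _ _ _) (KLI_intble _ _ _),
    intervalIntegral.integral_const_mul, KLI_integral, KLI_integral, KLI_integral]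
  simp only [Complex.sub_re, Complex.add_re, Complex.sub_im, Complex.add_im]
  set p := v.re
  set q := v.im
  set s := σ.re
  set τ := σ.im
  obtain ⟨ht1, ht2⟩ := abs_le.1 hσ
  have e1 : s + ℓ - (s - p) = ℓ + p := by ring
  have e2 : s - ℓ - (s - p) = -(ℓ - p) := by ring
  have e3 : s + ℓ - (s + p) = ℓ - p := by ring
  have e4 : s - ℓ - (s + p) = -(ℓ + p) := by ring
  have e5 : s + ℓ - s = ℓ := by ring
  have e6 : s - ℓ - s = - ℓ := by ring
  have e7 : τ - q = -(q - τ) := by ring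
  rw [e1, e2, e3, e4, e5, e6, e7, KLI_neg, KLI_neg, KLI_neg, KLI_neg_right, KLI_neg_right]
  have hp : |p| ≤ ℓ := by linarith
  have h1 := KLI_shift (Y := q - τ) (p := p) (ℓ := ℓ) (by linarith) hp
  have h2 := KLI_shift (Y := τ + q) (p := p) (ℓ := ℓ) (by linarith) hp
  have h0 : KLI_K ℓ τ = KLI_K ℓ |τ| := by
    rcases abs_choice τ with h | h
    · rw [h]
    · rw [h, KLI_neg_right]
  have h3 := KLI_incr (y := q - τ) (y₀ := |τ|) hℓ (abs_nonneg _) (by linarith)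
  have h4 := KLI_incr (y := τ + q) (y₀ := |τ|) hℓ (abs_nonneg _) (by linarith)
  have h5 : ∀ y, 0 ≤ y → y ≤ 5 / 4 * q → y ^ 2 / ℓ ≤ q / 10 := by
    intro y hy0 hy
    rw [div_le_iff₀ hℓ]
    nlinarith
  have h6 := h5 (q - τ) (by linarith) (by linarith)
  have h7 := h5 (τ + q) (by linarith) (by linarith)
  have h8 : (3:ℝ) < Real.pi := Real.pi_gt_three
  rw [h0]
  have h9 : Real.pi / 2 * (q - τ - |τ|) + Real.pi / 2 * (τ + q - |τ|) ≥ 3 / 2 * (3 / 2 * q) := by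
    have : Real.pi / 2 * (q - τ - |τ|) + Real.pi / 2 * (τ + q - |τ|)
        = Real.pi / 2 * (2 * q - 2 * |τ|) := by ring
    rw [this]
    have h10 : 3 / 2 * q ≤ 2 * q - 2 * |τ| := by linarith
    have h11 : 0 ≤ 3 / 2 * q := by linarith
    nlinarith
  linarith

theorem KLI_point {z v : ℂ} {ℓ q : ℝ} (hℓ : 0 < ℓ) (hq : 20 * q ≤ ℓ) (hq0 : 0 < q)
    (hv : ‖v‖ ^ 2 ≤ 5 / 4 * q ^ 2) (hz : ℓ ≤ ‖z‖) :
    -(5 / 2 * q ^ 2 / ℓ ^ 2) ≤ Real.log ‖z + v‖ + Real.log ‖z - v‖ - 2 * Real.log ‖z‖ := by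
  have hz0 : 0 < ‖z‖ := lt_of_lt_of_le hℓ hz
  have hz2 : ℓ ^ 2 ≤ ‖z‖ ^ 2 := by nlinarith
  have hq2 : q ^ 2 * 400 ≤ ℓ ^ 2 := by nlinarith
  have hvz : ‖v‖ ^ 2 < ‖z‖ ^ 2 := by nlinarith
  have hvz' : ‖v‖ < ‖z‖ := lt_of_pow_lt_pow_left₀ 2 hz0.le hvz
  have h1 : z + v ≠ 0 := by
    intro h
    have : z = -v := eq_neg_of_add_eq_zero_left h
    rw [this, norm_neg] at hvz'
    exact lt_irrefl _ hvz'
  have h2 : z - v ≠ 0 := by
    intro h
    rw [sub_eq_zero.1 h] at hvz'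
    exact lt_irrefl _ hvz'
  have h3 : Real.log ‖z + v‖ + Real.log ‖z - v‖ = Real.log ‖z ^ 2 - v ^ 2‖ := by
    rw [← Real.log_mul (norm_ne_zero_iff.2 h1) (norm_ne_zero_iff.2 h2), ← norm_mul]
    congr 2; ring
  have h4 : ‖z‖ ^ 2 - ‖v‖ ^ 2 ≤ ‖z ^ 2 - v ^ 2‖ := by
    have := norm_sub_norm_le (z ^ 2) (v ^ 2)
    rwa [norm_pow, norm_pow] at this
  set x : ℝ := ‖v‖ ^ 2 / ‖z‖ ^ 2 with hx
  have hx0 : 0 ≤ x := by positivity
  have hx1 : x ≤ 5 / 4 * q ^ 2 / ℓ ^ 2 := by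
    rw [hx]
    have : ‖v‖ ^ 2 / ‖z‖ ^ 2 ≤ ‖v‖ ^ 2 / ℓ ^ 2 :=
      div_le_div_of_nonneg_left (by positivity) (by positivity) hz2
    refine this.trans ?_
    exact div_le_div_of_nonneg_right hv (by positivity)
  have hx2 : x ≤ 1 / 2 := by
    refine hx1.trans ?_
    rw [div_le_iff₀ (by positivity)]
    nlinarith
  have h5 : ‖z‖ ^ 2 - ‖v‖ ^ 2 = ‖z‖ ^ 2 * (1 - x) := by
    rw [hx]; field_simp
  have h6 : Real.log (‖z‖ ^ 2 * (1 - x)) = 2 * Real.log ‖z‖ + Real.log (1 - x) := by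
    rw [Real.log_mul (by positivity) (by linarith), Real.log_pow]
    push_cast; ring
  have h7 : Real.log (‖z‖ ^ 2 * (1 - x)) ≤ Real.log ‖z ^ 2 - v ^ 2‖ := by
    apply Real.log_le_log
    · have : 0 < 1 - x := by linarith
      positivity
    · rw [← h5]; exact h4
  have h8 : -(2 * x) ≤ Real.log (1 - x) := by
    have := Real.one_sub_inv_le_log_of_pos (show 0 < 1 - x by linarith)
    refine le_trans ?_ this
    have h9 : (1 - x)⁻¹ ≤ 1 + 2 * x := by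
      rw [inv_le_iff_one_le_mul₀ (by linarith)]
      nlinarith
    linarith
  have h10 : 5 / 2 * q ^ 2 / ℓ ^ 2 = 2 * (5 / 4 * q ^ 2 / ℓ ^ 2) := by ring
  rw [h3, h10]
  linarith

theorem log_integral_lower {ℓ : ℝ} (hℓ : 0 < ℓ) : ∃ q₀ : ℝ, 0 < q₀ ∧
    ∀ (w : ℝ → ℝ) (σ v : ℂ), Measurable w → (∀ t, 0 ≤ w t) → (∀ t, w t ≤ 1) →
      (∀ t, |t - σ.re| ≤ ℓ → w t = 1) → (∀ t, 1 / ℓ ≤ |t| → w t = 0) →
      0 < v.im → v.im ≤ q₀ → |v.re| ≤ v.im / 2 → |σ.im| ≤ v.im / 4 → |σ.re| ≤ 1 / ℓ →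
      IntervalIntegrable (fun t : ℝ => Real.log ‖(t : ℂ) - σ‖) volume (-(1 / ℓ)) (1 / ℓ) ∧
      v.im ≤ ∫ t in (-(1 / ℓ))..(1 / ℓ), w t *
        (Real.log ‖(t : ℂ) - σ + v‖ + Real.log ‖(t : ℂ) - σ - v‖ - 2 * Real.log ‖(t : ℂ) - σ‖) := by
  refine ⟨min (ℓ / 20) (ℓ ^ 3 / 2), by positivity, ?_⟩
  intro w σ v hwm hw0 hw1 hwin hout hv hvq hvr hσi hσr
  refine ⟨KLI_intble _ _ _, ?_⟩
  have hq1 : 20 * v.im ≤ ℓ := by
    have := hvq.trans (min_le_left _ _)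
    linarith
  have hq2 : v.im ≤ ℓ ^ 3 / 2 := hvq.trans (min_le_right _ _)
  set L := 1 / ℓ with hL
  set Φ : ℝ → ℝ := fun t => Real.log ‖(t : ℂ) - σ + v‖ + Real.log ‖(t : ℂ) - σ - v‖
    - 2 * Real.log ‖(t : ℂ) - σ‖ with hΦ
  set q := v.im with hq
  set s := σ.re with hs
  have hΦ' : Φ = fun t : ℝ => Real.log ‖(t : ℂ) - (σ - v)‖ + Real.log ‖(t : ℂ) - (σ + v)‖
      - 2 * Real.log ‖(t : ℂ) - σ‖ := by
    ext t
    simp only [hΦ]
    rw [show (t : ℂ) - σ + v = (t : ℂ) - (σ - v) by ring,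
      show (t : ℂ) - σ - v = (t : ℂ) - (σ + v) by ring]
  have hΦi : ∀ a b, IntervalIntegrable Φ volume a b := by
    intro a b
    rw [hΦ']
    exact ((KLI_intble _ _ _).add (KLI_intble _ _ _)).sub ((KLI_intble _ _ _).const_mul _)
  have hΦm : Measurable Φ := by
    have hm : ∀ u : ℂ, Measurable (fun t : ℝ => Real.log ‖(t : ℂ) - u‖) := by
      intro u
      exact Real.measurable_log.comp (by fun_prop)
    rw [hΦ']
    exact ((hm _).add (hm _)).sub ((hm _).const_mul _)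
  have hwΦi : ∀ a b, IntervalIntegrable (fun t => w t * Φ t) volume a b := by
    intro a b
    refine (hΦi a b).mono_fun (hwm.mul hΦm).aestronglyMeasurable ?_
    filter_upwards with t
    rw [norm_mul]
    have : ‖w t‖ ≤ 1 := by
      rw [Real.norm_eq_abs, abs_of_nonneg (hw0 t)]; exact hw1 t
    nlinarith [norm_nonneg (Φ t), norm_nonneg (w t)]
  have hv2 : ‖v‖ ^ 2 ≤ 5 / 4 * q ^ 2 := by
    rw [← Complex.normSq_eq_norm_sq, Complex.normSq_apply]
    obtain ⟨h1, h2⟩ := abs_le.1 hvr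
    nlinarith
  set c : ℝ := 5 / 2 * q ^ 2 / ℓ ^ 2 with hc
  have hc0 : 0 ≤ c := by positivity
  have hpt : ∀ t : ℝ, ℓ ≤ |t - s| → -c ≤ w t * Φ t := by
    intro t ht
    have h1 : ℓ ≤ ‖(t : ℂ) - σ‖ := by
      refine ht.trans ?_
      have := Complex.abs_re_le_norm ((t : ℂ) - σ)
      simpa using this
    have h2 : -c ≤ Φ t := KLI_point hℓ hq1 hv hv2 h1
    have h3 := hw0 t
    have h4 := hw1 t
    rcases le_or_gt 0 (Φ t) with h5 | h5
    · have := mul_nonneg h3 h5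
      linarith
    · nlinarith
  have hL0 : 0 < L := by positivity
  have hs1 : s + ℓ < L := by
    by_contra hcon
    push Not at hcon
    have h1 := hwin (s + ℓ) (by rw [show s + ℓ - s = ℓ by ring, abs_of_pos hℓ])
    have h2 := hout (s + ℓ) (hcon.trans (le_abs_self _))
    rw [h1] at h2
    exact one_ne_zero h2
  have hs2 : -L < s - ℓ := by
    by_contra hcon
    push Not at hcon
    have h1 := hwin (s - ℓ) (by
      rw [show s - ℓ - s = -ℓ by ring, abs_neg, abs_of_pos hℓ])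
    have h2 := hout (s - ℓ) (by
      have := neg_le_abs (s - ℓ)
      linarith)
    rw [h1] at h2
    exact one_ne_zero h2
  have hsplit : ∫ t in (-L)..L, w t * Φ t = (∫ t in (-L)..(s - ℓ), w t * Φ t) +
      (∫ t in (s - ℓ)..(s + ℓ), w t * Φ t) + ∫ t in (s + ℓ)..L, w t * Φ t := by
    rw [intervalIntegral.integral_add_adjacent_intervals (hwΦi _ _) (hwΦi _ _),
      intervalIntegral.integral_add_adjacent_intervals (hwΦi _ _) (hwΦi _ _)]
  have hA : -c * (s - ℓ + L) ≤ ∫ t in (-L)..(s - ℓ), w t * Φ t := by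
    have := intervalIntegral.integral_mono_on (f := fun _ => -c) (g := fun t => w t * Φ t)
      hs2.le intervalIntegrable_const (hwΦi _ _) (fun t ht => hpt t (by
        have h1 : t - s ≤ -ℓ := by linarith [ht.2]
        rw [abs_of_nonpos (by linarith)]; linarith))
    rw [intervalIntegral.integral_const] at this
    simp only [smul_eq_mul] at this
    linarith
  have hB : -c * (L - s - ℓ) ≤ ∫ t in (s + ℓ)..L, w t * Φ t := by
    have := intervalIntegral.integral_mono_on (f := fun _ => -c) (g := fun t => w t * Φ t)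
      hs1.le intervalIntegrable_const (hwΦi _ _) (fun t ht => hpt t (by
        have h1 : ℓ ≤ t - s := by linarith [ht.1]
        rw [abs_of_nonneg (by linarith)]; linarith))
    rw [intervalIntegral.integral_const] at this
    simp only [smul_eq_mul] at this
    linarith
  have hC : 4 * q ≤ ∫ t in (s - ℓ)..(s + ℓ), w t * Φ t := by
    have h1 : ∫ t in (s - ℓ)..(s + ℓ), w t * Φ t = ∫ t in (s - ℓ)..(s + ℓ), Φ t := by
      apply intervalIntegral.integral_congr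
      intro t ht
      rw [uIcc_of_le (by linarith)] at ht
      have : w t = 1 := hwin t (abs_le.2 ⟨by linarith [ht.1], by linarith [ht.2]⟩)
      simp only [this, one_mul]
    rw [h1, hΦ']
    exact KLI_window hℓ σ v hv hq1 hvr hσi
  rw [hsplit]
  have hfin : c * (2 * L) ≤ 3 * q := by
    rw [hc, hL]
    have h1 : 5 / 2 * q ^ 2 / ℓ ^ 2 * (2 * (1 / ℓ)) = 5 * q ^ 2 / ℓ ^ 3 := by
      field_simp
    rw [h1, div_le_iff₀ (by positivity)]
    nlinarith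
  nlinarith

end Muntz
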