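import Pool.Agent.Lib.MP_dde81e_an.SEG

/-! MP_dde81e_an, module SLAB : slab estimate -/

namespace Muntz
open MeasureTheory Set Metric
open scoped ENNReal

theorem SLAB_shift (g : ℝ → ℝ≥0∞) (a c s : ℝ) :
    ∫⁻ t in Ioc a c, g (t + s) = ∫⁻ t in Ioc (a + s) (c + s), g t := by
  rw [← lintegral_indicator measurableSet_Ioc, ← lintegral_indicator measurableSet_Ioc,
    ← lintegral_add_right_eq_self ((Ioc (a + s) (c + s)).indicator g) s]
  refine lintegral_congr fun t => ?_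
  by_cases h : t ∈ Ioc a c
  · have h' : t + s ∈ Ioc (a + s) (c + s) := ⟨by linarith [h.1], by linarith [h.2]⟩
    rw [indicator_of_mem h, indicator_of_mem h']
  · have h' : t + s ∉ Ioc (a + s) (c + s) := fun h' =>
      h ⟨by linarith [h'.1], by linarith [h'.2]⟩
    rw [indicator_of_notMem h, indicator_of_notMem h']

theorem slab : ∃ C : ℝ, 0 < C ∧ ∀ (f : ℂ → ℂ) (a b δ ρ : ℝ) (v : ℂ), a ≤ b → 0 < ρ → 8 * ρ ≤ δ →
    AnalyticOnNhd ℂ f (rect (a - δ) (b + δ) (4 * ρ)) →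
    (∀ σ ∈ rect (a - δ) (b + δ) (4 * ρ), ‖f σ‖ ≤ 1) → |v.im| ≤ ρ → |v.re| ≤ δ / 4 →
    ∫⁻ t in Icc a b, nl (f ((t : ℂ) + v))
      ≤ ENNReal.ofReal C * ∫⁻ t in Icc (a - δ / 2) (b + δ / 2), nl (f (t : ℂ)) := by
  obtain ⟨C0, hC0, hseg⟩ := seg (1 / 2) (by norm_num) (by norm_num)
  refine ⟨3 * C0, by positivity, ?_⟩
  intro f a b δ ρ v hab hρ hδ hf hb him hre
  rw [abs_le] at him hre
  obtain ⟨s, hs⟩ : ∃ s : ℝ, s = v.re := ⟨_, rfl⟩
  obtain ⟨y, hy⟩ : ∃ y : ℝ, y = v.im := ⟨_, rfl⟩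
  rw [← hs] at hre
  rw [← hy] at him
  have hv : v = (s : ℂ) + (y : ℂ) * Complex.I := by
    rw [hs, hy]; exact (Complex.re_add_im v).symm
  -- the local estimate
  have hloc : ∀ x1 : ℝ, a ≤ x1 → x1 ≤ b →
      ∫⁻ t in Ioc x1 (x1 + ρ), nl (f ((t : ℂ) + v))
        ≤ ENNReal.ofReal (3 * C0) * ∫⁻ t in Ioc x1 (x1 + ρ), nl (f (((t + s : ℝ)) : ℂ)) := by
    intro x1 hx1 hx2
    obtain ⟨c, hc⟩ : ∃ c : ℝ, c = x1 + ρ / 2 := ⟨_, rfl⟩
    obtain ⟨h, hh⟩ : ∃ h : ℂ → ℂ, h = fun z => f (z + (s : ℂ)) := ⟨_, rfl⟩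
    have hin : ∀ z ∈ closedBall (c : ℂ) (3 * ρ), z + (s : ℂ) ∈ rect (a - δ) (b + δ) (4 * ρ) := by
      intro z hz
      rw [mem_closedBall, dist_eq_norm] at hz
      have h1 := (Complex.abs_re_le_norm (z - c)).trans hz
      have h2 := (Complex.abs_im_le_norm (z - c)).trans hz
      simp only [Complex.sub_re, Complex.sub_im, Complex.ofReal_re, Complex.ofReal_im,
        sub_zero, abs_le] at h1 h2
      rw [hc] at h1
      refine ⟨⟨?_, ?_⟩, ?_⟩
      · simp only [Complex.add_re, Complex.ofReal_re]; linarith [h1.1]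
      · simp only [Complex.add_re, Complex.ofReal_re]; linarith [h1.2]
      · simp only [Complex.add_im, Complex.ofReal_im, add_zero, abs_le]
        constructor <;> linarith [h2.1, h2.2]
    have hhan : AnalyticOnNhd ℂ h (closedBall (c : ℂ) (3 * ρ)) := by
      intro z hz
      rw [hh]
      have h1 := hf _ (hin z hz)
      exact AnalyticAt.fun_comp h1 (by fun_prop)
    have hhb : ∀ z ∈ closedBall (c : ℂ) (3 * ρ), ‖h z‖ ≤ 1 := by
      intro z hz
      rw [hh]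
      exact hb _ (hin z hz)
    have hkey : ∀ t0 ∈ Icc x1 (x1 + ρ),
        ∫⁻ x in Icc x1 (x1 + ρ), nl (h ((x : ℂ) + (y : ℂ) * Complex.I))
          ≤ ENNReal.ofReal (C0 * (3 * ρ)) * nl (h (t0 : ℂ)) := by
      intro t0 ht0
      refine hseg (c : ℂ) (3 * ρ) h (t0 : ℂ) x1 (x1 + ρ) y (by positivity) hhan hhb ?_
        (by linarith) ?_
      · rw [mem_closedBall, dist_eq_norm, ← Complex.ofReal_sub, Complex.norm_real,
          Real.norm_eq_abs, abs_le, hc]
        constructor <;> linarith [ht0.1, ht0.2]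
      · intro x hx
        rw [mem_closedBall, dist_eq_norm]
        have e1 : (x : ℂ) + (y : ℂ) * Complex.I - (c : ℂ) = ((x - c : ℝ) : ℂ) + (y : ℂ) * Complex.I := by
          push_cast; ring
        rw [e1]
        refine (norm_add_le _ _).trans ?_
        rw [norm_mul, Complex.norm_I, mul_one, Complex.norm_real, Complex.norm_real,
          Real.norm_eq_abs, Real.norm_eq_abs]
        have h1 : |x - c| ≤ ρ / 2 := by
          rw [abs_le, hc]
          constructor <;> linarith [hx.1, hx.2]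
        have h2 : |y| ≤ ρ := abs_le.2 him
        linarith
    -- integrate in t0
    obtain ⟨Λ, hΛ⟩ : ∃ Λ : ℝ≥0∞, Λ =
        ∫⁻ x in Icc x1 (x1 + ρ), nl (h ((x : ℂ) + (y : ℂ) * Complex.I)) := ⟨_, rfl⟩
    rw [← hΛ] at hkey
    have hint : ENNReal.ofReal ρ * Λ ≤ ENNReal.ofReal (C0 * (3 * ρ)) *
        ∫⁻ t0 in Icc x1 (x1 + ρ), nl (h (t0 : ℂ)) := by
      have h1 : ∫⁻ _ in Icc x1 (x1 + ρ), Λ = ENNReal.ofReal ρ * Λ := by
        rw [setLIntegral_const, Real.volume_Icc, mul_comm]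
        congr 2
        ring
      rw [← h1, ← lintegral_const_mul' _ _ ENNReal.ofReal_ne_top]
      exact setLIntegral_mono' measurableSet_Icc hkey
    have hΛ2 : Λ ≤ ENNReal.ofReal (3 * C0) * ∫⁻ t0 in Icc x1 (x1 + ρ), nl (h (t0 : ℂ)) := by
      have e1 : ENNReal.ofReal (C0 * (3 * ρ)) = ENNReal.ofReal ρ * ENNReal.ofReal (3 * C0) := by
        rw [← ENNReal.ofReal_mul hρ.le]
        congr 1
        ring
      rw [e1, mul_assoc] at hint
      have hρ0 : ENNReal.ofReal ρ ≠ 0 := by simpa using hρ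
      exact (ENNReal.mul_le_mul_iff_right hρ0 ENNReal.ofReal_ne_top).1 hint
    have e2 : ∀ x : ℝ, nl (h ((x : ℂ) + (y : ℂ) * Complex.I)) = nl (f ((x : ℂ) + v)) := by
      intro x
      rw [hh, hv]
      simp only
      congr 2
      ring
    have e3 : ∀ x : ℝ, nl (h (x : ℂ)) = nl (f (((x + s : ℝ)) : ℂ)) := by
      intro x
      rw [hh]
      simp only
      push_cast
      rfl
    simp only [e2] at hΛ
    simp only [e3] at hΛ2
    rw [setLIntegral_congr (Ioc_ae_eq_Icc (μ := volume) (a := x1) (b := x1 + ρ)),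
      setLIntegral_congr (Ioc_ae_eq_Icc (μ := volume) (a := x1) (b := x1 + ρ)), ← hΛ]
    exact hΛ2
  -- summation
  obtain ⟨K, hK⟩ : ∃ K : ℕ, K = ⌈(b - a) / ρ⌉₊ := ⟨_, rfl⟩
  have hsum : ∀ k : ℕ, k ≤ K → ∫⁻ t in Ioc a (a + k * ρ), nl (f ((t : ℂ) + v))
      ≤ ENNReal.ofReal (3 * C0) * ∫⁻ t in Ioc a (a + k * ρ), nl (f (((t + s : ℝ)) : ℂ)) := by
    intro k
    induction k with
    | zero => intro _; simp
    | succ k ih =>
      intro hk
      have hk1 : (k : ℝ) * ρ ≤ b - a := by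
        have h1 : k < ⌈(b - a) / ρ⌉₊ := by rw [← hK]; omega
        have h2 := Nat.lt_ceil.1 h1
        rw [lt_div_iff₀ hρ] at h2
        exact h2.le
      have hk0 : 0 ≤ (k : ℝ) * ρ := by positivity
      have e1 : a + ((k + 1 : ℕ) : ℝ) * ρ = a + k * ρ + ρ := by push_cast; ring
      have e2 : Ioc a (a + ((k + 1 : ℕ) : ℝ) * ρ) =
          Ioc a (a + k * ρ) ∪ Ioc (a + k * ρ) (a + k * ρ + ρ) := by
        rw [e1, Ioc_union_Ioc_eq_Ioc (by linarith) (by linarith)]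
      have hdisj : Disjoint (Ioc a (a + k * ρ)) (Ioc (a + k * ρ) (a + k * ρ + ρ)) :=
        Ioc_disjoint_Ioc_of_le le_rfl
      rw [e2, lintegral_union measurableSet_Ioc hdisj, lintegral_union measurableSet_Ioc hdisj,
        mul_add]
      exact add_le_add (ih (by omega)) (hloc _ (by linarith) (by linarith))
  have hKb : b ≤ a + K * ρ := by
    have h1 : (b - a) / ρ ≤ K := by rw [hK]; exact Nat.le_ceil _
    rw [div_le_iff₀ hρ] at h1
    linarith
  have hKb2 : a + K * ρ ≤ b + ρ := by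
    have h1 : (K : ℝ) < (b - a) / ρ + 1 := by
      rw [hK]
      exact Nat.ceil_lt_add_one (div_nonneg (by linarith) hρ.le)
    have h2 : (K : ℝ) * ρ < ((b - a) / ρ + 1) * ρ := mul_lt_mul_of_pos_right h1 hρ
    have h3 : ((b - a) / ρ + 1) * ρ = b - a + ρ := by field_simp
    linarith
  calc ∫⁻ t in Icc a b, nl (f ((t : ℂ) + v))
      = ∫⁻ t in Ioc a b, nl (f ((t : ℂ) + v)) :=
        (setLIntegral_congr (Ioc_ae_eq_Icc (μ := volume) (a := a) (b := b))).symm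
    _ ≤ ∫⁻ t in Ioc a (a + K * ρ), nl (f ((t : ℂ) + v)) :=
        lintegral_mono_set (Ioc_subset_Ioc_right hKb)
    _ ≤ ENNReal.ofReal (3 * C0) * ∫⁻ t in Ioc a (a + K * ρ), nl (f (((t + s : ℝ)) : ℂ)) :=
        hsum K le_rfl
    _ = ENNReal.ofReal (3 * C0) * ∫⁻ t in Ioc (a + s) (a + K * ρ + s), nl (f (t : ℂ)) := by
        rw [SLAB_shift (fun t => nl (f (t : ℂ)))]
    _ ≤ ENNReal.ofReal (3 * C0) * ∫⁻ t in Icc (a - δ / 2) (b + δ / 2), nl (f (t : ℂ)) := by
        refine mul_le_mul_right ?_ _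
        refine lintegral_mono_set ?_
        intro t ht
        exact ⟨by linarith [ht.1], by linarith [ht.2]⟩

end Muntz
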