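import Pool.Agent.Lib.MP_dde81e_an.NC
import Pool.Agent.Lib.MP_dde81e_an.SLAB

/-! MP_dde81e_an, module P2G : concavity of `b ↦ G F w b ζ` (from NC, SLAB) -/

namespace Muntz
open MeasureTheory Set Metric
open scoped ENNReal

theorem P2G_slice {F : ℂ × ℂ → ℂ} (hF : GoodF F) {ζ β : ℂ} (hζ : -1 < ζ.re) {S : Set ℂ}
    (hS : ∀ σ ∈ S, -1 < (σ * ζ + β).re) :
    AnalyticOnNhd ℂ (fun σ => F (ζ, σ * ζ + β)) S ∧ ∀ σ ∈ S, ‖F (ζ, σ * ζ + β)‖ ≤ 1 := by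
  have hopen : IsOpen {σ : ℂ | -1 < (σ * ζ + β).re} := by
    refine isOpen_lt continuous_const ?_
    fun_prop
  refine ⟨fun σ hσ => ?_, fun σ hσ => hF.bound _ hζ (hS σ hσ)⟩
  have hd : DifferentiableOn ℂ (fun σ : ℂ => F (ζ, σ * ζ + β))
      {σ : ℂ | -1 < (σ * ζ + β).re} := by
    refine hF.diff.comp (f := fun σ : ℂ => (ζ, σ * ζ + β)) ?_ ?_
    · fun_prop
    · intro σ' hσ'
      exact ⟨hζ, hσ'⟩
  exact hd.analyticAt (hopen.mem_nhds (hS σ hσ))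

theorem P2G_re {a b h : ℝ} {σ ζ : ℂ} (hζ : 0 < ζ.re) (hσ : σ ∈ rect a b h) (c : ℝ)
    (hc : h * ‖ζ‖ ≤ a * ζ.re) :
    -1 < (σ * ζ + (c : ℂ) * Complex.I).re := by
  obtain ⟨⟨h1, -⟩, h2⟩ := hσ
  have h3 : (σ * ζ + (c : ℂ) * Complex.I).re = σ.re * ζ.re - σ.im * ζ.im := by
    simp [Complex.add_re, Complex.mul_re]
  have h4 : σ.im * ζ.im ≤ h * ‖ζ‖ := by
    calc σ.im * ζ.im ≤ |σ.im * ζ.im| := le_abs_self _
      _ = |σ.im| * |ζ.im| := abs_mul _ _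
      _ ≤ h * ‖ζ‖ := by
        apply mul_le_mul h2 (Complex.abs_im_le_norm ζ) (abs_nonneg _)
        exact le_trans (abs_nonneg _) h2
  have h5 : a * ζ.re ≤ σ.re * ζ.re := mul_le_mul_of_nonneg_right h1 hζ.le
  rw [h3]
  linarith

theorem P2G_v {ζ : ℂ} (hζ : 0 < ζ.re) (d : ℝ) :
    ((d : ℂ) * Complex.I / ζ) * ζ = (d : ℂ) * Complex.I ∧
    |((d : ℂ) * Complex.I / ζ).im| = |d| / ‖ζ‖ * (ζ.re / ‖ζ‖) ∧
    |((d : ℂ) * Complex.I / ζ).re| ≤ |d| / ‖ζ‖ ∧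
    ((d : ℂ) * Complex.I / ζ).im ^ 2 + ((d : ℂ) * Complex.I / ζ).re ^ 2 = (d / ‖ζ‖) ^ 2 := by
  have hne : ζ ≠ 0 := by
    intro h
    rw [h] at hζ
    simp at hζ
  have hn : 0 < ‖ζ‖ := norm_pos_iff.mpr hne
  have hnorm : ‖(d : ℂ) * Complex.I / ζ‖ = |d| / ‖ζ‖ := by
    rw [norm_div, norm_mul, Complex.norm_I, mul_one, Complex.norm_real, Real.norm_eq_abs]
  refine ⟨div_mul_cancel₀ _ hne, ?_, ?_, ?_⟩
  · have h1 : ((d : ℂ) * Complex.I / ζ).im = d * ζ.re / ‖ζ‖ ^ 2 := by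
      rw [Complex.div_im]
      simp [Complex.normSq_eq_norm_sq]
    rw [h1, abs_div, abs_mul, abs_of_pos hζ, abs_of_pos (by positivity : (0 : ℝ) < ‖ζ‖ ^ 2)]
    field_simp
  · calc |((d : ℂ) * Complex.I / ζ).re| ≤ ‖(d : ℂ) * Complex.I / ζ‖ := Complex.abs_re_le_norm _
      _ = _ := hnorm
  · have h1 : ‖(d : ℂ) * Complex.I / ζ‖ ^ 2 = (d / ‖ζ‖) ^ 2 := by
      rw [hnorm, div_pow, div_pow, sq_abs]
    rw [← h1, Complex.sq_norm, Complex.normSq_apply]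
    ring

theorem P2G {F : ℂ × ℂ → ℂ} {A B : ℝ} {w : ℝ → ℝ} (hF : GoodF F) (hA : 0 < A) (hAB : A ≤ B)
    (hw : Wt A B w) : ∃ C x₀ : ℝ, 0 < C ∧ 0 < x₀ ∧ ∀ (ζ : ℂ) (b d : ℝ), 0 < ζ.re →
      |b| ≤ x₀ * ‖ζ‖ → |d| ≤ x₀ * ‖ζ‖ →
      G F w (b - d) ζ + G F w (b + d) ζ
        ≤ 2 * G F w b ζ + ENNReal.ofReal (C * (d / ‖ζ‖) ^ 2) * G2 F A B ζ := by
  obtain ⟨C0, hC0, hnc⟩ := near_concave (a := A / 2) (b := 2 * B) (δ := A / 8) (by linarith)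
    (by linarith) hw.smooth hw.nonneg hw.supp
  obtain ⟨C1, hC1, hslab⟩ := slab
  refine ⟨C0 * (1 + 128 / A) * C1, A / 256, by positivity, by positivity, ?_⟩
  intro ζ b d hζ hb hd
  have hne : ζ ≠ 0 := by
    intro h
    rw [h] at hζ
    simp at hζ
  have hn : 0 < ‖ζ‖ := norm_pos_iff.mpr hne
  have hcle : ζ.re / ‖ζ‖ ≤ 1 := by
    rw [div_le_one hn]
    exact Complex.re_le_norm ζ
  have hcpos : 0 < ζ.re / ‖ζ‖ := div_pos hζ hn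
  set cs : ℝ := ζ.re / ‖ζ‖ with hcs
  have hcsn : cs * ‖ζ‖ = ζ.re := div_mul_cancel₀ _ hn.ne'
  set ρ : ℝ := A / 128 * cs with hρ
  have hρpos : 0 < ρ := by positivity
  have hρle : ρ ≤ A / 128 := by
    rw [hρ]
    nlinarith
  set v : ℂ := (d : ℂ) * Complex.I / ζ with hv
  set v' : ℂ := (b : ℂ) * Complex.I / ζ with hv'
  obtain ⟨hv1, hv2, hv3, hv4⟩ := P2G_v hζ d
  obtain ⟨hv1', hv2', hv3', hv4'⟩ := P2G_v hζ b
  rw [← hv] at hv1 hv2 hv3 hv4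
  rw [← hv'] at hv1' hv2' hv3' hv4'
  have hdn : |d| / ‖ζ‖ ≤ A / 256 := by
    rw [div_le_iff₀ hn]
    exact hd
  have hbn : |b| / ‖ζ‖ ≤ A / 256 := by
    rw [div_le_iff₀ hn]
    exact hb
  have hdn0 : 0 ≤ |d| / ‖ζ‖ := by positivity
  have hbn0 : 0 ≤ |b| / ‖ζ‖ := by positivity
  -- the two slices
  have hdom : 4 * ρ * ‖ζ‖ = A / 32 * ζ.re := by
    rw [hρ, ← hcsn]
    ring
  have hf := P2G_slice hF (ζ := ζ) (β := (b : ℂ) * Complex.I) (by linarith)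
    (S := rect (A / 2 - A / 8) (2 * B + A / 8) (4 * ρ))
    (fun σ hσ => P2G_re hζ hσ b (by rw [hdom]; nlinarith))
  have hg := P2G_slice hF (ζ := ζ) (β := ((0 : ℝ) : ℂ) * Complex.I) (by linarith)
    (S := rect (A / 2 - A / 8 / 2 - A / 8) (2 * B + A / 8 / 2 + A / 8) (4 * ρ))
    (fun σ hσ => P2G_re hζ hσ 0 (by rw [hdom]; nlinarith))
  have h1 := hnc (fun σ => F (ζ, σ * ζ + (b : ℂ) * Complex.I)) ρ v hρpos (by linarith)
    (by rw [hv2, hρ]; nlinarith) (by linarith) hf.1 hf.2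
  have h2 := hslab (fun σ => F (ζ, σ * ζ + ((0 : ℝ) : ℂ) * Complex.I)) (A / 2 - A / 8 / 2)
    (2 * B + A / 8 / 2) (A / 8) ρ v' (by linarith) hρpos (by linarith) hg.1 hg.2
    (by rw [hv2', hρ]; nlinarith) (by linarith)
  have e1 : ∀ t : ℝ, ((t : ℂ) + v) * ζ + (b : ℂ) * Complex.I
      = (t : ℂ) * ζ + ((b + d : ℝ) : ℂ) * Complex.I := by
    intro t
    rw [add_mul, hv1]
    push_cast
    ring
  have e2 : ∀ t : ℝ, ((t : ℂ) - v) * ζ + (b : ℂ) * Complex.I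
      = (t : ℂ) * ζ + ((b - d : ℝ) : ℂ) * Complex.I := by
    intro t
    rw [sub_mul, hv1]
    push_cast
    ring
  have e3 : ∀ t : ℝ, ((t : ℂ) + v') * ζ + ((0 : ℝ) : ℂ) * Complex.I
      = (t : ℂ) * ζ + (b : ℂ) * Complex.I := by
    intro t
    rw [add_mul, hv1']
    push_cast
    ring
  have e4 : ∀ t : ℝ, (t : ℂ) * ζ + ((0 : ℝ) : ℂ) * Complex.I = (t : ℂ) * ζ := by
    intro t
    push_cast
    ring
  simp only [e1, e2] at h1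
  simp only [e3, e4] at h2
  have h3 : ∫⁻ t in Icc (A / 2 - A / 8 / 2 - A / 8 / 2) (2 * B + A / 8 / 2 + A / 8 / 2),
      nl (F (ζ, (t : ℂ) * ζ)) ≤ G2 F A B ζ := by
    refine lintegral_mono_set ?_
    apply Icc_subset_Icc <;> linarith
  have h4 : C0 * (v.im ^ 2 + v.re ^ 2 + |v.re| * |v.im| / ρ)
      ≤ C0 * (1 + 128 / A) * (d / ‖ζ‖) ^ 2 := by
    have h5 : |v.re| * |v.im| / ρ ≤ 128 / A * (d / ‖ζ‖) ^ 2 := by
      have h6 : (d / ‖ζ‖) ^ 2 = (|d| / ‖ζ‖) ^ 2 := by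
        rw [div_pow, div_pow, sq_abs]
      rw [h6, hv2, div_le_iff₀ hρpos, hρ]
      have h7 : 128 / A * (|d| / ‖ζ‖) ^ 2 * (A / 128 * cs) = |d| / ‖ζ‖ * (|d| / ‖ζ‖ * cs) := by
        field_simp
      rw [h7]
      exact mul_le_mul_of_nonneg_right hv3 (by positivity)
    rw [hv4, mul_assoc]
    apply mul_le_mul_of_nonneg_left _ hC0.le
    linarith
  calc G F w (b - d) ζ + G F w (b + d) ζ = G F w (b + d) ζ + G F w (b - d) ζ := add_comm _ _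
    _ ≤ 2 * G F w b ζ + ENNReal.ofReal (C0 * (v.im ^ 2 + v.re ^ 2 + |v.re| * |v.im| / ρ))
          * ∫⁻ t in Icc (A / 2 - A / 8 / 2) (2 * B + A / 8 / 2),
            nl (F (ζ, (t : ℂ) * ζ + (b : ℂ) * Complex.I)) := h1
    _ ≤ 2 * G F w b ζ + ENNReal.ofReal (C0 * (1 + 128 / A) * (d / ‖ζ‖) ^ 2)
          * (ENNReal.ofReal C1 * G2 F A B ζ) := by
        gcongr
        exact le_trans h2 (by gcongr)
    _ = 2 * G F w b ζ
        + ENNReal.ofReal (C0 * (1 + 128 / A) * C1 * (d / ‖ζ‖) ^ 2) * G2 F A B ζ := by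
        rw [← mul_assoc, ← ENNReal.ofReal_mul (by positivity)]
        congr 3
        ring

end Muntz
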