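import Pool.Agent.Lib.MP_dde81e_an.TK1

/-! MP_dde81e_an, module TK2 : circle means of `nl ∘ h` -/

namespace Muntz
open MeasureTheory Set Metric Filter Topology
open scoped ENNReal

/-- zeros can be divided out on a closed ball. -/
theorem TK2_factor {h : ℂ → ℂ} {c : ℂ} {R : ℝ} (hR : 0 < R)
    (hh : AnalyticOnNhd ℂ h (closedBall c R)) (hne : ∃ z ∈ closedBall c R, h z ≠ 0) :
    ∃ (s : Finset ℂ) (D : ℂ → ℕ) (g : ℂ → ℂ), (∀ u ∈ s, u ∈ closedBall c R ∧ D u ≠ 0) ∧
      AnalyticOnNhd ℂ g (closedBall c R) ∧ (∀ z ∈ closedBall c R, g z ≠ 0) ∧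
      ∀ z ∈ closedBall c R, h z = (∏ u ∈ s, (z - u) ^ (D u)) * g z := by
  classical
  have hconn : IsConnected (closedBall c R) :=
    ⟨nonempty_closedBall.2 hR.le, (convex_closedBall c R).isPreconnected⟩
  have hmer := hh.meromorphicOn
  have hacc : ∀ x ∈ closedBall c R, AccPt x (𝓟 (closedBall c R)) := by
    intro x hx
    have h1 : x ∈ closure (ball c R) := by
      rw [closure_ball c hR.ne']; exact hx
    rw [accPt_iff_frequently_nhdsNE]
    intro hc
    have h2 : ∀ᶠ y in 𝓝[≠] x, y ∉ ball c R := by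
      filter_upwards [hc] with y hy hy2
      exact hy (ball_subset_closedBall hy2)
    -- so near x, the ball is contained in {x}
    rw [eventually_nhdsWithin_iff] at h2
    by_cases hxb : x ∈ ball c R
    · have h3 : ∀ᶠ y in 𝓝 x, y ∈ ball c R := isOpen_ball.mem_nhds hxb
      have h4 : ∀ᶠ y in 𝓝 x, y = x := by
        filter_upwards [h2, h3] with y hy1 hy2
        by_contra hne
        exact hy1 hne hy2
      have h5 : ∀ᶠ y in 𝓝[≠] x, y = x := h4.filter_mono nhdsWithin_le_nhds
      have h6 : ∀ᶠ y in 𝓝[≠] x, False := by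
        filter_upwards [h5, self_mem_nhdsWithin] with y hy1 hy2
        exact hy2 hy1
      exact (Filter.NeBot.ne (by infer_instance : (𝓝[≠] x).NeBot)) (by simpa using h6)
    · rw [mem_closure_iff_frequently] at h1
      apply h1
      filter_upwards [h2] with y hy1
      by_cases hyx : y = x
      · rw [hyx]; exact hxb
      · exact hy1 hyx
  have hord : ∀ u : closedBall c R, meromorphicOrderAt h u ≠ ⊤ := by
    rw [← hmer.exists_meromorphicOrderAt_ne_top_iff_forall hconn]
    obtain ⟨z, hz, hz0⟩ := hne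
    refine ⟨⟨z, hz⟩, ?_⟩
    have h1 : meromorphicOrderAt h z = 0 := by
      rw [(hh z hz).meromorphicOrderAt_eq, (hh z hz).analyticOrderAt_eq_zero.2 hz0]
      rfl
    simp [h1]
  have hfin := (MeromorphicOn.divisor h (closedBall c R)).finiteSupport (isCompact_closedBall c R)
  obtain ⟨g, hg1, hg2, hg3⟩ := hmer.extract_zeros_poles hord hfin
  have hDnn : ∀ u, 0 ≤ MeromorphicOn.divisor h (closedBall c R) u := by
    intro u
    exact MeromorphicOn.AnalyticOnNhd.divisor_nonneg hh u
  refine ⟨hfin.toFinset, fun u => (MeromorphicOn.divisor h (closedBall c R) u).toNat, g, ?_, hg1,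
    fun z hz => hg2 ⟨z, hz⟩, ?_⟩
  · intro u hu
    rw [Finite.mem_toFinset] at hu
    refine ⟨(MeromorphicOn.divisor h (closedBall c R)).supportWithinDomain hu, ?_⟩
    have h1 := hDnn u
    have h2 : MeromorphicOn.divisor h (closedBall c R) u ≠ 0 := hu
    show (MeromorphicOn.divisor h (closedBall c R) u).toNat ≠ 0
    omega
  · have hprod : (∏ᶠ u, (· - u) ^ MeromorphicOn.divisor h (closedBall c R) u) • g
        = fun z => (∏ u ∈ hfin.toFinset,
          (z - u) ^ (MeromorphicOn.divisor h (closedBall c R) u).toNat) * g z := by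
      rw [finprod_eq_prod_of_mulSupport_subset (s := hfin.toFinset) _
        (by simp [Function.FactorizedRational.mulSupport])]
      funext z
      simp only [Pi.smul_apply', Finset.prod_apply, Pi.pow_apply, smul_eq_mul]
      congr 1
      apply Finset.prod_congr rfl
      intro u hu
      have h1 := hDnn u
      conv_lhs => rw [← Int.toNat_of_nonneg h1]
      rw [zpow_natCast]
    rw [hprod] at hg3
    intro z hz
    have han : AnalyticAt ℂ (fun z => (∏ u ∈ hfin.toFinset,
          (z - u) ^ (MeromorphicOn.divisor h (closedBall c R) u).toNat) * g z) z := by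
      apply AnalyticAt.mul _ (hg1 z hz)
      apply Finset.analyticAt_fun_prod
      intro u hu
      fun_prop
    have h1 := (hh z hz).meromorphicAt.eventuallyEq_nhdsNE_of_eventuallyEq_codiscreteWithin
      han.meromorphicAt hz (hacc z hz) hg3
    rw [(hh z hz).continuousAt.eventuallyEq_nhds_iff_eventuallyEq_nhdsNE han.continuousAt] at h1
    exact h1.self_of_nhds

theorem TK2_null (s : Finset ℂ) (c : ℂ) {r : ℝ} (hr : r ≠ 0) :
    ∀ᵐ θ : ℝ, circleMap c r θ ∉ s := by
  have h1 : (circleMap c r ⁻¹' (s : Set ℂ)).Countable :=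
    s.countable_toSet.preimage_circleMap c hr
  have h2 := h1.measure_zero volume
  rw [measure_eq_zero_iff_ae_notMem] at h2
  filter_upwards [h2] with θ hθ h3
  exact hθ h3

theorem TK2_log {h : ℂ → ℂ} {c : ℂ} {R : ℝ} {s : Finset ℂ} {D : ℂ → ℕ} {g : ℂ → ℂ}
    (hg : ∀ z ∈ closedBall c R, g z ≠ 0)
    (hf : ∀ z ∈ closedBall c R, h z = (∏ u ∈ s, (z - u) ^ (D u)) * g z)
    {z : ℂ} (hz : z ∈ closedBall c R) (hzs : z ∉ s) :
    h z ≠ 0 ∧ Real.log ‖h z‖ = ∑ u ∈ s, (D u : ℝ) * Real.log ‖z - u‖ + Real.log ‖g z‖ := by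
  have h1 : ∀ u ∈ s, (z - u) ^ (D u) ≠ 0 := by
    intro u hu
    apply pow_ne_zero
    rw [sub_ne_zero]
    rintro rfl
    exact hzs hu
  have h2 : (∏ u ∈ s, (z - u) ^ (D u)) ≠ 0 := Finset.prod_ne_zero_iff.2 h1
  refine ⟨?_, ?_⟩
  · rw [hf z hz]
    exact mul_ne_zero h2 (hg z hz)
  · rw [hf z hz, norm_mul, Real.log_mul (norm_ne_zero_iff.2 h2) (norm_ne_zero_iff.2 (hg z hz)),
      norm_prod, Real.log_prod (fun u hu => norm_ne_zero_iff.2 (h1 u hu))]
    congr 1
    apply Finset.sum_congr rfl
    intro u hu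
    rw [norm_pow, Real.log_pow]

theorem TK2_congr {f₁ f₂ : ℂ → ℝ} {c : ℂ} {r : ℝ} (s : Finset ℂ) (hr : r ≠ 0)
    (h : ∀ z ∈ sphere c |r|, z ∉ s → f₁ z = f₂ z) :
    Real.circleAverage f₁ c r = Real.circleAverage f₂ c r := by
  unfold Real.circleAverage
  congr 1
  apply intervalIntegral.integral_congr_ae
  filter_upwards [TK2_null s c hr] with θ hθ _
  exact h _ (circleMap_mem_sphere' c r θ) hθ

theorem TK2_avg {h : ℂ → ℂ} {c : ℂ} {r R : ℝ} {s : Finset ℂ} {D : ℂ → ℕ} {g : ℂ → ℂ}
    (hr : 0 < r) (hrR : r ≤ R) (hga : AnalyticOnNhd ℂ g (closedBall c R))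
    (hg : ∀ z ∈ closedBall c R, g z ≠ 0)
    (hf : ∀ z ∈ closedBall c R, h z = (∏ u ∈ s, (z - u) ^ (D u)) * g z) :
    Real.circleAverage (fun z => Real.log ‖h z‖) c r
      = ∑ u ∈ s, (D u : ℝ) * (Real.log r + Real.posLog (r⁻¹ * ‖c - u‖)) + Real.log ‖g c‖ := by
  have habs : |r| = r := abs_of_pos hr
  have hsub : closedBall c |r| ⊆ closedBall c R := by
    rw [habs]; exact closedBall_subset_closedBall hrR
  have h1 : Real.circleAverage (fun z => Real.log ‖h z‖) c r
      = Real.circleAverage (fun z => (∑ u ∈ s, (D u : ℝ) * Real.log ‖z - u‖) + Real.log ‖g z‖) c r := by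
    apply TK2_congr s hr.ne'
    intro z hz hzs
    exact (TK2_log hg hf (hsub (sphere_subset_closedBall hz)) hzs).2
  have hint : ∀ u ∈ s, CircleIntegrable (fun z => (D u : ℝ) * Real.log ‖z - u‖) c r := by
    intro u hu
    have := circleIntegrable_log_norm_sub_const (a := u) (c := c) r
    exact this.const_mul _
  have hgint : CircleIntegrable (fun z => Real.log ‖g z‖) c r :=
    MeromorphicOn.circleIntegrable_log_norm
      ((hga.mono (sphere_subset_closedBall.trans hsub)).meromorphicOn)
  rw [h1, Real.circleAverage_fun_add (CircleIntegrable.fun_sum s hint) hgint,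
    Real.circleAverage_fun_sum hint]
  congr 1
  · apply Finset.sum_congr rfl
    intro u hu
    have := Real.circleAverage_fun_smul (a := (D u : ℝ)) (f := fun z => Real.log ‖z - u‖) (c := c) (R := r)
    simp only [smul_eq_mul] at this
    rw [this, circleAverage_log_norm_sub_const_eq_log_radius_add_posLog hr.ne']
  · exact (hga.mono hsub).circleAverage_log_norm_of_ne_zero (fun u hu => hg u (hsub hu))

theorem TK2_cav_eq {h : ℂ → ℂ} {c : ℂ} {r : ℝ}
    (hint : CircleIntegrable (fun z => Real.log ‖h z‖) c r)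
    (h0 : ∀ᵐ θ : ℝ, h (circleMap c r θ) ≠ 0) (hb : ∀ θ, ‖h (circleMap c r θ)‖ ≤ 1) :
    cav (fun z => nl (h z)) c r
      = ENNReal.ofReal (-Real.circleAverage (fun z => Real.log ‖h z‖) c r) := by
  unfold cav
  have h1 : ∫⁻ θ in Ioc (0 : ℝ) (2 * Real.pi), nl (h (circleMap c r θ))
      = ∫⁻ θ in Ioc (0 : ℝ) (2 * Real.pi), ENNReal.ofReal (-Real.log ‖h (circleMap c r θ)‖) := by
    apply lintegral_congr_ae
    filter_upwards [ae_restrict_of_ae h0] with θ hθ
    exact TK1_nl_of_ne hθ
  have hi : Integrable (fun θ => -Real.log ‖h (circleMap c r θ)‖)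
      (volume.restrict (Ioc (0 : ℝ) (2 * Real.pi))) := by
    have h2 := hint.1
    exact h2.neg
  rw [h1, ← ofReal_integral_eq_lintegral_ofReal hi, ← ENNReal.ofReal_mul (by positivity)]
  · congr 1
    unfold Real.circleAverage
    rw [intervalIntegral.integral_of_le (by positivity), integral_neg, smul_eq_mul]
    ring
  · apply ae_of_all
    intro θ
    have := Real.log_nonpos (norm_nonneg _) (hb θ)
    simp only [Pi.zero_apply]
    linarith

theorem TK2_cav_top {u : ℂ → ℝ≥0∞} {c : ℂ} {r : ℝ} (h : ∀ θ, u (circleMap c r θ) = ⊤) :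
    cav u c r = ⊤ := by
  unfold cav
  simp only [h, lintegral_const, Measure.restrict_apply MeasurableSet.univ, univ_inter,
    Real.volume_Ioc, sub_zero]
  have h1 : ENNReal.ofReal (2 * Real.pi) ≠ 0 := by
    simp [Real.pi_pos]
  have h2 : ENNReal.ofReal (1 / (2 * Real.pi)) ≠ 0 := by
    simp [Real.pi_pos]
  rw [ENNReal.top_mul h1, ENNReal.mul_top h2]

theorem cav_radius_zero (u : ℂ → ℝ≥0∞) (c : ℂ) : cav u c 0 = u c := by
  unfold cav
  simp only [circleMap_zero_radius, Function.const_apply, lintegral_const,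
    Measure.restrict_apply MeasurableSet.univ, univ_inter, Real.volume_Ioc, sub_zero]
  rw [mul_comm (u c), ← mul_assoc, ← ENNReal.ofReal_mul (by positivity)]
  have : 1 / (2 * Real.pi) * (2 * Real.pi) = 1 := by
    field_simp
  rw [this, ENNReal.ofReal_one, one_mul]

theorem TK2_circle_mem {c : ℂ} {r R : ℝ} (hr : 0 ≤ r) (hrR : r ≤ R) (θ : ℝ) :
    circleMap c r θ ∈ closedBall c R := by
  have h1 := circleMap_mem_sphere c hr θ
  exact closedBall_subset_closedBall hrR (sphere_subset_closedBall h1)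

/-- the value of the circle mean through the factorization. -/
theorem TK2_cav_val {h : ℂ → ℂ} {c : ℂ} {r R : ℝ} {s : Finset ℂ} {D : ℂ → ℕ} {g : ℂ → ℂ}
    (hh : AnalyticOnNhd ℂ h (closedBall c R)) (hb : ∀ z ∈ closedBall c R, ‖h z‖ ≤ 1)
    (hr : 0 < r) (hrR : r ≤ R) (hga : AnalyticOnNhd ℂ g (closedBall c R))
    (hg : ∀ z ∈ closedBall c R, g z ≠ 0)
    (hf : ∀ z ∈ closedBall c R, h z = (∏ u ∈ s, (z - u) ^ (D u)) * g z) :
    cav (fun z => nl (h z)) c r = ENNReal.ofReal
      (-(∑ u ∈ s, (D u : ℝ) * (Real.log r + Real.posLog (r⁻¹ * ‖c - u‖)) + Real.log ‖g c‖)) := by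
  rw [← TK2_avg hr hrR hga hg hf]
  apply TK2_cav_eq
  · apply MeromorphicOn.circleIntegrable_log_norm
    apply AnalyticOnNhd.meromorphicOn
    apply hh.mono
    rw [abs_of_pos hr]
    exact sphere_subset_closedBall.trans (closedBall_subset_closedBall hrR)
  · filter_upwards [TK2_null s c hr.ne'] with θ hθ
    exact (TK2_log hg hf (TK2_circle_mem hr.le hrR θ) hθ).1
  · intro θ
    exact hb _ (TK2_circle_mem hr.le hrR θ)

theorem TK2_posLog_mono {c u : ℂ} {r R : ℝ} (hr : 0 < r) (hrR : r ≤ R) :
    Real.log r + Real.posLog (r⁻¹ * ‖c - u‖) ≤ Real.log R + Real.posLog (R⁻¹ * ‖c - u‖) := by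
  have hR : 0 < R := lt_of_lt_of_le hr hrR
  have key : ∀ ρ : ℝ, 0 < ρ → Real.log ρ + Real.posLog (ρ⁻¹ * ‖c - u‖)
      = max (Real.log ρ) (if c = u then Real.log ρ else Real.log ‖c - u‖) := by
    intro ρ hρ
    by_cases hcu : c = u
    · subst hcu
      simp [Real.posLog_def]
    · have h1 : 0 < ‖c - u‖ := norm_pos_iff.2 (sub_ne_zero.2 hcu)
      have h2 : Real.posLog (ρ⁻¹ * ‖c - u‖) = max 0 (Real.log (ρ⁻¹ * ‖c - u‖)) := rfl
      rw [if_neg hcu, h2, Real.log_mul (inv_ne_zero hρ.ne') h1.ne', Real.log_inv,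
        ← max_add_add_left]
      congr 1
      · ring
      · ring
  rw [key r hr, key R hR]
  have h2 := Real.log_le_log hr hrR
  by_cases hcu : c = u
  · simp [hcu, h2]
  · rw [if_neg hcu, if_neg hcu]
    exact max_le_max h2 le_rfl

theorem cav_anti {h : ℂ → ℂ} {c : ℂ} {r R : ℝ} (hh : AnalyticOnNhd ℂ h (closedBall c R))
    (hb : ∀ z ∈ closedBall c R, ‖h z‖ ≤ 1) (hr : 0 ≤ r) (hrR : r ≤ R) :
    cav (fun z => nl (h z)) c R ≤ cav (fun z => nl (h z)) c r := by
  rcases eq_or_lt_of_le (hr.trans hrR) with hR | hR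
  · have : r = R := le_antisymm hrR (hR ▸ hr)
    rw [this]
  by_cases hne : ∃ z ∈ closedBall c R, h z ≠ 0
  · obtain ⟨s, D, g, hs, hga, hg, hf⟩ := TK2_factor hR hh hne
    rw [TK2_cav_val hh hb hR le_rfl hga hg hf]
    rcases eq_or_lt_of_le hr with h0 | h0
    · subst h0
      rw [cav_radius_zero]
      by_cases hc0 : h c = 0
      · rw [hc0, nl_zero]; exact le_top
      · rw [TK1_nl_of_ne hc0]
        apply ENNReal.ofReal_le_ofReal
        apply neg_le_neg
        have hcmem : c ∈ closedBall c R := mem_closedBall_self hR.le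
        have hcs : c ∉ s := by
          intro hcs
          apply hc0
          rw [hf c hcmem, Finset.prod_eq_zero hcs, zero_mul]
          rw [sub_self, zero_pow (hs c hcs).2]
        rw [(TK2_log hg hf hcmem hcs).2]
        gcongr with u hu
        have h1 : 0 < ‖c - u‖ := by
          rw [norm_pos_iff, sub_ne_zero]
          rintro rfl
          exact hcs hu
        have h2 : ‖c - u‖ ≤ R := by
          have := (hs u hu).1
          rw [mem_closedBall, dist_comm, dist_eq_norm] at this
          exact this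
        have h3 := Real.log_le_log h1 h2
        have h4 := Real.posLog_nonneg (x := R⁻¹ * ‖c - u‖)
        linarith
    · rw [TK2_cav_val hh hb h0 hrR hga hg hf]
      apply ENNReal.ofReal_le_ofReal
      apply neg_le_neg
      apply add_le_add _ le_rfl
      apply Finset.sum_le_sum
      intro u hu
      exact mul_le_mul_of_nonneg_left (TK2_posLog_mono h0 hrR) (Nat.cast_nonneg _)
  · push Not at hne
    rw [TK2_cav_top (u := fun z => nl (h z)) (c := c) (r := r)]
    · exact le_top
    · intro θ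
      show nl (h (circleMap c r θ)) = ⊤
      rw [hne _ (TK2_circle_mem hr hrR θ), nl_zero]

theorem cav_le_center {h : ℂ → ℂ} {c : ℂ} {R : ℝ} (hh : AnalyticOnNhd ℂ h (closedBall c R))
    (hb : ∀ z ∈ closedBall c R, ‖h z‖ ≤ 1) (hR : 0 ≤ R) :
    cav (fun z => nl (h z)) c R ≤ nl (h c) := by
  have := cav_anti hh hb le_rfl hR
  rwa [cav_radius_zero] at this

theorem cav_zero_center {h : ℂ → ℂ} {c : ℂ} {r R : ℝ} (hh : AnalyticOnNhd ℂ h (closedBall c R))
    (hb : ∀ z ∈ closedBall c R, ‖h z‖ ≤ 1) (h0 : h c = 0) (hr : 0 < r) (hrR : r ≤ R) :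
    cav (fun z => nl (h z)) c R + ENNReal.ofReal (Real.log (R / r))
      ≤ cav (fun z => nl (h z)) c r := by
  have hR : 0 < R := lt_of_lt_of_le hr hrR
  by_cases hne : ∃ z ∈ closedBall c R, h z ≠ 0
  · obtain ⟨s, D, g, hs, hga, hg, hf⟩ := TK2_factor hR hh hne
    have hcmem : c ∈ closedBall c R := mem_closedBall_self hR.le
    have hcs : c ∈ s := by
      by_contra hcs
      exact (TK2_log hg hf hcmem hcs).1 h0
    have hlog : 0 ≤ Real.log (R / r) := Real.log_nonneg ((one_le_div hr).2 hrR)
    have hnn : ∀ {ρ : ℝ}, 0 < ρ → ρ ≤ R → 0 ≤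
      (-(∑ u ∈ s, (D u : ℝ) * (Real.log ρ + Real.posLog (ρ⁻¹ * ‖c - u‖)) + Real.log ‖g c‖)) := by
      intro ρ hρ hρR
      rw [← TK2_avg hρ hρR hga hg hf, neg_nonneg]
      have h5 : Real.circleAverage (fun z => Real.log ‖h z‖) c ρ ≤ 0 := by
        apply Real.circleAverage_mono_on_of_le_circle
        · apply MeromorphicOn.circleIntegrable_log_norm
          apply AnalyticOnNhd.meromorphicOn
          apply hh.mono
          rw [abs_of_pos hρ]
          exact sphere_subset_closedBall.trans (closedBall_subset_closedBall hρR)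
        · intro z hz
          apply Real.log_nonpos (norm_nonneg _)
          apply hb
          rw [abs_of_pos hρ] at hz
          exact closedBall_subset_closedBall hρR (sphere_subset_closedBall hz)
      exact h5
    rw [TK2_cav_val hh hb hR le_rfl hga hg hf, TK2_cav_val hh hb hr hrR hga hg hf,
      ← ENNReal.ofReal_add (hnn hR le_rfl) hlog]
    apply ENNReal.ofReal_le_ofReal
    have key : ∑ u ∈ s, (D u : ℝ) * (Real.log r + Real.posLog (r⁻¹ * ‖c - u‖)) + Real.log (R / r)
        ≤ ∑ u ∈ s, (D u : ℝ) * (Real.log R + Real.posLog (R⁻¹ * ‖c - u‖)) := by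
      rw [← Finset.sum_erase_add s _ hcs, ← Finset.sum_erase_add s _ hcs, add_assoc]
      apply add_le_add
      · apply Finset.sum_le_sum
        intro u hu
        exact mul_le_mul_of_nonneg_left (TK2_posLog_mono hr hrR) (Nat.cast_nonneg _)
      · simp only [sub_self, norm_zero, mul_zero, Real.posLog_zero, add_zero]
        rw [Real.log_div hR.ne' hr.ne']
        have h1 : (1 : ℝ) ≤ D c := by
          have := (hs c hcs).2
          exact_mod_cast Nat.one_le_iff_ne_zero.2 this
        have h2 := Real.log_le_log hr hrR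
        nlinarith
    linarith
  · push Not at hne
    rw [TK2_cav_top (u := fun z => nl (h z)) (c := c) (r := r)]
    · exact le_top
    · intro θ
      show nl (h (circleMap c r θ)) = ⊤
      rw [hne _ (TK2_circle_mem hr.le hrR θ), nl_zero]

/-- the Poisson mean of `log |z - u|` dominates the value at the point. -/
theorem TK2_poisson_log {c w u : ℂ} {R : ℝ} (hR : 0 < R) (hw : w ∈ ball c R)
    (hu : u ∈ closedBall c R) (hwu : w ≠ u) :
    Real.log ‖w - u‖ ≤
      Real.circleAverage (fun z => (herglotzRieszKernel c w z).re * Real.log ‖z - u‖) c R := by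
  rcases eq_or_lt_of_le (mem_closedBall.1 hu) with he | hlt
  · have h1 := circleAverage_re_herglotzRieszKernel_mul_log (w := w) (ρ := u) (c := c) (R := R)
      (by rw [mem_sphere]; exact he) hw
    exact le_of_eq h1.symm
  · set a : ℂ := u - c with ha
    have hanorm : ‖a‖ < R := by rw [ha, ← dist_eq_norm]; exact hlt
    set φ : ℂ → ℂ := fun z => ((R : ℂ) ^ 2 - (starRingEnd ℂ) a * (z - c)) / R with hφ
    have hRc : (R : ℂ) ≠ 0 := by exact_mod_cast hR.ne'
    have hφa : ∀ z, AnalyticAt ℂ φ z := by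
      intro z
      simp only [hφ]
      fun_prop (disch := exact hRc)
    have hφ0 : ∀ z ∈ closedBall c R, φ z ≠ 0 := by
      intro z hz h0
      simp only [hφ, div_eq_zero_iff, hRc, or_false, sub_eq_zero] at h0
      have h1 : R ^ 2 = ‖a‖ * ‖z - c‖ := by
        have := congrArg norm h0
        rw [norm_mul, RCLike.norm_conj, norm_pow, Complex.norm_real, Real.norm_of_nonneg hR.le] at this
        exact this
      have h2 : ‖z - c‖ ≤ R := by rw [← dist_eq_norm]; exact hz
      nlinarith [norm_nonneg a, norm_nonneg (z - c)]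
    have hsph : ∀ z ∈ sphere c R, ‖z - u‖ = ‖φ z‖ := by
      intro z hz
      have h1 : ‖z - c‖ = R := by rw [← dist_eq_norm]; exact hz
      have h2 : (R : ℂ) ^ 2 = (starRingEnd ℂ) (z - c) * (z - c) := by
        rw [mul_comm, Complex.mul_conj, Complex.normSq_eq_norm_sq, h1]
        push_cast
        ring
      have h3 : (R : ℂ) ^ 2 - (starRingEnd ℂ) a * (z - c)
          = (starRingEnd ℂ) (z - u) * (z - c) := by
        rw [h2, ← sub_mul, ← map_sub]
        congr 2
        rw [ha]; ring
      simp only [hφ]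
      rw [h3, norm_div, norm_mul, RCLike.norm_conj, h1, Complex.norm_real,
        Real.norm_of_nonneg hR.le]
      field_simp
    have hharm : InnerProductSpace.HarmonicOnNhd (fun z => Real.log ‖φ z‖) (closedBall c R) :=
      fun z hz => (hφa z).harmonicAt_log_norm (hφ0 z hz)
    have h4 := hharm.circleAverage_re_herglotzRieszKernel_smul hw
    have h5 : Real.circleAverage (fun z => (herglotzRieszKernel c w z).re * Real.log ‖z - u‖) c R
        = Real.log ‖φ w‖ := by
      rw [← h4]
      apply Real.circleAverage_congr_sphere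
      intro z hz
      rw [abs_of_pos hR] at hz
      simp only [Pi.smul_apply', Function.comp_apply, smul_eq_mul]
      rw [hsph z hz]
    rw [h5]
    apply Real.log_le_log (norm_pos_iff.2 (sub_ne_zero.2 hwu))
    have hwc : ‖w - c‖ < R := by rw [← dist_eq_norm]; exact hw
    have h6 : ‖w - u‖ ^ 2 ≤ ‖φ w‖ ^ 2 := by
      have h7 : ‖φ w‖ ^ 2 = ‖(R : ℂ) ^ 2 - (starRingEnd ℂ) a * (w - c)‖ ^ 2 / R ^ 2 := by
        simp only [hφ]
        rw [norm_div, Complex.norm_real, Real.norm_of_nonneg hR.le, div_pow]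
      rw [h7, le_div_iff₀ (by positivity)]
      have h8 : ‖(R : ℂ) ^ 2 - (starRingEnd ℂ) a * (w - c)‖ ^ 2 - ‖w - u‖ ^ 2 * R ^ 2
          = (R ^ 2 - ‖a‖ ^ 2) * (R ^ 2 - ‖w - c‖ ^ 2) := by
        have h9 : w - u = (w - c) - a := by rw [ha]; ring
        rw [h9]
        simp only [← Complex.normSq_eq_norm_sq, Complex.normSq_apply]
        simp only [Complex.sub_re, Complex.sub_im, Complex.mul_re, Complex.mul_im,
          Complex.conj_re, Complex.conj_im]
        have h10 : ((R : ℂ) ^ 2).re = R ^ 2 := by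
          rw [← Complex.ofReal_pow, Complex.ofReal_re]
        have h11 : ((R : ℂ) ^ 2).im = 0 := by
          rw [← Complex.ofReal_pow, Complex.ofReal_im]
        rw [h10, h11]
        ring
      have h12 : 0 ≤ (R ^ 2 - ‖a‖ ^ 2) * (R ^ 2 - ‖w - c‖ ^ 2) := by
        apply mul_nonneg
        · nlinarith [norm_nonneg a]
        · nlinarith [norm_nonneg (w - c)]
      linarith
    exact le_of_sq_le_sq h6 (norm_nonneg _)

theorem TK2_kernel_cont {c w : ℂ} {R : ℝ} (hw : w ∈ ball c R) :
    Continuous (fun θ : ℝ => (herglotzRieszKernel c w (circleMap c R θ)).re) := by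
  have h1 : ContinuousOn (herglotzRieszKernel c w) (sphere c |R|) :=
    continuousOn_herglotzRieszKernel_sphere hw
  have h2 : Continuous (fun θ : ℝ => herglotzRieszKernel c w (circleMap c R θ)) :=
    h1.comp_continuous (continuous_circleMap c R) (fun θ => circleMap_mem_sphere' c R θ)
  exact Complex.continuous_re.comp h2

theorem TK2_kernel_int {c w : ℂ} {R : ℝ} (hw : w ∈ ball c R) {f : ℂ → ℝ}
    (hf : CircleIntegrable f c R) :
    CircleIntegrable (fun z => (herglotzRieszKernel c w z).re * f z) c R := by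
  unfold CircleIntegrable at *
  exact IntervalIntegrable.continuousOn_mul hf (TK2_kernel_cont hw).continuousOn

theorem harnack_lower {h : ℂ → ℂ} {c w : ℂ} {R θ : ℝ} (hR : 0 < R)
    (hh : AnalyticOnNhd ℂ h (closedBall c R))
    (hb : ∀ z ∈ closedBall c R, ‖h z‖ ≤ 1) (h0 : 0 ≤ θ) (h1 : θ < 1)
    (hw : w ∈ closedBall c (θ * R)) :
    ENNReal.ofReal ((1 - θ) / (1 + θ)) * cav (fun z => nl (h z)) c R ≤ nl (h w) := by
  by_cases hw0 : h w = 0
  · rw [hw0, nl_zero]; exact le_top
  have hwb : w ∈ ball c R := by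
    rw [mem_ball]
    refine lt_of_le_of_lt (mem_closedBall.1 hw) ?_
    nlinarith
  have hwcl : w ∈ closedBall c R := ball_subset_closedBall hwb
  obtain ⟨s, D, g, hs, hga, hg, hf⟩ := TK2_factor hR hh ⟨w, hwcl, hw0⟩
  have hws : w ∉ s := by
    intro hws
    apply hw0
    rw [hf w hwcl, Finset.prod_eq_zero hws, zero_mul]
    rw [sub_self, zero_pow (hs w hws).2]
  have hint : CircleIntegrable (fun z => Real.log ‖h z‖) c R := by
    apply MeromorphicOn.circleIntegrable_log_norm
    apply AnalyticOnNhd.meromorphicOn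
    apply hh.mono
    rw [abs_of_pos hR]
    exact sphere_subset_closedBall
  have hcav : cav (fun z => nl (h z)) c R
      = ENNReal.ofReal (-Real.circleAverage (fun z => Real.log ‖h z‖) c R) := by
    apply TK2_cav_eq hint
    · filter_upwards [TK2_null s c hR.ne'] with θ hθ
      exact (TK2_log hg hf (TK2_circle_mem hR.le le_rfl θ) hθ).1
    · intro θ
      exact hb _ (TK2_circle_mem hR.le le_rfl θ)
  -- Claim A
  have hA : Real.log ‖h w‖ ≤
      Real.circleAverage (fun z => (herglotzRieszKernel c w z).re * Real.log ‖h z‖) c R := by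
    have e1 : Real.circleAverage (fun z => (herglotzRieszKernel c w z).re * Real.log ‖h z‖) c R
        = Real.circleAverage (fun z => (∑ u ∈ s, (D u : ℝ) *
          ((herglotzRieszKernel c w z).re * Real.log ‖z - u‖))
            + (herglotzRieszKernel c w z).re * Real.log ‖g z‖) c R := by
      apply TK2_congr s hR.ne'
      intro z hz hzs
      rw [abs_of_pos hR] at hz
      rw [(TK2_log hg hf (sphere_subset_closedBall hz) hzs).2, mul_add, Finset.mul_sum]
      congr 1
      apply Finset.sum_congr rfl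
      intro u hu
      ring
    have hi : ∀ u ∈ s, CircleIntegrable
        (fun z => (D u : ℝ) * ((herglotzRieszKernel c w z).re * Real.log ‖z - u‖)) c R := by
      intro u hu
      exact (TK2_kernel_int hwb (circleIntegrable_log_norm_sub_const (a := u) (c := c) R)).const_mul _
    have hgi : CircleIntegrable
        (fun z => (herglotzRieszKernel c w z).re * Real.log ‖g z‖) c R := by
      apply TK2_kernel_int hwb
      apply MeromorphicOn.circleIntegrable_log_norm
      apply AnalyticOnNhd.meromorphicOn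
      apply hga.mono
      rw [abs_of_pos hR]
      exact sphere_subset_closedBall
    rw [e1, Real.circleAverage_fun_add (CircleIntegrable.fun_sum s hi) hgi,
      Real.circleAverage_fun_sum hi, (TK2_log hg hf hwcl hws).2]
    apply add_le_add
    · apply Finset.sum_le_sum
      intro u hu
      have e2 := Real.circleAverage_fun_smul (a := (D u : ℝ))
        (f := fun z => (herglotzRieszKernel c w z).re * Real.log ‖z - u‖) (c := c) (R := R)
      simp only [smul_eq_mul] at e2
      rw [e2]
      apply mul_le_mul_of_nonneg_left _ (Nat.cast_nonneg _)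
      apply TK2_poisson_log hR hwb (hs u hu).1
      rintro rfl
      exact hws hu
    · have hharm : InnerProductSpace.HarmonicOnNhd (fun z => Real.log ‖g z‖) (closedBall c R) :=
        fun z hz => (hga z hz).harmonicAt_log_norm (hg z hz)
      exact (hharm.circleAverage_re_herglotzRieszKernel_smul hwb).symm.le
  -- Claim B
  have hB : Real.circleAverage (fun z => (herglotzRieszKernel c w z).re * Real.log ‖h z‖) c R
      ≤ (1 - θ) / (1 + θ) * Real.circleAverage (fun z => Real.log ‖h z‖) c R := by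
    have e2 := Real.circleAverage_fun_smul (a := (1 - θ) / (1 + θ))
        (f := fun z => Real.log ‖h z‖) (c := c) (R := R)
    simp only [smul_eq_mul] at e2
    rw [← e2]
    apply Real.circleAverage_mono (TK2_kernel_int hwb hint)
    · exact hint.const_mul _
    · intro z hz
      rw [abs_of_pos hR] at hz
      have e3 : Real.log ‖h z‖ ≤ 0 :=
        Real.log_nonpos (norm_nonneg _) (hb z (sphere_subset_closedBall hz))
      have e4 := le_re_herglotzRieszKernel hz hwb
      have e5 : (1 - θ) / (1 + θ) ≤ (R - ‖w - c‖) / (R + ‖w - c‖) := by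
        have e6 : ‖w - c‖ ≤ θ * R := by rw [← dist_eq_norm]; exact hw
        rw [div_le_div_iff₀ (by linarith) (by linarith [norm_nonneg (w - c)])]
        nlinarith [norm_nonneg (w - c)]
      have e7 : (1 - θ) / (1 + θ) ≤ (herglotzRieszKernel c w z).re := by
        rw [herglotzRieszKernel_def]
        exact e5.trans e4
      exact mul_le_mul_of_nonpos_right e7 e3
  have hk : 0 ≤ (1 - θ) / (1 + θ) := div_nonneg (by linarith) (by linarith)
  rw [hcav, TK1_nl_of_ne hw0, ← ENNReal.ofReal_mul hk]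
  apply ENNReal.ofReal_le_ofReal
  linarith

end Muntz
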