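import Pool.Agent.Lib.MP_dde81e_an.NC
import Pool.Agent.Lib.MP_dde81e_an.KLI
import Pool.Agent.Lib.MP_dde81e_an.TK2
import Pool.Agent.Lib.MP_dde81e_an.P2G

/-! MP_dde81e_an, module KL : kink lower bound near the real plane (from NC, BD type factorization, KLI) -/

namespace Muntz
open MeasureTheory Set Metric
open scoped ENNReal

theorem KL_factor {U : Set ℂ} (hU : IsCompact U) (hcon : IsConnected U) (hnt : U.Nontrivial)
    {h : ℂ → ℂ} (hh : AnalyticOnNhd ℂ h U) (hne : ∃ z ∈ U, h z ≠ 0) :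
    ∃ (S : Finset ℂ) (n : ℂ → ℕ) (g : ℂ → ℂ), AnalyticOnNhd ℂ g U ∧
      (∀ z ∈ U, g z ≠ 0) ∧ ∀ z ∈ U, h z = (∏ u ∈ S, (z - u) ^ n u) * g z := by
  have hmer : MeromorphicOn h U := hh.meromorphicOn
  have hord : ∀ u : U, meromorphicOrderAt h u ≠ ⊤ := by
    rw [← hmer.exists_meromorphicOrderAt_ne_top_iff_forall hcon]
    obtain ⟨z, hz, hz0⟩ := hne
    refine ⟨⟨z, hz⟩, ?_⟩
    have h1 : analyticOrderAt h z = 0 := (hh z hz).analyticOrderAt_eq_zero.2 hz0
    have h2 : meromorphicOrderAt h z = 0 := by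
      rw [(hh z hz).meromorphicOrderAt_eq, h1]
      rfl
    simp only [h2]
    exact WithTop.zero_ne_top
  have hfin := (MeromorphicOn.divisor h U).finiteSupport hU
  obtain ⟨g, hg, hg0, hEq⟩ := hmer.extract_zeros_poles hord hfin
  set D := MeromorphicOn.divisor h U with hD
  have hDnn : ∀ u, 0 ≤ D u := fun u => (MeromorphicOn.AnalyticOnNhd.divisor_nonneg hh) u
  refine ⟨hfin.toFinset, fun u => (D u).toNat, g, hg, fun z hz => hg0 ⟨z, hz⟩, ?_⟩
  have hprod : (∏ᶠ u, (· - u) ^ (D u) : ℂ → ℂ) = fun z => ∏ u ∈ hfin.toFinset, (z - u) ^ (D u).toNat := by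
    rw [Function.FactorizedRational.finprod_eq_fun hfin]
    ext z
    rw [finprod_eq_prod_of_mulSupport_subset (s := hfin.toFinset)]
    · refine Finset.prod_congr rfl fun u _ => ?_
      conv_lhs => rw [← Int.toNat_of_nonneg (hDnn u)]
      rw [zpow_natCast]
    · intro u
      contrapose
      intro hu
      simp only [Finite.coe_toFinset, Function.mem_support, ne_eq, not_not] at hu
      simp [hu]
  rw [hprod] at hEq
  intro z hz
  have hacc : AccPt z (Filter.principal U) :=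
    hcon.isPreconnected.preperfect_of_nontrivial hnt z hz
  have ha1 : AnalyticAt ℂ h z := hh z hz
  have ha2 : AnalyticAt ℂ ((fun z => ∏ u ∈ hfin.toFinset, (z - u) ^ (D u).toNat) • g) z := by
    apply AnalyticAt.smul _ (hg z hz)
    fun_prop
  have := MeromorphicAt.eventuallyEq_nhdsNE_of_eventuallyEq_codiscreteWithin ha1.meromorphicAt
    ha2.meromorphicAt hz hacc hEq
  have h3 := (ha1.continuousAt.eventuallyEq_nhds_iff_eventuallyEq_nhdsNE ha2.continuousAt).1 this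
  simpa using h3.eq_of_nhds

theorem KL_rect_eq (a b h : ℝ) : rect a b h = Icc a b ×ℂ Icc (-h) h := by
  ext z
  simp only [rect, mem_ofPred_eq, Complex.mem_reProdIm, abs_le, mem_Icc]

theorem KL_rect_convex (a b h : ℝ) : Convex ℝ (rect a b h) := by
  rw [KL_rect_eq]
  have h1 : Convex ℝ (Complex.re ⁻¹' Icc a b) := (convex_Icc a b).linear_preimage Complex.reLm
  have h2 : Convex ℝ (Complex.im ⁻¹' Icc (-h) h) := (convex_Icc (-h) h).linear_preimage Complex.imLm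
  exact h1.inter h2

theorem KL_rect_compact (a b h : ℝ) : IsCompact (rect a b h) := by
  rw [KL_rect_eq]
  exact isCompact_Icc.reProdIm isCompact_Icc

/-- factorization on a rectangle with control of the zero free factor -/
theorem KL_decomp {f : ℂ → ℂ} {D E : Set ℂ} {c : ℝ} (hc : 0 < c) (hDc : IsCompact D)
    (hDconv : Convex ℝ D) (hDint : (interior D).Nonempty) (hf : AnalyticOnNhd ℂ f D)
    (hfb : ∀ z ∈ D, ‖f z‖ ≤ 1) (hne : ∃ z ∈ D, f z ≠ 0) (hE : ∀ u ∈ E, ball u c ⊆ D) :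
    ∃ (S : Finset ℂ) (n : ℂ → ℕ) (g : ℂ → ℂ), (∀ u ∈ S, u ∈ E) ∧ AnalyticOnNhd ℂ g D ∧
      (∀ z ∈ D, ‖g z‖ ≤ 1) ∧ (∀ z ∈ E, g z ≠ 0) ∧
      ∀ z ∈ D, f z = (∏ u ∈ S, ((z - u) / (c : ℂ)) ^ n u) * g z := by
  classical
  have hcc : (c : ℂ) ≠ 0 := by exact_mod_cast hc.ne'
  obtain ⟨x0, hx0⟩ := hDint
  have hDne : D.Nonempty := ⟨x0, interior_subset hx0⟩
  have hnt : D.Nontrivial := by
    obtain ⟨ε, hε, hball⟩ := Metric.mem_nhds_iff.1 (mem_interior_iff_mem_nhds.1 hx0)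
    refine ⟨x0, interior_subset hx0, x0 + (ε / 2 : ℝ), hball ?_, ?_⟩
    · rw [mem_ball, dist_eq_norm]
      have : x0 + ((ε / 2 : ℝ) : ℂ) - x0 = ((ε / 2 : ℝ) : ℂ) := by ring
      rw [this, Complex.norm_real, Real.norm_eq_abs, abs_of_pos (by positivity)]
      linarith
    · intro h
      have : ((ε / 2 : ℝ) : ℂ) = 0 := by
        have h2 : x0 + 0 = x0 + ((ε / 2 : ℝ) : ℂ) := by rw [add_zero]; exact h
        exact (add_left_cancel h2).symm
      have h3 : ε / 2 = 0 := by exact_mod_cast this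
      linarith
  obtain ⟨S0, n, g0, hg0, hg0n, hfac⟩ := KL_factor hDc ⟨hDne, hDconv.isPreconnected⟩ hnt hf hne
  set S1 := S0.filter (fun u => u ∈ E) with hS1
  set S2 := S0.filter (fun u => ¬ u ∈ E) with hS2
  set g : ℂ → ℂ := fun z => (∏ u ∈ S1, (c : ℂ) ^ n u) * ((∏ u ∈ S2, (z - u) ^ n u) * g0 z) with hg
  have hgan : AnalyticOnNhd ℂ g D := by
    intro z hz
    have := hg0 z hz
    simp only [hg]
    fun_prop
  have hfac1 : ∀ z ∈ D, f z = (∏ u ∈ S1, ((z - u) / (c : ℂ)) ^ n u) * g z := by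
    intro z hz
    rw [hfac z hz, ← Finset.prod_filter_mul_prod_filter_not S0 (fun u => u ∈ E)]
    simp only [hg]
    rw [← mul_assoc (∏ u ∈ S1, ((z - u) / (c : ℂ)) ^ n u), ← Finset.prod_mul_distrib, mul_assoc]
    congr 1
    refine Finset.prod_congr rfl fun u _ => ?_
    rw [← mul_pow, div_mul_cancel₀ _ hcc]
  refine ⟨S1, n, g, fun u hu => (Finset.mem_filter.1 hu).2, hgan, ?_, ?_, hfac1⟩
  · have hcl : closure (interior D) = D := by
      rw [hDconv.closure_interior_eq_closure_of_nonempty_interior ⟨x0, hx0⟩,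
        hDc.isClosed.closure_eq]
    have hfr : ∀ z ∈ frontier (interior D), ‖g z‖ ≤ 1 := by
      intro z hz
      have hz1 : z ∈ D := by
        rw [← hcl]; exact frontier_subset_closure hz
      have hz2 : z ∉ interior D := by
        have := hz.2
        rwa [interior_interior] at this
      have h1 : 1 ≤ ‖∏ u ∈ S1, ((z - u) / (c : ℂ)) ^ n u‖ := by
        rw [norm_prod]
        refine Finset.prod_induction _ (fun x : ℝ => 1 ≤ x)
          (fun a b ha hb => one_le_mul_of_one_le_of_one_le ha hb) le_rfl ?_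
        intro u hu
        rw [norm_pow]
        refine one_le_pow₀ ?_
        rw [norm_div, Complex.norm_real, Real.norm_eq_abs, abs_of_pos hc, one_le_div hc]
        by_contra hlt
        push Not at hlt
        apply hz2
        rw [mem_interior]
        refine ⟨ball u c, hE u (Finset.mem_filter.1 hu).2, isOpen_ball, ?_⟩
        rw [mem_ball, dist_eq_norm]; exact hlt
      have h2 := hfb z hz1
      rw [hfac1 z hz1, norm_mul] at h2
      have h3 : ‖g z‖ ≤ ‖∏ u ∈ S1, ((z - u) / (c : ℂ)) ^ n u‖ * ‖g z‖ :=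
        le_mul_of_one_le_left (norm_nonneg _) h1
      linarith
    intro z hz
    refine Complex.norm_le_of_forall_mem_frontier_norm_le
      (hDc.isBounded.subset interior_subset) ?_ hfr (by rw [hcl]; exact hz)
    refine DifferentiableOn.diffContOnCl ?_
    rw [hcl]
    exact hgan.differentiableOn
  · intro z hz
    have hzD : z ∈ D := hE z hz (mem_ball_self hc)
    refine mul_ne_zero (Finset.prod_ne_zero_iff.2 fun u _ => pow_ne_zero _ hcc)
      (mul_ne_zero (Finset.prod_ne_zero_iff.2 fun u hu => pow_ne_zero _ ?_) (hg0n z hzD))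
    intro h0
    have hu := (Finset.mem_filter.1 hu).2
    rw [sub_eq_zero] at h0
    rw [h0] at hz
    exact hu hz

/-- the logarithm of the extracted factor -/
noncomputable def KL_L (S : Finset ℂ) (n : ℂ → ℕ) (c : ℝ) (σ : ℂ) : ℝ :=
  ∑ u ∈ S, (n u : ℝ) * Real.log (‖σ - u‖ / c)

theorem KL_pt {f g : ℂ → ℂ} {S : Finset ℂ} {n : ℂ → ℕ} {c : ℝ} (hc : 0 < c) {σ : ℂ}
    (hfac : f σ = (∏ u ∈ S, ((σ - u) / (c : ℂ)) ^ n u) * g σ) (hf : ‖f σ‖ ≤ 1) (hg : ‖g σ‖ ≤ 1)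
    (hσ : σ ∉ S) :
    nl (f σ) + ENNReal.ofReal (KL_L S n c σ) = nl (g σ) + ENNReal.ofReal (-KL_L S n c σ) := by
  have hcc : (c : ℂ) ≠ 0 := by exact_mod_cast hc.ne'
  have hpne : (∏ u ∈ S, ((σ - u) / (c : ℂ)) ^ n u) ≠ 0 := by
    refine Finset.prod_ne_zero_iff.2 fun u hu => pow_ne_zero _ (div_ne_zero ?_ hcc)
    rw [sub_ne_zero]
    rintro rfl
    exact hσ hu
  by_cases hg0 : g σ = 0
  · rw [hfac, hg0, mul_zero, nl_zero]; simp
  have hf0 : f σ ≠ 0 := by rw [hfac]; exact mul_ne_zero hpne hg0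
  rw [TK1_nl_of_ne hf0, TK1_nl_of_ne hg0]
  have hlog : Real.log ‖f σ‖ = KL_L S n c σ + Real.log ‖g σ‖ := by
    rw [hfac, norm_mul, Real.log_mul (norm_ne_zero_iff.2 hpne) (norm_ne_zero_iff.2 hg0),
      norm_prod, Real.log_prod (fun u hu => ?_)]
    · congr 1
      refine Finset.sum_congr rfl fun u hu => ?_
      rw [norm_pow, Real.log_pow, norm_div, Complex.norm_real, Real.norm_eq_abs, abs_of_pos hc]
    · rw [norm_ne_zero_iff]
      exact (Finset.prod_ne_zero_iff.1 hpne) u hu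
  have h1 : 0 ≤ -Real.log ‖f σ‖ := by
    have := Real.log_nonpos (norm_nonneg _) hf
    linarith
  have h2 : 0 ≤ -Real.log ‖g σ‖ := by
    have := Real.log_nonpos (norm_nonneg _) hg
    linarith
  rcases le_total 0 (KL_L S n c σ) with h | h
  · rw [ENNReal.ofReal_of_nonpos (p := -KL_L S n c σ) (by linarith), add_zero,
      ← ENNReal.ofReal_add h1 h]
    congr 1
    linarith
  · rw [ENNReal.ofReal_of_nonpos (p := KL_L S n c σ) h, add_zero,
      ← ENNReal.ofReal_add h2 (by linarith)]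
    congr 1
    linarith

/-- weighted integral identity -/
theorem KL_ident {f g : ℂ → ℂ} {D : Set ℂ} {S : Finset ℂ} {n : ℂ → ℕ} {c : ℝ} (hc : 0 < c)
    (hfac : ∀ σ ∈ D, f σ = (∏ u ∈ S, ((σ - u) / (c : ℂ)) ^ n u) * g σ)
    (hf : ∀ σ ∈ D, ‖f σ‖ ≤ 1) (hg : ∀ σ ∈ D, ‖g σ‖ ≤ 1) {w : ℝ → ℝ}
    (hw0 : ∀ t, 0 ≤ w t) {v : ℂ} (hv : ∀ t, w t ≠ 0 → (t : ℂ) + v ∈ D)
    (hint : Integrable (fun t : ℝ => w t * KL_L S n c ((t : ℂ) + v)))
    (hgf : (∫⁻ t : ℝ, ENNReal.ofReal (w t) * nl (g ((t : ℂ) + v))) ≠ ⊤) :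
    (∫⁻ t : ℝ, ENNReal.ofReal (w t) * nl (f ((t : ℂ) + v))) ≠ ⊤ ∧
    (∫⁻ t : ℝ, ENNReal.ofReal (w t) * nl (f ((t : ℂ) + v))).toReal =
      (∫⁻ t : ℝ, ENNReal.ofReal (w t) * nl (g ((t : ℂ) + v))).toReal -
        ∫ t : ℝ, w t * KL_L S n c ((t : ℂ) + v) := by
  have hae : ∀ᵐ t : ℝ, (t : ℂ) + v ∉ S := by
    have hcount : {t : ℝ | (t : ℂ) + v ∈ S}.Finite := by
      have : (S : Set ℂ).Finite := S.finite_toSet
      refine (this.preimage (f := fun t : ℝ => (t : ℂ) + v) ?_)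
      intro a _ b _ hab
      simpa using hab
    have := hcount.measure_zero volume
    rw [measure_eq_zero_iff_ae_notMem] at this
    filter_upwards [this] with t ht h
    exact ht h
  have hsm := hint.aestronglyMeasurable
  have m1 : AEMeasurable (fun t : ℝ => ENNReal.ofReal (w t * KL_L S n c ((t : ℂ) + v))) :=
    hsm.aemeasurable.ennreal_ofReal
  have m2 : AEMeasurable (fun t : ℝ => ENNReal.ofReal (-(w t * KL_L S n c ((t : ℂ) + v)))) :=
    hsm.aemeasurable.neg.ennreal_ofReal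
  have key : (∫⁻ t : ℝ, ENNReal.ofReal (w t) * nl (f ((t : ℂ) + v))) +
      (∫⁻ t : ℝ, ENNReal.ofReal (w t * KL_L S n c ((t : ℂ) + v))) =
      (∫⁻ t : ℝ, ENNReal.ofReal (w t) * nl (g ((t : ℂ) + v))) +
      (∫⁻ t : ℝ, ENNReal.ofReal (-(w t * KL_L S n c ((t : ℂ) + v)))) := by
    rw [← lintegral_add_right' _ m1, ← lintegral_add_right' _ m2]
    refine lintegral_congr_ae ?_
    filter_upwards [hae] with t ht
    by_cases hwt : w t = 0
    · simp [hwt]
    · have hD := hv t hwt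
      have := KL_pt hc (hfac _ hD) (hf _ hD) (hg _ hD) ht
      rw [ENNReal.ofReal_mul (hw0 t), ← mul_add, this, mul_add, ← ENNReal.ofReal_mul (hw0 t)]
      congr 2
      ring
  have hP : (∫⁻ t : ℝ, ENNReal.ofReal (w t * KL_L S n c ((t : ℂ) + v))) ≠ ⊤ :=
    ne_top_of_le_ne_top hint.hasFiniteIntegral.ne
      (lintegral_mono fun t => Real.ofReal_le_enorm _)
  have hQ : (∫⁻ t : ℝ, ENNReal.ofReal (-(w t * KL_L S n c ((t : ℂ) + v)))) ≠ ⊤ :=
    ne_top_of_le_ne_top hint.neg.hasFiniteIntegral.ne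
      (lintegral_mono fun t => Real.ofReal_le_enorm _)
  have hff : (∫⁻ t : ℝ, ENNReal.ofReal (w t) * nl (f ((t : ℂ) + v))) ≠ ⊤ := by
    have : (∫⁻ t : ℝ, ENNReal.ofReal (w t) * nl (f ((t : ℂ) + v))) +
      (∫⁻ t : ℝ, ENNReal.ofReal (w t * KL_L S n c ((t : ℂ) + v))) ≠ ⊤ := by
      rw [key]; exact ENNReal.add_ne_top.2 ⟨hgf, hQ⟩
    exact (ENNReal.add_ne_top.1 this).1
  refine ⟨hff, ?_⟩
  have k2 := congrArg ENNReal.toReal key
  rw [ENNReal.toReal_add hff hP, ENNReal.toReal_add hgf hQ] at k2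
  rw [integral_eq_lintegral_pos_part_sub_lintegral_neg_part hint]
  linarith

/-- bound of the transversal defect by the number of zeros -/
theorem KL_td {h : ℂ → ℂ} {β₀ : ℂ} {t : ℝ} (ht : 0 < t) (hh : AnalyticOnNhd ℂ h (closedBall β₀ t))
    (hb : ∀ z ∈ closedBall β₀ t, ‖h z‖ ≤ 1) {s : Finset ℂ} {D : ℂ → ℕ} {g : ℂ → ℂ}
    (hga : AnalyticOnNhd ℂ g (closedBall β₀ t)) (hg : ∀ z ∈ closedBall β₀ t, g z ≠ 0)
    (hf : ∀ z ∈ closedBall β₀ t, h z = (∏ u ∈ s, (z - u) ^ (D u)) * g z) :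
    cav (fun z => nl (h z)) β₀ (t / 2) - cav (fun z => nl (h z)) β₀ t ≤
      ENNReal.ofReal (∑ u ∈ s, if ‖β₀ - u‖ ≤ t then (D u : ℝ) * Real.log 2 else 0) := by
  rw [TK2_cav_val hh hb ht le_rfl hga hg hf,
    TK2_cav_val hh hb (half_pos ht) (by linarith) hga hg hf, tsub_le_iff_right]
  have hlog2 : 0 < Real.log 2 := Real.log_pos one_lt_two
  refine le_trans (ENNReal.ofReal_le_ofReal ?_) (ENNReal.ofReal_add_le)
  have hsum : ∑ u ∈ s, (D u : ℝ) * (Real.log t + Real.posLog (t⁻¹ * ‖β₀ - u‖)) ≤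
      ∑ u ∈ s, ((D u : ℝ) * (Real.log (t / 2) + Real.posLog ((t / 2)⁻¹ * ‖β₀ - u‖)) +
        if ‖β₀ - u‖ ≤ t then (D u : ℝ) * Real.log 2 else 0) := by
    refine Finset.sum_le_sum fun u _ => ?_
    have hD : (0 : ℝ) ≤ D u := Nat.cast_nonneg _
    have hl : Real.log (t / 2) = Real.log t - Real.log 2 := Real.log_div ht.ne' two_ne_zero
    split_ifs with hu
    · have h1 : Real.posLog (t⁻¹ * ‖β₀ - u‖) = 0 := by
        rw [Real.posLog_eq_zero_iff, abs_of_nonneg (by positivity), inv_mul_le_iff₀ ht, mul_one]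
        exact hu
      have h2 := Real.posLog_nonneg (x := (t / 2)⁻¹ * ‖β₀ - u‖)
      rw [h1, hl]
      nlinarith
    · push Not at hu
      have hx : 0 < ‖β₀ - u‖ := ht.trans hu
      have e1 : Real.posLog (t⁻¹ * ‖β₀ - u‖) = Real.log (t⁻¹ * ‖β₀ - u‖) := by
        rw [Real.posLog_eq_log]
        rw [abs_of_nonneg (by positivity), le_inv_mul_iff₀ ht, mul_one]
        exact hu.le
      have e2 : Real.posLog ((t / 2)⁻¹ * ‖β₀ - u‖) = Real.log ((t / 2)⁻¹ * ‖β₀ - u‖) := by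
        rw [Real.posLog_eq_log]
        rw [abs_of_nonneg (by positivity), le_inv_mul_iff₀ (half_pos ht), mul_one]
        linarith
      rw [e1, e2, Real.log_mul (inv_ne_zero ht.ne') hx.ne',
        Real.log_mul (inv_ne_zero (half_pos ht).ne') hx.ne', Real.log_inv, Real.log_inv, hl]
      apply le_of_eq
      ring
  rw [Finset.sum_add_distrib] at hsum
  linarith

theorem KL_int1 (a b : ℝ) (u : ℂ) {c : ℝ} (hc : 0 < c) :
    IntervalIntegrable (fun t : ℝ => Real.log (‖(t : ℂ) - u‖ / c)) volume a b := by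
  have : MeromorphicOn (fun t : ℝ => ((t : ℂ) - u) / (c : ℂ)) (uIcc a b) := by
    intro t _
    apply AnalyticAt.meromorphicAt
    have h1 : AnalyticAt ℝ (fun t : ℝ => (t : ℂ)) t := Complex.ofRealCLM.analyticAt t
    have h2 := (h1.sub (analyticAt_const (v := u))).mul
      (analyticAt_const (v := ((c : ℂ))⁻¹) (x := t) (𝕜 := ℝ))
    have e : (fun t : ℝ => ((t : ℂ) - u) / (c : ℂ)) =
        (((fun t : ℝ => (t : ℂ)) - fun _ => u) * fun _ => ((c : ℂ))⁻¹) := by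
      ext t; simp [div_eq_mul_inv]
    rw [e]
    exact h2
  have h := this.intervalIntegrable_log_norm
  refine h.congr (fun t _ => ?_)
  simp only [norm_div, Complex.norm_real, Real.norm_eq_abs, abs_of_pos hc]

theorem KL_int2 {A' B' : ℝ} (hAB : A' ≤ B') {w : ℝ → ℝ} (hwc : Continuous w)
    (hws : ∀ t, t ∉ Icc A' B' → w t = 0) (u v : ℂ) {c : ℝ} (hc : 0 < c) :
    Integrable (fun t : ℝ => w t * Real.log (‖(t : ℂ) + v - u‖ / c)) := by
  have h1 := (KL_int1 A' B' (u - v) hc).continuousOn_mul hwc.continuousOn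
  rw [intervalIntegrable_iff_integrableOn_Icc_of_le hAB] at h1
  have e : (fun t : ℝ => w t * Real.log (‖(t : ℂ) + v - u‖ / c)) =
      fun t : ℝ => w t * Real.log (‖(t : ℂ) - (u - v)‖ / c) := by
    ext t
    rw [show (t : ℂ) + v - u = (t : ℂ) - (u - v) by ring]
  rw [e]
  refine (integrableOn_iff_integrable_of_support_subset ?_).1 h1
  intro t ht
  by_contra h
  apply ht
  show w t * _ = 0
  rw [hws t h, zero_mul]

theorem KL_kli {ℓ A' B' : ℝ} (hAB : A' ≤ B') {w : ℝ → ℝ} (hwc : Continuous w)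
    (hws : ∀ t, t ∉ Icc A' B' → w t = 0) (hA' : -(1 / ℓ) < A') (hB' : B' ≤ 1 / ℓ) (u v : ℂ)
    {c : ℝ} (hc : 0 < c)
    (h : v.im ≤ ∫ t in (-(1 / ℓ))..(1 / ℓ), w t *
        (Real.log ‖(t : ℂ) - u + v‖ + Real.log ‖(t : ℂ) - u - v‖ - 2 * Real.log ‖(t : ℂ) - u‖)) :
    v.im ≤ (∫ t : ℝ, w t * Real.log (‖(t : ℂ) + v - u‖ / c)) +
      (∫ t : ℝ, w t * Real.log (‖(t : ℂ) + (-v) - u‖ / c)) -
      2 * (∫ t : ℝ, w t * Real.log (‖(t : ℂ) + 0 - u‖ / c)) := by
  have i1 := KL_int2 hAB hwc hws u v hc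
  have i2 := KL_int2 hAB hwc hws u (-v) hc
  have i3 := KL_int2 hAB hwc hws u 0 hc
  have i12 : Integrable (fun t : ℝ => w t * Real.log (‖(t : ℂ) + v - u‖ / c) +
      w t * Real.log (‖(t : ℂ) + (-v) - u‖ / c)) := i1.add i2
  rw [← integral_add i1 i2, ← integral_const_mul, ← integral_sub i12 (i3.const_mul 2)]
  rw [intervalIntegral.integral_eq_integral_of_support_subset] at h
  · refine h.trans (le_of_eq ?_)
    refine integral_congr_ae ?_
    have hne : ∀ z : ℂ, ∀ᵐ t : ℝ, (t : ℂ) ≠ z := by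
      intro z
      have hfin : {t : ℝ | (t : ℂ) = z}.Finite := by
        refine Set.Finite.subset (Set.finite_singleton z.re) ?_
        intro t ht
        have : (t : ℂ) = z := ht
        simp [← this]
      have := hfin.measure_zero volume
      rw [measure_eq_zero_iff_ae_notMem] at this
      filter_upwards [this] with t ht h
      exact ht h
    filter_upwards [hne (u - v), hne (u + v), hne u] with t h1 h2 h3
    have n1 : ‖(t : ℂ) + v - u‖ ≠ 0 := by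
      rw [norm_ne_zero_iff]
      intro h0
      apply h1
      linear_combination h0
    have n2 : ‖(t : ℂ) + (-v) - u‖ ≠ 0 := by
      rw [norm_ne_zero_iff]
      intro h0
      apply h2
      linear_combination h0
    have n3 : ‖(t : ℂ) + 0 - u‖ ≠ 0 := by
      rw [norm_ne_zero_iff]
      intro h0
      apply h3
      linear_combination h0
    show w t * _ = w t * Real.log (‖(t : ℂ) + v - u‖ / c) +
      w t * Real.log (‖(t : ℂ) + (-v) - u‖ / c) - 2 * (w t * Real.log (‖(t : ℂ) + 0 - u‖ / c))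
    rw [Real.log_div n1 hc.ne', Real.log_div n2 hc.ne', Real.log_div n3 hc.ne']
    rw [show (t : ℂ) - u + v = (t : ℂ) + v - u by ring,
      show (t : ℂ) - u - v = (t : ℂ) + (-v) - u by ring, add_zero]
    ring
  · intro t ht
    by_contra hn
    apply ht
    show w t * _ = 0
    rw [hws t (fun hm => hn ⟨?_, ?_⟩), zero_mul]
    · linarith [hm.1]
    · linarith [hm.2]

theorem KL_intL {A' B' : ℝ} (hAB : A' ≤ B') {w : ℝ → ℝ} (hwc : Continuous w)
    (hws : ∀ t, t ∉ Icc A' B' → w t = 0) (v : ℂ) {c : ℝ} (hc : 0 < c) (S : Finset ℂ) (n : ℂ → ℕ) :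
    Integrable (fun t : ℝ => w t * KL_L S n c ((t : ℂ) + v)) ∧
    ∫ t : ℝ, w t * KL_L S n c ((t : ℂ) + v) =
      ∑ u ∈ S, (n u : ℝ) * ∫ t : ℝ, w t * Real.log (‖(t : ℂ) + v - u‖ / c) := by
  have e : (fun t : ℝ => w t * KL_L S n c ((t : ℂ) + v)) =
      fun t : ℝ => ∑ u ∈ S, (n u : ℝ) * (w t * Real.log (‖(t : ℂ) + v - u‖ / c)) := by
    ext t
    unfold KL_L
    rw [Finset.mul_sum]
    refine Finset.sum_congr rfl fun u _ => ?_
    ring
  have hi : ∀ u ∈ S, Integrable (fun t : ℝ => (n u : ℝ) *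
      (w t * Real.log (‖(t : ℂ) + v - u‖ / c))) :=
    fun u _ => (KL_int2 hAB hwc hws u v hc).const_mul _
  rw [e]
  refine ⟨integrable_finsetSum S hi, ?_⟩
  rw [integral_finsetSum S hi]
  refine Finset.sum_congr rfl fun u _ => ?_
  rw [integral_const_mul]

/-- integral of the number of near zeros -/
theorem KL_count (S : Finset ℂ) (n : ℂ → ℕ) {κ a b : ℝ} (hκ : 0 ≤ κ) :
    ∫⁻ τ in Icc a b, ENNReal.ofReal (∑ u ∈ S, if |u.re - τ| ≤ κ then (n u : ℝ) * Real.log 2 else 0)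
      ≤ ENNReal.ofReal ((∑ u ∈ S, (n u : ℝ)) * Real.log 2 * (2 * κ)) := by
  have hlog2 : 0 < Real.log 2 := Real.log_pos one_lt_two
  have e1 : ∀ τ : ℝ, ENNReal.ofReal (∑ u ∈ S, if |u.re - τ| ≤ κ then (n u : ℝ) * Real.log 2 else 0)
      = ∑ u ∈ S, (Icc (u.re - κ) (u.re + κ)).indicator
          (fun _ => ENNReal.ofReal ((n u : ℝ) * Real.log 2)) τ := by
    intro τ
    rw [ENNReal.ofReal_sum_of_nonneg]
    · refine Finset.sum_congr rfl fun u _ => ?_
      by_cases h : |u.re - τ| ≤ κ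
      · rw [if_pos h, indicator_of_mem]
        have := abs_le.1 h
        constructor <;> linarith [this.1, this.2]
      · rw [if_neg h, indicator_of_notMem, ENNReal.ofReal_zero]
        intro hm
        apply h
        rw [abs_le]
        constructor <;> linarith [hm.1, hm.2]
    · intro u _
      split_ifs
      · positivity
      · exact le_rfl
  simp only [e1]
  refine (setLIntegral_le_lintegral _ _).trans ?_
  rw [lintegral_finsetSum _ (fun u _ => measurable_const.indicator measurableSet_Icc)]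
  have e2 : ∀ u ∈ S, ∫⁻ τ : ℝ, (Icc (u.re - κ) (u.re + κ)).indicator
          (fun _ => ENNReal.ofReal ((n u : ℝ) * Real.log 2)) τ =
        ENNReal.ofReal ((n u : ℝ) * Real.log 2 * (2 * κ)) := by
    intro u _
    rw [lintegral_indicator_const measurableSet_Icc, Real.volume_Icc,
      ← ENNReal.ofReal_mul (by positivity)]
    congr 1
    ring
  rw [Finset.sum_congr rfl e2, ← ENNReal.ofReal_sum_of_nonneg (fun u _ => by positivity)]
  apply ENNReal.ofReal_le_ofReal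
  rw [Finset.sum_mul, Finset.sum_mul]

theorem KL_v {R b : ℝ} {ζ : ℂ} (hR0 : 0 < R) (hb0 : 0 < b) (hζ1 : R / 2 ≤ ζ.re)
    (hζ2 : ζ.re ≤ 5 * R) (hζi : |ζ.im| ≤ R / 8) :
    0 < ((b : ℂ) * Complex.I / ζ).im ∧ b / (6 * R) ≤ ((b : ℂ) * Complex.I / ζ).im ∧
    ((b : ℂ) * Complex.I / ζ).im ≤ 2 * (b / R) ∧
    |((b : ℂ) * Complex.I / ζ).re| ≤ ((b : ℂ) * Complex.I / ζ).im / 4 ∧
    ((b : ℂ) * Complex.I / ζ).im ^ 2 + ((b : ℂ) * Complex.I / ζ).re ^ 2 ≤ 4 * (b / R) ^ 2 ∧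
    ((b : ℂ) * Complex.I / ζ).im ^ 2 + ((b : ℂ) * Complex.I / ζ).re ^ 2 ≤
      2 * ((b : ℂ) * Complex.I / ζ).im ^ 2 ∧
    ((b : ℂ) * Complex.I / ζ) * ζ = (b : ℂ) * Complex.I := by
  have hζre : 0 < ζ.re := by linarith
  have hζne : ζ ≠ 0 := by
    intro h
    rw [h] at hζre
    simp at hζre
  set v : ℂ := (b : ℂ) * Complex.I / ζ with hv
  have hn2 : ‖ζ‖ ^ 2 = ζ.re ^ 2 + ζ.im ^ 2 := by
    rw [Complex.sq_norm, Complex.normSq_apply]; ring
  have hζn : 0 < ‖ζ‖ := norm_pos_iff.2 hζne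
  have hn2pos : 0 < ‖ζ‖ ^ 2 := by positivity
  have hvim : v.im = b * ζ.re / ‖ζ‖ ^ 2 := by
    rw [hv, Complex.div_im]
    simp [Complex.normSq_eq_norm_sq]
  have hvre : v.re = b * ζ.im / ‖ζ‖ ^ 2 := by
    rw [hv, Complex.div_re]
    simp [Complex.normSq_eq_norm_sq]
  have hζi4 : |ζ.im| ≤ ζ.re / 4 := by linarith
  have him2 : ζ.im ^ 2 ≤ R / 32 * ζ.re := by
    have h1 : ζ.im ^ 2 = |ζ.im| * |ζ.im| := by rw [← sq, sq_abs]
    rw [h1]
    calc |ζ.im| * |ζ.im| ≤ (R / 8) * (ζ.re / 4) :=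
          mul_le_mul hζi hζi4 (abs_nonneg _) (by positivity)
      _ = R / 32 * ζ.re := by ring
  have hv0 : 0 < v.im := by rw [hvim]; positivity
  have hsq : ‖ζ‖ ^ 2 ≤ 6 * R * ζ.re := by
    rw [hn2]
    have : ζ.re ^ 2 ≤ 5 * R * ζ.re := by
      rw [sq]; exact mul_le_mul_of_nonneg_right hζ2 hζre.le
    have h2 : 0 ≤ R * ζ.re := by positivity
    linarith
  have hsq' : ζ.re ^ 2 ≤ ‖ζ‖ ^ 2 := by
    rw [hn2]
    have := sq_nonneg ζ.im
    linarith
  refine ⟨hv0, ?_, ?_, ?_, ?_, ?_, ?_⟩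
  · rw [hvim, div_le_div_iff₀ (by positivity) hn2pos]
    have := mul_le_mul_of_nonneg_left hsq hb0.le
    linarith
  · rw [hvim, mul_div_assoc', div_le_div_iff₀ hn2pos hR0]
    have h1 : b * ζ.re * R ≤ b * ζ.re * (2 * ζ.re) :=
      mul_le_mul_of_nonneg_left (by linarith) (by positivity)
    have h2 := mul_le_mul_of_nonneg_left hsq' hb0.le
    calc b * ζ.re * R ≤ b * ζ.re * (2 * ζ.re) := h1
      _ = 2 * (b * ζ.re ^ 2) := by ring
      _ ≤ 2 * (b * ‖ζ‖ ^ 2) := by linarith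
      _ = 2 * b * ‖ζ‖ ^ 2 := by ring
  · rw [hvre, hvim, abs_div, abs_mul, abs_of_pos hb0, abs_of_pos hn2pos, div_div]
    rw [div_le_div_iff₀ hn2pos (by positivity)]
    have := mul_le_mul_of_nonneg_left hζi4 hb0.le
    have h3 := mul_le_mul_of_nonneg_right this hn2pos.le
    linarith
  · have e : v.im ^ 2 + v.re ^ 2 = b ^ 2 / ‖ζ‖ ^ 2 := by
      rw [hvim, hvre, hn2]
      have : ζ.re ^ 2 + ζ.im ^ 2 ≠ 0 := by positivity
      field_simp
    rw [e, div_pow, mul_div_assoc', div_le_div_iff₀ hn2pos (by positivity)]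
    have h1 : R ^ 2 ≤ 4 * ‖ζ‖ ^ 2 := by
      have : (R / 2) ^ 2 ≤ ζ.re ^ 2 := pow_le_pow_left₀ (by positivity) hζ1 2
      linarith
    have := mul_le_mul_of_nonneg_left h1 (sq_nonneg b)
    linarith
  · have h4 : |v.re| ≤ v.im / 4 := by
      rw [hvre, hvim, abs_div, abs_mul, abs_of_pos hb0, abs_of_pos hn2pos, div_div]
      rw [div_le_div_iff₀ hn2pos (by positivity)]
      have := mul_le_mul_of_nonneg_left hζi4 hb0.le
      have h3 := mul_le_mul_of_nonneg_right this hn2pos.le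
      linarith
    have : v.re ^ 2 ≤ v.im ^ 2 := by
      rw [← sq_abs v.re]
      exact pow_le_pow_left₀ (abs_nonneg _) (by linarith) 2
    linarith
  · exact div_mul_cancel₀ _ hζne

/-- pointwise bound for the transversal defect of `F` -/
theorem KL_tdF {F : ℂ × ℂ → ℂ} (hF : GoodF F) {ζ : ℂ} {R c κ τ t β₀ : ℝ} {E D : Set ℂ}
    {S : Finset ℂ} {n : ℂ → ℕ} {g : ℂ → ℂ} (hR : 18 ≤ R) (hζ1 : R / 2 ≤ ζ.re)
    (hc : 0 < c) (hκ : κ = 3 / (4 * R)) (ht1 : 1 / 8 ≤ t) (ht2 : t ≤ 1 / 4)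
    (hβ : |β₀| ≤ 1 / 8) (hτ : 0 < τ)
    (hE : ∀ σ : ℂ, |σ.re - τ| ≤ κ → |σ.im| ≤ κ → σ ∈ E) (hED : E ⊆ D)
    (hga : AnalyticOnNhd ℂ g D) (hgn : ∀ z ∈ E, g z ≠ 0)
    (hfac : ∀ z ∈ D, F (ζ, z * ζ) = (∏ u ∈ S, ((z - u) / (c : ℂ)) ^ n u) * g z) :
    td F ζ τ (β₀ : ℂ) t ≤
      ENNReal.ofReal (∑ u ∈ S, if |u.re - τ| ≤ κ then (n u : ℝ) * Real.log 2 else 0) := by
  classical
  have hR0 : 0 < R := by linarith
  have hζre : 0 < ζ.re := by linarith
  have hζne : ζ ≠ 0 := by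
    intro h
    rw [h] at hζre
    simp at hζre
  have hcc : (c : ℂ) ≠ 0 := by exact_mod_cast hc.ne'
  have hζn : R / 2 ≤ ‖ζ‖ := hζ1.trans (Complex.re_le_norm ζ)
  have hζn0 : 0 < ‖ζ‖ := by linarith
  have hlog2 : 0 < Real.log 2 := Real.log_pos one_lt_two
  have ht0 : 0 < t := by linarith
  -- closed ball facts
  have hball : ∀ β ∈ closedBall ((β₀ : ℝ) : ℂ) t, ‖β‖ ≤ 3 / 8 := by
    intro β hβ'
    rw [mem_closedBall, dist_eq_norm] at hβ'
    calc ‖β‖ = ‖(β - (β₀ : ℂ)) + (β₀ : ℂ)‖ := by rw [sub_add_cancel]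
      _ ≤ ‖β - (β₀ : ℂ)‖ + ‖(β₀ : ℂ)‖ := norm_add_le _ _
      _ ≤ t + 1 / 8 := by
          refine add_le_add hβ' ?_
          rw [Complex.norm_real, Real.norm_eq_abs]; exact hβ
      _ ≤ 3 / 8 := by linarith
  have hdiv : ∀ β : ℂ, ‖β‖ ≤ 3 / 8 → ‖β / ζ‖ ≤ κ := by
    intro β h
    rw [norm_div, hκ, div_le_div_iff₀ hζn0 (by positivity)]
    nlinarith [norm_nonneg β]
  have hmem : ∀ β ∈ closedBall ((β₀ : ℝ) : ℂ) t, (τ : ℂ) + β / ζ ∈ E := by
    intro β hβ'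
    have h1 := hdiv β (hball β hβ')
    refine hE _ ?_ ?_
    · rw [Complex.add_re, Complex.ofReal_re, add_sub_cancel_left]
      exact (Complex.abs_re_le_norm _).trans h1
    · rw [Complex.add_im, Complex.ofReal_im, zero_add]
      exact (Complex.abs_im_le_norm _).trans h1
  -- analyticity of h
  have hS := P2G_slice hF (ζ := ζ) (β := 0) (by linarith)
    (S := {σ | -1 < (σ * ζ + 0).re}) (fun σ hσ => hσ)
  have hre : ∀ β ∈ closedBall ((β₀ : ℝ) : ℂ) t, -1 < ((τ : ℂ) * ζ + β).re := by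
    intro β hβ'
    have h1 := (abs_le.1 ((Complex.abs_re_le_norm β).trans (hball β hβ'))).1
    have h2 : ((τ : ℂ) * ζ + β).re = τ * ζ.re + β.re := by simp
    rw [h2]
    have : 0 < τ * ζ.re := mul_pos hτ hζre
    linarith
  set h : ℂ → ℂ := fun β => F (ζ, (τ : ℂ) * ζ + β) with hh
  have hopen : IsOpen {β : ℂ | -1 < ((τ : ℂ) * ζ + β).re} :=
    isOpen_lt continuous_const (by fun_prop)
  have hhd : DifferentiableOn ℂ h {β : ℂ | -1 < ((τ : ℂ) * ζ + β).re} := by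
    refine hF.diff.comp (f := fun β : ℂ => (ζ, (τ : ℂ) * ζ + β)) (by fun_prop) ?_
    intro β hβ'
    exact ⟨by show -1 < ζ.re; linarith, hβ'⟩
  have hha : AnalyticOnNhd ℂ h (closedBall ((β₀ : ℝ) : ℂ) t) := fun β hβ' =>
    hhd.analyticAt (hopen.mem_nhds (hre β hβ'))
  have hhb : ∀ β ∈ closedBall ((β₀ : ℝ) : ℂ) t, ‖h β‖ ≤ 1 := fun β hβ' =>
    hF.bound _ (by show -1 < ζ.re; linarith) (hre β hβ')
  -- factorization
  have hinj : Set.InjOn (fun u : ℂ => (u - τ) * ζ) S := by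
    intro a _ b _ hab
    have := mul_right_cancel₀ hζne hab
    exact sub_left_inj.1 this
  set s' : Finset ℂ := S.image (fun u : ℂ => (u - τ) * ζ) with hs'
  set D' : ℂ → ℕ := fun x => n (x / ζ + τ) with hD'
  have hD'u : ∀ u : ℂ, D' ((u - τ) * ζ) = n u := by
    intro u
    simp only [hD']
    rw [mul_div_cancel_right₀ _ hζne, sub_add_cancel]
  set g' : ℂ → ℂ := fun β => (∏ u ∈ S, (1 / (ζ * c)) ^ n u) * g ((τ : ℂ) + β / ζ) with hg'
  have hg'a : AnalyticOnNhd ℂ g' (closedBall ((β₀ : ℝ) : ℂ) t) := by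
    intro β hβ'
    have h1 : AnalyticAt ℂ g ((τ : ℂ) + β / ζ) := hga _ (hED (hmem β hβ'))
    have h2 : AnalyticAt ℂ (fun β : ℂ => (τ : ℂ) + β / ζ) β := by fun_prop
    have h3 : AnalyticAt ℂ (fun β : ℂ => g ((τ : ℂ) + β / ζ)) β :=
      AnalyticAt.fun_comp (f := fun β : ℂ => (τ : ℂ) + β / ζ) h1 h2
    exact analyticAt_const.mul h3
  have hg'n : ∀ β ∈ closedBall ((β₀ : ℝ) : ℂ) t, g' β ≠ 0 := by
    intro β hβ'
    refine mul_ne_zero (Finset.prod_ne_zero_iff.2 fun u _ => pow_ne_zero _ ?_)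
      (hgn _ (hmem β hβ'))
    exact one_div_ne_zero (mul_ne_zero hζne hcc)
  have hfac' : ∀ β ∈ closedBall ((β₀ : ℝ) : ℂ) t, h β = (∏ u ∈ s', (β - u) ^ (D' u)) * g' β := by
    intro β hβ'
    have h1 := hfac _ (hED (hmem β hβ'))
    have h2 : ((τ : ℂ) + β / ζ) * ζ = (τ : ℂ) * ζ + β := by
      rw [add_mul, div_mul_cancel₀ _ hζne]
    rw [h2] at h1
    show F (ζ, (τ : ℂ) * ζ + β) = _
    rw [h1, hs', Finset.prod_image hinj]
    simp only [hD'u, hg']
    rw [← mul_assoc, ← Finset.prod_mul_distrib]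
    congr 1
    refine Finset.prod_congr rfl fun u _ => ?_
    rw [← mul_pow]
    congr 1
    field_simp
    ring
  have key := KL_td ht0 hha hhb hg'a hg'n hfac'
  refine key.trans (ENNReal.ofReal_le_ofReal ?_)
  rw [hs', Finset.sum_image hinj]
  refine Finset.sum_le_sum fun u _ => ?_
  rw [hD'u]
  have hnn : 0 ≤ (n u : ℝ) * Real.log 2 := by positivity
  by_cases h1 : ‖(β₀ : ℂ) - (u - τ) * ζ‖ ≤ t
  · rw [if_pos h1, if_pos]
    have h2 : ‖(u - τ) * ζ‖ ≤ 3 / 8 := by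
      refine hball _ ?_
      rw [mem_closedBall, dist_comm, dist_eq_norm]; exact h1
    have h3 := hdiv _ h2
    rw [mul_div_cancel_right₀ _ hζne] at h3
    have h4 := (Complex.abs_re_le_norm (u - τ)).trans h3
    simpa using h4
  · rw [if_neg h1]
    split_ifs
    · exact hnn
    · exact le_rfl

/-- bound for the integral of the zero free factor -/
theorem KL_Kg {f g : ℂ → ℂ} {D : Set ℂ} {S : Finset ℂ} {n : ℂ → ℕ} {c Λ α β len : ℝ} (hc : 0 < c)
    (hfac : ∀ σ ∈ D, f σ = (∏ u ∈ S, ((σ - u) / (c : ℂ)) ^ n u) * g σ)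
    (hf : ∀ σ ∈ D, ‖f σ‖ ≤ 1) (hg : ∀ σ ∈ D, ‖g σ‖ ≤ 1) (hD : ∀ t ∈ Icc α β, ((t : ℝ) : ℂ) ∈ D)
    (hΛ : ∀ t ∈ Icc α β, ∀ u ∈ S, Real.log (‖(t : ℂ) - u‖ / c) ≤ Λ) (hΛ0 : 0 ≤ Λ)
    (hlen : β - α ≤ len) :
    ∫⁻ t in Icc α β, nl (g (t : ℂ)) ≤ (∫⁻ t in Icc α β, nl (f (t : ℂ))) +
      ENNReal.ofReal ((∑ u ∈ S, (n u : ℝ)) * Λ * len) := by
  have hae : ∀ᵐ t : ℝ, (t : ℂ) ∉ S := by
    have hcount : {t : ℝ | (t : ℂ) ∈ S}.Finite := by
      have : (S : Set ℂ).Finite := S.finite_toSet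
      refine (this.preimage (f := fun t : ℝ => (t : ℂ)) ?_)
      intro a _ b _ hab
      simpa using hab
    have := hcount.measure_zero volume
    rw [measure_eq_zero_iff_ae_notMem] at this
    filter_upwards [this] with t ht h
    exact ht h
  have h1 : ∫⁻ t in Icc α β, nl (g (t : ℂ)) ≤
      ∫⁻ t in Icc α β, (nl (f (t : ℂ)) + ENNReal.ofReal ((∑ u ∈ S, (n u : ℝ)) * Λ)) := by
    refine lintegral_mono_ae ?_
    filter_upwards [ae_restrict_of_ae hae, ae_restrict_mem measurableSet_Icc] with t ht1 ht2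
    have h2 := KL_pt hc (hfac _ (hD t ht2)) (hf _ (hD t ht2)) (hg _ (hD t ht2)) ht1
    calc nl (g (t : ℂ)) ≤ nl (g (t : ℂ)) + ENNReal.ofReal (-KL_L S n c (t : ℂ)) := le_self_add
      _ = nl (f (t : ℂ)) + ENNReal.ofReal (KL_L S n c (t : ℂ)) := h2.symm
      _ ≤ _ := by
        gcongr
        unfold KL_L
        rw [Finset.sum_mul]
        refine Finset.sum_le_sum fun u hu => ?_
        exact mul_le_mul_of_nonneg_left (hΛ t ht2 u hu) (Nat.cast_nonneg _)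
  refine h1.trans ?_
  rw [lintegral_add_right _ measurable_const]
  gcongr
  rw [setLIntegral_const, Real.volume_Icc, ← ENNReal.ofReal_mul (by positivity)]
  apply ENNReal.ofReal_le_ofReal
  have : 0 ≤ (∑ u ∈ S, (n u : ℝ)) * Λ := by positivity
  gcongr

/-- the final real computation -/
theorem KL_final {A B C0 C1 C Λ N vi vr b R κ fv fnv f0 gv gnv g0 Iv Inv I0 Kg g2 : ℝ}
    (hA : 0 < A) (hC0 : 0 < C0) (hC1 : C1 = C0 * (1 + 1024 / A)) (hv0 : 0 < vi)
    (hvrei : |vr| ≤ vi / 4) (hvsq : vi ^ 2 + vr ^ 2 ≤ 4 * (b / R) ^ 2)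
    (hvsq2 : vi ^ 2 + vr ^ 2 ≤ 2 * vi ^ 2) (hvC : 32 * C1 * B * Λ * vi ≤ 1) (hN0 : 0 ≤ N)
    (hΛ0 : 0 < Λ) (hB : 0 < B) (hkg0 : 0 ≤ Kg) (hg20 : 0 ≤ g2)
    (ev : fv = gv - Iv) (env : fnv = gnv - Inv) (e0 : f0 = g0 - I0)
    (hkey : N * vi ≤ Iv + Inv - 2 * I0)
    (r1 : gv + gnv ≤ 2 * g0 + C0 * (vi ^ 2 + vr ^ 2 + |vr| * |vi| / (A / 128)) * Kg)
    (r2 : Kg ≤ g2 + N * Λ * (4 * B)) (hvlow : b / (6 * R) ≤ vi) (hR0 : 0 < R) (hb0 : 0 < b)
    (hC18 : 18 ≤ C) (hC4 : 4 * C1 ≤ C) (hκ : κ = 3 / (4 * R)) :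
    b / C * (N * Real.log 2 * (2 * κ)) + fv + fnv ≤ 2 * f0 + C * (b / R) ^ 2 * g2 := by
  have hC10 : 0 < C1 := by rw [hC1]; positivity
  set V : ℝ := vi ^ 2 + vr ^ 2 with hV
  have hV0 : 0 ≤ V := by positivity
  -- coefficient
  have c1 : C0 * (V + |vr| * |vi| / (A / 128)) ≤ C1 * V := by
    have h1 : |vr| * |vi| ≤ V := by
      rw [abs_of_pos hv0, hV]
      have : |vr| * vi ≤ (vi / 4) * vi := mul_le_mul_of_nonneg_right hvrei hv0.le
      nlinarith [sq_nonneg vr]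
    have h2 : |vr| * |vi| / (A / 128) ≤ (1024 / A) * V := by
      rw [div_le_iff₀ (by positivity)]
      have : 1024 / A * V * (A / 128) = 8 * V := by field_simp; ring
      rw [this]; linarith
    rw [hC1, mul_assoc]
    apply mul_le_mul_of_nonneg_left _ hC0.le
    linarith
  have r1' : gv + gnv ≤ 2 * g0 + C1 * V * Kg := by
    have := mul_le_mul_of_nonneg_right c1 hkg0
    linarith
  have r3 : C1 * V * Kg ≤ C1 * V * g2 + C1 * V * (N * Λ * (4 * B)) := by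
    have := mul_le_mul_of_nonneg_left r2 (by positivity : 0 ≤ C1 * V)
    linarith
  have r4 : C1 * V * (N * Λ * (4 * B)) ≤ N * vi / 2 := by
    have h1 : C1 * V * (N * Λ * (4 * B)) ≤ C1 * (2 * vi ^ 2) * (N * Λ * (4 * B)) := by gcongr
    have h2 : C1 * (2 * vi ^ 2) * (N * Λ * (4 * B)) = (32 * C1 * B * Λ * vi) * (N * vi / 4) := by
      ring
    have h3 : (32 * C1 * B * Λ * vi) * (N * vi / 4) ≤ 1 * (N * vi / 4) :=
      mul_le_mul_of_nonneg_right hvC (by positivity)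
    have h4 : 0 ≤ N * vi := by positivity
    linarith
  have r5 : C1 * V * g2 ≤ C * (b / R) ^ 2 * g2 := by
    apply mul_le_mul_of_nonneg_right _ hg20
    calc C1 * V ≤ C1 * (4 * (b / R) ^ 2) := by gcongr
      _ = (4 * C1) * (b / R) ^ 2 := by ring
      _ ≤ C * (b / R) ^ 2 := by gcongr
  have r6 : b / C * (N * Real.log 2 * (2 * κ)) ≤ N * vi / 2 := by
    have h1 : b / C ≤ b / 18 := div_le_div_of_nonneg_left hb0.le (by norm_num) hC18
    have hl : Real.log 2 ≤ 1 := by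
      have := Real.log_two_lt_d9
      linarith
    have hl0 : 0 < Real.log 2 := Real.log_pos one_lt_two
    have hκ0 : 0 < κ := by rw [hκ]; positivity
    calc b / C * (N * Real.log 2 * (2 * κ)) ≤ b / 18 * (N * 1 * (2 * κ)) := by gcongr
      _ = N * (b / (6 * R)) / 2 := by rw [hκ]; field_simp; ring
      _ ≤ N * vi / 2 := by gcongr
  linarith

theorem kink {F : ℂ × ℂ → ℂ} {A B : ℝ} {w : ℝ → ℝ} (hF : GoodF F) (hA : 0 < A) (hAB : A ≤ B)
    (hw : Wt A B w) : ∃ C x₀ b₀ : ℝ, 0 < C ∧ 0 < x₀ ∧ 0 < b₀ ∧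
      ∀ (R t b : ℝ) (ζ : ℂ) (β : ℝ → ℝ), b₀ ≤ R → R / 2 ≤ ζ.re → ζ.re ≤ 5 * R → |ζ.im| ≤ R / 8 →
      1 / 8 ≤ t → t ≤ 1 / 4 → b₀ ≤ b → b ≤ x₀ * R → (∀ τ, |β τ| ≤ 1 / 8) →
      ENNReal.ofReal (b / C) * (∫⁻ τ in Icc (7 * A / 8) (B + A / 8), td F ζ τ (β τ : ℂ) t)
        + G F w b ζ + G F w (-b) ζ
        ≤ 2 * G F w 0 ζ + ENNReal.ofReal (C * (b / R) ^ 2) * G2 F A B ζ := by
  classical
  have hB : 0 < B := hA.trans_le hAB
  obtain ⟨C0, hC0, hnc⟩ := near_concave (a := A / 2) (b := 2 * B) (δ := A / 8) (by linarith)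
    (by linarith) hw.smooth hw.nonneg hw.supp
  set ℓ : ℝ := min (A / 16) (1 / (3 * B)) with hℓ
  have hℓ0 : 0 < ℓ := by positivity
  have hℓA : ℓ ≤ A / 16 := min_le_left _ _
  have hℓB : 3 * B ≤ 1 / ℓ := by
    rw [le_div_iff₀ hℓ0]
    have : ℓ ≤ 1 / (3 * B) := min_le_right _ _
    rw [le_div_iff₀ (by positivity)] at this
    linarith
  obtain ⟨q₀, hq₀, hkli⟩ := log_integral_lower hℓ0
  set Λ : ℝ := Real.log (32 * B / A) with hΛ
  have hΛ0 : 0 < Λ := by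
    apply Real.log_pos
    rw [lt_div_iff₀ hA]; linarith
  set C1 : ℝ := C0 * (1 + 1024 / A) with hC1
  have hC10 : 0 < C1 := by positivity
  set C : ℝ := max 18 (4 * C1) with hC
  have hC18 : 18 ≤ C := le_max_left _ _
  have hC4 : 4 * C1 ≤ C := le_max_right _ _
  set x₀ : ℝ := min (min (q₀ / 2) (A / 8192)) (1 / (64 * C1 * B * Λ)) with hx₀
  have hx₀0 : 0 < x₀ := by positivity
  set b₀ : ℝ := max 18 (12 / A) with hb₀
  refine ⟨C, x₀, b₀, by linarith, hx₀0, by positivity, ?_⟩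
  intro R t b ζ β hR hζ1 hζ2 hζi ht1 ht2 hb1 hb2 hβ
  have hR18 : 18 ≤ R := (le_max_left _ _).trans hR
  have hRA : 12 / A ≤ R := (le_max_right _ _).trans hR
  have hb18 : 18 ≤ b := (le_max_left _ _).trans hb1
  have hR0 : 0 < R := by linarith
  have hb0 : 0 < b := by linarith
  have hx1 : b / R ≤ x₀ := by rw [div_le_iff₀ hR0]; exact hb2
  have hζre : 0 < ζ.re := by linarith
  have hζne : ζ ≠ 0 := by
    intro h
    rw [h] at hζre
    simp at hζre
  have hζn : 0 < ‖ζ‖ := norm_pos_iff.2 hζne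
  -- trivial case
  by_cases hG2 : G2 F A B ζ = ⊤
  · have : 0 < C * (b / R) ^ 2 := by positivity
    rw [hG2, ENNReal.mul_top (by simpa using this)]
    simp

  -- the vector v
  set v : ℂ := (b : ℂ) * Complex.I / ζ with hv
  obtain ⟨hv0, hvlow, hvup, hvrei, hvsq, hvsq2, hvζ⟩ := KL_v hR0 hb0 hζ1 hζ2 hζi
  rw [← hv] at hv0 hvlow hvup hvrei hvsq hvsq2 hvζ
  have hvq : v.im ≤ q₀ := by
    have := (min_le_left _ _).trans (min_le_left (q₀ / 2) (A / 8192)) |> (hx1.trans ·)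
    linarith
  have hvA : v.im ≤ A / 4096 := by
    have h1 : x₀ ≤ A / 8192 := (min_le_left _ _).trans (min_le_right _ _)
    linarith
  have hvC : 32 * C1 * B * Λ * v.im ≤ 1 := by
    have h1 : x₀ ≤ 1 / (64 * C1 * B * Λ) := min_le_right _ _
    have h2 : v.im ≤ 2 * (1 / (64 * C1 * B * Λ)) := by linarith
    calc 32 * C1 * B * Λ * v.im ≤ 32 * C1 * B * Λ * (2 * (1 / (64 * C1 * B * Λ))) := by gcongr
      _ = 1 := by field_simp; norm_num
  -- the function f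
  set D : Set ℂ := rect (A / 4) (4 * B) (A / 2) with hD
  set f : ℂ → ℂ := fun σ => F (ζ, σ * ζ) with hf
  have hfD : AnalyticOnNhd ℂ f D ∧ ∀ σ ∈ D, ‖f σ‖ ≤ 1 := by
    have := P2G_slice hF (ζ := ζ) (β := 0) (by linarith) (S := D) (fun σ hσ => by
      rw [add_zero, Complex.mul_re]
      obtain ⟨⟨h1, -⟩, h2⟩ := hσ
      have h3 : σ.im * ζ.im ≤ (A / 2) * (R / 8) := by
        calc σ.im * ζ.im ≤ |σ.im * ζ.im| := le_abs_self _
          _ = |σ.im| * |ζ.im| := abs_mul _ _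
          _ ≤ _ := mul_le_mul h2 hζi (abs_nonneg _) (by positivity)
      have h4 : (A / 4) * (R / 2) ≤ σ.re * ζ.re := mul_le_mul h1 hζ1 (by positivity) (by linarith)
      nlinarith [mul_pos hA hR0])
    simpa using this
  obtain ⟨hfa, hfb⟩ := hfD
  -- not identically zero
  have hfne : ∃ z ∈ D, f z ≠ 0 := by
    by_contra hcon
    push Not at hcon
    apply hG2
    unfold G2
    have h1 : ∀ t ∈ Icc (A / 4) (4 * B), nl (F (ζ, (t : ℂ) * ζ)) = ⊤ := by
      intro t ht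
      have := hcon (t : ℂ) ⟨by simpa using ht, by simp; positivity⟩
      simp only [hf] at this
      rw [this, nl_zero]
    rw [setLIntegral_congr_fun measurableSet_Icc h1, setLIntegral_const, Real.volume_Icc,
      ENNReal.top_mul]
    simp only [ne_eq, ENNReal.ofReal_eq_zero, not_le]
    linarith
  set κ : ℝ := 3 / (4 * R) with hκ
  have hκ0 : 0 < κ := by positivity
  have hκA : κ ≤ A / 16 := by
    rw [div_le_iff₀ hA] at hRA
    rw [hκ, div_le_div_iff₀ (by positivity) (by norm_num)]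
    linarith
  set E : Set ℂ := rect (7 * A / 8 - κ) (B + A / 8 + κ) κ with hE
  have hEball : ∀ u ∈ E, ball u (A / 4) ⊆ D := by
    intro u hu z hz
    rw [mem_ball, dist_eq_norm] at hz
    have h1 := abs_lt.1 ((Complex.abs_re_le_norm (z - u)).trans_lt hz)
    have h2 := abs_lt.1 ((Complex.abs_im_le_norm (z - u)).trans_lt hz)
    rw [Complex.sub_re] at h1
    rw [Complex.sub_im] at h2
    obtain ⟨⟨h3, h4⟩, h5⟩ := hu
    have h6 := abs_le.1 h5
    refine ⟨⟨?_, ?_⟩, ?_⟩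
    · linarith [h1.1]
    · linarith [h1.2]
    · rw [abs_le]
      constructor <;> linarith [h2.1, h2.2, h6.1, h6.2]
  have hDint : (interior D).Nonempty := by
    refine ⟨((7 * A / 8 : ℝ) : ℂ), ?_⟩
    rw [mem_interior]
    refine ⟨ball ((7 * A / 8 : ℝ) : ℂ) (A / 4), hEball _ ?_, isOpen_ball, mem_ball_self (by linarith)⟩
    refine ⟨⟨?_, ?_⟩, ?_⟩
    · rw [Complex.ofReal_re]; linarith
    · rw [Complex.ofReal_re]; linarith
    · rw [Complex.ofReal_im, abs_zero]; exact hκ0.le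
  have hc4 : 0 < A / 4 := by linarith
  obtain ⟨S, n, g, hSE, hga, hgb, hgn, hfac⟩ := KL_decomp hc4 (KL_rect_compact _ _ _)
    (KL_rect_convex _ _ _) hDint hfa hfb hfne hEball
  set N : ℝ := ∑ u ∈ S, (n u : ℝ) with hN
  have hN0 : 0 ≤ N := Finset.sum_nonneg fun u _ => Nat.cast_nonneg _
  have hwc : Continuous w := hw.smooth.continuous
  have hAB2 : A / 2 ≤ 2 * B := by linarith
  -- membership
  have hmem : ∀ (v' : ℂ), |v'.re| ≤ A / 8 → |v'.im| ≤ A / 2 → ∀ t, w t ≠ 0 → (t : ℂ) + v' ∈ D := by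
    intro v' h1 h2 t ht
    have h3 : t ∈ Icc (A / 2) (2 * B) := by
      by_contra hn
      exact ht (hw.supp t hn)
    have h4 := abs_le.1 h1
    refine ⟨⟨?_, ?_⟩, ?_⟩
    · rw [Complex.add_re, Complex.ofReal_re]; linarith [h3.1, h4.1]
    · rw [Complex.add_re, Complex.ofReal_re]; linarith [h3.2, h4.2]
    · rw [Complex.add_im, Complex.ofReal_im, zero_add]; exact h2

  -- the transversal defect
  have hT : ∫⁻ τ in Icc (7 * A / 8) (B + A / 8), td F ζ τ (β τ : ℂ) t ≤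
      ENNReal.ofReal (N * Real.log 2 * (2 * κ)) := by
    refine le_trans (setLIntegral_mono' measurableSet_Icc fun τ hτ => ?_) (KL_count S n hκ0.le)
    refine KL_tdF (E := E) (D := D) hF hR18 hζ1 hc4 hκ ht1 ht2 (hβ τ) (by linarith [hτ.1]) ?_
      (fun u hu => hEball u hu (mem_ball_self hc4)) hga hgn hfac
    intro σ h1 h2
    have h3 := abs_le.1 h1
    refine ⟨⟨?_, ?_⟩, h2⟩
    · linarith [hτ.1, h3.1]
    · linarith [hτ.2, h3.2]
  -- near concavity of the zero free factor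
  have hsubD : rect (A / 2 - A / 8) (2 * B + A / 8) (4 * (A / 128)) ⊆ D :=
    NC_rect_sub (by linarith) (by linarith) (by linarith)
  have hNC := hnc g (A / 128) v (by linarith) (by linarith) (by rw [abs_of_pos hv0]; linarith)
    (by linarith) (hga.mono hsubD) (fun σ hσ => hgb σ (hsubD hσ))
  set Kg : ℝ≥0∞ := ∫⁻ t in Icc (A / 2 - A / 8 / 2) (2 * B + A / 8 / 2), nl (g (t : ℂ)) with hKg
  have hKgle : Kg ≤ G2 F A B ζ + ENNReal.ofReal (N * Λ * (4 * B)) := by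
    refine (KL_Kg (D := D) (len := 4 * B) hc4 hfac hfb hgb ?_ ?_ hΛ0.le ?_).trans ?_
    · intro t ht
      refine ⟨⟨?_, ?_⟩, ?_⟩
      · rw [Complex.ofReal_re]; linarith [ht.1]
      · rw [Complex.ofReal_re]; linarith [ht.2]
      · rw [Complex.ofReal_im, abs_zero]; linarith
    · intro t ht u hu
      obtain ⟨⟨h3, h4⟩, h5⟩ := hSE u hu
      have h6 : ‖(t : ℂ) - u‖ ≤ 8 * B := by
        refine (Complex.norm_le_abs_re_add_abs_im _).trans ?_
        rw [Complex.sub_re, Complex.ofReal_re, Complex.sub_im, Complex.ofReal_im, zero_sub, abs_neg]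
        have h7 : |t - u.re| ≤ 4 * B := by
          rw [abs_le]
          constructor <;> linarith [ht.1, ht.2]
        linarith
      rcases eq_or_lt_of_le (norm_nonneg ((t : ℂ) - u)) with h0 | h0
      · rw [← h0]; simp [hΛ0.le]
      · rw [hΛ]
        apply Real.log_le_log (by positivity)
        rw [div_le_div_iff₀ hc4 hA]
        nlinarith
    · linarith
    · gcongr
      unfold G2
      simp only [hf]
      refine lintegral_mono_set (Icc_subset_Icc ?_ ?_)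
      · linarith
      · linarith
  have hKgfin : Kg ≠ ⊤ :=
    ne_top_of_le_ne_top (ENNReal.add_ne_top.2 ⟨hG2, ENNReal.ofReal_ne_top⟩) hKgle
  have hg0fin : (∫⁻ t : ℝ, ENNReal.ofReal (w t) * nl (g (t : ℂ))) ≠ ⊤ := by
    refine ne_top_of_le_ne_top hKgfin ?_
    have h1 : (∫⁻ t : ℝ, ENNReal.ofReal (w t) * nl (g (t : ℂ))) = NC_Y g w 0 := by
      unfold NC_Y; simp
    rw [h1]
    refine (NC_Y_le hw.supp hw.le_one).trans ?_
    rw [ENNReal.ofReal_one, one_mul]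
    simp only [Complex.ofReal_zero, zero_mul, add_zero]
    refine lintegral_mono_set (Icc_subset_Icc ?_ ?_)
    · linarith
    · linarith
  have hsumfin : (∫⁻ t : ℝ, ENNReal.ofReal (w t) * nl (g ((t : ℂ) + v))) +
      (∫⁻ t : ℝ, ENNReal.ofReal (w t) * nl (g ((t : ℂ) - v))) ≠ ⊤ := by
    refine ne_top_of_le_ne_top (ENNReal.add_ne_top.2
      ⟨ENNReal.mul_ne_top (by norm_num) hg0fin, ENNReal.mul_ne_top ENNReal.ofReal_ne_top hKgfin⟩) hNC
  obtain ⟨hgvfin, hgnvfin⟩ := ENNReal.add_ne_top.1 hsumfin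
  -- the three identities
  have eqneg : ∀ t : ℝ, (t : ℂ) - v = (t : ℂ) + (-v) := fun t => sub_eq_add_neg _ _
  have eq0 : ∀ t : ℝ, (t : ℂ) = (t : ℂ) + 0 := fun t => (add_zero _).symm
  have hgnvfin' : (∫⁻ t : ℝ, ENNReal.ofReal (w t) * nl (g ((t : ℂ) + (-v)))) ≠ ⊤ := by
    simpa only [eqneg] using hgnvfin
  have hg0fin' : (∫⁻ t : ℝ, ENNReal.ofReal (w t) * nl (g ((t : ℂ) + 0))) ≠ ⊤ := by
    simpa only [add_zero] using hg0fin
  obtain ⟨i1, i1'⟩ := KL_intL hAB2 hwc hw.supp v hc4 S n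
  obtain ⟨i2, i2'⟩ := KL_intL hAB2 hwc hw.supp (-v) hc4 S n
  obtain ⟨i3, i3'⟩ := KL_intL hAB2 hwc hw.supp 0 hc4 S n
  obtain ⟨ffv, ev⟩ := KL_ident (D := D) (v := v) hc4 hfac hfb hgb hw.nonneg
    (hmem v (by linarith) (by rw [abs_of_pos hv0]; linarith)) i1 hgvfin
  obtain ⟨ffnv, env⟩ := KL_ident (D := D) (v := -v) hc4 hfac hfb hgb hw.nonneg
    (hmem (-v) (by rw [Complex.neg_re, abs_neg]; linarith)
      (by rw [Complex.neg_im, abs_neg, abs_of_pos hv0]; linarith)) i2 hgnvfin'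
  obtain ⟨ff0, e0⟩ := KL_ident (D := D) (v := 0) hc4 hfac hfb hgb hw.nonneg
    (hmem 0 (by simp; positivity) (by simp; positivity)) i3 hg0fin'
  rw [i1'] at ev
  rw [i2'] at env
  rw [i3'] at e0
  -- the logarithmic integrals
  have hkey : N * v.im ≤ (∑ u ∈ S, (n u : ℝ) * ∫ t : ℝ, w t * Real.log (‖(t : ℂ) + v - u‖ / (A / 4))) +
      (∑ u ∈ S, (n u : ℝ) * ∫ t : ℝ, w t * Real.log (‖(t : ℂ) + (-v) - u‖ / (A / 4))) -
      2 * (∑ u ∈ S, (n u : ℝ) * ∫ t : ℝ, w t * Real.log (‖(t : ℂ) + 0 - u‖ / (A / 4))) := by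
    rw [hN, Finset.sum_mul, ← Finset.sum_add_distrib, Finset.mul_sum, ← Finset.sum_sub_distrib]
    refine Finset.sum_le_sum fun u hu => ?_
    obtain ⟨⟨h3, h4⟩, h5⟩ := hSE u hu
    have h := hkli w u v hwc.measurable hw.nonneg hw.le_one (fun t ht => hw.one t (by
        have := abs_le.1 ht
        constructor <;> linarith [this.1, this.2])) (fun t ht => hw.supp t (fun hm => by
        have h7 : |t| ≤ 2 * B := by
          rw [abs_le]; constructor <;> linarith [hm.1, hm.2]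
        linarith)) hv0 hvq (by linarith) (by
        refine h5.trans ?_
        rw [hκ]
        refine le_trans ?_ (div_le_div_of_nonneg_right hvlow (by norm_num))
        rw [div_div, div_le_div_iff₀ (by positivity) (by positivity)]
        nlinarith) (by
        rw [abs_le]
        constructor <;> linarith)
    have h8 := KL_kli hAB2 hwc hw.supp (A' := A / 2) (B' := 2 * B) (by
      have : 0 < 1 / ℓ := by positivity
      linarith) (by linarith) u v hc4 h.2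
    have h9 : (0 : ℝ) ≤ n u := Nat.cast_nonneg _
    have h10 := mul_le_mul_of_nonneg_left h8 h9
    linarith
  -- translation to G
  have hGb : G F w b ζ = ∫⁻ t : ℝ, ENNReal.ofReal (w t) * nl (f ((t : ℂ) + v)) := by
    unfold G
    congr 1
    ext t
    simp only [hf]
    rw [add_mul, hvζ]
  have hGnb : G F w (-b) ζ = ∫⁻ t : ℝ, ENNReal.ofReal (w t) * nl (f ((t : ℂ) + (-v))) := by
    unfold G
    congr 1
    ext t
    simp only [hf]
    rw [add_mul, neg_mul, hvζ]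
    congr 4
    push_cast
    ring
  have hG0 : G F w 0 ζ = ∫⁻ t : ℝ, ENNReal.ofReal (w t) * nl (f ((t : ℂ) + 0)) := by
    unfold G
    congr 1
    ext t
    simp only [hf, add_zero, Complex.ofReal_zero, zero_mul]
  rw [hGb, hGnb, hG0]
  set fv := ∫⁻ t : ℝ, ENNReal.ofReal (w t) * nl (f ((t : ℂ) + v)) with hfv
  set fnv := ∫⁻ t : ℝ, ENNReal.ofReal (w t) * nl (f ((t : ℂ) + (-v))) with hfnv
  set f0 := ∫⁻ t : ℝ, ENNReal.ofReal (w t) * nl (f ((t : ℂ) + 0)) with hf0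
  have hNC' := hNC
  simp only [eqneg] at hNC'
  rw [show (∫⁻ t : ℝ, ENNReal.ofReal (w t) * nl (g (t : ℂ))) =
    ∫⁻ t : ℝ, ENNReal.ofReal (w t) * nl (g ((t : ℂ) + 0)) by simp only [add_zero]] at hNC'
  have hcoefnn : 0 ≤ C0 * (v.im ^ 2 + v.re ^ 2 + |v.re| * |v.im| / (A / 128)) := by positivity
  have r1 := ENNReal.toReal_mono (ENNReal.add_ne_top.2
    ⟨ENNReal.mul_ne_top (by norm_num) hg0fin', ENNReal.mul_ne_top ENNReal.ofReal_ne_top hKgfin⟩) hNC'
  rw [ENNReal.toReal_add hgvfin hgnvfin', ENNReal.toReal_add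
    (ENNReal.mul_ne_top (by norm_num) hg0fin') (ENNReal.mul_ne_top ENNReal.ofReal_ne_top hKgfin),
    ENNReal.toReal_mul, ENNReal.toReal_mul, ENNReal.toReal_ofReal hcoefnn] at r1
  simp only [ENNReal.toReal_ofNat] at r1
  have r2 := ENNReal.toReal_mono (ENNReal.add_ne_top.2 ⟨hG2, ENNReal.ofReal_ne_top⟩) hKgle
  have hNΛ : 0 ≤ N * Λ * (4 * B) := by positivity
  rw [ENNReal.toReal_add hG2 ENNReal.ofReal_ne_top, ENNReal.toReal_ofReal hNΛ] at r2
  have hkg0 : 0 ≤ Kg.toReal := ENNReal.toReal_nonneg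
  have hg20 : 0 ≤ (G2 F A B ζ).toReal := ENNReal.toReal_nonneg
  have hreal := KL_final hA hC0 hC1 hv0 hvrei hvsq hvsq2 hvC hN0 hΛ0 hB hkg0 hg20 ev env e0 hkey r1 r2
    hvlow hR0 hb0 hC18 hC4 hκ
  have hCpos : 0 < C := by linarith
  calc ENNReal.ofReal (b / C) * (∫⁻ τ in Icc (7 * A / 8) (B + A / 8), td F ζ τ (β τ : ℂ) t)
        + fv + fnv
      ≤ ENNReal.ofReal (b / C) * ENNReal.ofReal (N * Real.log 2 * (2 * κ)) + fv + fnv := by
        gcongr
    _ = ENNReal.ofReal (b / C * (N * Real.log 2 * (2 * κ)) + fv.toReal + fnv.toReal) := by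
        have hlog2 : 0 < Real.log 2 := Real.log_pos one_lt_two
        rw [ENNReal.ofReal_add (by positivity) ENNReal.toReal_nonneg,
          ENNReal.ofReal_add (by positivity) ENNReal.toReal_nonneg,
          ENNReal.ofReal_toReal ffv, ENNReal.ofReal_toReal ffnv,
          ← ENNReal.ofReal_mul (by positivity : (0 : ℝ) ≤ b / C)]
    _ ≤ ENNReal.ofReal (2 * f0.toReal + C * (b / R) ^ 2 * (G2 F A B ζ).toReal) :=
        ENNReal.ofReal_le_ofReal hreal
    _ = 2 * f0 + ENNReal.ofReal (C * (b / R) ^ 2) * G2 F A B ζ := by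
        rw [ENNReal.ofReal_add (by positivity) (by positivity),
          ENNReal.ofReal_mul (by norm_num : (0 : ℝ) ≤ 2), ENNReal.ofReal_toReal ff0,
          ENNReal.ofReal_mul (by positivity), ENNReal.ofReal_toReal hG2]
        simp

end Muntz
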