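import Pool.Agent.Lib.MP_dde81e_an.SCALE
import Pool.Agent.Lib.MP_dde81e_an.FA
import Pool.Agent.Lib.MP_dde81e_an.WT
import Pool.Agent.Lib.MP_dde81e_an.IND
import Pool.Agent.Lib.MP_dde81e_an.L2

/-! MP_dde81e_an, module MAIN : final theorem -/

namespace Muntz
open MeasureTheory Set Metric
open scoped ENNReal

theorem MAIN_alg {D L s d c R : ℝ} (hD : 0 ≤ D) (hL : 1 ≤ L) (hs : 0 ≤ s) (hd : 0 ≤ d)
    (hc : 0 < c) (hR : 0 < R)
    (h : d ≤ D * (s + Real.sqrt s / min (L / 4) (c * R))) :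
    min d ((L * d) ^ 2) ≤ (25 * D ^ 2 + 5 * D + D / c ^ 2) * (s + 1 / R ^ 2) := by
  have hq : 0 ≤ Real.sqrt s := Real.sqrt_nonneg s
  have hqq : Real.sqrt s * Real.sqrt s = s := Real.mul_self_sqrt hs
  have hL0 : 0 < L := by linarith
  have hRR : 0 ≤ 1 / R ^ 2 := by positivity
  by_cases hcase : L / 4 ≤ c * R
  · rw [min_eq_left hcase] at h
    by_cases h1 : L * Real.sqrt s ≤ 1
    · refine le_trans (min_le_right _ _) ?_
      have h2 : L * d ≤ 5 * D * Real.sqrt s := by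
        calc L * d ≤ L * (D * (s + Real.sqrt s / (L / 4))) := by gcongr
          _ = D * (L * s + 4 * Real.sqrt s) := by
            field_simp
          _ ≤ D * (Real.sqrt s + 4 * Real.sqrt s) := by
            gcongr
            calc L * s = (L * Real.sqrt s) * Real.sqrt s := by rw [mul_assoc, hqq]
              _ ≤ 1 * Real.sqrt s := by gcongr
              _ = Real.sqrt s := one_mul _
          _ = _ := by ring
      have h3 : (L * d) ^ 2 ≤ 25 * D ^ 2 * s := by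
        calc (L * d) ^ 2 ≤ (5 * D * Real.sqrt s) ^ 2 := by gcongr
          _ = 25 * D ^ 2 * (Real.sqrt s * Real.sqrt s) := by ring
          _ = _ := by rw [hqq]
      have h4 : 0 ≤ 25 * D ^ 2 * (1 / R ^ 2) := by positivity
      have h5 : 0 ≤ (5 * D + D / c ^ 2) * (s + 1 / R ^ 2) := by positivity
      nlinarith
    · rw [not_le] at h1
      refine le_trans (min_le_left _ _) ?_
      have h2 : Real.sqrt s / (L / 4) ≤ 4 * s := by
        rw [div_le_iff₀ (by positivity)]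
        nlinarith
      have h3 : d ≤ 5 * D * s := by
        calc d ≤ D * (s + Real.sqrt s / (L / 4)) := h
          _ ≤ D * (s + 4 * s) := by gcongr
          _ = _ := by ring
      have h4 : 0 ≤ 5 * D * (1 / R ^ 2) := by positivity
      have h5 : 0 ≤ (25 * D ^ 2 + D / c ^ 2) * (s + 1 / R ^ 2) := by positivity
      nlinarith
  · rw [not_le] at hcase
    rw [min_eq_right hcase.le] at h
    refine le_trans (min_le_left _ _) ?_
    have h2 : Real.sqrt s / (c * R) ≤ s + 1 / (c ^ 2 * R ^ 2) := by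
      have h3 : Real.sqrt s / (c * R) = Real.sqrt s * (1 / (c * R)) := by ring
      have h4 : (1 / (c * R)) ^ 2 = 1 / (c ^ 2 * R ^ 2) := by
        field_simp
      rw [h3, ← h4]
      nlinarith [sq_nonneg (Real.sqrt s - 1 / (c * R)), sq_nonneg (1 / (c * R)), sq_nonneg (Real.sqrt s)]
    calc d ≤ D * (s + Real.sqrt s / (c * R)) := h
      _ ≤ D * (s + (s + 1 / (c ^ 2 * R ^ 2))) := by gcongr
      _ = 2 * D * s + D / c ^ 2 * (1 / R ^ 2) := by
        field_simp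
        ring
      _ ≤ _ := by
        have h5 : 0 ≤ D / c ^ 2 * s := by positivity
        have h6 : 0 ≤ (25 * D ^ 2 + 5 * D) * (1 / R ^ 2) := by positivity
        have h7 : 0 ≤ 25 * D ^ 2 * s := by positivity
        have h8 : 0 ≤ 3 * D * s := by positivity
        nlinarith

theorem MAIN_finite {Ω : Set (ℕ × ℕ)} {ε : ℝ} (hε : 0 < ε)
    (hang : ∀ p ∈ Ω, ε * p.1 ≤ p.2 ∧ (p.2 : ℝ) ≤ p.1 / ε) (j : ℕ) :
    (Ω ∩ {p | 2 ^ j ≤ p.1 ∧ p.1 < 2 ^ (j + 1)}).Finite := by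
  apply Set.Finite.subset (Finset.finite_toSet
    (Finset.range (2 ^ (j + 1)) ×ˢ Finset.range (⌊(2 ^ (j + 1) : ℝ) / ε⌋₊ + 1)))
  rintro p ⟨hp, hp1, hp2⟩
  rw [Finset.mem_coe, Finset.mem_product, Finset.mem_range, Finset.mem_range]
  refine ⟨hp2, ?_⟩
  have h1 : (p.1 : ℝ) ≤ 2 ^ (j + 1) := by exact_mod_cast hp2.le
  have : p.2 ≤ ⌊(2 ^ (j + 1) : ℝ) / ε⌋₊ := by
    apply Nat.le_floor
    refine le_trans (hang p hp).2 ?_
    gcongr
  omega

theorem main {Ω : Set (ℕ × ℕ)} {ε : ℝ} (hε : 0 < ε) (hε1 : ε ≤ 1)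
    (hpos : ∀ p ∈ Ω, 1 ≤ p.1 ∧ 1 ≤ p.2)
    (hang : ∀ p ∈ Ω, ε * p.1 ≤ p.2 ∧ (p.2 : ℝ) ≤ p.1 / ε)
    (L : ℕ → ℝ) (hL : ∀ j, 1 ≤ L j) (C : ℕ)
    (hreg : ∀ j, ∀ p ∈ Ω, 2 ^ j ≤ p.1 → p.1 < 2 ^ (j + 1) →
      {q ∈ Ω | 2 ^ j ≤ q.1 ∧ q.1 < 2 ^ (j + 1) ∧ |(q.1 : ℝ) - p.1| ≤ L j ∧
        |((q.2 : ℝ) - p.2) - (p.2 : ℝ) / p.1 * ((q.1 : ℝ) - p.1)| ≤ 1}.ncard ≤ C)
    (hdiv : ¬ Summable (fun j => min (dens Ω j) ((L j * dens Ω j) ^ 2))) :
    Muntz2.SpansC0 Ω ∧ Muntz2.SpansL2 Ω := by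
  suffices h : Muntz2.SpansC0 Ω from ⟨h, Muntz2.spansL2_of_spansC0 h⟩
  by_contra hns
  apply hdiv
  obtain ⟨F, hF, hF0⟩ := exists_goodF hpos hns
  have hA : 0 < ε / 2 := by positivity
  have hAB : ε / 2 ≤ 2 / ε := by
    rw [le_div_iff₀ hε]
    nlinarith
  obtain ⟨s, hs0, hsum, hsc⟩ := scale hF hA hAB
  obtain ⟨j₀, hj₀⟩ : ∃ j₀ : ℕ, 100 / ε ≤ (2 : ℝ) ^ j₀ := by
    obtain ⟨n, hn⟩ := pow_unbounded_of_one_lt (100 / ε) (by norm_num : (1 : ℝ) < 2)
    exact ⟨n, hn.le⟩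
  set D : ℝ := (2 * C + 1) / 4 with hD
  have hD0 : 0 ≤ D := by positivity
  set c : ℝ := ε / 100 with hc
  have hc0 : 0 < c := by positivity
  -- the main bound
  have hbound : ∀ i : ℕ, min (dens Ω (i + j₀ + 1)) ((L (i + j₀ + 1) * dens Ω (i + j₀ + 1)) ^ 2)
      ≤ (25 * D ^ 2 + 5 * D + D / c ^ 2) * (s (i + j₀) + 1 / (2 ^ (i + j₀)) ^ 2) := by
    intro i
    set j := i + j₀ with hj
    have hR0 : (0 : ℝ) < 2 ^ j := by positivity
    have hRbig : 100 / ε ≤ (2 : ℝ) ^ j := le_trans hj₀ (pow_le_pow_right₀ (by norm_num) (by omega))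
    have hεR : 100 ≤ ε * 2 ^ j := by
      rw [div_le_iff₀ hε] at hRbig
      linarith
    have hR100 : (100 : ℝ) ≤ 2 ^ j := by nlinarith
    have hd0 : 0 ≤ dens Ω (j + 1) := by
      unfold dens
      positivity
    refine MAIN_alg hD0 (hL _) (hs0 _) hd0 hc0 hR0 ?_
    -- the finite set of points
    have hfin := MAIN_finite hε hang (j + 1)
    classical
    set P := hfin.toFinset with hP
    have hPm : ∀ p, p ∈ P ↔ p ∈ Ω ∧ 2 ^ (j + 1) ≤ p.1 ∧ p.1 < 2 ^ (j + 1 + 1) := by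
      intro p
      rw [hP, Set.Finite.mem_toFinset]
      rfl
    have hPcard : (P.card : ℝ) / 4 ^ (j + 1) = dens Ω (j + 1) := by
      unfold dens
      rw [Set.ncard_eq_toFinset_card _ hfin]
    set r : ℕ × ℕ → ℕ × ℕ → Prop := fun p q => |(q.1 : ℝ) - p.1| ≤ L (j + 1) ∧
        |((q.2 : ℝ) - p.2) - (p.2 : ℝ) / p.1 * ((q.1 : ℝ) - p.1)| ≤ 1 with hr
    obtain ⟨P', hP'P, hP'card, hP'ind⟩ := exists_independent P r C (by
      intro p hp
      rw [hPm] at hp
      refine le_trans ?_ (hreg (j + 1) p hp.1 hp.2.1 hp.2.2)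
      rw [← Set.ncard_coe_finset]
      apply Set.ncard_le_ncard
      · intro q hq
        rw [Finset.mem_coe, Finset.mem_filter, hPm] at hq
        exact ⟨hq.1.1, hq.1.2.1, hq.1.2.2, hq.2.2.1, hq.2.2.2⟩
      · apply hfin.subset
        intro q hq
        exact ⟨hq.1, hq.2.1, hq.2.2.1⟩)
    have hP'm : ∀ p ∈ P', p ∈ Ω ∧ 2 ^ (j + 1) ≤ p.1 ∧ p.1 < 2 ^ (j + 1 + 1) := fun p hp =>
      (hPm p).1 (hP'P hp)
    -- the shift
    set φ : ℕ × ℕ → ℕ × ℕ := fun p => (p.1 - 1, p.2 - 1) with hφ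
    have hinj : Set.InjOn φ (P' : Set (ℕ × ℕ)) := by
      intro p hp q hq hpq
      obtain ⟨h1, h2⟩ := hpos p (hP'm p hp).1
      obtain ⟨h3, h4⟩ := hpos q (hP'm q hq).1
      simp only [hφ, Prod.mk.injEq] at hpq
      ext
      · omega
      · omega
    set S : ℝ := min (L (j + 1) / 4) (c * 2 ^ j) with hS
    have hS1 : 1 / 4 ≤ S := by
      rw [hS, le_min_iff]
      constructor
      · have := hL (j + 1)
        linarith
      · rw [hc]
        linarith
    have hS0 : 0 < S := by linarith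
    have hS2 : S ≤ 2 ^ j / 8 := by
      refine le_trans (min_le_right _ _) ?_
      rw [hc]
      nlinarith
    have hSL : 4 * S ≤ L (j + 1) := by
      have : S ≤ L (j + 1) / 4 := min_le_left _ _
      linarith
    have hSc : S ≤ c * 2 ^ j := min_le_right _ _
    have hreal : ∀ p ∈ P', (2 : ℝ) ^ j ≤ (p.1 : ℝ) - 1 ∧ (p.1 : ℝ) ≤ 4 * 2 ^ j ∧
        ((p.1 - 1 : ℕ) : ℝ) = (p.1 : ℝ) - 1 ∧ ((p.2 - 1 : ℕ) : ℝ) = (p.2 : ℝ) - 1 ∧
        ε * p.1 ≤ p.2 ∧ (p.2 : ℝ) ≤ p.1 / ε := by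
      intro p hp
      obtain ⟨h1, h2, h3⟩ := hP'm p hp
      obtain ⟨h4, h5⟩ := hpos p h1
      obtain ⟨h6, h7⟩ := hang p h1
      refine ⟨?_, ?_, by push_cast [h4]; ring, by push_cast [h5]; ring, h6, h7⟩
      · have : ((2 ^ (j + 1) : ℕ) : ℝ) ≤ (p.1 : ℝ) := by exact_mod_cast h2
        push_cast at this
        rw [pow_succ] at this
        linarith
      · have : (p.1 : ℝ) ≤ ((2 ^ (j + 1 + 1) : ℕ) : ℝ) := by exact_mod_cast h3.le
        push_cast at this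
        rw [pow_succ, pow_succ] at this
        linarith
    have key := hsc j S (P'.image φ) hS1 hS2 (by
      intro q hq
      rw [Finset.mem_image] at hq
      obtain ⟨p, hp, rfl⟩ := hq
      obtain ⟨h1, h2, h3, h4, h5, h6⟩ := hreal p hp
      simp only [hφ]
      refine ⟨?_, ?_, ?_, ?_, ?_⟩
      · rw [h3]
        exact h1
      · rw [h3]
        linarith
      · rw [h3, h4]
        nlinarith
      · rw [h3, h4]
        rw [div_mul_eq_mul_div, le_div_iff₀ hε]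
        rw [le_div_iff₀ hε] at h6
        nlinarith
      · exact hF0 p (hP'm p hp).1) (by
      intro q hq q' hq' hne
      rw [Finset.mem_image] at hq hq'
      obtain ⟨p, hp, rfl⟩ := hq
      obtain ⟨p', hp', rfl⟩ := hq'
      have hpp : p ≠ p' := fun h => hne (by rw [h])
      obtain ⟨h1, h2, h3, h4, h5, h6⟩ := hreal p hp
      obtain ⟨h1', h2', h3', h4', h5', h6'⟩ := hreal p' hp'
      simp only [hφ]
      rw [h3, h4, h3', h4']
      by_cases hd : 4 * S < |((p'.1 : ℝ) - 1) - ((p.1 : ℝ) - 1)|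
      · exact Or.inl hd
      · right
        rw [not_lt] at hd
        have hd' : |(p'.1 : ℝ) - p.1| ≤ 4 * S := by
          have : ((p'.1 : ℝ) - 1) - ((p.1 : ℝ) - 1) = (p'.1 : ℝ) - p.1 := by ring
          rwa [this] at hd
        have hnr := hP'ind p hp p' hp' hpp
        have h7 : 1 < |((p'.2 : ℝ) - p.2) - (p.2 : ℝ) / p.1 * ((p'.1 : ℝ) - p.1)| := by
          by_contra hcon
          rw [not_lt] at hcon
          exact hnr ⟨le_trans hd' hSL, hcon⟩
        -- the slopes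
        have hm1 : 0 < (p.1 : ℝ) - 1 := by linarith
        have hm0 : 0 < (p.1 : ℝ) := by linarith
        have hsl : |(p.2 : ℝ) / p.1 - ((p.2 : ℝ) - 1) / ((p.1 : ℝ) - 1)|
            ≤ 1 / ε / ((p.1 : ℝ) - 1) := by
          have e1 : (p.2 : ℝ) / p.1 - ((p.2 : ℝ) - 1) / ((p.1 : ℝ) - 1)
              = ((p.1 : ℝ) - p.2) / p.1 / ((p.1 : ℝ) - 1) := by
            field_simp
            ring
          rw [e1, abs_div, abs_of_pos hm1]
          gcongr
          rw [abs_div, abs_of_pos hm0, div_le_div_iff₀ hm0 hε]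
          rw [le_div_iff₀ hε] at h6
          have : |(p.1 : ℝ) - p.2| ≤ max (p.1 : ℝ) p.2 := by
            rw [abs_le]
            have i1 : (p.1 : ℝ) ≤ max (p.1 : ℝ) p.2 := le_max_left _ _
            have i2 : (p.2 : ℝ) ≤ max (p.1 : ℝ) p.2 := le_max_right _ _
            have i3 : (0 : ℝ) ≤ p.2 := by positivity
            constructor <;> linarith
          have h8 : max (p.1 : ℝ) p.2 * ε ≤ p.1 := by
            rcases le_total (p.1 : ℝ) p.2 with h | h
            · rw [max_eq_right h]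
              exact h6
            · rw [max_eq_left h]
              nlinarith
          nlinarith
        have hdiff : |((p.2 : ℝ) / p.1 - ((p.2 : ℝ) - 1) / ((p.1 : ℝ) - 1))
            * ((p'.1 : ℝ) - p.1)| ≤ 1 / 2 := by
          rw [abs_mul]
          calc |(p.2 : ℝ) / p.1 - ((p.2 : ℝ) - 1) / ((p.1 : ℝ) - 1)| * |(p'.1 : ℝ) - p.1|
              ≤ 1 / ε / ((p.1 : ℝ) - 1) * (4 * S) := by gcongr
            _ ≤ 1 / ε / ((p.1 : ℝ) - 1) * (4 * (c * ((p.1 : ℝ) - 1))) := by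
              gcongr
              exact le_trans hSc (by gcongr)
            _ = 4 / 100 := by
              rw [hc]
              field_simp
            _ ≤ 1 / 2 := by norm_num
        have e2 : ((p'.2 : ℝ) - p.2) - (p.2 : ℝ) / p.1 * ((p'.1 : ℝ) - p.1)
            = ((((p'.2 : ℝ) - 1) - ((p.2 : ℝ) - 1)) - ((p.2 : ℝ) - 1) / ((p.1 : ℝ) - 1)
              * (((p'.1 : ℝ) - 1) - ((p.1 : ℝ) - 1)))
              - ((p.2 : ℝ) / p.1 - ((p.2 : ℝ) - 1) / ((p.1 : ℝ) - 1))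
            * ((p'.1 : ℝ) - p.1) := by ring
        rw [e2] at h7
        have h9 := abs_sub (((((p'.2 : ℝ) - 1) - ((p.2 : ℝ) - 1)) - ((p.2 : ℝ) - 1)
          / ((p.1 : ℝ) - 1) * (((p'.1 : ℝ) - 1) - ((p.1 : ℝ) - 1))))
          (((p.2 : ℝ) / p.1 - ((p.2 : ℝ) - 1) / ((p.1 : ℝ) - 1)) * ((p'.1 : ℝ) - p.1))
        linarith)
    rw [Finset.card_image_of_injOn hinj] at key
    calc dens Ω (j + 1) = (P.card : ℝ) / 4 ^ (j + 1) := hPcard.symm
      _ ≤ ((2 * C + 1) * P'.card) / 4 ^ (j + 1) := by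
        gcongr
        exact_mod_cast hP'card
      _ = D * ((P'.card : ℝ) / 4 ^ j) := by
        rw [hD, pow_succ]
        field_simp
      _ ≤ D * (s j + Real.sqrt (s j) / S) := by gcongr
  rw [← summable_nat_add_iff (j₀ + 1)]
  have hsum2 : Summable (fun i => (25 * D ^ 2 + 5 * D + D / c ^ 2) *
      (s (i + j₀) + 1 / (2 ^ (i + j₀)) ^ 2)) := by
    apply Summable.mul_left
    apply Summable.add
    · exact (summable_nat_add_iff j₀).2 hsum
    · have h4 : ∀ i : ℕ, (1 : ℝ) / (2 ^ (i + j₀)) ^ 2 = (1 / 4) ^ (i + j₀) := by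
        intro i
        rw [← pow_mul, mul_comm, pow_mul, one_div_pow]
        norm_num
      simp_rw [h4]
      exact (summable_nat_add_iff j₀).2
        (summable_geometric_of_lt_one (by norm_num) (by norm_num))
  refine Summable.of_nonneg_of_le (fun i => ?_) (fun i => ?_) hsum2
  · have : 0 ≤ dens Ω (i + (j₀ + 1)) := by
      unfold dens
      positivity
    exact le_min this (by positivity)
  · exact hbound i

end Muntz
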