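import Pool.Agent.Lib.MP_dde81e_an.VC
import Pool.Agent.Lib.MP_dde81e_an.SLAB

/-! MP_dde81e_an, module NC : near concavity in a general direction (from VC, SLAB) -/

namespace Muntz
open MeasureTheory Set Metric
open scoped ENNReal

/-- weighted integral over a horizontal line -/
noncomputable def NC_Y (f : ℂ → ℂ) (u : ℝ → ℝ) (q : ℝ) : ℝ≥0∞ :=
  ∫⁻ t : ℝ, ENNReal.ofReal (u t) * nl (f ((t : ℂ) + (q : ℂ) * Complex.I))

theorem NC_nl_continuous : Continuous nl := nl_continuous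

theorem NC_Y_eq {f : ℂ → ℂ} {u : ℝ → ℝ} {q α β : ℝ} (hu : ∀ t, t ∉ Icc α β → u t = 0) :
    NC_Y f u q = ∫⁻ t in Icc α β,
      ENNReal.ofReal (u t) * nl (f ((t : ℂ) + (q : ℂ) * Complex.I)) := by
  unfold NC_Y
  rw [← lintegral_indicator measurableSet_Icc]
  congr 1
  ext t
  by_cases ht : t ∈ Icc α β
  · rw [indicator_of_mem ht]
  · rw [indicator_of_notMem ht, hu t ht]; simp

theorem NC_aemeas {f : ℂ → ℂ} {q α β h : ℝ} (hq : |q| ≤ h) (hf : ContinuousOn f (rect α β h)) :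
    AEMeasurable (fun t : ℝ => nl (f ((t : ℂ) + (q : ℂ) * Complex.I)))
      (volume.restrict (Icc α β)) := by
  refine ContinuousOn.aemeasurable ?_ measurableSet_Icc
  refine nl_continuous.comp_continuousOn (hf.comp (by fun_prop) ?_)
  intro t ht
  refine ⟨?_, ?_⟩
  · simpa using ht
  · simpa using hq

theorem NC_Y_add {f : ℂ → ℂ} {u₁ u₂ : ℝ → ℝ} {q α β h : ℝ} (hq : |q| ≤ h)
    (hf : ContinuousOn f (rect α β h)) (c₁ : Continuous u₁) (p₁ : ∀ t, 0 ≤ u₁ t)
    (p₂ : ∀ t, 0 ≤ u₂ t) (z₁ : ∀ t, t ∉ Icc α β → u₁ t = 0) (z₂ : ∀ t, t ∉ Icc α β → u₂ t = 0) :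
    NC_Y f (fun t => u₁ t + u₂ t) q = NC_Y f u₁ q + NC_Y f u₂ q := by
  rw [NC_Y_eq (α := α) (β := β) z₁, NC_Y_eq (α := α) (β := β) z₂,
    NC_Y_eq (α := α) (β := β) (fun t ht => by rw [z₁ t ht, z₂ t ht, add_zero])]
  rw [← lintegral_add_left']
  · congr 1
    ext t
    rw [ENNReal.ofReal_add (p₁ t) (p₂ t), add_mul]
  · exact (ENNReal.measurable_ofReal.comp c₁.measurable).aemeasurable.mul (NC_aemeas hq hf)

theorem NC_Y_mono {f : ℂ → ℂ} {u₁ u₂ : ℝ → ℝ} {q : ℝ} (h : ∀ t, u₁ t ≤ u₂ t) :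
    NC_Y f u₁ q ≤ NC_Y f u₂ q := by
  refine lintegral_mono fun t => ?_
  gcongr
  exact h t

theorem NC_Y_le {f : ℂ → ℂ} {u : ℝ → ℝ} {q α β U : ℝ} (hu : ∀ t, t ∉ Icc α β → u t = 0)
    (hU : ∀ t, u t ≤ U) :
    NC_Y f u q ≤ ENNReal.ofReal U *
      ∫⁻ t in Icc α β, nl (f ((t : ℂ) + (q : ℂ) * Complex.I)) := by
  rw [NC_Y_eq hu, ← lintegral_const_mul' _ _ ENNReal.ofReal_ne_top]
  refine lintegral_mono fun t => ?_
  gcongr
  exact hU t

/-- real sequence lemma -/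
theorem NC_seq {y : ℝ → ℝ} {ρ B D : ℝ} (hρ : 0 < ρ) (hD : 0 ≤ D)
    (hB : ∀ x, |x| ≤ ρ → 0 ≤ y x ∧ y x ≤ B)
    (hc : ∀ x r, 0 ≤ r → |x| + r ≤ ρ → y (x - r) + y (x + r) ≤ 2 * y x + D * r ^ 2)
    {q : ℝ} (hq : |q| ≤ ρ / 2) :
    y (-q) ≤ y q + (4 * B / ρ + 4 * D * ρ) * |q| := by
  rcases eq_or_ne q 0 with rfl | hq0
  · simp
  have hq' : 0 < |q| := abs_pos.2 hq0
  have hBnn : 0 ≤ B := by
    have := hB 0 (by simp [hρ.le])
    linarith
  set E : ℝ := 4 * D * q ^ 2 with hE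
  have hE0 : 0 ≤ E := by positivity
  -- the step
  have step : ∀ k : ℕ, (2 * (k : ℝ) + 3) * |q| ≤ ρ →
      y ((2 * (k : ℝ) - 1) * q) - y ((2 * (k : ℝ) + 1) * q) ≤
      y ((2 * (k : ℝ) + 1) * q) - y ((2 * (k : ℝ) + 3) * q) + E := by
    intro k hk
    have h1 := hc ((2 * (k : ℝ) + 1) * q) (2 * |q|) (by positivity) (by
      rw [abs_mul, abs_of_nonneg (by positivity : (0 : ℝ) ≤ 2 * (k : ℝ) + 1)]
      linarith)
    have h2 : (2 * |q|) ^ 2 = 4 * q ^ 2 := by rw [mul_pow, sq_abs]; ring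
    rw [h2] at h1
    rcases le_or_gt 0 q with h | h
    · rw [abs_of_nonneg h] at h1
      have e1 : (2 * (k : ℝ) + 1) * q - 2 * q = (2 * (k : ℝ) - 1) * q := by ring
      have e2 : (2 * (k : ℝ) + 1) * q + 2 * q = (2 * (k : ℝ) + 3) * q := by ring
      rw [e1, e2] at h1
      rw [hE]; linarith
    · rw [abs_of_neg h] at h1
      have e1 : (2 * (k : ℝ) + 1) * q - 2 * -q = (2 * (k : ℝ) + 3) * q := by ring
      have e2 : (2 * (k : ℝ) + 1) * q + 2 * -q = (2 * (k : ℝ) - 1) * q := by ring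
      rw [e1, e2] at h1
      rw [hE]; linarith
  have step2 : ∀ k : ℕ, (2 * (k : ℝ) + 1) * |q| ≤ ρ →
      y (-q) - y q ≤ y ((2 * (k : ℝ) - 1) * q) - y ((2 * (k : ℝ) + 1) * q) + k * E := by
    intro k
    induction k with
    | zero => intro _; simp
    | succ k ih =>
      intro hk
      push_cast at hk ⊢
      have h1 := ih (by nlinarith)
      have h2 := step k (by linarith)
      have e1 : 2 * ((k : ℝ) + 1) - 1 = 2 * (k : ℝ) + 1 := by ring
      have e2 : 2 * ((k : ℝ) + 1) + 1 = 2 * (k : ℝ) + 3 := by ring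
      rw [e1, e2]
      linarith
  have step3 : ∀ k : ℕ, (2 * (k : ℝ) - 1) * |q| ≤ ρ →
      (k : ℝ) * (y (-q) - y q) ≤ y (-q) - y ((2 * (k : ℝ) - 1) * q) + k ^ 2 * E := by
    intro k
    induction k with
    | zero => intro _; simp
    | succ k ih =>
      intro hk
      push_cast at hk ⊢
      have h1 := ih (by nlinarith)
      have h2 := step2 k (by linarith)
      have e1 : 2 * ((k : ℝ) + 1) - 1 = 2 * (k : ℝ) + 1 := by ring
      rw [e1]
      have hk0 : (0 : ℝ) ≤ k := Nat.cast_nonneg k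
      nlinarith
  set x : ℝ := ρ / |q| with hx
  have hx2 : 2 ≤ x := by rw [hx, le_div_iff₀ hq']; linarith
  have hxq : x * |q| = ρ := by rw [hx]; field_simp
  set n : ℕ := ⌊(x + 1) / 2⌋₊ with hn
  have hn1 : (n : ℝ) ≤ (x + 1) / 2 := Nat.floor_le (by linarith)
  have hn2 : (x + 1) / 2 < n + 1 := Nat.lt_floor_add_one _
  have hn3 : x / 4 ≤ n := by linarith
  have hn0 : 0 < (n : ℝ) := by linarith
  have hnx : (n : ℝ) ≤ x := by linarith
  have hnr : (2 * (n : ℝ) - 1) * |q| ≤ ρ := by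
    calc (2 * (n : ℝ) - 1) * |q| ≤ x * |q| := by
          apply mul_le_mul_of_nonneg_right _ hq'.le; linarith
      _ = ρ := hxq
  have h3 := step3 n hnr
  have hb1 := (hB (-q) (by rw [abs_neg]; linarith)).2
  have hb2 := (hB ((2 * (n : ℝ) - 1) * q) (by
    rw [abs_mul, abs_of_nonneg (by linarith : (0 : ℝ) ≤ 2 * (n : ℝ) - 1)]; exact hnr)).1
  have h4 : (n : ℝ) * (y (-q) - y q) ≤ B + n ^ 2 * E := by linarith
  have h5 : y (-q) - y q ≤ B / n + n * E := by
    have : y (-q) - y q ≤ (B + n ^ 2 * E) / n := by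
      rw [le_div_iff₀ hn0]; linarith
    calc _ ≤ (B + n ^ 2 * E) / n := this
      _ = B / n + n * E := by field_simp
  have h6 : B / n ≤ 4 * B / ρ * |q| := by
    have e : 4 * B / ρ * |q| = B / (x / 4) := by
      rw [← hxq]; field_simp
    rw [e]
    exact div_le_div_of_nonneg_left hBnn (by linarith) hn3
  have h7 : n * E ≤ 4 * D * ρ * |q| := by
    have e : 4 * D * ρ * |q| = x * E := by
      rw [hE, ← hxq, ← sq_abs q]; ring
    rw [e]
    exact mul_le_mul_of_nonneg_right hnx hE0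
  nlinarith

theorem NC_sd {h : ℝ → ℝ} {M : ℝ} (h1 : Differentiable ℝ h) (h2 : Differentiable ℝ (deriv h))
    (hM : ∀ x, |deriv (deriv h) x| ≤ M) (t r : ℝ) :
    |h (t + r) + h (t - r) - 2 * h t| ≤ 2 * M * r ^ 2 := by
  have hM0 : 0 ≤ M := (abs_nonneg _).trans (hM 0)
  have lip : ∀ x y : ℝ, |deriv h y - deriv h x| ≤ M * |y - x| := by
    intro x y
    have := Convex.norm_image_sub_le_of_norm_deriv_le (f := deriv h) (C := M) (s := univ)
      (x := x) (y := y) (fun z _ => h2 z) (fun z _ => by rw [Real.norm_eq_abs]; exact hM z)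
      convex_univ (mem_univ _) (mem_univ _)
    simpa [Real.norm_eq_abs] using this
  have hder : ∀ s, HasDerivAt (fun s => h (t + s) + h (t - s))
      (deriv h (t + s) - deriv h (t - s)) s := by
    intro s
    have a1 : HasDerivAt (fun s => h (t + s)) (deriv h (t + s) * 1) s :=
      (h1 (t + s)).hasDerivAt.comp s ((hasDerivAt_id s).const_add t)
    have a2 : HasDerivAt (fun s => h (t - s)) (deriv h (t - s) * (-1)) s :=
      (h1 (t - s)).hasDerivAt.comp s ((hasDerivAt_id s).const_sub t)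
    have := a1.add a2
    have e : deriv h (t + s) - deriv h (t - s) =
      deriv h (t + s) * 1 + deriv h (t - s) * (-1) := by ring
    rw [e]
    exact this
  have key := Convex.norm_image_sub_le_of_norm_deriv_le (f := fun s => h (t + s) + h (t - s))
    (C := 2 * M * |r|) (s := uIcc 0 r) (x := 0) (y := r)
    (fun z _ => (hder z).differentiableAt) (fun z hz => by
      rw [(hder z).deriv, Real.norm_eq_abs]
      have := lip (t - z) (t + z)
      have e : t + z - (t - z) = 2 * z := by ring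
      rw [e, abs_mul, abs_two] at this
      have hz' : |z| ≤ |r| := by
        have := abs_sub_left_of_mem_uIcc hz
        simpa using this
      calc _ ≤ M * (2 * |z|) := this
        _ ≤ M * (2 * |r|) := by gcongr
        _ = 2 * M * |r| := by ring) (convex_uIcc 0 r) left_mem_uIcc right_mem_uIcc
  simp only [add_zero, sub_zero, Real.norm_eq_abs] at key
  have e1 : h (t + r) + h (t - r) - 2 * h t = h (t + r) + h (t - r) - (h t + h t) := by ring
  rw [e1]
  calc _ ≤ 2 * M * |r| * |r| := key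
    _ = 2 * M * r ^ 2 := by rw [mul_assoc, ← sq, sq_abs]

/-- Lipschitz type estimate for the vertical dependence -/
theorem NC_lip : ∃ C : ℝ, 0 < C ∧ ∀ (u : ℝ → ℝ) (f : ℂ → ℂ) (a b δ ρ M U : ℝ), a ≤ b →
    0 < ρ → 8 * ρ ≤ δ → Continuous u → (∀ t, 0 ≤ u t) → (∀ t, u t ≤ U) →
    (∀ t, t ∉ Icc a b → u t = 0) → 0 ≤ M →
    (∀ t r, -(M * r ^ 2) ≤ u (t + r) + u (t - r) - 2 * u t) →
    AnalyticOnNhd ℂ f (rect (a - δ) (b + δ) (4 * ρ)) →
    (∀ σ ∈ rect (a - δ) (b + δ) (4 * ρ), ‖f σ‖ ≤ 1) →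
    (∫⁻ t in Icc (a - δ / 2) (b + δ / 2), nl (f (t : ℂ))) ≠ ⊤ →
    (∀ q : ℝ, |q| ≤ ρ → NC_Y f u q ≠ ⊤) ∧
    ∀ q : ℝ, |q| ≤ ρ / 2 → (NC_Y f u (-q)).toReal ≤ (NC_Y f u q).toReal +
      C * (U / ρ + M * ρ) * |q| *
        (∫⁻ t in Icc (a - δ / 2) (b + δ / 2), nl (f (t : ℂ))).toReal := by
  obtain ⟨Cv, hCv, hv⟩ := vertical_conc
  obtain ⟨Cs, hCs, hs⟩ := slab
  refine ⟨4 * Cs + 4 * Cv, by positivity, ?_⟩
  intro u f a b δ ρ M U hab hρ hδ hu hu0 huU huz hM hsd hf hfb hK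
  set K : ℝ≥0∞ := ∫⁻ t in Icc (a - δ / 2) (b + δ / 2), nl (f (t : ℂ)) with hKdef
  have hU0 : 0 ≤ U := (hu0 0).trans (huU 0)
  have hle : ∀ q : ℝ, |q| ≤ ρ → NC_Y f u q ≤ ENNReal.ofReal U * (ENNReal.ofReal Cs * K) := by
    intro q hq
    refine (NC_Y_le huz huU).trans ?_
    gcongr
    refine hs f a b δ ρ ((q : ℂ) * Complex.I) hab hρ hδ hf hfb ?_ ?_
    · simpa using hq
    · simp; linarith
  have hfin : ENNReal.ofReal U * (ENNReal.ofReal Cs * K) ≠ ⊤ :=
    ENNReal.mul_ne_top ENNReal.ofReal_ne_top (ENNReal.mul_ne_top ENNReal.ofReal_ne_top hK)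
  have hne : ∀ q : ℝ, |q| ≤ ρ → NC_Y f u q ≠ ⊤ := fun q hq => ne_top_of_le_ne_top hfin (hle q hq)
  refine ⟨hne, ?_⟩
  intro q hq
  set k : ℝ := K.toReal with hk
  have hk0 : 0 ≤ k := ENNReal.toReal_nonneg
  have hKk : K = ENNReal.ofReal k := (ENNReal.ofReal_toReal hK).symm
  have h := NC_seq (y := fun x => (NC_Y f u x).toReal) (ρ := ρ) (B := U * (Cs * k))
    (D := Cv * M * k) hρ (by positivity) ?_ ?_ hq
  · calc _ ≤ (NC_Y f u q).toReal + (4 * (U * (Cs * k)) / ρ + 4 * (Cv * M * k) * ρ) * |q| := h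
      _ ≤ _ := by
        have e : (4 * Cs + 4 * Cv) * (U / ρ + M * ρ) * |q| * k =
          (4 * (U * (Cs * k)) / ρ + 4 * (Cv * M * k) * ρ) * |q| +
          (4 * Cv * (U / ρ) + 4 * Cs * (M * ρ)) * |q| * k := by ring
        rw [e]
        have : 0 ≤ (4 * Cv * (U / ρ) + 4 * Cs * (M * ρ)) * |q| * k := by positivity
        linarith
  · intro x hx
    refine ⟨ENNReal.toReal_nonneg, ?_⟩
    refine ENNReal.toReal_le_of_le_ofReal (by positivity) ?_
    refine (hle x hx).trans (le_of_eq ?_)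
    rw [hKk, ENNReal.ofReal_mul hU0, ENNReal.ofReal_mul hCs.le]
  · intro x r hr hxr
    have hx : |x| ≤ ρ := by linarith
    have h1 : |x - r| ≤ ρ := by
      calc |x - r| ≤ |x| + |r| := abs_sub _ _
        _ = |x| + r := by rw [abs_of_nonneg hr]
        _ ≤ ρ := hxr
    have h2 : |x + r| ≤ ρ := by
      calc |x + r| ≤ |x| + |r| := abs_add_le _ _
        _ = |x| + r := by rw [abs_of_nonneg hr]
        _ ≤ ρ := hxr
    have := hv u f a b δ ρ M hab hρ hδ hu hu0 huz hM hsd hf hfb x r hr hxr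
    change NC_Y f u (x - r) + NC_Y f u (x + r) ≤ 2 * NC_Y f u x +
      ENNReal.ofReal (Cv * M * r ^ 2) * K at this
    have e1 : ENNReal.ofReal (Cv * M * r ^ 2) * K ≠ ⊤ :=
      ENNReal.mul_ne_top ENNReal.ofReal_ne_top hK
    have e2 : 2 * NC_Y f u x ≠ ⊤ := ENNReal.mul_ne_top (by norm_num) (hne x hx)
    have h3 := ENNReal.toReal_mono (ENNReal.add_ne_top.2 ⟨e2, e1⟩) this
    rw [ENNReal.toReal_add (hne _ h1) (hne _ h2), ENNReal.toReal_add e2 e1, ENNReal.toReal_mul,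
      ENNReal.toReal_mul, ENNReal.toReal_ofReal (by positivity)] at h3
    simp only [ENNReal.toReal_ofNat] at h3
    calc _ ≤ 2 * (NC_Y f u x).toReal + Cv * M * r ^ 2 * k := h3
      _ = 2 * (NC_Y f u x).toReal + Cv * M * k * r ^ 2 := by ring

theorem NC_rect_sub {a b a' b' h h' : ℝ} (h1 : a' ≤ a) (h2 : b ≤ b') (h3 : h ≤ h') :
    rect a b h ⊆ rect a' b' h' := by
  intro z hz
  exact ⟨⟨h1.trans hz.1.1, hz.1.2.trans h2⟩, hz.2.trans h3⟩

/-- constants -/
theorem NC_coef {M1 M2 M3 MW Cv Cl ρ δ p q : ℝ} (hM10 : 0 ≤ M1) (hM20 : 0 ≤ M2) (hM30 : 0 ≤ M3)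
    (hMW0 : 0 ≤ MW) (hCv : 0 < Cv) (hCl : 0 < Cl) (hρ : 0 < ρ) (hρδ : ρ ≤ δ) :
    2 * (M2 * p ^ 2) + Cv * (2 * M2) * q ^ 2 +
        Cl * (2 * (|p| * M1) / ρ + (|p| * M1 * (2 * MW) + 2 * M3 * |p|) * ρ) * |q| +
        Cl * (|p| * M1 / ρ + |p| * M1 * (2 * MW) * ρ) * |q| ≤
      (2 * M2 + 2 * Cv * M2 + Cl * (3 * M1 + (2 * M3 + 4 * (M1 * MW)) * δ ^ 2) + 1) *
        (q ^ 2 + p ^ 2 + |p| * |q| / ρ) := by
  have hρδ2 : ρ ≤ δ ^ 2 / ρ := by
    rw [le_div_iff₀ hρ]
    nlinarith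
  have hx : 0 ≤ |p| * |q| / ρ := by positivity
  have e1 : Cl * (2 * (|p| * M1) / ρ + (|p| * M1 * (2 * MW) + 2 * M3 * |p|) * ρ) * |q| +
    Cl * (|p| * M1 / ρ + |p| * M1 * (2 * MW) * ρ) * |q| = Cl * (3 * M1) * (|p| * |q| / ρ) +
      Cl * (2 * M3 + 4 * (M1 * MW)) * (|p| * |q|) * ρ := by
    field_simp; ring
  have e2 : Cl * (2 * M3 + 4 * (M1 * MW)) * (|p| * |q|) * ρ ≤
      Cl * (2 * M3 + 4 * (M1 * MW)) * (|p| * |q|) * (δ ^ 2 / ρ) := by
    gcongr
  have e3 : Cl * (2 * M3 + 4 * (M1 * MW)) * (|p| * |q|) * (δ ^ 2 / ρ) =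
      Cl * ((2 * M3 + 4 * (M1 * MW)) * δ ^ 2) * (|p| * |q| / ρ) := by
    field_simp
  have e4 : 0 ≤ (2 * Cv * M2 + Cl * (3 * M1 + (2 * M3 + 4 * (M1 * MW)) * δ ^ 2) + 1) * p ^ 2 := by
    positivity
  have e5 : 0 ≤ (2 * M2 + Cl * (3 * M1 + (2 * M3 + 4 * (M1 * MW)) * δ ^ 2) + 1) * q ^ 2 := by
    positivity
  have e6 : 0 ≤ (2 * M2 + 2 * Cv * M2 + 1) * (|p| * |q| / ρ) := by positivity
  have e7 : (2 * M2 + 2 * Cv * M2 + Cl * (3 * M1 + (2 * M3 + 4 * (M1 * MW)) * δ ^ 2) + 1) *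
        (q ^ 2 + p ^ 2 + |p| * |q| / ρ) =
    2 * M2 * p ^ 2 + 2 * Cv * M2 * q ^ 2 +
    Cl * (3 * M1 + (2 * M3 + 4 * (M1 * MW)) * δ ^ 2) * (|p| * |q| / ρ) +
    (2 * Cv * M2 + Cl * (3 * M1 + (2 * M3 + 4 * (M1 * MW)) * δ ^ 2) + 1) * p ^ 2 +
    (2 * M2 + Cl * (3 * M1 + (2 * M3 + 4 * (M1 * MW)) * δ ^ 2) + 1) * q ^ 2 +
    (2 * M2 + 2 * Cv * M2 + 1) * (|p| * |q| / ρ) := by
    ring
  rw [e7]
  have e8 : Cl * (3 * M1 + (2 * M3 + 4 * (M1 * MW)) * δ ^ 2) * (|p| * |q| / ρ) =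
    Cl * (3 * M1) * (|p| * |q| / ρ) +
    Cl * ((2 * M3 + 4 * (M1 * MW)) * δ ^ 2) * (|p| * |q| / ρ) := by ring
  rw [e8]
  linarith

theorem near_concave {a b δ : ℝ} (hab : a ≤ b) (hδ : 0 < δ) {w : ℝ → ℝ} (hw : ContDiff ℝ 3 w)
    (hw0 : ∀ t, 0 ≤ w t) (hws : ∀ t, t ∉ Icc a b → w t = 0) :
    ∃ C : ℝ, 0 < C ∧ ∀ (f : ℂ → ℂ) (ρ : ℝ) (v : ℂ), 0 < ρ → 16 * ρ ≤ δ → |v.im| ≤ ρ / 2 →
      |v.re| ≤ δ / 8 →
      AnalyticOnNhd ℂ f (rect (a - δ) (b + δ) (4 * ρ)) →
      (∀ σ ∈ rect (a - δ) (b + δ) (4 * ρ), ‖f σ‖ ≤ 1) →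
      (∫⁻ t : ℝ, ENNReal.ofReal (w t) * nl (f ((t : ℂ) + v)))
        + (∫⁻ t : ℝ, ENNReal.ofReal (w t) * nl (f ((t : ℂ) - v)))
        ≤ 2 * (∫⁻ t : ℝ, ENNReal.ofReal (w t) * nl (f (t : ℂ)))
          + ENNReal.ofReal (C * (v.im ^ 2 + v.re ^ 2 + |v.re| * |v.im| / ρ))
            * ∫⁻ t in Icc (a - δ / 2) (b + δ / 2), nl (f (t : ℂ)) := by
  obtain ⟨Cv, hCv, hv⟩ := vertical_conc
  obtain ⟨Cl, hCl, hl⟩ := NC_lip
  -- derivative bounds of w
  have hsupp : HasCompactSupport w := by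
    refine HasCompactSupport.intro (K := Icc a b) isCompact_Icc ?_
    intro t ht
    exact hws t ht
  have hd0 : Differentiable ℝ w := hw.differentiable (by norm_num)
  have hw1 : ContDiff ℝ 2 (deriv w) := by
    have := (contDiff_succ_iff_deriv (n := 2) (f := w)).1 (by norm_num; exact hw)
    exact this.2.2
  have hw2 : ContDiff ℝ 1 (deriv (deriv w)) := by
    have := (contDiff_succ_iff_deriv (n := 1) (f := deriv w)).1 (by norm_num; exact hw1)
    exact this.2.2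
  have hw3 : ContDiff ℝ 0 (deriv (deriv (deriv w))) := by
    have := (contDiff_succ_iff_deriv (n := 0) (f := deriv (deriv w))).1 (by simpa using hw2)
    exact this.2.2
  obtain ⟨M1, hM1⟩ := hw1.continuous.bounded_above_of_compact_support hsupp.deriv
  obtain ⟨M2, hM2⟩ := hw2.continuous.bounded_above_of_compact_support hsupp.deriv.deriv
  obtain ⟨M3, hM3⟩ := hw3.continuous.bounded_above_of_compact_support hsupp.deriv.deriv.deriv
  have hM10 : 0 ≤ M1 := (norm_nonneg _).trans (hM1 0)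
  have hM20 : 0 ≤ M2 := (norm_nonneg _).trans (hM2 0)
  have hM30 : 0 ≤ M3 := (norm_nonneg _).trans (hM3 0)
  -- the bump
  let B : ContDiffBump ((a + b) / 2 : ℝ) :=
    { rIn := (b - a) / 2 + δ / 8
      rOut := (b - a) / 2 + δ / 4
      rIn_pos := by linarith
      rIn_lt_rOut := by linarith }
  let W : ℝ → ℝ := fun t => B t
  have hWc : ContDiff ℝ 2 W := B.contDiff
  have hW0 : ∀ t, 0 ≤ W t := fun t => B.nonneg
  have hW1 : ∀ t, W t ≤ 1 := fun t => B.le_one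
  have hWone : ∀ t ∈ Icc (a - δ / 8) (b + δ / 8), W t = 1 := by
    intro t ht
    refine B.one_of_mem_closedBall ?_
    rw [Metric.mem_closedBall, Real.dist_eq, abs_le]
    show -((b - a) / 2 + δ / 8) ≤ _ ∧ _ ≤ (b - a) / 2 + δ / 8
    constructor <;> linarith [ht.1, ht.2]
  have hWz : ∀ t, t ∉ Icc (a - δ / 4) (b + δ / 4) → W t = 0 := by
    intro t ht
    refine B.zero_of_le_dist ?_
    show (b - a) / 2 + δ / 4 ≤ _
    rw [Real.dist_eq]
    by_contra hlt
    push Not at hlt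
    rw [abs_lt] at hlt
    apply ht
    constructor <;> linarith [hlt.1, hlt.2]
  have hWd1 : ContDiff ℝ 1 (deriv W) := by
    have := (contDiff_succ_iff_deriv (n := 1) (f := W)).1 (by norm_num; exact hWc)
    exact this.2.2
  have hWd2 : ContDiff ℝ 0 (deriv (deriv W)) := by
    have := (contDiff_succ_iff_deriv (n := 0) (f := deriv W)).1 (by simpa using hWd1)
    exact this.2.2
  have hWsupp : HasCompactSupport W := B.hasCompactSupport
  obtain ⟨MW, hMW⟩ := hWd2.continuous.bounded_above_of_compact_support hWsupp.deriv.deriv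
  have hMW0 : 0 ≤ MW := (norm_nonneg _).trans (hMW 0)
  set C : ℝ := 2 * M2 + 2 * Cv * M2 + Cl * (3 * M1 + (2 * M3 + 4 * (M1 * MW)) * δ ^ 2) + 1 with hC
  have hC0 : 0 < C := by positivity
  refine ⟨C, hC0, ?_⟩
  intro f ρ v hρ hρδ hvim hvre hf hfb
  set p : ℝ := v.re with hp
  set q : ℝ := v.im with hq
  set K : ℝ≥0∞ := ∫⁻ t in Icc (a - δ / 2) (b + δ / 2), nl (f (t : ℂ)) with hKdef
  have hvpq : v = (p : ℂ) + (q : ℂ) * Complex.I := (Complex.re_add_im v).symm
  -- trivial cases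
  rcases eq_or_ne v 0 with hv0 | hv0
  · rw [hv0]
    simp only [add_zero, sub_zero]
    rw [two_mul]
    exact le_self_add
  by_cases hKtop : K = ⊤
  · have hpos : 0 < C * (q ^ 2 + p ^ 2 + |p| * |q| / ρ) := by
      have h1 : 0 < q ^ 2 + p ^ 2 := by
        rcases eq_or_ne p 0 with h | h
        · rcases eq_or_ne q 0 with h' | h'
          · exfalso
            apply hv0
            rw [hvpq, h, h']; simp
          · have := sq_pos_of_ne_zero h'
            positivity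
        · have := sq_pos_of_ne_zero h
          positivity
      have h2 : 0 ≤ |p| * |q| / ρ := by positivity
      exact mul_pos hC0 (by linarith)
    rw [hKtop, ENNReal.mul_top (by simpa using hpos)]
    simp
  -- main case
  have hρd : 8 * ρ ≤ δ / 2 := by linarith
  have hab' : a - δ / 4 ≤ b + δ / 4 := by linarith
  set α : ℝ := a - δ / 4 with hα
  set β : ℝ := b + δ / 4 with hβ
  set d : ℝ := δ / 2 with hd
  have hsub : rect (α - d) (β + d) (4 * ρ) ⊆ rect (a - δ) (b + δ) (4 * ρ) :=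
    NC_rect_sub (by rw [hα, hd]; linarith) (by rw [hβ, hd]; linarith) le_rfl
  have hf' : AnalyticOnNhd ℂ f (rect (α - d) (β + d) (4 * ρ)) := hf.mono hsub
  have hfb' : ∀ σ ∈ rect (α - d) (β + d) (4 * ρ), ‖f σ‖ ≤ 1 := fun σ hσ => hfb σ (hsub hσ)
  have hKeq : (∫⁻ t in Icc (α - d / 2) (β + d / 2), nl (f (t : ℂ))) = K := by
    rw [hKdef]
    congr 3
    · rw [hα, hd]; ring
    · rw [hβ, hd]; ring
  have hfc : ContinuousOn f (rect α β (4 * ρ)) := by
    refine hf'.continuousOn.mono (NC_rect_sub ?_ ?_ le_rfl)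
    · linarith
    · linarith
  -- the functions
  let wp : ℝ → ℝ := fun t => w (t - p)
  let wm : ℝ → ℝ := fun t => w (t + p)
  let ws : ℝ → ℝ := fun t => (w (t - p) + w (t + p)) / 2
  let V : ℝ → ℝ := fun t => |p| * M1 * W t
  let up : ℝ → ℝ := fun t => |p| * M1 * W t + (w (t - p) - w (t + p)) / 2
  let um : ℝ → ℝ := fun t => |p| * M1 * W t - (w (t - p) - w (t + p)) / 2
  have hwc : Continuous w := hw.continuous
  have hWcont : Continuous W := hWc.continuous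
  have p8 := abs_le.1 hvre
  -- lipschitz of w
  have hlipw : ∀ x y : ℝ, |w y - w x| ≤ M1 * |y - x| := by
    intro x y
    have := Convex.norm_image_sub_le_of_norm_deriv_le (f := w) (C := M1) (s := univ)
      (x := x) (y := y) (fun z _ => hd0 z) (fun z _ => hM1 z)
      convex_univ (mem_univ _) (mem_univ _)
    simpa [Real.norm_eq_abs] using this
  have hwa : ∀ t, |(w (t - p) - w (t + p)) / 2| ≤ |p| * M1 := by
    intro t
    have := hlipw (t + p) (t - p)
    have e : t - p - (t + p) = -(2 * p) := by ring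
    rw [e, abs_neg, abs_mul, abs_two] at this
    rw [abs_div, abs_two]
    linarith
  have hwz1 : ∀ t, t ∉ Icc (a - δ / 8) (b + δ / 8) → w (t - p) = 0 := by
    intro t ht
    refine hws _ fun h => ht ?_
    constructor <;> linarith [h.1, h.2]
  have hwz2 : ∀ t, t ∉ Icc (a - δ / 8) (b + δ / 8) → w (t + p) = 0 := by
    intro t ht
    refine hws _ fun h => ht ?_
    constructor <;> linarith [h.1, h.2]
  have hIcc : Icc (a - δ / 8) (b + δ / 8) ⊆ Icc α β := by
    refine Icc_subset_Icc ?_ ?_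
    · rw [hα]; linarith
    · rw [hβ]; linarith
  have z_wp : ∀ t, t ∉ Icc α β → wp t = 0 := fun t ht => hwz1 t (fun h => ht (hIcc h))
  have z_wm : ∀ t, t ∉ Icc α β → wm t = 0 := fun t ht => hwz2 t (fun h => ht (hIcc h))
  have z_ws : ∀ t, t ∉ Icc α β → ws t = 0 := by
    intro t ht
    have h1 := z_wp t ht
    have h2 := z_wm t ht
    simp only [wp, wm] at h1 h2
    simp only [ws, h1, h2]; simp
  have z_V : ∀ t, t ∉ Icc α β → V t = 0 := by
    intro t ht
    simp only [V]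
    rw [hWz t ht, mul_zero]
  have z_up : ∀ t, t ∉ Icc α β → up t = 0 := by
    intro t ht
    have h1 := z_wp t ht
    have h2 := z_wm t ht
    simp only [wp, wm] at h1 h2
    simp only [up, h1, h2]
    rw [hWz t ht]; simp
  have z_um : ∀ t, t ∉ Icc α β → um t = 0 := by
    intro t ht
    have h1 := z_wp t ht
    have h2 := z_wm t ht
    simp only [wp, wm] at h1 h2
    simp only [um, h1, h2]
    rw [hWz t ht]; simp
  have n_wp : ∀ t, 0 ≤ wp t := fun t => hw0 _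
  have n_wm : ∀ t, 0 ≤ wm t := fun t => hw0 _
  have n_ws : ∀ t, 0 ≤ ws t := fun t => by
    have h1 := hw0 (t - p)
    have h2 := hw0 (t + p)
    simp only [ws]; linarith
  have n_V : ∀ t, 0 ≤ V t := fun t => by
    have := hW0 t
    simp only [V]; positivity
  have in_out : ∀ t, (t ∈ Icc (a - δ / 8) (b + δ / 8) ∧ W t = 1) ∨
      (w (t - p) = 0 ∧ w (t + p) = 0) := by
    intro t
    by_cases h : t ∈ Icc (a - δ / 8) (b + δ / 8)
    · exact Or.inl ⟨h, hWone t h⟩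
    · exact Or.inr ⟨hwz1 t h, hwz2 t h⟩
  have n_up : ∀ t, 0 ≤ up t := fun t => by
    rcases in_out t with ⟨_, h⟩ | ⟨h1, h2⟩
    · simp only [up, h, mul_one]
      have := abs_le.1 (hwa t)
      linarith
    · have := n_V t
      simp only [V] at this
      simp only [up, h1, h2]; linarith
  have n_um : ∀ t, 0 ≤ um t := fun t => by
    rcases in_out t with ⟨_, h⟩ | ⟨h1, h2⟩
    · simp only [um, h, mul_one]
      have := abs_le.1 (hwa t)
      linarith
    · have := n_V t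
      simp only [V] at this
      simp only [um, h1, h2]; linarith
  have c_wp : Continuous wp := hwc.comp (continuous_id.sub continuous_const)
  have c_wm : Continuous wm := hwc.comp (continuous_id.add continuous_const)
  have c_ws : Continuous ws := (c_wp.add c_wm).div_const 2
  have c_V : Continuous V := continuous_const.mul hWcont
  have c_up : Continuous up := c_V.add ((c_wp.sub c_wm).div_const 2)
  have c_um : Continuous um := c_V.sub ((c_wp.sub c_wm).div_const 2)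
  -- second differences
  have sd_w : ∀ t r, |w (t + r) + w (t - r) - 2 * w t| ≤ 2 * M2 * r ^ 2 :=
    fun t r => NC_sd hd0 (hw1.differentiable (by norm_num)) (fun x => hM2 x) t r
  have sd_W : ∀ t r, |W (t + r) + W (t - r) - 2 * W t| ≤ 2 * MW * r ^ 2 :=
    fun t r => NC_sd (hWc.differentiable (by norm_num)) (hWd1.differentiable (by norm_num))
      (fun x => hMW x) t r
  have sd_ws : ∀ t r, -((2 * M2) * r ^ 2) ≤ ws (t + r) + ws (t - r) - 2 * ws t := by
    intro t r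
    have h1 := (abs_le.1 (sd_w (t - p) r)).1
    have h2 := (abs_le.1 (sd_w (t + p) r)).1
    have e1 : t - p + r = t + r - p := by ring
    have e2 : t - p - r = t - r - p := by ring
    have e3 : t + p + r = t + r + p := by ring
    have e4 : t + p - r = t - r + p := by ring
    rw [e1, e2] at h1
    rw [e3, e4] at h2
    simp only [ws]
    linarith
  have sd_wa : ∀ t r, |(w (t + r - p) - w (t + r + p)) / 2 + (w (t - r - p) - w (t - r + p)) / 2
      - 2 * ((w (t - p) - w (t + p)) / 2)| ≤ 2 * M3 * |p| * r ^ 2 := by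
    intro t r
    have hder : ∀ s, HasDerivAt (fun s => w (s + r) + w (s - r) - 2 * w s)
        (deriv w (s + r) + deriv w (s - r) - 2 * deriv w s) s := by
      intro s
      have a1 : HasDerivAt (fun s => w (s + r)) (deriv w (s + r) * 1) s :=
        (hd0 (s + r)).hasDerivAt.comp s ((hasDerivAt_id s).add_const r)
      have a2 : HasDerivAt (fun s => w (s - r)) (deriv w (s - r) * 1) s :=
        (hd0 (s - r)).hasDerivAt.comp s ((hasDerivAt_id s).sub_const r)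
      have a3 : HasDerivAt (fun s => 2 * w s) (2 * deriv w s) s :=
        (hd0 s).hasDerivAt.const_mul 2
      have := (a1.add a2).sub a3
      rw [mul_one, mul_one] at this
      exact this
    have key := Convex.norm_image_sub_le_of_norm_deriv_le
      (f := fun s => w (s + r) + w (s - r) - 2 * w s)
      (C := 2 * M3 * r ^ 2) (s := univ) (x := t + p) (y := t - p)
      (fun z _ => (hder z).differentiableAt) (fun z _ => by
        rw [(hder z).deriv, Real.norm_eq_abs]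
        exact NC_sd (hw1.differentiable (by norm_num)) (hw2.differentiable (by norm_num))
          (fun x => hM3 x) z r) convex_univ (mem_univ _) (mem_univ _)
    simp only [Real.norm_eq_abs] at key
    have e : t - p - (t + p) = -(2 * p) := by ring
    rw [e, abs_neg, abs_mul, abs_two] at key
    have e2 : (w (t + r - p) - w (t + r + p)) / 2 + (w (t - r - p) - w (t - r + p)) / 2
      - 2 * ((w (t - p) - w (t + p)) / 2) =
      (w (t - p + r) + w (t - p - r) - 2 * w (t - p) -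
        (w (t + p + r) + w (t + p - r) - 2 * w (t + p))) / 2 := by
      rw [show t - p + r = t + r - p by ring, show t - p - r = t - r - p by ring,
        show t + p + r = t + r + p by ring, show t + p - r = t - r + p by ring]
      ring
    rw [e2, abs_div, abs_two]
    linarith
  set MV : ℝ := |p| * M1 * (2 * MW) with hMV
  have hMV0 : 0 ≤ MV := by positivity
  have sd_V : ∀ t r, |V (t + r) + V (t - r) - 2 * V t| ≤ MV * r ^ 2 := by
    intro t r
    have h1 := sd_W t r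
    have e : V (t + r) + V (t - r) - 2 * V t =
      (|p| * M1) * (W (t + r) + W (t - r) - 2 * W t) := by
      simp only [V]; ring
    rw [e, abs_mul, abs_of_nonneg (by positivity : 0 ≤ |p| * M1)]
    calc _ ≤ (|p| * M1) * (2 * MW * r ^ 2) := by gcongr
      _ = MV * r ^ 2 := by rw [hMV]; ring
  have sd_um : ∀ t r, -((MV + 2 * M3 * |p|) * r ^ 2) ≤ um (t + r) + um (t - r) - 2 * um t := by
    intro t r
    have h1 := (abs_le.1 (sd_V t r)).1
    have h2 := (abs_le.1 (sd_wa t r)).2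
    simp only [V] at h1
    simp only [um]
    linarith
  -- bounds
  have b_V : ∀ t, V t ≤ |p| * M1 := by
    intro t
    have := hW1 t
    simp only [V]
    calc _ ≤ |p| * M1 * 1 := by gcongr
      _ = _ := mul_one _
  have b_um : ∀ t, um t ≤ 2 * (|p| * M1) := by
    intro t
    have h1 := b_V t
    have h2 := (abs_le.1 (hwa t)).1
    simp only [V] at h1
    simp only [um]
    linarith
  -- values
  have hq2 : |q| ≤ ρ / 2 := hvim
  have hqρ : |q| ≤ ρ := by linarith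
  have hq4 : |q| ≤ 4 * ρ := by linarith
  have hqn4 : |-q| ≤ 4 * ρ := by rw [abs_neg]; exact hq4
  have h04 : |(0 : ℝ)| ≤ 4 * ρ := by rw [abs_zero]; positivity
  have Kne : (∫⁻ t in Icc (α - d / 2) (β + d / 2), nl (f (t : ℂ))) ≠ ⊤ := by
    rw [hKeq]; exact hKtop
  have L1 := hl um f α β d ρ (MV + 2 * M3 * |p|) (2 * (|p| * M1)) hab' hρ hρd c_um n_um b_um z_um
    (by positivity) sd_um hf' hfb' Kne
  have L2 := hl V f α β d ρ MV (|p| * M1) hab' hρ hρd c_V n_V b_V z_V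
    hMV0 (fun t r => (abs_le.1 (sd_V t r)).1) hf' hfb' Kne
  rw [hKeq] at L1 L2
  obtain ⟨L1a, L1b⟩ := L1
  obtain ⟨L2a, L2b⟩ := L2
  have L1c := L1b q hq2
  have L2c := L2b (-q) (by rw [abs_neg]; exact hq2)
  rw [neg_neg, abs_neg] at L2c
  -- VC for ws
  have VC := hv ws f α β d ρ (2 * M2) hab' hρ hρd c_ws n_ws z_ws (by positivity) sd_ws hf' hfb'
    0 |q| (abs_nonneg _) (by simpa using hqρ)
  rw [hKeq] at VC
  change NC_Y f ws (0 - |q|) + NC_Y f ws (0 + |q|) ≤ 2 * NC_Y f ws 0 +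
    ENNReal.ofReal (Cv * (2 * M2) * |q| ^ 2) * K at VC
  have VC' : NC_Y f ws q + NC_Y f ws (-q) ≤ 2 * NC_Y f ws 0 +
      ENNReal.ofReal (Cv * (2 * M2) * q ^ 2) * K := by
    rw [sq_abs] at VC
    rcases le_or_gt 0 q with h | h
    · rw [abs_of_nonneg h, zero_sub, zero_add, add_comm] at VC
      exact VC
    · rw [abs_of_neg h, zero_sub, zero_add, neg_neg] at VC
      exact VC
  -- identities
  have I1 : NC_Y f wp q + NC_Y f V q = NC_Y f ws q + NC_Y f up q := by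
    rw [← NC_Y_add hq4 hfc c_wp n_wp n_V z_wp z_V, ← NC_Y_add hq4 hfc c_ws n_ws n_up z_ws z_up]
    congr 1
    ext t
    simp only [wp, V, ws, up]; ring
  have I2 : NC_Y f wm (-q) + NC_Y f V (-q) = NC_Y f ws (-q) + NC_Y f um (-q) := by
    rw [← NC_Y_add hqn4 hfc c_wm n_wm n_V z_wm z_V,
      ← NC_Y_add hqn4 hfc c_ws n_ws n_um z_ws z_um]
    congr 1
    ext t
    simp only [wm, V, ws, um]; ring
  have I3 : NC_Y f up q + NC_Y f um q = NC_Y f V q + NC_Y f V q := by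
    rw [← NC_Y_add hq4 hfc c_up n_up n_um z_up z_um, ← NC_Y_add hq4 hfc c_V n_V n_V z_V z_V]
    congr 1
    ext t
    simp only [V, up, um]; ring
  have I4 : NC_Y f ws 0 ≤ NC_Y f w 0 + ENNReal.ofReal (M2 * p ^ 2) * K := by
    have h1 : ∀ t, ws t ≤ w t + M2 * p ^ 2 * W t := by
      intro t
      rcases in_out t with ⟨_, h⟩ | ⟨h1, h2⟩
      · have := (abs_le.1 (sd_w t p)).2
        simp only [ws, h, mul_one]; linarith
      · have e1 := hw0 t
        have e2 := hW0 t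
        simp only [ws, h1, h2]
        have : 0 ≤ M2 * p ^ 2 * W t := by positivity
        linarith
    have z_w : ∀ t, t ∉ Icc α β → w t = 0 := by
      intro t ht
      refine hws t fun h => ht ⟨?_, ?_⟩
      · rw [hα]; linarith [h.1]
      · rw [hβ]; linarith [h.2]
    have z_W : ∀ t, t ∉ Icc α β → M2 * p ^ 2 * W t = 0 := by
      intro t ht
      rw [hWz t ht, mul_zero]
    calc NC_Y f ws 0 ≤ NC_Y f (fun t => w t + M2 * p ^ 2 * W t) 0 := NC_Y_mono h1
      _ = NC_Y f w 0 + NC_Y f (fun t => M2 * p ^ 2 * W t) 0 :=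
          NC_Y_add h04 hfc hwc hw0 (fun t => by have := hW0 t; positivity) z_w z_W
      _ ≤ NC_Y f w 0 + ENNReal.ofReal (M2 * p ^ 2) * K := by
          gcongr
          refine (NC_Y_le (U := M2 * p ^ 2) z_W (fun t => ?_)).trans ?_
          · calc _ ≤ M2 * p ^ 2 * 1 := by gcongr; exact hW1 t
              _ = _ := mul_one _
          · gcongr
            rw [hKdef]
            simp only [Complex.ofReal_zero, zero_mul, add_zero]
            refine lintegral_mono_set (Icc_subset_Icc ?_ ?_)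
            · rw [hα]; linarith
            · rw [hβ]; linarith
  -- the two integrals on the left
  have T1 : (∫⁻ t : ℝ, ENNReal.ofReal (w t) * nl (f ((t : ℂ) + v))) = NC_Y f wp q := by
    unfold NC_Y
    rw [← lintegral_sub_right_eq_self (fun t : ℝ => ENNReal.ofReal (w t) * nl (f ((t : ℂ) + v))) p]
    congr 1
    ext t
    simp only [wp]
    congr 3
    rw [hvpq]
    push_cast
    ring
  have T2 : (∫⁻ t : ℝ, ENNReal.ofReal (w t) * nl (f ((t : ℂ) - v))) = NC_Y f wm (-q) := by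
    unfold NC_Y
    rw [← lintegral_add_right_eq_self (fun t : ℝ => ENNReal.ofReal (w t) * nl (f ((t : ℂ) - v))) p]
    congr 1
    ext t
    simp only [wm]
    congr 3
    rw [hvpq]
    push_cast
    ring
  have T3 : (∫⁻ t : ℝ, ENNReal.ofReal (w t) * nl (f (t : ℂ))) = NC_Y f w 0 := by
    unfold NC_Y
    simp
  rw [T1, T2, T3]
  -- finiteness
  have fVq := L2a q hqρ
  have fVnq := L2a (-q) (by rw [abs_neg]; exact hqρ)
  have fumq := L1a q hqρ
  have fumnq := L1a (-q) (by rw [abs_neg]; exact hqρ)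
  by_cases hw0top : NC_Y f w 0 = ⊤
  · rw [hw0top]; simp
  have fAK : ENNReal.ofReal (M2 * p ^ 2) * K ≠ ⊤ := ENNReal.mul_ne_top ENNReal.ofReal_ne_top hKtop
  have fBK : ENNReal.ofReal (Cv * (2 * M2) * q ^ 2) * K ≠ ⊤ :=
    ENNReal.mul_ne_top ENNReal.ofReal_ne_top hKtop
  have fs0 : NC_Y f ws 0 ≠ ⊤ := ne_top_of_le_ne_top (ENNReal.add_ne_top.2 ⟨hw0top, fAK⟩) I4
  have f2s0 : 2 * NC_Y f ws 0 ≠ ⊤ := ENNReal.mul_ne_top (by norm_num) fs0
  have fs12 : NC_Y f ws q + NC_Y f ws (-q) ≠ ⊤ :=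
    ne_top_of_le_ne_top (ENNReal.add_ne_top.2 ⟨f2s0, fBK⟩) VC'
  obtain ⟨fs1, fs2⟩ := ENNReal.add_ne_top.1 fs12
  have fu1 : NC_Y f up q ≠ ⊤ := by
    have : NC_Y f up q + NC_Y f um q ≠ ⊤ := by rw [I3]; exact ENNReal.add_ne_top.2 ⟨fVq, fVq⟩
    exact (ENNReal.add_ne_top.1 this).1
  have fx1 : NC_Y f wp q ≠ ⊤ := by
    have : NC_Y f wp q + NC_Y f V q ≠ ⊤ := by rw [I1]; exact ENNReal.add_ne_top.2 ⟨fs1, fu1⟩
    exact (ENNReal.add_ne_top.1 this).1
  have fx2 : NC_Y f wm (-q) ≠ ⊤ := by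
    have : NC_Y f wm (-q) + NC_Y f V (-q) ≠ ⊤ := by
      rw [I2]; exact ENNReal.add_ne_top.2 ⟨fs2, fumnq⟩
    exact (ENNReal.add_ne_top.1 this).1
  have R1 := congrArg ENNReal.toReal I1
  rw [ENNReal.toReal_add fx1 fVq, ENNReal.toReal_add fs1 fu1] at R1
  have R2 := congrArg ENNReal.toReal I2
  rw [ENNReal.toReal_add fx2 fVnq, ENNReal.toReal_add fs2 fumnq] at R2
  have R3 := congrArg ENNReal.toReal I3
  rw [ENNReal.toReal_add fu1 fumq, ENNReal.toReal_add fVq fVq] at R3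
  have R4 := ENNReal.toReal_mono (ENNReal.add_ne_top.2 ⟨hw0top, fAK⟩) I4
  rw [ENNReal.toReal_add hw0top fAK, ENNReal.toReal_mul,
    ENNReal.toReal_ofReal (by positivity)] at R4
  have R5 := ENNReal.toReal_mono (ENNReal.add_ne_top.2 ⟨f2s0, fBK⟩) VC'
  rw [ENNReal.toReal_add fs1 fs2, ENNReal.toReal_add f2s0 fBK, ENNReal.toReal_mul,
    ENNReal.toReal_mul, ENNReal.toReal_ofReal (by positivity)] at R5
  simp only [ENNReal.toReal_ofNat] at R5
  set k : ℝ := K.toReal with hk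
  have hk0 : 0 ≤ k := ENNReal.toReal_nonneg
  have hKk : K = ENNReal.ofReal k := (ENNReal.ofReal_toReal hKtop).symm
  have hfinal : (NC_Y f wp q).toReal + (NC_Y f wm (-q)).toReal ≤ 2 * (NC_Y f w 0).toReal +
      (C * (q ^ 2 + p ^ 2 + |p| * |q| / ρ)) * k := by
    have hsum : (NC_Y f wp q).toReal + (NC_Y f wm (-q)).toReal ≤ 2 * (NC_Y f w 0).toReal +
      (2 * (M2 * p ^ 2) + Cv * (2 * M2) * q ^ 2 +
        Cl * (2 * (|p| * M1) / ρ + (MV + 2 * M3 * |p|) * ρ) * |q| +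
        Cl * (|p| * M1 / ρ + MV * ρ) * |q|) * k := by
      have e : (2 * (M2 * p ^ 2) + Cv * (2 * M2) * q ^ 2 +
        Cl * (2 * (|p| * M1) / ρ + (MV + 2 * M3 * |p|) * ρ) * |q| +
        Cl * (|p| * M1 / ρ + MV * ρ) * |q|) * k = 2 * (M2 * p ^ 2 * k) +
        Cv * (2 * M2) * q ^ 2 * k +
        Cl * (2 * (|p| * M1) / ρ + (MV + 2 * M3 * |p|) * ρ) * |q| * k +
        Cl * (|p| * M1 / ρ + MV * ρ) * |q| * k := by ring
      rw [e]
      linarith
    refine hsum.trans ?_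
    have hcoef : 2 * (M2 * p ^ 2) + Cv * (2 * M2) * q ^ 2 +
        Cl * (2 * (|p| * M1) / ρ + (MV + 2 * M3 * |p|) * ρ) * |q| +
        Cl * (|p| * M1 / ρ + MV * ρ) * |q| ≤ C * (q ^ 2 + p ^ 2 + |p| * |q| / ρ) := by
      rw [hMV, hC]
      exact NC_coef hM10 hM20 hM30 hMW0 hCv hCl hρ (by linarith)
    have := mul_le_mul_of_nonneg_right hcoef hk0
    linarith
  have x1 := ENNReal.ofReal_toReal fx1
  have x2 := ENNReal.ofReal_toReal fx2
  have x3 := ENNReal.ofReal_toReal hw0top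
  calc NC_Y f wp q + NC_Y f wm (-q)
      = ENNReal.ofReal ((NC_Y f wp q).toReal + (NC_Y f wm (-q)).toReal) := by
        rw [ENNReal.ofReal_add ENNReal.toReal_nonneg ENNReal.toReal_nonneg, x1, x2]
    _ ≤ ENNReal.ofReal (2 * (NC_Y f w 0).toReal +
          (C * (q ^ 2 + p ^ 2 + |p| * |q| / ρ)) * k) := ENNReal.ofReal_le_ofReal hfinal
    _ = 2 * NC_Y f w 0 + ENNReal.ofReal (C * (q ^ 2 + p ^ 2 + |p| * |q| / ρ)) * K := by
        rw [ENNReal.ofReal_add (by positivity) (by positivity),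
          ENNReal.ofReal_mul (by norm_num : (0 : ℝ) ≤ 2), x3,
          ENNReal.ofReal_mul (by positivity), ← hKk]
        simp

end Muntz
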