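import Pool.Agent.Lib.MP_dde81e_an.P2G
import Pool.Agent.Lib.MP_dde81e_an.GSH
import Pool.Agent.Lib.MP_dde81e_an.SHM
import Pool.Agent.Lib.MP_dde81e_an.FIN

/-! MP_dde81e_an, module REC : recursion over the scales (from P2G, GSH, SH) -/

namespace Muntz
open MeasureTheory Set Metric
open scoped ENNReal

theorem REC_af {u v x : ℂ → ℝ≥0∞} {r : ℝ}
    (h : ∀ ζ : ℂ, ‖ζ‖ = r → 0 < ζ.re → u ζ + v ζ ≤ 2 * x ζ) :
    af u r / 2 + af v r / 2 ≤ af x r := by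
  refine le_iInf₂ fun ζ hζ => ?_
  have h1 : af u r ≤ u ζ / ENNReal.ofReal ζ.re := iInf₂_le ζ hζ
  have h2 : af v r ≤ v ζ / ENNReal.ofReal ζ.re := iInf₂_le ζ hζ
  calc af u r / 2 + af v r / 2
      ≤ (u ζ / ENNReal.ofReal ζ.re) / 2 + (v ζ / ENNReal.ofReal ζ.re) / 2 := by gcongr
    _ = (u ζ + v ζ) / ENNReal.ofReal ζ.re / 2 := by
        rw [← ENNReal.add_div, ← ENNReal.add_div]
    _ ≤ (2 * x ζ) / ENNReal.ofReal ζ.re / 2 := by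
        gcongr
        exact h ζ hζ.1 hζ.2
    _ = x ζ / ENNReal.ofReal ζ.re := by
        rw [mul_div_assoc, mul_comm, ENNReal.mul_div_cancel_right (by norm_num) (by norm_num)]

theorem REC_step {F : ℂ × ℂ → ℂ} {A B : ℝ} {w : ℝ → ℝ} (hF : GoodF F) (hA : 0 < A)
    (hAB : A ≤ B) (hw : Wt A B w) : ∃ C x₀ : ℝ, 0 < C ∧ 0 < x₀ ∧ ∀ (ρ b : ℝ), 0 < ρ →
      |b| ≤ x₀ * ρ →
      af (G F w 0) (2 * ρ) / 2
        + af (fun ζ => G F w (2 * b) ζ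
            + ENNReal.ofReal (C * (2 * b / (2 * ρ)) ^ 2) * G2 F A B ζ) (2 * ρ) / 2
        ≤ af (fun ζ => G F w b ζ + ENNReal.ofReal (C * (b / ρ) ^ 2) * G2 F A B ζ) ρ := by
  obtain ⟨C1, x₀, hC1, hx₀, hP⟩ := P2G hF hA hAB hw
  refine ⟨C1 / 4, x₀, by positivity, hx₀, fun ρ b hρ hb => ?_⟩
  have hSH := SH_add_smul (G_SH hF hA hAB hw b).1 (G2_SH hF hA hAB).1 (G_SH hF hA hAB hw b).2
    (C1 / 4 * (b / ρ) ^ 2)
  refine le_trans (REC_af ?_) (af_anti hSH hρ (show ρ ≤ 2 * ρ by linarith))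
  intro ζ hζ hre
  have h1 := hP ζ b b hre (by rw [hζ]; nlinarith) (by rw [hζ]; nlinarith)
  rw [hζ] at h1
  have e1 : C1 * (b / (2 * ρ)) ^ 2 = C1 / 4 * (b / ρ) ^ 2 := by
    field_simp
    norm_num
  have e2 : 2 * b / (2 * ρ) = b / ρ := mul_div_mul_left b ρ two_ne_zero
  rw [e1, sub_self, ← two_mul] at h1
  show G F w 0 ζ + (G F w (2 * b) ζ
      + ENNReal.ofReal (C1 / 4 * (2 * b / (2 * ρ)) ^ 2) * G2 F A B ζ)
    ≤ 2 * (G F w b ζ + ENNReal.ofReal (C1 / 4 * (b / ρ) ^ 2) * G2 F A B ζ)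
  rw [e2, ← add_assoc, mul_add, two_mul (ENNReal.ofReal (C1 / 4 * (b / ρ) ^ 2) * G2 F A B ζ),
    ← add_assoc]
  gcongr

theorem REC_ind {F : ℂ × ℂ → ℂ} {A B : ℝ} {w : ℝ → ℝ} {C x₀ : ℝ}
    (h : ∀ (ρ b : ℝ), 0 < ρ → |b| ≤ x₀ * ρ →
      af (G F w 0) (2 * ρ) / 2
        + af (fun ζ => G F w (2 * b) ζ
            + ENNReal.ofReal (C * (2 * b / (2 * ρ)) ^ 2) * G2 F A B ζ) (2 * ρ) / 2
        ≤ af (fun ζ => G F w b ζ + ENNReal.ofReal (C * (b / ρ) ^ 2) * G2 F A B ζ) ρ)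
    (K : ℕ) : ∀ (ρ b : ℝ), 0 < ρ → |b| ≤ x₀ * ρ →
      af (G F w 0) ρ ≤ af (fun ζ => G F w b ζ + ENNReal.ofReal (C * (b / ρ) ^ 2) * G2 F A B ζ) ρ
        + ∑ k ∈ Finset.range K, (ENNReal.ofReal ((1 / 2) ^ k)) *
            (af (G F w 0) (2 ^ k * ρ) - af (G F w 0) (2 ^ (k + 1) * ρ))
        + ENNReal.ofReal ((1 / 2) ^ K) * af (G F w 0) (2 ^ K * ρ) := by
  induction K with
  | zero =>
    intro ρ b hρ hb
    simp
  | succ K ih =>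
    intro ρ b hρ hb
    have h0 := h ρ b hρ hb
    have h1 := ih (2 * ρ) (2 * b) (by linarith) (by
      rw [abs_mul, abs_two]
      nlinarith)
    have e1 : ∀ k : ℕ, (2 : ℝ) ^ k * (2 * ρ) = 2 ^ (k + 1) * ρ := fun k => by ring
    simp only [e1] at h1
    rw [Finset.sum_range_succ']
    have e2 : ∀ (k : ℕ) (y : ℝ≥0∞), ENNReal.ofReal ((1 / 2) ^ (k + 1)) * y
        = (ENNReal.ofReal ((1 / 2) ^ k) * y) / 2 := by
      intro k y
      rw [pow_succ, ENNReal.ofReal_mul (by positivity), ENNReal.div_eq_inv_mul]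
      have : ENNReal.ofReal (1 / 2) = 2⁻¹ := by
        rw [one_div, ENNReal.ofReal_inv_of_pos (by norm_num)]
        norm_num
      rw [this]
      ring
    simp only [e2]
    have e3 : ∀ f : ℕ → ℝ≥0∞, ∑ k ∈ Finset.range K, f k / 2 = (∑ k ∈ Finset.range K, f k) / 2 := by
      intro f
      simp only [ENNReal.div_eq_inv_mul]
      rw [Finset.mul_sum]
    rw [e3]
    simp only [zero_add, pow_zero, one_mul, pow_one, ENNReal.ofReal_one]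
    set a0 := af (G F w 0) ρ
    set a1 := af (G F w 0) (2 * ρ)
    set p0 := af (fun ζ => G F w b ζ + ENNReal.ofReal (C * (b / ρ) ^ 2) * G2 F A B ζ) ρ
    set p1 := af (fun ζ => G F w (2 * b) ζ
            + ENNReal.ofReal (C * (2 * b / (2 * ρ)) ^ 2) * G2 F A B ζ) (2 * ρ)
    set S := ∑ k ∈ Finset.range K, ENNReal.ofReal ((1 / 2) ^ k) *
            (af (G F w 0) (2 ^ (k + 1) * ρ) - af (G F w 0) (2 ^ (k + 1 + 1) * ρ))
    set T := ENNReal.ofReal ((1 / 2) ^ K) * af (G F w 0) (2 ^ (K + 1) * ρ)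
    calc a0 ≤ (a0 - a1) + a1 := le_tsub_add
      _ = (a0 - a1) + (a1 / 2 + a1 / 2) := by rw [ENNReal.add_halves]
      _ ≤ (a0 - a1) + (a1 / 2 + (p1 + S + T) / 2) := by gcongr
      _ = (a0 - a1) + ((a1 / 2 + p1 / 2) + S / 2 + T / 2) := by
          rw [ENNReal.add_div, ENNReal.add_div]
          ring
      _ ≤ (a0 - a1) + (p0 + S / 2 + T / 2) := by gcongr
      _ = p0 + (S / 2 + (a0 - a1)) + T / 2 := by ring

theorem recursion {F : ℂ × ℂ → ℂ} {A B : ℝ} {w : ℝ → ℝ} (hF : GoodF F) (hA : 0 < A) (hAB : A ≤ B)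
    (hw : Wt A B w) : ∃ C x₀ ρ₀ : ℝ, 0 < C ∧ 0 < x₀ ∧ 0 < ρ₀ ∧ ∀ (ρ b : ℝ), ρ₀ ≤ ρ →
      |b| ≤ x₀ * ρ →
      af (G F w 0) ρ ≤ af (fun ζ => G F w b ζ + ENNReal.ofReal (C * (b / ρ) ^ 2) * G2 F A B ζ) ρ
        + ∑' k : ℕ, (ENNReal.ofReal ((1 / 2) ^ k)) *
            (af (G F w 0) (2 ^ k * ρ) - af (G F w 0) (2 ^ (k + 1) * ρ)) := by
  obtain ⟨C, x₀, hC, hx₀, hstep⟩ := REC_step hF hA hAB hw
  obtain ⟨ρ₀, hρ₀, hfin⟩ := fin hF hA hAB hw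
  refine ⟨C, x₀, ρ₀, hC, hx₀, hρ₀, fun ρ b hρ hb => ?_⟩
  have hρpos : 0 < ρ := lt_of_lt_of_le hρ₀ hρ
  have htop : af (G F w 0) ρ ≠ ⊤ := (hfin ρ hρ).2.2.ne
  set X := af (fun ζ => G F w b ζ + ENNReal.ofReal (C * (b / ρ) ^ 2) * G2 F A B ζ) ρ
  set f : ℕ → ℝ≥0∞ := fun k => (ENNReal.ofReal ((1 / 2) ^ k)) *
            (af (G F w 0) (2 ^ k * ρ) - af (G F w 0) (2 ^ (k + 1) * ρ))
  have key : ∀ K : ℕ, af (G F w 0) ρ
      ≤ X + ∑' k, f k + ENNReal.ofReal ((1 / 2) ^ K) * af (G F w 0) ρ := by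
    intro K
    refine le_trans (REC_ind hstep K ρ b hρpos hb) ?_
    gcongr
    · exact ENNReal.sum_le_tsum _
    · exact af_anti (G_SH hF hA hAB hw 0).1 hρpos
        (le_mul_of_one_le_left hρpos.le (one_le_pow₀ (by norm_num)))
  have hlim : Filter.Tendsto (fun K : ℕ => X + ∑' k, f k
      + ENNReal.ofReal ((1 / 2) ^ K) * af (G F w 0) ρ) Filter.atTop
      (nhds (X + ∑' k, f k + 0)) := by
    refine Filter.Tendsto.add tendsto_const_nhds ?_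
    have h1 : Filter.Tendsto (fun K : ℕ => ENNReal.ofReal ((1 / 2) ^ K)) Filter.atTop
        (nhds (ENNReal.ofReal 0)) :=
      ENNReal.tendsto_ofReal (tendsto_pow_atTop_nhds_zero_of_lt_one (by norm_num) (by norm_num))
    rw [ENNReal.ofReal_zero] at h1
    have h2 := ENNReal.Tendsto.mul_const h1 (Or.inr htop)
    rwa [zero_mul] at h2
  rw [add_zero] at hlim
  exact ge_of_tendsto' hlim key

end Muntz
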