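import Pool.Agent.Lib.MP_dde81e_an.REC
import Pool.Agent.Lib.MP_dde81e_an.CNT
import Pool.Agent.Lib.MP_dde81e_an.KL
import Pool.Agent.Lib.MP_dde81e_an.WT

/-! MP_dde81e_an, module SCALE : one scale inequality -/

namespace Muntz
open MeasureTheory Set Metric
open scoped ENNReal

theorem SCALE_telescope (g : ℕ → ℝ≥0∞) (hg : Antitone g) (p : ℕ) (hp : 0 < p) :
    ∑' j, (g j - g (j + p)) ≤ p * g 0 := by
  have key : ∀ n, ∑ j ∈ Finset.range n, (g j - g (j + p)) + ∑ i ∈ Finset.range p, g (n + i)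
      ≤ ∑ i ∈ Finset.range p, g i := by
    intro n
    induction n with
    | zero => simp
    | succ n ih =>
      refine le_trans ?_ ih
      rw [Finset.sum_range_succ, add_assoc]
      gcongr
      have h1 : ∑ i ∈ Finset.range p, g (n + i) + g (n + p)
          = g n + ∑ i ∈ Finset.range p, g (n + 1 + i) := by
        rw [← Finset.sum_range_succ (fun i => g (n + i)), Finset.sum_range_succ' (fun i => g (n + i))]
        rw [add_comm]
        simp only [add_zero]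
        congr 1
        apply Finset.sum_congr rfl
        intro i _
        congr 1
        ring
      by_cases htop : g (n + p) = ⊤
      · have h2 : g n = ⊤ := top_le_iff.1 (htop ▸ hg (Nat.le_add_right n p))
        have h3 : ∑ i ∈ Finset.range p, g (n + i) = ⊤ := by
          rw [ENNReal.sum_eq_top]
          exact ⟨0, Finset.mem_range.2 hp, by simpa using h2⟩
        rw [h3]
        exact le_top
      · have h4 : g n = (g n - g (n + p)) + g (n + p) :=
          (tsub_add_cancel_of_le (hg (Nat.le_add_right n p))).symm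
        have h5 : (g n - g (n + p) + ∑ i ∈ Finset.range p, g (n + 1 + i)) + g (n + p)
            = ∑ i ∈ Finset.range p, g (n + i) + g (n + p) := by
          rw [h1]
          nth_rewrite 2 [h4]
          ring
        exact ((ENNReal.add_left_inj htop).1 h5).le
  have h0 : ∑ i ∈ Finset.range p, g i ≤ p * g 0 := by
    calc ∑ i ∈ Finset.range p, g i ≤ ∑ i ∈ Finset.range p, g 0 :=
          Finset.sum_le_sum fun i _ => hg (Nat.zero_le i)
      _ = p * g 0 := by simp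
  refine ENNReal.tsum_le_of_sum_range_le fun n => ?_
  exact le_trans (le_trans le_self_add (key n)) h0

theorem SCALE_int {f : ℂ → ℝ≥0∞} (hf : Measurable f) (a b S : ℝ) :
    ∫⁻ ζ in {ζ : ℂ | a ≤ ζ.re ∧ ζ.re ≤ b ∧ |ζ.im| ≤ S}, f ζ
      = ∫⁻ y in Icc (-S) S, ∫⁻ x in Icc a b, f ((x : ℂ) + (y : ℂ) * Complex.I) := by
  have h1 : {ζ : ℂ | a ≤ ζ.re ∧ ζ.re ≤ b ∧ |ζ.im| ≤ S}
      = Complex.measurableEquivRealProd ⁻¹' (Icc a b ×ˢ Icc (-S) S) := by
    ext ζ
    simp only [Complex.measurableEquivRealProd, mem_preimage, mem_prod, mem_Icc, Set.mem_ofPred_eq,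
      abs_le]
    constructor
    · rintro ⟨h1, h2, h3⟩
      exact ⟨⟨h1, h2⟩, h3⟩
    · rintro ⟨⟨h1, h2⟩, h3⟩
      exact ⟨h1, h2, h3⟩
  have h2 : ∀ ζ : ℂ, f ζ = (fun p : ℝ × ℝ => f ((p.1 : ℂ) + (p.2 : ℂ) * Complex.I))
      (Complex.measurableEquivRealProd ζ) := by
    intro ζ
    simp [Complex.measurableEquivRealProd, Complex.re_add_im]
  have hm : Measurable (fun p : ℝ × ℝ => f ((p.1 : ℂ) + (p.2 : ℂ) * Complex.I)) := by
    apply hf.comp
    fun_prop
  have h3 := Complex.volume_preserving_equiv_real_prod.setLIntegral_comp_preimage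
    (s := Icc a b ×ˢ Icc (-S) S) (measurableSet_Icc.prod measurableSet_Icc) hm
  rw [h1, lintegral_congr h2, h3]
  rw [Measure.volume_eq_prod, ← Measure.prod_restrict, lintegral_prod_symm _ hm.aemeasurable]

/-- tail sum of the scale costs. -/
noncomputable def sH (F : ℂ × ℂ → ℂ) (w : ℝ → ℝ) (R : ℝ) : ℝ≥0∞ :=
  ∑' k : ℕ, (ENNReal.ofReal ((1 / 2) ^ k)) *
    (af (G F w 0) (2 ^ k * (64 * R)) - af (G F w 0) (2 ^ (k + 1) * (64 * R)))

/-- averaged leaf cost at scale `R`. -/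
noncomputable def sE (F : ℂ × ℂ → ℂ) (w : ℝ → ℝ) (R : ℝ) : ℝ≥0∞ :=
  ∫⁻ τ : ℝ, ENNReal.ofReal (w τ) *
    (af (fun z => nl (leaf F τ 0 z)) (R / 8) - af (fun z => nl (leaf F τ 0 z)) (64 * R))

/-- leaf type at scale `R/8` (all slopes). -/
noncomputable def sN (F : ℂ × ℂ → ℂ) (A B : ℝ) (R : ℝ) : ℝ≥0∞ :=
  ∫⁻ τ in Icc (A / 4) (4 * B), af (fun z => nl (leaf F τ 0 z)) (R / 8)

/-- cost of the shifted leaves. -/
noncomputable def sP (F : ℂ × ℂ → ℂ) (A B : ℝ) (R : ℝ) : ℝ≥0∞ :=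
  ∫⁻ τ in Icc (A / 4) (4 * B), ∫⁻ β in closedBall (0 : ℂ) (1 / 2),
    (af (fun z => nl (leaf F τ β z)) (R / 8) - af (fun z => nl (leaf F τ β z)) (64 * R))

theorem SCALE_pointwise {F : ℂ × ℂ → ℂ} {A B : ℝ} {w : ℝ → ℝ} (hF : GoodF F) (hA : 0 < A)
    (hAB : A ≤ B) (hw : Wt A B w) : ∃ C x₀ b₀ R₀ : ℝ, 0 < C ∧ 0 < x₀ ∧ 0 < b₀ ∧ 0 < R₀ ∧
      ∀ (R t b : ℝ) (ζ : ℂ) (β : ℝ → ℝ), R₀ ≤ R → R / 2 ≤ ζ.re → ζ.re ≤ 5 * R →
      |ζ.im| ≤ R / 8 → 1 / 8 ≤ t → t ≤ 1 / 4 → b₀ ≤ b → b ≤ x₀ * R → (∀ τ, |β τ| ≤ 1 / 8) →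
      ENNReal.ofReal (b / C) * (∫⁻ τ in Icc (7 * A / 8) (B + A / 8), td F ζ τ (β τ : ℂ) t)
        + 2 * (af (G F w 0) (64 * R) * ENNReal.ofReal ζ.re)
        ≤ 2 * G F w 0 ζ + ENNReal.ofReal (C * (b / R) ^ 2) * G2 F A B ζ
          + 2 * (sH F w R * ENNReal.ofReal ζ.re) := by
  obtain ⟨C1, x1, ρ1, hC1, hx1, hρ1, hrec⟩ := recursion hF hA hAB hw
  obtain ⟨C2, x2, b2, hC2, hx2, hb2, hk⟩ := kink hF hA hAB hw
  refine ⟨C2 + 2 * C1, min x2 x1, b2, max b2 ρ1, by positivity, lt_min hx2 hx1, hb2,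
    lt_max_of_lt_left hb2, ?_⟩
  intro R t b ζ β hR h1 h2 h3 ht1 ht2 hb hbx hβ
  have hR0 : 0 < R := lt_of_lt_of_le (lt_max_of_lt_left hb2) hR
  have hb0 : 0 < b := lt_of_lt_of_le hb2 hb
  have hRb2 : b2 ≤ R := le_trans (le_max_left _ _) hR
  have hRρ : ρ1 ≤ R := le_trans (le_max_right _ _) hR
  have hbx2 : b ≤ x2 * R := le_trans hbx (by gcongr; exact min_le_left _ _)
  have hbx1 : b ≤ x1 * R := le_trans hbx (by gcongr; exact min_le_right _ _)
  have hζ0 : 0 < ζ.re := by linarith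
  have hnorm : ‖ζ‖ ≤ 64 * R := by
    have := Complex.norm_le_abs_re_add_abs_im ζ
    rw [abs_of_pos hζ0] at this
    linarith
  have key := hk R t b ζ β hRb2 h1 h2 h3 ht1 ht2 hb hbx2 hβ
  -- the two shifted averages
  have hsh : ∀ c : ℝ, |c| = b → af (G F w 0) (64 * R) * ENNReal.ofReal ζ.re
      ≤ G F w c ζ + ENNReal.ofReal (C1 * (b / (64 * R)) ^ 2) * G2 F A B ζ
        + sH F w R * ENNReal.ofReal ζ.re := by
    intro c hc
    have hr := hrec (64 * R) c (by linarith) (by rw [hc]; nlinarith)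
    have hSH : SH (fun z => G F w c z + ENNReal.ofReal (C1 * (c / (64 * R)) ^ 2) * G2 F A B z) :=
      SH_add_smul (G_SH hF hA hAB hw c).1 (G2_SH hF hA hAB).1 (G_SH hF hA hAB hw c).2 _
    have hi := af_interior hSH hζ0 hnorm
    have hsq : (c / (64 * R)) ^ 2 = (b / (64 * R)) ^ 2 := by
      rw [div_pow, div_pow, ← hc, sq_abs]
    rw [hsq] at hi
    calc af (G F w 0) (64 * R) * ENNReal.ofReal ζ.re
        ≤ (af (fun z => G F w c z + ENNReal.ofReal (C1 * (b / (64 * R)) ^ 2) * G2 F A B z)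
            (64 * R) + sH F w R) * ENNReal.ofReal ζ.re := by
          gcongr
          rw [hsq] at hr
          exact hr
      _ ≤ _ := by
          rw [add_mul]
          gcongr
  have hp := hsh b (abs_of_pos hb0)
  have hm := hsh (-b) (by rw [abs_neg, abs_of_pos hb0])
  have hC' : ENNReal.ofReal (b / (C2 + 2 * C1)) ≤ ENNReal.ofReal (b / C2) := by
    apply ENNReal.ofReal_le_ofReal
    gcongr
    linarith
  have hdb : b / (64 * R) ≤ b / R := div_le_div_of_nonneg_left hb0.le hR0 (by linarith)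
  have hdb0 : 0 ≤ b / (64 * R) := by positivity
  have hsq2 : C1 * (b / (64 * R)) ^ 2 ≤ C1 * (b / R) ^ 2 :=
    mul_le_mul_of_nonneg_left (pow_le_pow_left₀ hdb0 hdb 2) hC1.le
  set Qt := ∫⁻ τ in Icc (7 * A / 8) (B + A / 8), td F ζ τ (β τ : ℂ) t with hQt
  set lam := ENNReal.ofReal (C1 * (b / (64 * R)) ^ 2) with hlam
  have hlam2 : ENNReal.ofReal (C2 * (b / R) ^ 2) + 2 * lam
      ≤ ENNReal.ofReal ((C2 + 2 * C1) * (b / R) ^ 2) := by
    rw [hlam, show (2 : ℝ≥0∞) = ENNReal.ofReal 2 by simp, ← ENNReal.ofReal_mul (by norm_num),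
      ← ENNReal.ofReal_add (by positivity) (by positivity)]
    apply ENNReal.ofReal_le_ofReal
    rw [add_mul]
    linarith
  calc ENNReal.ofReal (b / (C2 + 2 * C1)) * Qt
        + 2 * (af (G F w 0) (64 * R) * ENNReal.ofReal ζ.re)
      ≤ ENNReal.ofReal (b / C2) * Qt
        + ((G F w b ζ + lam * G2 F A B ζ + sH F w R * ENNReal.ofReal ζ.re)
          + (G F w (-b) ζ + lam * G2 F A B ζ + sH F w R * ENNReal.ofReal ζ.re)) := by
        rw [two_mul (af (G F w 0) (64 * R) * ENNReal.ofReal ζ.re)]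
        exact add_le_add (mul_le_mul_left hC' _) (add_le_add hp hm)
    _ = (ENNReal.ofReal (b / C2) * Qt + G F w b ζ + G F w (-b) ζ)
        + (2 * lam) * G2 F A B ζ + 2 * (sH F w R * ENNReal.ofReal ζ.re) := by ring
    _ ≤ (2 * G F w 0 ζ + ENNReal.ofReal (C2 * (b / R) ^ 2) * G2 F A B ζ)
        + (2 * lam) * G2 F A B ζ + 2 * (sH F w R * ENNReal.ofReal ζ.re) := by
        gcongr
    _ = 2 * G F w 0 ζ + (ENNReal.ofReal (C2 * (b / R) ^ 2) + 2 * lam) * G2 F A B ζ
        + 2 * (sH F w R * ENNReal.ofReal ζ.re) := by ring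
    _ ≤ _ := by gcongr

theorem SCALE_swap {F : ℂ × ℂ → ℂ} (hF : Measurable F) {u : ℝ → ℝ≥0∞} (hu : Measurable u)
    (ν : Measure ℝ) [SFinite ν] (a b S : ℝ) :
    ∫⁻ ζ in {ζ : ℂ | a ≤ ζ.re ∧ ζ.re ≤ b ∧ |ζ.im| ≤ S}, ∫⁻ t, u t * nl (leaf F t 0 ζ) ∂ν
      = ∫⁻ t, u t * (∫⁻ y in Icc (-S) S, ∫⁻ x in Icc a b,
          nl (leaf F t 0 ((x : ℂ) + (y : ℂ) * Complex.I))) ∂ν := by
  have hm : Measurable (fun p : ℂ × ℝ => nl (leaf F p.2 0 p.1)) := by
    unfold leaf
    apply nl_continuous.measurable.comp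
    apply hF.comp
    fun_prop
  have hm2 : Measurable (fun p : ℂ × ℝ => u p.2 * nl (leaf F p.2 0 p.1)) :=
    (hu.comp measurable_snd).mul hm
  rw [lintegral_lintegral_swap (f := fun ζ t => u t * nl (leaf F t 0 ζ)) hm2.aemeasurable]
  refine lintegral_congr fun t => ?_
  have hmt : Measurable (fun ζ : ℂ => nl (leaf F t 0 ζ)) :=
    hm.comp (measurable_id.prodMk measurable_const)
  rw [lintegral_const_mul _ hmt, SCALE_int hmt]

/-- leaf bound in a strip, without finiteness assumptions. -/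
theorem SCALE_leaf {F : ℂ × ℂ → ℂ} (hF : GoodF F) : ∃ C : ℝ, 0 < C ∧ ∀ (R S τ : ℝ), 0 < R →
    0 ≤ S → S ≤ R / 8 → 0 ≤ τ →
    (∫⁻ y in Icc (-S) S, ∫⁻ x in Icc (R / 2) (5 * R),
        nl (leaf F τ 0 ((x : ℂ) + (y : ℂ) * Complex.I)))
      ≤ af (fun z => nl (leaf F τ 0 z)) (64 * R) * ENNReal.ofReal (2 * S * (99 / 8 * R ^ 2))
        + ENNReal.ofReal (2 * S * (C * R ^ 2)) * (af (fun z => nl (leaf F τ 0 z)) (R / 8)
          - af (fun z => nl (leaf F τ 0 z)) (64 * R)) ∧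
    (∫⁻ y in Icc (-S) S, ∫⁻ x in Icc (R / 2) (5 * R),
        nl (leaf F τ 0 ((x : ℂ) + (y : ℂ) * Complex.I)))
      ≤ ENNReal.ofReal (2 * S * (C * R ^ 2)) * af (fun z => nl (leaf F τ 0 z)) (R / 8) := by
  obtain ⟨C, hC, hl⟩ := leaf_strip
  refine ⟨C, hC, ?_⟩
  intro R S τ hR hS hSR hτ
  obtain ⟨h1, h2⟩ := leaf_good hF hτ (β := 0) (by simp)
  have hvol : ∀ K : ℝ≥0∞, ∫⁻ _y in Icc (-S) S, K = ENNReal.ofReal (2 * S) * K := by
    intro K
    rw [setLIntegral_const, Real.volume_Icc, mul_comm]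
    congr 2
    ring
  constructor
  · calc (∫⁻ y in Icc (-S) S, ∫⁻ x in Icc (R / 2) (5 * R),
          nl (leaf F τ 0 ((x : ℂ) + (y : ℂ) * Complex.I)))
        ≤ ∫⁻ y in Icc (-S) S, (af (fun z => nl (leaf F τ 0 z)) (64 * R)
            * ENNReal.ofReal (99 / 8 * R ^ 2)
          + ENNReal.ofReal (C * R ^ 2) * (af (fun z => nl (leaf F τ 0 z)) (R / 8)
            - af (fun z => nl (leaf F τ 0 z)) (64 * R))) := by
          refine setLIntegral_mono' measurableSet_Icc fun y hy => ?_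
          by_cases ht : af (fun z => nl (leaf F τ 0 z)) (64 * R) = ⊤
          · have : ENNReal.ofReal (99 / 8 * R ^ 2) ≠ 0 := by
              rw [ne_eq, ENNReal.ofReal_eq_zero, not_le]
              positivity
            rw [ht, ENNReal.top_mul this, top_add]
            exact le_top
          · have hy' : |y| ≤ R / 8 := le_trans (abs_le.2 ⟨hy.1, hy.2⟩) hSR
            have := hl (leaf F τ 0) R y (af (fun z => nl (leaf F τ 0 z)) (64 * R)).toReal hR h1 h2
              hy' ENNReal.toReal_nonneg (by rw [ENNReal.ofReal_toReal ht])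
            rw [ENNReal.ofReal_mul ENNReal.toReal_nonneg, ENNReal.ofReal_toReal ht] at this
            exact this
      _ = _ := by
          rw [hvol, mul_add, ENNReal.ofReal_mul (by positivity : (0:ℝ) ≤ 2 * S),
            ENNReal.ofReal_mul (by positivity : (0:ℝ) ≤ 2 * S)]
          ring
  · calc (∫⁻ y in Icc (-S) S, ∫⁻ x in Icc (R / 2) (5 * R),
          nl (leaf F τ 0 ((x : ℂ) + (y : ℂ) * Complex.I)))
        ≤ ∫⁻ y in Icc (-S) S, (ENNReal.ofReal (C * R ^ 2)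
            * af (fun z => nl (leaf F τ 0 z)) (R / 8)) := by
          refine setLIntegral_mono' measurableSet_Icc fun y hy => ?_
          have hy' : |y| ≤ R / 8 := le_trans (abs_le.2 ⟨hy.1, hy.2⟩) hSR
          have := hl (leaf F τ 0) R y 0 hR h1 h2 hy' le_rfl (by simp)
          simpa using this
      _ = _ := by
          rw [hvol, ENNReal.ofReal_mul (by positivity : (0:ℝ) ≤ 2 * S)]
          ring

theorem SCALE_G0 {F : ℂ × ℂ → ℂ} {A B : ℝ} {w : ℝ → ℝ} (hF : GoodF F) (hA : 0 < A)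
    (hw : Wt A B w) : ∃ C : ℝ, 0 < C ∧ ∀ (R S : ℝ), 0 < R → 0 ≤ S → S ≤ R / 8 →
    (∫⁻ ζ in {ζ : ℂ | R / 2 ≤ ζ.re ∧ ζ.re ≤ 5 * R ∧ |ζ.im| ≤ S}, G F w 0 ζ)
      ≤ af (G F w 0) (64 * R) * ENNReal.ofReal (2 * S * (99 / 8 * R ^ 2))
        + ENNReal.ofReal (2 * S * (C * R ^ 2)) * sE F w R ∧
    (∫⁻ ζ in {ζ : ℂ | R / 2 ≤ ζ.re ∧ ζ.re ≤ 5 * R ∧ |ζ.im| ≤ S}, G2 F A B ζ)
      ≤ ENNReal.ofReal (2 * S * (C * R ^ 2)) * sN F A B R := by
  obtain ⟨C, hC, hl⟩ := SCALE_leaf hF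
  refine ⟨C, hC, ?_⟩
  intro R S hR hS hSR
  have hwm : Measurable (fun t => ENNReal.ofReal (w t)) :=
    hw.smooth.continuous.measurable.ennreal_ofReal
  -- the average of the types at `64 R`
  have hAF : (∫⁻ τ : ℝ, ENNReal.ofReal (w τ) * af (fun z => nl (leaf F τ 0 z)) (64 * R))
      ≤ af (G F w 0) (64 * R) := by
    unfold af
    refine le_iInf fun ζ => le_iInf fun hζ => ?_
    have h0 : ENNReal.ofReal ζ.re ≠ 0 := by
      rw [ne_eq, ENNReal.ofReal_eq_zero, not_le]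
      exact hζ.2
    rw [ENNReal.le_div_iff_mul_le (Or.inl h0) (Or.inl ENNReal.ofReal_ne_top),
      ← lintegral_mul_const' _ _ ENNReal.ofReal_ne_top]
    unfold G
    refine lintegral_mono fun τ => ?_
    simp only
    rw [mul_assoc]
    gcongr
    have : (⨅ (ζ : ℂ) (_ : ‖ζ‖ = 64 * R ∧ 0 < ζ.re), nl (leaf F τ 0 ζ) / ENNReal.ofReal ζ.re)
        ≤ nl (leaf F τ 0 ζ) / ENNReal.ofReal ζ.re := iInf₂_le ζ hζ
    calc _ ≤ nl (leaf F τ 0 ζ) / ENNReal.ofReal ζ.re * ENNReal.ofReal ζ.re := by gcongr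
      _ = nl (leaf F τ 0 ζ) := ENNReal.div_mul_cancel h0 ENNReal.ofReal_ne_top
      _ = _ := by simp [leaf]
  constructor
  · have hG : ∀ ζ, G F w 0 ζ = ∫⁻ t : ℝ, ENNReal.ofReal (w t) * nl (leaf F t 0 ζ) := by
      intro ζ
      simp [G, leaf]
    calc (∫⁻ ζ in {ζ : ℂ | R / 2 ≤ ζ.re ∧ ζ.re ≤ 5 * R ∧ |ζ.im| ≤ S}, G F w 0 ζ)
        = ∫⁻ t : ℝ, ENNReal.ofReal (w t) * (∫⁻ y in Icc (-S) S, ∫⁻ x in Icc (R / 2) (5 * R),
          nl (leaf F t 0 ((x : ℂ) + (y : ℂ) * Complex.I))) := by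
          simp_rw [hG]
          exact SCALE_swap hF.meas hwm volume (R / 2) (5 * R) S
      _ ≤ ∫⁻ t : ℝ, (ENNReal.ofReal (w t) * af (fun z => nl (leaf F t 0 z)) (64 * R)
            * ENNReal.ofReal (2 * S * (99 / 8 * R ^ 2))
          + ENNReal.ofReal (2 * S * (C * R ^ 2)) * (ENNReal.ofReal (w t) *
            (af (fun z => nl (leaf F t 0 z)) (R / 8)
              - af (fun z => nl (leaf F t 0 z)) (64 * R)))) := by
          refine lintegral_mono fun t => ?_
          simp only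
          by_cases ht : t ∈ Icc (A / 2) (2 * B)
          · have h := (hl R S t hR hS hSR (by linarith [ht.1])).1
            calc _ ≤ ENNReal.ofReal (w t) * (af (fun z => nl (leaf F t 0 z)) (64 * R)
                  * ENNReal.ofReal (2 * S * (99 / 8 * R ^ 2))
                  + ENNReal.ofReal (2 * S * (C * R ^ 2)) * (af (fun z => nl (leaf F t 0 z)) (R / 8)
                    - af (fun z => nl (leaf F t 0 z)) (64 * R))) := by gcongr
              _ = _ := by ring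
          · rw [hw.supp t ht]
            simp
      _ = (∫⁻ t : ℝ, ENNReal.ofReal (w t) * af (fun z => nl (leaf F t 0 z)) (64 * R)
            * ENNReal.ofReal (2 * S * (99 / 8 * R ^ 2)))
          + ∫⁻ t : ℝ, ENNReal.ofReal (2 * S * (C * R ^ 2)) * (ENNReal.ofReal (w t) *
            (af (fun z => nl (leaf F t 0 z)) (R / 8)
              - af (fun z => nl (leaf F t 0 z)) (64 * R))) := by
          apply lintegral_add_left'
          apply AEMeasurable.mul_const
          have h1 := (af_leaf_measurable hF (B := 2 * B) (half_pos hA) (64 * R) (by positivity)).2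
          have h2 := (aemeasurable_indicator_iff (measurableSet_Icc (a := A / 2) (b := 2 * B))).2 h1
          refine (hwm.aemeasurable.mul h2).congr ?_
          refine Filter.Eventually.of_forall fun t => ?_
          simp only [Pi.mul_apply]
          by_cases ht : t ∈ Icc (A / 2) (2 * B)
          · rw [indicator_of_mem ht]
          · rw [indicator_of_notMem ht, hw.supp t ht]
            simp
      _ ≤ _ := by
          rw [lintegral_mul_const' _ _ ENNReal.ofReal_ne_top,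
            lintegral_const_mul' _ _ ENNReal.ofReal_ne_top]
          gcongr
          exact le_rfl
  · have hG : ∀ ζ, G2 F A B ζ = ∫⁻ t in Icc (A / 4) (4 * B), 1 * nl (leaf F t 0 ζ) := by
      intro ζ
      simp [G2, leaf]
    calc (∫⁻ ζ in {ζ : ℂ | R / 2 ≤ ζ.re ∧ ζ.re ≤ 5 * R ∧ |ζ.im| ≤ S}, G2 F A B ζ)
        = ∫⁻ t in Icc (A / 4) (4 * B), 1 * (∫⁻ y in Icc (-S) S, ∫⁻ x in Icc (R / 2) (5 * R),
          nl (leaf F t 0 ((x : ℂ) + (y : ℂ) * Complex.I))) := by
          simp_rw [hG]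
          exact SCALE_swap hF.meas (u := fun _ => 1) measurable_const _ (R / 2) (5 * R) S
      _ ≤ ∫⁻ t in Icc (A / 4) (4 * B), ENNReal.ofReal (2 * S * (C * R ^ 2))
            * af (fun z => nl (leaf F t 0 z)) (R / 8) := by
          refine setLIntegral_mono' measurableSet_Icc fun t ht => ?_
          rw [one_mul]
          exact (hl R S t hR hS hSR (by linarith [ht.1])).2
      _ = _ := by
          rw [lintegral_const_mul' _ _ ENNReal.ofReal_ne_top]
          rfl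

theorem SCALE_re (R S : ℝ) (hR : 0 < R) :
    ∫⁻ ζ in {ζ : ℂ | R / 2 ≤ ζ.re ∧ ζ.re ≤ 5 * R ∧ |ζ.im| ≤ S}, ENNReal.ofReal ζ.re
      = ENNReal.ofReal (2 * S * (99 / 8 * R ^ 2)) := by
  rw [SCALE_int (by fun_prop)]
  have h1 : ∀ y : ℝ, (∫⁻ x in Icc (R / 2) (5 * R),
      ENNReal.ofReal ((x : ℂ) + (y : ℂ) * Complex.I).re) = ENNReal.ofReal (99 / 8 * R ^ 2) := by
    intro y
    have h2 : ∀ x : ℝ, ((x : ℂ) + (y : ℂ) * Complex.I).re = x := by intro x; simp
    simp_rw [h2]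
    rw [← ofReal_integral_eq_lintegral_ofReal]
    · rw [integral_Icc_eq_integral_Ioc, ← intervalIntegral.integral_of_le (by linarith),
        integral_id]
      congr 1
      ring
    · exact continuous_id.integrableOn_Icc
    · refine (ae_restrict_iff' measurableSet_Icc).2 (Filter.Eventually.of_forall fun x hx => ?_)
      simp only [Pi.zero_apply]
      linarith [hx.1]
  simp_rw [h1]
  rw [setLIntegral_const, Real.volume_Icc, ← ENNReal.ofReal_mul (by positivity)]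
  congr 1
  ring

theorem SCALE_Q {F : ℂ × ℂ → ℂ} {A B : ℝ} {w : ℝ → ℝ} (hF : GoodF F) (hA : 0 < A)
    (hAB : A ≤ B) (hw : Wt A B w) : ∃ C x₀ b₀ R₀ : ℝ, 0 < C ∧ 0 < x₀ ∧ 0 < b₀ ∧ 0 < R₀ ∧
      ∀ (R S t b : ℝ) (β : ℂ → ℝ → ℝ), R₀ ≤ R → 0 ≤ S → S ≤ R / 8 →
      1 / 8 ≤ t → t ≤ 1 / 4 → b₀ ≤ b → b ≤ x₀ * R → (∀ ζ τ, |β ζ τ| ≤ 1 / 8) →
      (∫⁻ ζ in {ζ : ℂ | R / 2 ≤ ζ.re ∧ ζ.re ≤ 5 * R ∧ |ζ.im| ≤ S},
        ∫⁻ τ in Icc (7 * A / 8) (B + A / 8), td F ζ τ (β ζ τ : ℂ) t)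
        ≤ ENNReal.ofReal (C * S * R ^ 2 / b) *
          (sE F w R + sH F w R + ENNReal.ofReal ((b / R) ^ 2) * sN F A B R) := by
  obtain ⟨C1, x₀, b₀, R₀, hC1, hx₀, hb₀, hR₀, hpw⟩ := SCALE_pointwise hF hA hAB hw
  obtain ⟨C2, hC2, hG⟩ := SCALE_G0 hF hA hw
  obtain ⟨ρ₀, hρ₀, hfin⟩ := fin hF hA hAB hw
  refine ⟨C1 * (4 * C2 + 99 / 2 + C1 * (2 * C2)), x₀, b₀, max R₀ ρ₀, by positivity, hx₀, hb₀,
    lt_max_of_lt_left hR₀, ?_⟩
  intro R S t b β hR hS hSR ht1 ht2 hb hbx hβ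
  have hRR₀ : R₀ ≤ R := le_trans (le_max_left _ _) hR
  have hRρ : ρ₀ ≤ R := le_trans (le_max_right _ _) hR
  have hR0 : 0 < R := lt_of_lt_of_le hR₀ hRR₀
  have hb0 : 0 < b := lt_of_lt_of_le hb₀ hb
  set X := {ζ : ℂ | R / 2 ≤ ζ.re ∧ ζ.re ≤ 5 * R ∧ |ζ.im| ≤ S} with hX
  have hXm : MeasurableSet X := by
    rw [hX]
    have e1 : MeasurableSet {ζ : ℂ | R / 2 ≤ ζ.re} :=
      measurableSet_le measurable_const Complex.measurable_re
    have e2 : MeasurableSet {ζ : ℂ | ζ.re ≤ 5 * R} :=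
      measurableSet_le Complex.measurable_re measurable_const
    have e3 : MeasurableSet {ζ : ℂ | |ζ.im| ≤ S} :=
      measurableSet_le (Complex.measurable_im.abs) measurable_const
    exact e1.inter (e2.inter e3)
  obtain ⟨hG0, hG2⟩ := hG R S hR0 hS hSR
  rw [← hX] at hG0 hG2
  have hY := SCALE_re R S hR0
  rw [← hX] at hY
  set Y := ENNReal.ofReal (2 * S * (99 / 8 * R ^ 2)) with hYdef
  set a64 := af (G F w 0) (64 * R) with ha64
  have ha64fin : a64 < ⊤ := (hfin (64 * R) (by linarith)).2.2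
  have hcanc : 2 * (a64 * Y) ≠ ⊤ :=
    ENNReal.mul_ne_top (by simp) (ENNReal.mul_ne_top ha64fin.ne ENNReal.ofReal_ne_top)
  set D := ENNReal.ofReal (2 * S * (C2 * R ^ 2)) with hD
  set Q := fun ζ : ℂ => ∫⁻ τ in Icc (7 * A / 8) (B + A / 8), td F ζ τ (β ζ τ : ℂ) t with hQ
  have hmeas0 : Measurable (G F w 0) := (G_SH hF hA hAB hw 0).2
  have hmeas2 : Measurable (G2 F A B) := (G2_SH hF hA hAB).2
  have hmre : Measurable (fun ζ : ℂ => ENNReal.ofReal ζ.re) := by fun_prop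
  have hI : ENNReal.ofReal (b / C1) * (∫⁻ ζ in X, Q ζ) + 2 * (a64 * Y)
      ≤ (2 * (D * sE F w R) + ENNReal.ofReal (C1 * (b / R) ^ 2) * (D * sN F A B R)
          + 2 * (sH F w R * Y)) + 2 * (a64 * Y) := by
    calc ENNReal.ofReal (b / C1) * (∫⁻ ζ in X, Q ζ) + 2 * (a64 * Y)
        = ∫⁻ ζ in X, (ENNReal.ofReal (b / C1) * Q ζ + 2 * (a64 * ENNReal.ofReal ζ.re)) := by
          rw [lintegral_add_right _ ((hmre.const_mul _).const_mul _),
            lintegral_const_mul' _ _ ENNReal.ofReal_ne_top, lintegral_const_mul _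
            (hmre.const_mul _), lintegral_const_mul _ hmre, hY]
      _ ≤ ∫⁻ ζ in X, (2 * G F w 0 ζ + ENNReal.ofReal (C1 * (b / R) ^ 2) * G2 F A B ζ
            + 2 * (sH F w R * ENNReal.ofReal ζ.re)) := by
          refine setLIntegral_mono' hXm fun ζ hζ => ?_
          exact hpw R t b ζ (β ζ) hRR₀ hζ.1 hζ.2.1 (le_trans hζ.2.2 hSR) ht1 ht2 hb hbx (hβ ζ)
      _ = 2 * (∫⁻ ζ in X, G F w 0 ζ) + ENNReal.ofReal (C1 * (b / R) ^ 2) * (∫⁻ ζ in X, G2 F A B ζ)
            + 2 * (sH F w R * Y) := by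
          rw [lintegral_add_right _ ((hmre.const_mul _).const_mul _),
            lintegral_add_left (hmeas0.const_mul _), lintegral_const_mul _ hmeas0,
            lintegral_const_mul _ hmeas2, lintegral_const_mul _ (hmre.const_mul _),
            lintegral_const_mul _ hmre, hY]
      _ ≤ 2 * (a64 * Y + D * sE F w R) + ENNReal.ofReal (C1 * (b / R) ^ 2) * (D * sN F A B R)
            + 2 * (sH F w R * Y) := by
          gcongr
      _ = _ := by ring
  have hI2 := (ENNReal.add_le_add_iff_right hcanc).1 hI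
  have hC1b : ENNReal.ofReal (C1 / b) * ENNReal.ofReal (b / C1) = 1 := by
    rw [← ENNReal.ofReal_mul (by positivity)]
    rw [show C1 / b * (b / C1) = 1 by field_simp]
    simp
  calc (∫⁻ ζ in X, Q ζ)
      = ENNReal.ofReal (C1 / b) * (ENNReal.ofReal (b / C1) * (∫⁻ ζ in X, Q ζ)) := by
        rw [← mul_assoc, hC1b, one_mul]
    _ ≤ ENNReal.ofReal (C1 / b) * (2 * (D * sE F w R)
          + ENNReal.ofReal (C1 * (b / R) ^ 2) * (D * sN F A B R) + 2 * (sH F w R * Y)) := by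
        gcongr
    _ = ENNReal.ofReal (C1 / b) * (2 * D) * sE F w R
          + ENNReal.ofReal (C1 / b) * (2 * Y) * sH F w R
          + ENNReal.ofReal (C1 / b) * (ENNReal.ofReal C1 * D) *
            (ENNReal.ofReal ((b / R) ^ 2) * sN F A B R) := by
        rw [ENNReal.ofReal_mul hC1.le]
        ring
    _ ≤ ENNReal.ofReal (C1 * (4 * C2 + 99 / 2 + C1 * (2 * C2)) * S * R ^ 2 / b) * sE F w R
          + ENNReal.ofReal (C1 * (4 * C2 + 99 / 2 + C1 * (2 * C2)) * S * R ^ 2 / b) * sH F w R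
          + ENNReal.ofReal (C1 * (4 * C2 + 99 / 2 + C1 * (2 * C2)) * S * R ^ 2 / b) *
            (ENNReal.ofReal ((b / R) ^ 2) * sN F A B R) := by
        have e1 : ENNReal.ofReal (C1 / b) * (2 * D)
            ≤ ENNReal.ofReal (C1 * (4 * C2 + 99 / 2 + C1 * (2 * C2)) * S * R ^ 2 / b) := by
          rw [hD, show (2 : ℝ≥0∞) = ENNReal.ofReal 2 by simp, ← ENNReal.ofReal_mul (by norm_num),
            ← ENNReal.ofReal_mul (by positivity)]
          apply ENNReal.ofReal_le_ofReal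
          rw [div_mul_eq_mul_div]
          refine div_le_div_of_nonneg_right ?_ hb0.le
          have hP : 0 ≤ C1 * S * R ^ 2 := by positivity
          have hP2 := mul_nonneg hP (show 0 ≤ 99 / 2 + C1 * (2 * C2) by positivity)
          linarith
        have e2 : ENNReal.ofReal (C1 / b) * (2 * Y)
            ≤ ENNReal.ofReal (C1 * (4 * C2 + 99 / 2 + C1 * (2 * C2)) * S * R ^ 2 / b) := by
          rw [hYdef, show (2 : ℝ≥0∞) = ENNReal.ofReal 2 by simp,
            ← ENNReal.ofReal_mul (by norm_num), ← ENNReal.ofReal_mul (by positivity)]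
          apply ENNReal.ofReal_le_ofReal
          rw [div_mul_eq_mul_div]
          refine div_le_div_of_nonneg_right ?_ hb0.le
          have hP : 0 ≤ C1 * S * R ^ 2 := by positivity
          have hP2 := mul_nonneg hP (show 0 ≤ 4 * C2 + C1 * (2 * C2) by positivity)
          linarith
        have e3 : ENNReal.ofReal (C1 / b) * (ENNReal.ofReal C1 * D)
            ≤ ENNReal.ofReal (C1 * (4 * C2 + 99 / 2 + C1 * (2 * C2)) * S * R ^ 2 / b) := by
          rw [hD, ← ENNReal.ofReal_mul hC1.le, ← ENNReal.ofReal_mul (by positivity)]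
          apply ENNReal.ofReal_le_ofReal
          rw [div_mul_eq_mul_div]
          refine div_le_div_of_nonneg_right ?_ hb0.le
          have hP : 0 ≤ C1 * S * R ^ 2 := by positivity
          have hP2 := mul_nonneg hP (show 0 ≤ 4 * C2 + 99 / 2 by positivity)
          linarith
        gcongr
    _ = _ := by ring

theorem SCALE_anti {F : ℂ × ℂ → ℂ} (hF : GoodF F) {τ : ℝ} {β : ℂ} (hτ : 0 ≤ τ) (hβ : -1 < β.re)
    {r r' : ℝ} (h0 : 0 < r) (h : r ≤ r') :
    af (fun z => nl (leaf F τ β z)) r' ≤ af (fun z => nl (leaf F τ β z)) r :=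
  af_anti (SH_nl (leaf_good hF hτ hβ).1 (leaf_good hF hτ hβ).2) h0 h

theorem SCALE_ball {β : ℂ} (hβ : β ∈ closedBall (0 : ℂ) (1 / 2)) : -1 < β.re := by
  rw [mem_closedBall, dist_zero_right] at hβ
  have := Complex.abs_re_le_norm β
  have h2 := abs_le.1 (le_trans this hβ)
  linarith [h2.1]

theorem SCALE_sumP {F : ℂ × ℂ → ℂ} {A B : ℝ} (hF : GoodF F) (hA : 0 < A)
    {R0 : ℝ} (hR0 : 0 < R0)
    (hfin : (∫⁻ τ in Icc (A / 4) (4 * B), ∫⁻ β in closedBall (0 : ℂ) (1 / 2),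
        af (fun z => nl (leaf F τ β z)) (R0 / 8)) < ⊤) :
    ∑' i : ℕ, sP F A B (2 ^ i * R0) ≠ ⊤ := by
  set μ := (volume.restrict (Icc (A / 4) (4 * B))).prod
    (volume.restrict (closedBall (0 : ℂ) (1 / 2))) with hμ
  have hm : ∀ ρ : ℝ, 0 < ρ → AEMeasurable
      (fun p : ℝ × ℂ => af (fun z => nl (leaf F p.1 p.2 z)) ρ) μ := fun ρ hρ =>
    (af_leaf_measurable hF (by positivity) ρ hρ).1
  have hm2 : ∀ i : ℕ, AEMeasurable (fun p : ℝ × ℂ =>
      (af (fun z => nl (leaf F p.1 p.2 z)) (2 ^ i * R0 / 8)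
        - af (fun z => nl (leaf F p.1 p.2 z)) (64 * (2 ^ i * R0)))) μ := fun i =>
    (hm _ (by positivity)).sub (hm _ (by positivity))
  have h1 : ∀ i : ℕ, sP F A B (2 ^ i * R0) = ∫⁻ p, (af (fun z => nl (leaf F p.1 p.2 z))
      (2 ^ i * R0 / 8) - af (fun z => nl (leaf F p.1 p.2 z)) (64 * (2 ^ i * R0))) ∂μ := by
    intro i
    rw [hμ, lintegral_prod _ (hm2 i)]
    rfl
  have h2 : ∑' i : ℕ, sP F A B (2 ^ i * R0)
      ≤ 9 * (∫⁻ τ in Icc (A / 4) (4 * B), ∫⁻ β in closedBall (0 : ℂ) (1 / 2),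
        af (fun z => nl (leaf F τ β z)) (R0 / 8)) := by
    calc ∑' i : ℕ, sP F A B (2 ^ i * R0)
        = ∫⁻ p, ∑' i : ℕ, (af (fun z => nl (leaf F p.1 p.2 z))
          (2 ^ i * R0 / 8) - af (fun z => nl (leaf F p.1 p.2 z)) (64 * (2 ^ i * R0))) ∂μ := by
          rw [lintegral_tsum hm2]
          exact tsum_congr h1
      _ ≤ ∫⁻ p, 9 * af (fun z => nl (leaf F p.1 p.2 z)) (R0 / 8) ∂μ := by
          rw [hμ, Measure.prod_restrict]
          refine setLIntegral_mono' (measurableSet_Icc.prod measurableSet_closedBall)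
            fun p hp => ?_
          have ha : Antitone (fun i : ℕ => af (fun z => nl (leaf F p.1 p.2 z))
              (2 ^ i * (R0 / 8))) := by
            intro i j hij
            refine SCALE_anti hF (by linarith [hp.1.1]) (SCALE_ball hp.2) (by positivity) ?_
            gcongr
            norm_num
          have ht := SCALE_telescope _ ha 9 (by norm_num)
          simp only [pow_zero, one_mul] at ht
          refine le_trans (le_of_eq ?_) (le_trans ht (by norm_cast))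
          refine tsum_congr fun i => ?_
          congr 2
          · ring
          · rw [pow_add]
            ring
      _ = 9 * ∫⁻ p, af (fun z => nl (leaf F p.1 p.2 z)) (R0 / 8) ∂μ :=
          lintegral_const_mul' _ _ (by simp)
      _ = _ := by
          rw [hμ, lintegral_prod _ (hm _ (by positivity))]
  exact ne_top_of_le_ne_top (ENNReal.mul_ne_top (by simp) hfin.ne) h2

theorem SCALE_sumE {F : ℂ × ℂ → ℂ} {A B : ℝ} {w : ℝ → ℝ} (hF : GoodF F) (hA : 0 < A)
    (hw : Wt A B w) {R0 : ℝ} (hR0 : 0 < R0)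
    (hfin : (∫⁻ τ in Icc (A / 4) (4 * B), af (fun z => nl (leaf F τ 0 z)) (R0 / 8)) < ⊤) :
    ∑' i : ℕ, sE F w (2 ^ i * R0) ≠ ⊤ := by
  have hm : ∀ ρ : ℝ, 0 < ρ → AEMeasurable
      (fun τ : ℝ => af (fun z => nl (leaf F τ 0 z)) ρ) (volume.restrict (Icc (A / 4) (4 * B))) :=
    fun ρ hρ => (af_leaf_measurable hF (by positivity) ρ hρ).2
  have hm2 : ∀ i : ℕ, AEMeasurable (fun τ : ℝ =>
      (af (fun z => nl (leaf F τ 0 z)) (2 ^ i * R0 / 8)
        - af (fun z => nl (leaf F τ 0 z)) (64 * (2 ^ i * R0))))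
        (volume.restrict (Icc (A / 4) (4 * B))) := fun i =>
    (hm _ (by positivity)).sub (hm _ (by positivity))
  have h1 : ∀ i : ℕ, sE F w (2 ^ i * R0) ≤ ∫⁻ τ in Icc (A / 4) (4 * B),
      (af (fun z => nl (leaf F τ 0 z)) (2 ^ i * R0 / 8)
        - af (fun z => nl (leaf F τ 0 z)) (64 * (2 ^ i * R0))) := by
    intro i
    rw [← lintegral_indicator measurableSet_Icc]
    refine lintegral_mono fun τ => ?_
    simp only
    by_cases ht : τ ∈ Icc (A / 4) (4 * B)
    · rw [indicator_of_mem ht]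
      calc _ ≤ 1 * (af (fun z => nl (leaf F τ 0 z)) (2 ^ i * R0 / 8)
            - af (fun z => nl (leaf F τ 0 z)) (64 * (2 ^ i * R0))) := by
            gcongr
            rw [← ENNReal.ofReal_one]
            exact ENNReal.ofReal_le_ofReal (hw.le_one τ)
        _ = _ := one_mul _
    · rw [hw.supp τ (fun h => ht ⟨by linarith [h.1], by
        by_contra hc
        rw [not_le] at hc
        have h1 := h.1
        have h2 := h.2
        have : 0 < B := by
          by_contra hB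
          linarith
        linarith⟩)]
      simp
  have h2 : ∑' i : ℕ, sE F w (2 ^ i * R0)
      ≤ 9 * (∫⁻ τ in Icc (A / 4) (4 * B), af (fun z => nl (leaf F τ 0 z)) (R0 / 8)) := by
    calc ∑' i : ℕ, sE F w (2 ^ i * R0)
        ≤ ∑' i : ℕ, ∫⁻ τ in Icc (A / 4) (4 * B),
          (af (fun z => nl (leaf F τ 0 z)) (2 ^ i * R0 / 8)
          - af (fun z => nl (leaf F τ 0 z)) (64 * (2 ^ i * R0))) := ENNReal.tsum_le_tsum h1
      _ = ∫⁻ τ in Icc (A / 4) (4 * B), ∑' i : ℕ,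
          (af (fun z => nl (leaf F τ 0 z)) (2 ^ i * R0 / 8)
          - af (fun z => nl (leaf F τ 0 z)) (64 * (2 ^ i * R0))) := (lintegral_tsum hm2).symm
      _ ≤ ∫⁻ τ in Icc (A / 4) (4 * B), 9 * af (fun z => nl (leaf F τ 0 z)) (R0 / 8) := by
          refine setLIntegral_mono' measurableSet_Icc fun τ hτ => ?_
          have ha : Antitone (fun i : ℕ => af (fun z => nl (leaf F τ 0 z))
              (2 ^ i * (R0 / 8))) := by
            intro i j hij
            refine SCALE_anti hF (by linarith [hτ.1]) (by simp) (by positivity) ?_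
            gcongr
            norm_num
          have ht := SCALE_telescope _ ha 9 (by norm_num)
          simp only [pow_zero, one_mul] at ht
          refine le_trans (le_of_eq ?_) (le_trans ht (by norm_cast))
          refine tsum_congr fun i => ?_
          congr 2
          · ring
          · rw [pow_add]
            ring
      _ = _ := lintegral_const_mul' _ _ (by simp)
  exact ne_top_of_le_ne_top (ENNReal.mul_ne_top (by simp) hfin.ne) h2

theorem SCALE_sumH {F : ℂ × ℂ → ℂ} {A B : ℝ} {w : ℝ → ℝ} (hF : GoodF F) (hA : 0 < A)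
    (hAB : A ≤ B) (hw : Wt A B w) {R0 : ℝ} (hR0 : 0 < R0)
    (hfin : af (G F w 0) (64 * R0) < ⊤) :
    ∑' i : ℕ, sH F w (2 ^ i * R0) ≠ ⊤ := by
  have hSH := (G_SH hF hA hAB hw 0).1
  have hk : ∀ k : ℕ, ∑' i : ℕ, (af (G F w 0) (2 ^ k * (64 * (2 ^ i * R0)))
      - af (G F w 0) (2 ^ (k + 1) * (64 * (2 ^ i * R0)))) ≤ af (G F w 0) (64 * R0) := by
    intro k
    have ha : Antitone (fun i : ℕ => af (G F w 0) (2 ^ i * (2 ^ k * (64 * R0)))) := by
      intro i j hij
      refine af_anti hSH (by positivity) ?_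
      gcongr
      norm_num
    have ht := SCALE_telescope _ ha 1 (by norm_num)
    simp only [pow_zero, one_mul, Nat.cast_one] at ht
    refine le_trans (le_of_eq ?_) (le_trans ht ?_)
    · refine tsum_congr fun i => ?_
      congr 2
      · ring
      · rw [pow_add, pow_add]
        ring
    · refine af_anti hSH (by positivity) ?_
      have : (1 : ℝ) ≤ 2 ^ k := one_le_pow₀ (by norm_num)
      nlinarith
  have h2 : ∑' i : ℕ, sH F w (2 ^ i * R0) ≤ 2 * af (G F w 0) (64 * R0) := by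
    calc ∑' i : ℕ, sH F w (2 ^ i * R0)
        = ∑' k : ℕ, ∑' i : ℕ, (ENNReal.ofReal ((1 / 2) ^ k)) *
          (af (G F w 0) (2 ^ k * (64 * (2 ^ i * R0)))
            - af (G F w 0) (2 ^ (k + 1) * (64 * (2 ^ i * R0)))) := by
          unfold sH
          rw [ENNReal.tsum_comm]
      _ ≤ ∑' k : ℕ, ENNReal.ofReal ((1 / 2) ^ k) * af (G F w 0) (64 * R0) := by
          refine ENNReal.tsum_le_tsum fun k => ?_
          rw [ENNReal.tsum_mul_left]
          gcongr
          exact hk k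
      _ = _ := by
          rw [ENNReal.tsum_mul_right, ← ENNReal.ofReal_tsum_of_nonneg (fun n => by positivity)
            summable_geometric_two, tsum_geometric_two]
          simp
  exact ne_top_of_le_ne_top (ENNReal.mul_ne_top (by simp) hfin.ne) h2

theorem SCALE_card {F : ℂ × ℂ → ℂ} {A B : ℝ} {w : ℝ → ℝ} (hF : GoodF F) (hA : 0 < A)
    (hAB : A ≤ B) (hw : Wt A B w) : ∃ C x₀ b₀ R₀ : ℝ, 0 < C ∧ 0 < x₀ ∧ 0 < b₀ ∧ 0 < R₀ ∧
      ∀ (R S : ℝ) (P : Finset (ℕ × ℕ)) (b : ℝ), R₀ ≤ R → 1 / 4 ≤ S → S ≤ R / 8 →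
      (∀ p ∈ P, R ≤ (p.1 : ℝ) ∧ (p.1 : ℝ) ≤ 4 * R ∧ A * p.1 ≤ p.2 ∧ (p.2 : ℝ) ≤ B * p.1 ∧
        F ((p.1 : ℂ), (p.2 : ℂ)) = 0) → Isolated P S → b₀ ≤ b → b ≤ x₀ * R →
      ENNReal.ofReal (P.card / R ^ 2) ≤ ENNReal.ofReal C * sP F A B R
        + ENNReal.ofReal (C / S) * (ENNReal.ofReal (R / b) * (sE F w R + sH F w R)
          + ENNReal.ofReal (b / R) * sN F A B R) := by
  obtain ⟨C6, x₀, b₀, R₀, hC6, hx₀, hb₀, hR₀, hQ⟩ := SCALE_Q hF hA hAB hw
  obtain ⟨C7, R₁, hC7, hR₁, hcnt⟩ := counting hF hA hAB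
  refine ⟨max C7 (C7 * C6), x₀, b₀, max R₀ R₁, lt_max_of_lt_left hC7, hx₀, hb₀,
    lt_max_of_lt_left hR₀, ?_⟩
  intro R S P b hR hS hSR hP hI hb hbx
  have hRR₀ : R₀ ≤ R := le_trans (le_max_left _ _) hR
  have hRR₁ : R₁ ≤ R := le_trans (le_max_right _ _) hR
  have hR0 : 0 < R := lt_of_lt_of_le hR₀ hRR₀
  have hb0 : 0 < b := lt_of_lt_of_le hb₀ hb
  have hS0 : 0 < S := by linarith
  have h := hcnt R S P (ENNReal.ofReal (C6 * S * R ^ 2 / b) *
          (sE F w R + sH F w R + ENNReal.ofReal ((b / R) ^ 2) * sN F A B R)) hRR₁ hS hSR hP hI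
    (fun t ht1 ht2 β hβ => hQ R S t b β hRR₀ hS0.le hSR ht1 ht2 hb hbx hβ)
  have e0 : ENNReal.ofReal (P.card / R ^ 2)
      = ENNReal.ofReal (1 / R) * ENNReal.ofReal (P.card / R) := by
    rw [← ENNReal.ofReal_mul (by positivity)]
    congr 1
    field_simp
  rw [e0]
  calc ENNReal.ofReal (1 / R) * ENNReal.ofReal (P.card / R)
      ≤ ENNReal.ofReal (1 / R) * (ENNReal.ofReal (C7 / S ^ 2) * (ENNReal.ofReal
          (C6 * S * R ^ 2 / b) * (sE F w R + sH F w R + ENNReal.ofReal ((b / R) ^ 2)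
            * sN F A B R)) + ENNReal.ofReal (C7 * R) * sP F A B R) := by
        gcongr
        exact h
    _ = ENNReal.ofReal (1 / R) * ENNReal.ofReal (C7 * R) * sP F A B R
        + ENNReal.ofReal (1 / R) * (ENNReal.ofReal (C7 / S ^ 2) * ENNReal.ofReal
          (C6 * S * R ^ 2 / b)) * (sE F w R + sH F w R + ENNReal.ofReal ((b / R) ^ 2)
            * sN F A B R) := by ring
    _ = ENNReal.ofReal C7 * sP F A B R + ENNReal.ofReal (C7 * C6 / S) *
          (ENNReal.ofReal (R / b) * (sE F w R + sH F w R)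
          + ENNReal.ofReal (b / R) * sN F A B R) := by
        have e1 : ENNReal.ofReal (1 / R) * ENNReal.ofReal (C7 * R) = ENNReal.ofReal C7 := by
          rw [← ENNReal.ofReal_mul (by positivity)]
          congr 1
          field_simp
        have e2 : ENNReal.ofReal (1 / R) * (ENNReal.ofReal (C7 / S ^ 2) * ENNReal.ofReal
            (C6 * S * R ^ 2 / b)) = ENNReal.ofReal (C7 * C6 / S) * ENNReal.ofReal (R / b) := by
          rw [← ENNReal.ofReal_mul (by positivity), ← ENNReal.ofReal_mul (by positivity),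
            ← ENNReal.ofReal_mul (by positivity)]
          congr 1
          field_simp
        have e3 : ENNReal.ofReal (R / b) * ENNReal.ofReal ((b / R) ^ 2)
            = ENNReal.ofReal (b / R) := by
          rw [← ENNReal.ofReal_mul (by positivity)]
          congr 1
          field_simp
        rw [e1, e2, mul_assoc, mul_add (ENNReal.ofReal (R / b)), ← mul_assoc (ENNReal.ofReal (R / b))
          (ENNReal.ofReal ((b / R) ^ 2)), e3]
    _ ≤ _ := by
        gcongr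
        · exact le_max_left _ _
        · exact le_max_right _ _

/-- real form: choice of the displacement. -/
theorem SCALE_choice {x₀ y e N : ℝ} (hx₀ : 0 < x₀) (hy : 0 < y) (hyx : y ≤ x₀) (he : 0 ≤ e)
    (hN : 0 ≤ N) : ∃ x : ℝ, y ≤ x ∧ x ≤ x₀ ∧
      ∀ S : ℝ, 1 / 4 ≤ S → (1 / S) * (e / x + x * N)
        ≤ 4 / x₀ * e + (1 / S) * ((1 + N) * (Real.sqrt e + y)) := by
  have hs : 0 ≤ Real.sqrt e := Real.sqrt_nonneg e
  have hss : Real.sqrt e * Real.sqrt e = e := Real.mul_self_sqrt he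
  by_cases h1 : x₀ ≤ Real.sqrt e
  · refine ⟨x₀, hyx, le_rfl, fun S hS => ?_⟩
    have hS0 : 0 < S := by linarith
    have h2 : (1 / S) * (e / x₀) ≤ 4 / x₀ * e := by
      have : 1 / S ≤ 4 := by
        rw [div_le_iff₀ hS0]
        linarith
      calc (1 / S) * (e / x₀) ≤ 4 * (e / x₀) := by gcongr
        _ = _ := by ring
    have h3 : (1 / S) * (x₀ * N) ≤ (1 / S) * ((1 + N) * (Real.sqrt e + y)) := by
      refine mul_le_mul_of_nonneg_left ?_ (by positivity)
      nlinarith [mul_le_mul_of_nonneg_right h1 hN, mul_nonneg hN hy.le]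
    rw [mul_add]
    linarith
  · rw [not_le] at h1
    by_cases h2 : y ≤ Real.sqrt e
    · refine ⟨Real.sqrt e, h2, h1.le, fun S hS => ?_⟩
      have hS0 : 0 < S := by linarith
      have he0 : 0 < Real.sqrt e := lt_of_lt_of_le hy h2
      have h3 : e / Real.sqrt e = Real.sqrt e := by
        rw [div_eq_iff he0.ne', hss]
      rw [h3]
      have h4 : (1 / S) * (Real.sqrt e + Real.sqrt e * N)
          ≤ (1 / S) * ((1 + N) * (Real.sqrt e + y)) := by
        gcongr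
        nlinarith
      have h5 : 0 ≤ 4 / x₀ * e := by positivity
      linarith
    · rw [not_le] at h2
      refine ⟨y, le_rfl, hyx, fun S hS => ?_⟩
      have hS0 : 0 < S := by linarith
      have h3 : e / y ≤ Real.sqrt e := by
        rw [div_le_iff₀ hy]
        nlinarith
      have h4 : (1 / S) * (e / y + y * N)
          ≤ (1 / S) * ((1 + N) * (Real.sqrt e + y)) := by
        gcongr
        nlinarith
      have h5 : 0 ≤ 4 / x₀ * e := by positivity
      linarith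

theorem scale {F : ℂ × ℂ → ℂ} {A B : ℝ} (hF : GoodF F) (hA : 0 < A) (hAB : A ≤ B) :
    ∃ s : ℕ → ℝ, (∀ j, 0 ≤ s j) ∧ Summable s ∧ ∀ (j : ℕ) (S : ℝ) (P : Finset (ℕ × ℕ)),
      1 / 4 ≤ S → S ≤ 2 ^ j / 8 →
      (∀ p ∈ P, (2 : ℝ) ^ j ≤ (p.1 : ℝ) ∧ (p.1 : ℝ) ≤ 4 * 2 ^ j ∧ A * p.1 ≤ p.2 ∧
        (p.2 : ℝ) ≤ B * p.1 ∧ F ((p.1 : ℂ), (p.2 : ℂ)) = 0) → Isolated P S →
      (P.card : ℝ) / 4 ^ j ≤ s j + Real.sqrt (s j) / S := by
  obtain ⟨w, hw⟩ := exists_wt hA hAB
  obtain ⟨C, x₀, b₀, R₀, hC, hx₀, hb₀, hR₀, hcard⟩ := SCALE_card hF hA hAB hw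
  obtain ⟨ρ₀, hρ₀, hfin⟩ := fin hF hA hAB hw
  -- the first scale
  obtain ⟨j₀, hj₀⟩ : ∃ j₀ : ℕ, max (max R₀ (8 * ρ₀)) (b₀ / x₀) ≤ (2 : ℝ) ^ j₀ := by
    obtain ⟨n, hn⟩ := pow_unbounded_of_one_lt (max (max R₀ (8 * ρ₀)) (b₀ / x₀))
      (by norm_num : (1 : ℝ) < 2)
    exact ⟨n, hn.le⟩
  have hj1 : R₀ ≤ (2 : ℝ) ^ j₀ := le_trans (le_trans (le_max_left _ _) (le_max_left _ _)) hj₀
  have hj2 : 8 * ρ₀ ≤ (2 : ℝ) ^ j₀ :=
    le_trans (le_trans (le_max_right _ _) (le_max_left _ _)) hj₀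
  have hj3 : b₀ / x₀ ≤ (2 : ℝ) ^ j₀ := le_trans (le_max_right _ _) hj₀
  have hfR := hfin ((2 : ℝ) ^ j₀ / 8) (by linarith)
  have hfR2 := (hfin (64 * (2 : ℝ) ^ j₀) (by nlinarith)).2.2
  have hpos2 : (0 : ℝ) < 2 ^ j₀ := by positivity
  have hsumP := SCALE_sumP hF hA hpos2 hfR.1
  have hsumE := SCALE_sumE hF hA hw hpos2 hfR.2.1
  have hsumH := SCALE_sumH hF hA hAB hw hpos2 hfR2
  -- the bound for the type
  set N := (sN F A B ((2 : ℝ) ^ j₀)).toReal with hN
  have hN0 : 0 ≤ N := ENNReal.toReal_nonneg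
  have hNbd : ∀ R : ℝ, (2 : ℝ) ^ j₀ ≤ R → sN F A B R ≤ ENNReal.ofReal N := by
    intro R hR
    have hfR3 : sN F A B ((2 : ℝ) ^ j₀) ≠ ⊤ := hfR.2.1.ne
    rw [hN, ENNReal.ofReal_toReal hfR3]
    refine setLIntegral_mono' measurableSet_Icc fun τ hτ => ?_
    exact SCALE_anti hF (by linarith [hτ.1]) (by simp) (by positivity) (by gcongr)
  have hpowj : ∀ j, j₀ ≤ j → (2 : ℝ) ^ j = 2 ^ (j - j₀) * 2 ^ j₀ := by
    intro j hj
    rw [← pow_add]
    congr 1
    omega
  set p : ℕ → ℝ := fun j => (sP F A B ((2 : ℝ) ^ j)).toReal with hp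
  set e : ℕ → ℝ := fun j => (sE F w ((2 : ℝ) ^ j) + sH F w ((2 : ℝ) ^ j)).toReal with he
  set C9 : ℝ := max (C + C * (4 / x₀)) (2 * (C * (1 + N) * max 1 b₀) ^ 2) with hC9
  have hC9a : C + C * (4 / x₀) ≤ C9 := le_max_left _ _
  have hC9b : 2 * (C * (1 + N) * max 1 b₀) ^ 2 ≤ C9 := le_max_right _ _
  have hC90 : 0 < C9 := lt_of_lt_of_le (by positivity) hC9a
  refine ⟨fun j => if j < j₀ then (((4 * 2 ^ j + 1) * (⌊B * (4 * 2 ^ j)⌋₊ + 1) : ℕ) : ℝ) / 4 ^ j
    else C9 * (p j + e j + (1 / 4) ^ j), ?_, ?_, ?_⟩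
  · intro j
    simp only
    split_ifs
    · positivity
    · have h1 : 0 ≤ p j := ENNReal.toReal_nonneg
      have h2 : 0 ≤ e j := ENNReal.toReal_nonneg
      positivity
  · rw [← summable_nat_add_iff j₀]
    have h1 : Summable (fun i => p (i + j₀)) := by
      have := ENNReal.summable_toReal hsumP
      refine this.congr fun i => ?_
      rw [hp]
      simp only
      rw [pow_add]
    have h2 : Summable (fun i => e (i + j₀)) := by
      have h3 : ∑' i : ℕ, (sE F w (2 ^ i * 2 ^ j₀) + sH F w (2 ^ i * 2 ^ j₀)) ≠ ⊤ := by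
        rw [ENNReal.tsum_add]
        exact ENNReal.add_ne_top.2 ⟨hsumE, hsumH⟩
      refine (ENNReal.summable_toReal h3).congr fun i => ?_
      rw [he]
      simp only
      rw [pow_add]
    have h3 : Summable (fun i => ((1 : ℝ) / 4) ^ (i + j₀)) :=
      (summable_nat_add_iff j₀).2 (summable_geometric_of_lt_one (by norm_num) (by norm_num))
    refine (((h1.add h2).add h3).mul_left C9).congr fun i => ?_
    rw [if_neg (by omega)]
  · intro j S P hS hSR hP hI
    have hS0 : 0 < S := by linarith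
    simp only
    by_cases hj : j < j₀
    · rw [if_pos hj]
      have hcardP : P.card ≤ (4 * 2 ^ j + 1) * (⌊B * (4 * 2 ^ j)⌋₊ + 1) := by
        have hsub : P ⊆ Finset.range (4 * 2 ^ j + 1) ×ˢ Finset.range (⌊B * (4 * 2 ^ j)⌋₊ + 1) := by
          intro q hq
          obtain ⟨h1, h2, h3, h4, h5⟩ := hP q hq
          rw [Finset.mem_product, Finset.mem_range, Finset.mem_range]
          constructor
          · have : q.1 ≤ 4 * 2 ^ j := by exact_mod_cast h2
            omega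
          · have hB : 0 < B := by linarith
            have : q.2 ≤ ⌊B * (4 * 2 ^ j)⌋₊ := by
              apply Nat.le_floor
              refine le_trans h4 ?_
              gcongr
            omega
        have := Finset.card_le_card hsub
        rwa [Finset.card_product, Finset.card_range, Finset.card_range] at this
      have h1 : (P.card : ℝ) / 4 ^ j
          ≤ (((4 * 2 ^ j + 1) * (⌊B * (4 * 2 ^ j)⌋₊ + 1) : ℕ) : ℝ) / 4 ^ j := by
        gcongr
      have h2 : 0 ≤ Real.sqrt ((((4 * 2 ^ j + 1) * (⌊B * (4 * 2 ^ j)⌋₊ + 1) : ℕ) : ℝ) / 4 ^ j) / S :=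
        by positivity
      linarith
    · rw [if_neg hj]
      rw [not_lt] at hj
      have hRj : (2 : ℝ) ^ j₀ ≤ 2 ^ j := pow_le_pow_right₀ (by norm_num) hj
      have hR0 : (0 : ℝ) < 2 ^ j := by positivity
      -- finiteness
      have hPf : sP F A B ((2 : ℝ) ^ j) ≠ ⊤ := by
        rw [hpowj j hj]
        exact ENNReal.ne_top_of_tsum_ne_top hsumP _
      have hEf : sE F w ((2 : ℝ) ^ j) + sH F w ((2 : ℝ) ^ j) ≠ ⊤ := by
        rw [hpowj j hj]
        exact ENNReal.add_ne_top.2 ⟨ENNReal.ne_top_of_tsum_ne_top hsumE _,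
          ENNReal.ne_top_of_tsum_ne_top hsumH _⟩
      have hp0 : 0 ≤ p j := ENNReal.toReal_nonneg
      have he0 : 0 ≤ e j := ENNReal.toReal_nonneg
      have hy : 0 < b₀ / 2 ^ j := by positivity
      have hyx : b₀ / 2 ^ j ≤ x₀ := by
        rw [div_le_iff₀ hR0]
        rw [div_le_iff₀ hx₀] at hj3
        nlinarith
      obtain ⟨x, hx1, hx2, hx3⟩ := SCALE_choice hx₀ hy hyx he0 hN0
      have hx0 : 0 < x := lt_of_lt_of_le hy hx1
      have hxb1 : b₀ ≤ x * 2 ^ j := by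
        rw [div_le_iff₀ hR0] at hx1
        exact hx1
      have hcj := hcard (2 ^ j) S P (x * 2 ^ j) (le_trans hj1 hRj) hS hSR hP hI hxb1
        (by gcongr)
      have hreal : (P.card : ℝ) / (2 ^ j) ^ 2 ≤ C * p j + C / S * (e j / x + x * N) := by
        rw [← ENNReal.ofReal_le_ofReal_iff (by positivity)]
        refine le_trans hcj ?_
        rw [ENNReal.ofReal_add (by positivity) (by positivity), ENNReal.ofReal_mul hC.le,
          ENNReal.ofReal_mul (by positivity : (0:ℝ) ≤ C / S),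
          ENNReal.ofReal_add (by positivity) (by positivity)]
        have i1 : ENNReal.ofReal (p j) = sP F A B ((2 : ℝ) ^ j) := ENNReal.ofReal_toReal hPf
        have i2 : ENNReal.ofReal (2 ^ j / (x * 2 ^ j)) * (sE F w (2 ^ j) + sH F w (2 ^ j))
            = ENNReal.ofReal (e j / x) := by
          rw [← ENNReal.ofReal_toReal hEf, ← ENNReal.ofReal_mul (by positivity)]
          congr 1
          have : (sE F w (2 ^ j) + sH F w (2 ^ j)).toReal = e j := rfl
          rw [this]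
          field_simp
        have i3 : ENNReal.ofReal (x * 2 ^ j / 2 ^ j) * sN F A B (2 ^ j)
            ≤ ENNReal.ofReal (x * N) := by
          rw [mul_div_assoc, div_self hR0.ne', mul_one, ENNReal.ofReal_mul hx0.le]
          gcongr
          exact hNbd _ hRj
        rw [i1, i2]
        gcongr
      have h4 : ((2 : ℝ) ^ j) ^ 2 = 4 ^ j := by
        rw [← pow_mul, mul_comm, pow_mul]
        norm_num
      rw [h4] at hreal
      have hx3S := hx3 S hS
      -- final estimate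
      have hfinal : (P.card : ℝ) / 4 ^ j ≤ C * p j + C * (4 / x₀) * e j
          + (1 / S) * (C * (1 + N) * (Real.sqrt (e j) + b₀ / 2 ^ j)) := by
        calc (P.card : ℝ) / 4 ^ j ≤ C * p j + C / S * (e j / x + x * N) := hreal
          _ = C * p j + C * ((1 / S) * (e j / x + x * N)) := by ring
          _ ≤ C * p j + C * (4 / x₀ * e j + (1 / S) * ((1 + N) * (Real.sqrt (e j)
              + b₀ / 2 ^ j))) := by gcongr
          _ = _ := by ring
      have hq : (1 / 4 : ℝ) ^ j = (1 / 2 ^ j) ^ 2 := by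
        rw [div_pow, div_pow, ← h4]
        simp
      have hs1 : C * p j + C * (4 / x₀) * e j ≤ C9 * (p j + e j + (1 / 4) ^ j) := by
        have i1 : C * p j ≤ C9 * p j := by
          gcongr
          exact le_trans (le_add_of_nonneg_right (by positivity)) hC9a
        have i2 : C * (4 / x₀) * e j ≤ C9 * e j := by
          gcongr
          exact le_trans (le_add_of_nonneg_left (by positivity)) hC9a
        have i3 : 0 ≤ C9 * (1 / 4) ^ j := by positivity
        linarith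
      have hs2 : C * (1 + N) * (Real.sqrt (e j) + b₀ / 2 ^ j)
          ≤ Real.sqrt (C9 * (p j + e j + (1 / 4) ^ j)) := by
        apply Real.le_sqrt_of_sq_le
        have hse : Real.sqrt (e j) ^ 2 = e j := Real.sq_sqrt he0
        have hm1 : (1 : ℝ) ≤ max 1 b₀ := le_max_left _ _
        have hm2 : b₀ ≤ max 1 b₀ := le_max_right _ _
        have i1 : C * (1 + N) * (Real.sqrt (e j) + b₀ / 2 ^ j)
            ≤ C * (1 + N) * max 1 b₀ * (Real.sqrt (e j) + 1 / 2 ^ j) := by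
          have : Real.sqrt (e j) + b₀ / 2 ^ j ≤ max 1 b₀ * (Real.sqrt (e j) + 1 / 2 ^ j) := by
            rw [mul_add]
            have j1 : Real.sqrt (e j) ≤ max 1 b₀ * Real.sqrt (e j) :=
              le_mul_of_one_le_left (Real.sqrt_nonneg _) hm1
            have j2 : b₀ / 2 ^ j ≤ max 1 b₀ * (1 / 2 ^ j) := by
              rw [mul_one_div]
              gcongr
            linarith
          calc _ ≤ C * (1 + N) * (max 1 b₀ * (Real.sqrt (e j) + 1 / 2 ^ j)) := by gcongr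
            _ = _ := by ring
        have i2 : (Real.sqrt (e j) + 1 / 2 ^ j) ^ 2 ≤ 2 * (e j + (1 / 4) ^ j) := by
          rw [hq]
          nlinarith [sq_nonneg (Real.sqrt (e j) - 1 / 2 ^ j)]
        calc (C * (1 + N) * (Real.sqrt (e j) + b₀ / 2 ^ j)) ^ 2
            ≤ (C * (1 + N) * max 1 b₀ * (Real.sqrt (e j) + 1 / 2 ^ j)) ^ 2 := by gcongr
          _ = (C * (1 + N) * max 1 b₀) ^ 2 * (Real.sqrt (e j) + 1 / 2 ^ j) ^ 2 := by ring
          _ ≤ (C * (1 + N) * max 1 b₀) ^ 2 * (2 * (e j + (1 / 4) ^ j)) := by gcongr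
          _ = 2 * (C * (1 + N) * max 1 b₀) ^ 2 * (e j + (1 / 4) ^ j) := by ring
          _ ≤ C9 * (e j + (1 / 4) ^ j) := by gcongr
          _ ≤ C9 * (p j + e j + (1 / 4) ^ j) := by
            gcongr
            linarith
      calc (P.card : ℝ) / 4 ^ j ≤ C * p j + C * (4 / x₀) * e j
          + (1 / S) * (C * (1 + N) * (Real.sqrt (e j) + b₀ / 2 ^ j)) := hfinal
        _ ≤ C9 * (p j + e j + (1 / 4) ^ j)
          + (1 / S) * Real.sqrt (C9 * (p j + e j + (1 / 4) ^ j)) := by gcongr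
        _ = _ := by ring

end Muntz
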