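import Pool.Agent.Lib.MP_dde81e_an.TK2
import Pool.Agent.Lib.MP_dde81e_an.BD

/-! MP_dde81e_an, module SEG : segment lemma and defect lemma (both from BD by scaling) -/

namespace Muntz
open MeasureTheory Set Metric
open scoped ENNReal

/-- Blaschke factor. -/
noncomputable def SEG_B (a z : ℂ) : ℂ := (z - a) / (1 - (starRingEnd ℂ) a * z)

theorem SEG_nl_of_ne {a : ℂ} (ha : a ≠ 0) : nl a = ENNReal.ofReal (-Real.log ‖a‖) := by
  simp [nl, ha]

theorem SEG_nl_one : nl 1 = 0 := by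
  rw [SEG_nl_of_ne one_ne_zero]; simp

theorem SEG_nl_prod (s : Multiset ℂ) (f : ℂ → ℂ) (hf : ∀ a ∈ s, ‖f a‖ ≤ 1) :
    ‖(s.map f).prod‖ ≤ 1 ∧ nl (s.map f).prod = (s.map (fun a => nl (f a))).sum := by
  induction s using Multiset.induction_on with
  | empty => simp [SEG_nl_one]
  | cons a s ih =>
    have ih' := ih (fun b hb => hf b (Multiset.mem_cons_of_mem hb))
    have ha := hf a (Multiset.mem_cons_self a s)
    simp only [Multiset.map_cons, Multiset.prod_cons, Multiset.sum_cons]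
    refine ⟨?_, ?_⟩
    · rw [norm_mul]
      exact mul_le_one₀ ha (norm_nonneg _) ih'.1
    · rw [nl_mul ha ih'.1, ih'.2]

theorem SEG_den {a z : ℂ} (ha : ‖a‖ < 1) (hz : ‖z‖ ≤ 1) : 1 - (starRingEnd ℂ) a * z ≠ 0 := by
  intro h0
  have h1 : (starRingEnd ℂ) a * z = 1 := (sub_eq_zero.1 h0).symm
  have h2 : ‖(starRingEnd ℂ) a * z‖ = 1 := by rw [h1]; simp
  rw [norm_mul, RCLike.norm_conj] at h2
  nlinarith [norm_nonneg a, norm_nonneg z]

theorem SEG_normSq (a z : ℂ) :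
    ‖1 - (starRingEnd ℂ) a * z‖ ^ 2 - ‖z - a‖ ^ 2 = (1 - ‖a‖ ^ 2) * (1 - ‖z‖ ^ 2) := by
  rw [← Complex.normSq_eq_norm_sq, ← Complex.normSq_eq_norm_sq, ← Complex.normSq_eq_norm_sq,
    ← Complex.normSq_eq_norm_sq, Complex.normSq_apply, Complex.normSq_apply,
    Complex.normSq_apply, Complex.normSq_apply]
  simp
  ring

theorem SEG_B_le {a z : ℂ} (ha : ‖a‖ < 1) (hz : ‖z‖ ≤ 1) : ‖SEG_B a z‖ ≤ 1 := by
  have h0 : 0 < ‖1 - (starRingEnd ℂ) a * z‖ := norm_pos_iff.2 (SEG_den ha hz)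
  rw [SEG_B, norm_div, div_le_one h0]
  have h1 := SEG_normSq a z
  have h2 : 0 ≤ (1 - ‖a‖ ^ 2) * (1 - ‖z‖ ^ 2) := by
    apply mul_nonneg <;> nlinarith [norm_nonneg a, norm_nonneg z]
  nlinarith [norm_nonneg (z - a)]

theorem SEG_B_lower {a z : ℂ} (ha : ‖a‖ < 1) (hz : ‖z‖ ≤ 1) :
    ‖z - a‖ / 2 ≤ ‖SEG_B a z‖ := by
  have h0 : 0 < ‖1 - (starRingEnd ℂ) a * z‖ := norm_pos_iff.2 (SEG_den ha hz)
  have h2 : ‖1 - (starRingEnd ℂ) a * z‖ ≤ 2 := by
    calc ‖1 - (starRingEnd ℂ) a * z‖ ≤ ‖(1:ℂ)‖ + ‖(starRingEnd ℂ) a * z‖ := norm_sub_le _ _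
      _ ≤ 1 + 1 := by
        rw [norm_one, norm_mul, RCLike.norm_conj]
        nlinarith [norm_nonneg a, norm_nonneg z]
      _ = 2 := by norm_num
  rw [SEG_B, norm_div]
  exact div_le_div_of_nonneg_left (norm_nonneg _) h0 h2

theorem SEG_B_upper {θ θ' : ℝ} (hθ0 : 0 ≤ θ) (hθ : θ < 1) (hθ'0 : 0 ≤ θ') (hθ' : θ' < 1) {a z : ℂ}
    (ha : ‖a‖ ≤ θ') (hz : ‖z‖ ≤ θ) :
    ENNReal.ofReal ((1 - θ' ^ 2) * (1 - θ ^ 2) / 8) ≤ nl (SEG_B a z) := by
  by_cases hB : SEG_B a z = 0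
  · rw [hB, nl_zero]; exact le_top
  rw [SEG_nl_of_ne hB]
  apply ENNReal.ofReal_le_ofReal
  have ha1 : ‖a‖ < 1 := by linarith
  have hz1 : ‖z‖ ≤ 1 := by linarith
  have h0 : 0 < ‖1 - (starRingEnd ℂ) a * z‖ := norm_pos_iff.2 (SEG_den ha1 hz1)
  have h2 : ‖1 - (starRingEnd ℂ) a * z‖ ≤ 2 := by
    calc ‖1 - (starRingEnd ℂ) a * z‖ ≤ ‖(1:ℂ)‖ + ‖(starRingEnd ℂ) a * z‖ := norm_sub_le _ _
      _ ≤ 1 + 1 := by
        rw [norm_one, norm_mul, RCLike.norm_conj]
        nlinarith [norm_nonneg a, norm_nonneg z]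
      _ = 2 := by norm_num
  set κ := (1 - θ' ^ 2) * (1 - θ ^ 2) with hκ
  have h3 : ‖SEG_B a z‖ ^ 2 ≤ 1 - κ / 4 := by
    rw [SEG_B, norm_div, div_pow, div_le_iff₀ (by positivity)]
    have h1 := SEG_normSq a z
    have h4 : κ ≤ (1 - ‖a‖ ^ 2) * (1 - ‖z‖ ^ 2) := by
      rw [hκ]
      apply mul_le_mul
      · nlinarith [norm_nonneg a]
      · nlinarith [norm_nonneg z]
      · nlinarith
      · nlinarith [norm_nonneg a]
    have h5 : 0 ≤ κ := by
      rw [hκ]; apply mul_nonneg <;> nlinarith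
    have h6 : ‖1 - (starRingEnd ℂ) a * z‖ ^ 2 ≤ 4 := by nlinarith
    nlinarith
  have h7 : 0 < ‖SEG_B a z‖ := norm_pos_iff.2 hB
  have h8 : Real.log (‖SEG_B a z‖ ^ 2) ≤ ‖SEG_B a z‖ ^ 2 - 1 :=
    Real.log_le_sub_one_of_pos (by positivity)
  rw [Real.log_pow] at h8
  push_cast at h8
  linarith

theorem SEG_log_int (p : ℝ) :
    ∫⁻ x in Icc (p - 2) (p + 2), nl (((x - p) / 2 : ℝ) : ℂ) ≤ ENNReal.ofReal 4 := by
  have hint : IntervalIntegrable (fun x : ℝ => -Real.log ((x - p) / 2)) volume (p - 2) (p + 2) := by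
    have h1 : IntervalIntegrable (fun x : ℝ => Real.log x) volume ((p - 2 - p) / 2)
      ((p + 2 - p) / 2) := intervalIntegral.intervalIntegrable_log'
    have h2 : IntervalIntegrable (fun x : ℝ => Real.log ((x - p) / 2)) volume (p - 2) (p + 2) := by
      have h3 := (h1.comp_mul_right (c := (2:ℝ)⁻¹))
      have h4 := h3.comp_sub_right p
      convert h4 using 1 <;> field_simp <;> ring
    exact h2.neg
  have hae : ∀ᵐ x ∂(volume.restrict (Icc (p - 2) (p + 2))),
      nl (((x - p) / 2 : ℝ) : ℂ) = ENNReal.ofReal (-Real.log ((x - p) / 2)) := by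
    have h1 : ∀ᵐ x ∂(volume.restrict (Icc (p - 2) (p + 2))), x ≠ p := by
      apply ae_restrict_of_ae
      filter_upwards [(Set.countable_singleton p).ae_notMem volume] with x hx
      simpa using hx
    filter_upwards [h1] with x hx
    have h2 : (x - p) / 2 ≠ 0 := div_ne_zero (sub_ne_zero.2 hx) two_ne_zero
    rw [SEG_nl_of_ne (by exact_mod_cast h2), Complex.norm_real, Real.norm_eq_abs, Real.log_abs]
  rw [lintegral_congr_ae hae, ← ofReal_integral_eq_lintegral_ofReal]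
  · apply ENNReal.ofReal_le_ofReal
    rw [integral_Icc_eq_integral_Ioc, ← intervalIntegral.integral_of_le (by linarith),
      intervalIntegral.integral_neg]
    have h5 : ∫ x in (p - 2)..(p + 2), Real.log ((x - p) / 2) = -4 := by
      rw [intervalIntegral.integral_comp_sub_right (fun x => Real.log (x / 2)) p,
        intervalIntegral.integral_comp_div (fun x => Real.log x) two_ne_zero, integral_log]
      have e1 : (p + 2 - p) / 2 = 1 := by ring
      have e2 : (p - 2 - p) / 2 = -1 := by ring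
      rw [e1, e2, Real.log_neg_eq_log, Real.log_one]
      norm_num
    rw [h5]; norm_num
  · rw [← IntegrableOn, integrableOn_Icc_iff_integrableOn_Ioc]
    exact (intervalIntegrable_iff_integrableOn_Ioc_of_le (by linarith)).1 hint
  · rw [Filter.EventuallyLE, ae_restrict_iff' measurableSet_Icc]
    filter_upwards with x hx
    simp only [Pi.zero_apply, Left.nonneg_neg_iff]
    rw [← Real.log_abs]
    apply Real.log_nonpos (abs_nonneg _)
    rw [abs_div, abs_of_pos (by norm_num : (0:ℝ) < 2), div_le_one (by norm_num)]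
    exact abs_le.2 ⟨by linarith [hx.1], by linarith [hx.2]⟩

theorem SEG_B_int {a : ℂ} (ha : ‖a‖ < 1) {α β y : ℝ}
    (hin : ∀ x ∈ Icc α β, (x : ℂ) + (y : ℂ) * Complex.I ∈ closedBall (0:ℂ) 1) :
    ∫⁻ x in Icc α β, nl (SEG_B a ((x : ℂ) + (y : ℂ) * Complex.I)) ≤ ENNReal.ofReal 4 := by
  have hx : ∀ x ∈ Icc α β, |x| ≤ 1 := by
    intro x hx
    have h1 := hin x hx
    have h2 := Complex.abs_re_le_norm ((x : ℂ) + (y : ℂ) * Complex.I)
    simp at h1 h2
    exact h2.trans h1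
  have ha1 : |a.re| ≤ 1 := (Complex.abs_re_le_norm a).trans ha.le
  calc ∫⁻ x in Icc α β, nl (SEG_B a ((x : ℂ) + (y : ℂ) * Complex.I))
      ≤ ∫⁻ x in Icc α β, nl (((x - a.re) / 2 : ℝ) : ℂ) := by
        apply setLIntegral_mono' measurableSet_Icc
        intro x hx'
        apply nl_of_norm_le
        refine le_trans ?_ (SEG_B_lower ha (by simpa using hin x hx'))
        rw [Complex.norm_real, Real.norm_eq_abs, abs_div, abs_of_pos (by norm_num : (0:ℝ) < 2)]
        apply div_le_div_of_nonneg_right _ (by norm_num)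
        have := Complex.abs_re_le_norm ((x : ℂ) + (y : ℂ) * Complex.I - a)
        simpa using this
    _ ≤ ∫⁻ x in Icc (a.re - 2) (a.re + 2), nl (((x - a.re) / 2 : ℝ) : ℂ) := by
        apply lintegral_mono_set
        intro x hx'
        obtain ⟨h1, h2⟩ := abs_le.1 (hx x hx')
        obtain ⟨h3, h4⟩ := abs_le.1 ha1
        exact ⟨by linarith, by linarith⟩
    _ ≤ ENNReal.ofReal 4 := SEG_log_int a.re

theorem SEG_measB (a : ℂ) : Measurable (fun z => nl (SEG_B a z)) := by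
  apply nl_continuous.measurable.comp
  unfold SEG_B
  fun_prop

theorem SEG_meas_sum {X : Type*} [MeasurableSpace X] (s : Multiset ℂ) (f : X → ℂ)
    (hf : Measurable f) :
    Measurable (fun x => (s.map (fun a => nl (SEG_B a (f x)))).sum) := by
  induction s using Multiset.induction_on with
  | empty => simp
  | cons a s ih =>
    simp only [Multiset.map_cons, Multiset.sum_cons]
    exact ((SEG_measB a).comp hf).add ih

theorem SEG_lintegral_sum {X : Type*} [MeasurableSpace X] (μ : Measure X) (s : Multiset ℂ)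
    (f : X → ℂ) (hf : Measurable f) :
    ∫⁻ x, (s.map (fun a => nl (SEG_B a (f x)))).sum ∂μ =
      (s.map (fun a => ∫⁻ x, nl (SEG_B a (f x)) ∂μ)).sum := by
  induction s using Multiset.induction_on with
  | empty => simp
  | cons a s ih =>
    simp only [Multiset.map_cons, Multiset.sum_cons]
    rw [lintegral_add_left (f := fun x => nl (SEG_B a (f x))) ((SEG_measB a).comp hf), ih]

theorem SEG_sum_le (s : Multiset ℂ) (f : ℂ → ℝ≥0∞) (C : ℝ≥0∞) (h : ∀ a ∈ s, f a ≤ C) :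
    (s.map f).sum ≤ s.card * C := by
  have := Multiset.sum_le_card_nsmul (s.map f) C (by
    intro x hx
    obtain ⟨a, ha, rfl⟩ := Multiset.mem_map.1 hx
    exact h a ha)
  simpa using this

theorem SEG_le_sum (s : Multiset ℂ) (f : ℂ → ℝ≥0∞) (C : ℝ≥0∞) (h : ∀ a ∈ s, C ≤ f a) :
    s.card * C ≤ (s.map f).sum := by
  have := Multiset.card_nsmul_le_sum (s := s.map f) (a := C) (by
    intro x hx
    obtain ⟨a, ha, rfl⟩ := Multiset.mem_map.1 hx
    exact h a ha)
  simpa using this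

/-- circle means of nonnegative functions -/
theorem SEG_cav_ofReal {u : ℂ → ℝ≥0∞} {F : ℂ → ℝ} {c : ℂ} {R : ℝ} (hR : R ≠ 0)
    (hF : CircleIntegrable F c R) (S : Set ℂ) (hS : S.Countable)
    (h0 : ∀ z ∈ sphere c |R|, z ∉ S → 0 ≤ F z)
    (hu : ∀ z ∈ sphere c |R|, z ∉ S → u z = ENNReal.ofReal (F z)) :
    cav u c R = ENNReal.ofReal (Real.circleAverage F c R) := by
  have hae : ∀ᵐ t ∂(volume.restrict (Ioc (0:ℝ) (2 * Real.pi))), circleMap c R t ∉ S := by
    apply ae_restrict_of_ae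
    exact (hS.preimage_circleMap c hR).ae_notMem volume
  have hpi : (0:ℝ) ≤ 2 * Real.pi := by positivity
  have h1 : ∫⁻ t in Ioc (0:ℝ) (2 * Real.pi), u (circleMap c R t)
      = ENNReal.ofReal (∫ t in Ioc (0:ℝ) (2 * Real.pi), F (circleMap c R t)) := by
    rw [ofReal_integral_eq_lintegral_ofReal]
    · apply lintegral_congr_ae
      filter_upwards [hae] with t ht
      exact hu _ (circleMap_mem_sphere' c R t) ht
    · exact (intervalIntegrable_iff_integrableOn_Ioc_of_le hpi).1 hF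
    · filter_upwards [hae] with t ht
      exact h0 _ (circleMap_mem_sphere' c R t) ht
  rw [cav, h1, ← ENNReal.ofReal_mul (by positivity), Real.circleAverage_def,
    intervalIntegral.integral_of_le hpi, smul_eq_mul]
  congr 2
  simp

theorem SEG_cav_free {g : ℂ → ℂ} {c : ℂ} {R : ℝ} (hR : 0 < R)
    (hg : AnalyticOnNhd ℂ g (closedBall c R)) (hb : ∀ z ∈ closedBall c R, ‖g z‖ ≤ 1)
    (hg0 : ∀ z ∈ closedBall c R, g z ≠ 0) :
    cav (fun z => nl (g z)) c R = nl (g c) := by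
  have habs : |R| = R := abs_of_pos hR
  have hmer : MeromorphicOn g (sphere c |R|) := by
    intro z hz
    rw [habs] at hz
    exact (hg z (sphere_subset_closedBall hz)).meromorphicAt
  have hci := hmer.circleIntegrable_log_norm
  have hav : Real.circleAverage (fun z => Real.log ‖g z‖) c R = Real.log ‖g c‖ :=
    AnalyticOnNhd.circleAverage_log_norm_of_ne_zero (by rwa [habs]) (by rwa [habs])
  rw [SEG_cav_ofReal (F := fun z => - Real.log ‖g z‖) hR.ne' hci.neg ∅ Set.countable_empty]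
  · have : Real.circleAverage (fun z => - Real.log ‖g z‖) c R = - Real.log ‖g c‖ := by
      have := Real.circleAverage_fun_smul (a := (-1:ℝ)) (f := fun z => Real.log ‖g z‖)
        (c := c) (R := R)
      simp only [smul_eq_mul, neg_one_mul] at this
      rw [this, hav]
    rw [this, SEG_nl_of_ne (hg0 c (by simp [hR.le]))]
  · intro z hz _
    rw [habs] at hz
    have hz' := sphere_subset_closedBall hz
    simp only [Left.nonneg_neg_iff]
    exact Real.log_nonpos (norm_nonneg _) (hb z hz')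
  · intro z hz _
    rw [habs] at hz
    exact SEG_nl_of_ne (hg0 z (sphere_subset_closedBall hz))

/-- one step of the Harnack chain. -/
theorem SEG_step {g : ℂ → ℂ} {ρ : ℝ} {x z : ℂ} (hρ : 0 < ρ)
    (hg : AnalyticOnNhd ℂ g (closedBall x ρ)) (hb : ∀ z ∈ closedBall x ρ, ‖g z‖ ≤ 1)
    (hg0 : ∀ z ∈ closedBall x ρ, g z ≠ 0) (hz : ‖z - x‖ ≤ ρ / 2) :
    nl (g x) ≤ ENNReal.ofReal 3 * nl (g z) := by
  have h1 := harnack_lower (θ := 1 / 2) (w := z) hρ hg hb (by norm_num) (by norm_num)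
    (by rw [mem_closedBall, dist_eq_norm]; linarith)
  rw [SEG_cav_free hρ hg hb hg0] at h1
  have h2 : ENNReal.ofReal 3 * ENNReal.ofReal ((1 - 1 / 2) / (1 + 1 / 2)) = 1 := by
    rw [← ENNReal.ofReal_mul (by norm_num)]
    norm_num
  calc nl (g x) = ENNReal.ofReal 3 * ENNReal.ofReal ((1 - 1 / 2) / (1 + 1 / 2)) * nl (g x) := by
        rw [h2, one_mul]
    _ = ENNReal.ofReal 3 * (ENNReal.ofReal ((1 - 1 / 2) / (1 + 1 / 2)) * nl (g x)) := by
        rw [mul_assoc]
    _ ≤ ENNReal.ofReal 3 * nl (g z) := mul_le_mul_right h1 _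

theorem SEG_chain {θ : ℝ} (_hθ : 0 < θ) (hθ1 : θ < 1) : ∃ C : ℝ, 0 < C ∧
    ∀ (g : ℂ → ℂ), AnalyticOnNhd ℂ g (closedBall 0 1) → (∀ z ∈ closedBall (0:ℂ) 1, ‖g z‖ ≤ 1) →
      (∀ z ∈ closedBall (0:ℂ) ((1 + θ) / 2), g z ≠ 0) →
      ∀ x ∈ closedBall (0:ℂ) θ, ∀ z ∈ closedBall (0:ℂ) θ,
        nl (g x) ≤ ENNReal.ofReal C * nl (g z) := by
  set ρ := (1 - θ) / 2 with hρ
  have hρ0 : 0 < ρ := by rw [hρ]; linarith
  obtain ⟨N, hN⟩ := exists_nat_gt (4 / ρ)
  have hN0 : 0 < N := by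
    have : (0:ℝ) < N := lt_trans (by positivity) hN
    exact_mod_cast this
  refine ⟨3 ^ N, by positivity, ?_⟩
  intro g hg hb hg0 x hx z hz
  have hx' : ‖x‖ ≤ θ := by simpa using hx
  have hz' : ‖z‖ ≤ θ := by simpa using hz
  have hsub : ∀ w : ℂ, ‖w‖ ≤ θ → closedBall w ρ ⊆ closedBall (0:ℂ) ((1 + θ) / 2) := by
    intro w hw u hu
    rw [mem_closedBall, dist_eq_norm] at hu
    rw [mem_closedBall, dist_zero_right]
    calc ‖u‖ = ‖(u - w) + w‖ := by ring_nf
      _ ≤ ‖u - w‖ + ‖w‖ := norm_add_le _ _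
      _ ≤ ρ + θ := add_le_add hu hw
      _ = (1 + θ) / 2 := by rw [hρ]; ring
  have hsub1 : closedBall (0:ℂ) ((1 + θ) / 2) ⊆ closedBall (0:ℂ) 1 :=
    closedBall_subset_closedBall (by linarith)
  have key : ∀ k : ℕ, k ≤ N → nl (g x) ≤
      ENNReal.ofReal (3 ^ k) * nl (g (x + ((k : ℝ) / N : ℝ) * (z - x))) := by
    intro k
    induction k with
    | zero => intro _; simp
    | succ k ih =>
      intro hk
      have ih' := ih (Nat.le_of_succ_le hk)
      have hkN : (k : ℝ) / N ≤ 1 := by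
        rw [div_le_one (by exact_mod_cast hN0)]
        exact_mod_cast Nat.le_of_succ_le hk
      have hk0 : 0 ≤ (k : ℝ) / N := by positivity
      set w : ℂ := x + ((k : ℝ) / N : ℝ) * (z - x) with hw
      set w' : ℂ := x + (((k + 1 : ℕ) : ℝ) / N : ℝ) * (z - x) with hw'
      have hwn : ‖w‖ ≤ θ := by
        have e : w = ((1 - (k : ℝ) / N : ℝ) : ℂ) * x + ((k : ℝ) / N : ℝ) * z := by
          rw [hw]; push_cast; ring
        rw [e]
        calc _ ≤ ‖((1 - (k : ℝ) / N : ℝ) : ℂ) * x‖ + ‖(((k : ℝ) / N : ℝ) : ℂ) * z‖ := norm_add_le _ _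
          _ ≤ (1 - (k : ℝ) / N) * θ + (k : ℝ) / N * θ := by
            rw [norm_mul, norm_mul, Complex.norm_real, Complex.norm_real, Real.norm_eq_abs,
              Real.norm_eq_abs, abs_of_nonneg (by linarith), abs_of_nonneg hk0]
            exact add_le_add (mul_le_mul_of_nonneg_left hx' (by linarith))
              (mul_le_mul_of_nonneg_left hz' hk0)
          _ = θ := by ring
      have hd : ‖w' - w‖ ≤ ρ / 2 := by
        have e : w' - w = ((1 / N : ℝ) : ℂ) * (z - x) := by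
          rw [hw, hw']; push_cast; ring
        rw [e, norm_mul, Complex.norm_real, Real.norm_eq_abs, abs_of_nonneg (by positivity)]
        have h1 : ‖z - x‖ ≤ 2 := by
          calc ‖z - x‖ ≤ ‖z‖ + ‖x‖ := norm_sub_le _ _
            _ ≤ 2 := by linarith
        have hNp : (0:ℝ) < N := by exact_mod_cast hN0
        have h2 : 4 < ρ * N := by
          rw [div_lt_iff₀ hρ0] at hN; linarith
        rw [div_mul_eq_mul_div, one_mul, div_le_iff₀ hNp]
        nlinarith
      have hst := SEG_step hρ0 (hg.mono ((hsub w hwn).trans hsub1))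
        (fun u hu => hb u (hsub1 (hsub w hwn hu))) (fun u hu => hg0 u (hsub w hwn hu)) hd
      calc nl (g x) ≤ ENNReal.ofReal (3 ^ k) * nl (g w) := ih'
        _ ≤ ENNReal.ofReal (3 ^ k) * (ENNReal.ofReal 3 * nl (g w')) := mul_le_mul_right hst _
        _ = ENNReal.ofReal (3 ^ (k + 1)) * nl (g w') := by
          rw [← mul_assoc, ← ENNReal.ofReal_mul (by positivity), pow_succ]
  have hfin := key N le_rfl
  have e : x + ((N : ℝ) / N : ℝ) * (z - x) = z := by
    rw [div_self (by exact_mod_cast hN0.ne')]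
    push_cast; ring
  rwa [e] at hfin

/-- decomposition data used in both lemmas. -/
theorem SEG_decomp {θ : ℝ} (hθ : 0 < θ) (hθ1 : θ < 1) : ∃ κ C : ℝ, 0 < κ ∧ 0 < C ∧
    ∀ (H : ℂ → ℂ) (z₀ : ℂ), AnalyticOnNhd ℂ H (closedBall 0 1) →
      (∀ z ∈ closedBall (0:ℂ) 1, ‖H z‖ ≤ 1) → z₀ ∈ closedBall (0:ℂ) θ → H z₀ ≠ 0 →
      ∃ (s : Multiset ℂ) (g : ℂ → ℂ), (∀ a ∈ s, ‖a‖ < 1) ∧
        AnalyticOnNhd ℂ g (closedBall 0 1) ∧ (∀ z ∈ closedBall (0:ℂ) 1, ‖g z‖ ≤ 1) ∧
        (∀ z ∈ closedBall (0:ℂ) θ, g z ≠ 0) ∧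
        (∀ z ∈ closedBall (0:ℂ) 1, nl (H z) = (s.map (fun a => nl (SEG_B a z))).sum + nl (g z)) ∧
        (s.card * ENNReal.ofReal κ ≤ nl (H z₀)) ∧
        (∀ x ∈ closedBall (0:ℂ) θ, nl (g x) ≤ ENNReal.ofReal C * nl (H z₀)) := by
  obtain ⟨C, hC, hch⟩ := SEG_chain hθ hθ1
  refine ⟨(1 - ((1 + θ) / 2) ^ 2) * (1 - θ ^ 2) / 8, C, ?_, hC, ?_⟩
  · have h1 : 0 < 1 - ((1 + θ) / 2) ^ 2 := by nlinarith
    have h2 : 0 < 1 - θ ^ 2 := by nlinarith
    positivity
  intro H z₀ hH hb hz₀ hH0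
  have hsub : closedBall (0:ℂ) θ ⊆ closedBall (0:ℂ) 1 := closedBall_subset_closedBall hθ1.le
  obtain ⟨s, g, hs, hg, hgb, hg0, hfac⟩ := blaschke_decomp (θ := (1 + θ) / 2) (by linarith)
    (by linarith) hH hb ⟨z₀, hsub hz₀, hH0⟩
  have hs1 : ∀ a ∈ s, ‖a‖ < 1 := fun a ha => lt_of_le_of_lt (hs a ha) (by linarith)
  have hdec : ∀ z ∈ closedBall (0:ℂ) 1,
      nl (H z) = (s.map (fun a => nl (SEG_B a z))).sum + nl (g z) := by
    intro z hz
    have hz' : ‖z‖ ≤ 1 := by simpa using hz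
    have h1 := SEG_nl_prod s (fun a => SEG_B a z) (fun a ha => SEG_B_le (hs1 a ha) hz')
    have h2 : H z = (s.map (fun a => SEG_B a z)).prod * g z := hfac z hz
    rw [h2, nl_mul h1.1 (hgb z hz), h1.2]
  have hz₀' : ‖z₀‖ ≤ θ := by simpa using hz₀
  refine ⟨s, g, hs1, hg, hgb, fun z hz => hg0 z (closedBall_subset_closedBall (by linarith) hz),
    hdec, ?_, ?_⟩
  · rw [hdec z₀ (hsub hz₀)]
    refine le_trans (SEG_le_sum s (fun a => nl (SEG_B a z₀)) _ ?_) le_self_add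
    intro a ha
    exact SEG_B_upper hθ.le hθ1 (by linarith) (by linarith) (hs a ha) hz₀'
  · intro x hx
    refine (hch g hg hgb hg0 x hx z₀ hz₀).trans (mul_le_mul_right ?_ _)
    rw [hdec z₀ (hsub hz₀)]
    exact le_add_self

theorem SEG_seg1 {θ : ℝ} (hθ : 0 < θ) (hθ1 : θ < 1) : ∃ C : ℝ, 0 < C ∧
    ∀ (H : ℂ → ℂ) (z₀ : ℂ) (α β y : ℝ), AnalyticOnNhd ℂ H (closedBall 0 1) →
      (∀ z ∈ closedBall (0:ℂ) 1, ‖H z‖ ≤ 1) → z₀ ∈ closedBall (0:ℂ) θ → α ≤ β →
      (∀ x ∈ Icc α β, (x : ℂ) + (y : ℂ) * Complex.I ∈ closedBall (0:ℂ) θ) →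
      ∫⁻ x in Icc α β, nl (H ((x : ℂ) + (y : ℂ) * Complex.I)) ≤ ENNReal.ofReal C * nl (H z₀) := by
  obtain ⟨κ, C, hκ, hC, hdec⟩ := SEG_decomp hθ hθ1
  refine ⟨4 / κ + 2 * C, by positivity, ?_⟩
  intro H z₀ α β y hH hb hz₀ hαβ hin
  by_cases hH0 : H z₀ = 0
  · rw [hH0, nl_zero, ENNReal.mul_top (by simp; positivity)]
    exact le_top
  obtain ⟨s, g, hs, hg, hgb, hg0, hd, hcard, hgu⟩ := hdec H z₀ hH hb hz₀ hH0
  have hsub : closedBall (0:ℂ) θ ⊆ closedBall (0:ℂ) 1 := closedBall_subset_closedBall hθ1.le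
  have hlen : β - α ≤ 2 := by
    have h1 := hin α ⟨le_rfl, hαβ⟩
    have h2 := hin β ⟨hαβ, le_rfl⟩
    have h3 := Complex.abs_re_le_norm ((α : ℂ) + (y : ℂ) * Complex.I)
    have h4 := Complex.abs_re_le_norm ((β : ℂ) + (y : ℂ) * Complex.I)
    simp at h1 h2 h3 h4
    obtain ⟨h5, h6⟩ := abs_le.1 (h3.trans h1)
    obtain ⟨h7, h8⟩ := abs_le.1 (h4.trans h2)
    linarith
  have hmf : Measurable (fun x : ℝ => (x : ℂ) + (y : ℂ) * Complex.I) := by fun_prop
  calc ∫⁻ x in Icc α β, nl (H ((x : ℂ) + (y : ℂ) * Complex.I))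
      = ∫⁻ x in Icc α β, ((s.map (fun a => nl (SEG_B a ((x : ℂ) + (y : ℂ) * Complex.I)))).sum
          + nl (g ((x : ℂ) + (y : ℂ) * Complex.I))) := by
        apply setLIntegral_congr_fun measurableSet_Icc
        intro x hx
        exact hd _ (hsub (hin x hx))
    _ = (s.map (fun a => ∫⁻ x in Icc α β, nl (SEG_B a ((x : ℂ) + (y : ℂ) * Complex.I)))).sum
          + ∫⁻ x in Icc α β, nl (g ((x : ℂ) + (y : ℂ) * Complex.I)) := by
        rw [lintegral_add_left (SEG_meas_sum s _ hmf), SEG_lintegral_sum _ s _ hmf]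
    _ ≤ s.card * ENNReal.ofReal 4
          + ∫⁻ x in Icc α β, ENNReal.ofReal C * nl (H z₀) := by
        apply add_le_add
        · apply SEG_sum_le
          intro a ha
          exact SEG_B_int (hs a ha) (fun x hx => hsub (hin x hx))
        · apply setLIntegral_mono' measurableSet_Icc
          intro x hx
          exact hgu _ (hin x hx)
    _ ≤ ENNReal.ofReal (4 / κ) * nl (H z₀) + ENNReal.ofReal (2 * C) * nl (H z₀) := by
        apply add_le_add
        · have h1 : ENNReal.ofReal 4 = ENNReal.ofReal (4 / κ) * ENNReal.ofReal κ := by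
            rw [← ENNReal.ofReal_mul (by positivity), div_mul_cancel₀ _ hκ.ne']
          rw [h1, mul_left_comm]
          exact mul_le_mul_right hcard _
        · rw [setLIntegral_const, Real.volume_Icc]
          calc ENNReal.ofReal C * nl (H z₀) * ENNReal.ofReal (β - α)
              ≤ ENNReal.ofReal C * nl (H z₀) * ENNReal.ofReal 2 :=
                mul_le_mul_right (ENNReal.ofReal_le_ofReal hlen) _
            _ = ENNReal.ofReal (2 * C) * nl (H z₀) := by
                rw [ENNReal.ofReal_mul (by norm_num : (0:ℝ) ≤ 2)]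
                ring
    _ = ENNReal.ofReal (4 / κ + 2 * C) * nl (H z₀) := by
        rw [ENNReal.ofReal_add (by positivity) (by positivity), add_mul]

/-- scaling of an analytic function on a closed ball to the unit ball. -/
theorem SEG_scale {c : ℂ} {r : ℝ} {h : ℂ → ℂ} (hr : 0 < r)
    (hh : AnalyticOnNhd ℂ h (closedBall c r)) (hb : ∀ z ∈ closedBall c r, ‖h z‖ ≤ 1) :
    AnalyticOnNhd ℂ (fun ζ => h (c + (r : ℂ) * ζ)) (closedBall 0 1) ∧
      ∀ ζ ∈ closedBall (0:ℂ) 1, ‖h (c + (r : ℂ) * ζ)‖ ≤ 1 := by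
  have hmap : ∀ ζ ∈ closedBall (0:ℂ) 1, c + (r : ℂ) * ζ ∈ closedBall c r := by
    intro ζ hζ
    have : ‖ζ‖ ≤ 1 := by simpa using hζ
    rw [mem_closedBall, dist_eq_norm, add_sub_cancel_left, norm_mul, Complex.norm_real,
      Real.norm_eq_abs, abs_of_pos hr]
    nlinarith
  refine ⟨?_, fun ζ hζ => hb _ (hmap ζ hζ)⟩
  intro ζ hζ
  have h1 := hh _ (hmap ζ hζ)
  exact h1.comp_of_eq (by fun_prop) rfl

theorem seg (θ : ℝ) (hθ : 0 < θ) (hθ1 : θ < 1) : ∃ C : ℝ, 0 < C ∧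
    ∀ (c : ℂ) (r : ℝ) (h : ℂ → ℂ) (z₀ : ℂ) (a b y : ℝ), 0 < r →
      AnalyticOnNhd ℂ h (closedBall c r) → (∀ z ∈ closedBall c r, ‖h z‖ ≤ 1) →
      z₀ ∈ closedBall c (θ * r) → a ≤ b →
      (∀ x ∈ Icc a b, (x : ℂ) + (y : ℂ) * Complex.I ∈ closedBall c (θ * r)) →
      ∫⁻ x in Icc a b, nl (h ((x : ℂ) + (y : ℂ) * Complex.I))
        ≤ ENNReal.ofReal (C * r) * nl (h z₀) := by
  obtain ⟨C, hC, hmain⟩ := SEG_seg1 hθ hθ1
  refine ⟨C, hC, ?_⟩
  intro c r h z₀ a b y hr hh hb hz₀ hab hin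
  obtain ⟨hA, hB⟩ := SEG_scale hr hh hb
  have hrc : (r : ℂ) ≠ 0 := by exact_mod_cast hr.ne'
  set α := (a - c.re) / r with hα
  set β := (b - c.re) / r with hβ
  set η := (y - c.im) / r with hη
  set ζ₀ : ℂ := (z₀ - c) / r with hζ₀
  have hback : c + (r : ℂ) * ζ₀ = z₀ := by
    rw [hζ₀]; field_simp; ring
  have hpt : ∀ x : ℝ, c + (r : ℂ) * ((x : ℂ) + (η : ℂ) * Complex.I)
      = ((c.re + r * x : ℝ) : ℂ) + (y : ℂ) * Complex.I := by
    intro x
    apply Complex.ext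
    · simp
    · simp [hη]
      field_simp
      ring
  have hmem : ∀ ζ : ℂ, c + (r : ℂ) * ζ ∈ closedBall c (θ * r) → ζ ∈ closedBall (0:ℂ) θ := by
    intro ζ hζ
    rw [mem_closedBall, dist_eq_norm, add_sub_cancel_left, norm_mul, Complex.norm_real,
      Real.norm_eq_abs, abs_of_pos hr] at hζ
    rw [mem_closedBall, dist_zero_right]
    nlinarith
  have h1 := hmain (fun ζ => h (c + (r : ℂ) * ζ)) ζ₀ α β η hA hB
    (hmem _ (by rw [hback]; exact hz₀))
    (by rw [hα, hβ]; gcongr)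
    (by
      intro x hx
      apply hmem
      rw [hpt]
      apply hin
      rw [hα, hβ, mem_Icc, div_le_iff₀ hr, le_div_iff₀ hr] at hx
      exact ⟨by linarith [hx.1], by linarith [hx.2]⟩)
  simp only [hback] at h1
  have himg : (fun x : ℝ => c.re + r * x) '' Icc α β = Icc a b := by
    ext x
    simp only [mem_image, mem_Icc]
    constructor
    · rintro ⟨t, ⟨h2, h3⟩, rfl⟩
      rw [hα, div_le_iff₀ hr] at h2
      rw [hβ, le_div_iff₀ hr] at h3
      exact ⟨by linarith, by linarith⟩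
    · rintro ⟨h2, h3⟩
      refine ⟨(x - c.re) / r, ⟨?_, ?_⟩, ?_⟩
      · rw [hα]; gcongr
      · rw [hβ]; gcongr
      · field_simp; ring
  have hcv := lintegral_image_eq_lintegral_abs_deriv_mul (s := Icc α β)
    (f := fun x : ℝ => c.re + r * x) (f' := fun _ => r) measurableSet_Icc
    (fun x _ => by
      have := ((hasDerivAt_id x).const_mul r).const_add c.re
      simpa using this.hasDerivWithinAt)
    (fun x _ x' _ hxx => by
      have : r * x = r * x' := by simpa using hxx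
      exact mul_left_cancel₀ hr.ne' this)
    (fun x => nl (h ((x : ℂ) + (y : ℂ) * Complex.I)))
  rw [himg] at hcv
  rw [hcv]
  have h2 : ∀ x : ℝ, ENNReal.ofReal |r| * nl (h (((c.re + r * x : ℝ) : ℂ) + (y : ℂ) * Complex.I))
      = ENNReal.ofReal r * nl (h (c + (r : ℂ) * ((x : ℂ) + (η : ℂ) * Complex.I))) := by
    intro x
    rw [hpt, abs_of_pos hr]
  simp only [h2]
  rw [lintegral_const_mul' _ _ ENNReal.ofReal_ne_top]
  calc _ ≤ ENNReal.ofReal r * (ENNReal.ofReal C * nl (h z₀)) := mul_le_mul_right h1 _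
    _ = ENNReal.ofReal (C * r) * nl (h z₀) := by
      rw [ENNReal.ofReal_mul hC.le]; ring

/-- circle mean of one Blaschke factor. -/
theorem SEG_cav_B {a m : ℂ} {R : ℝ} (ha : ‖a‖ < 1) (hR : 0 < R)
    (hsub : closedBall m R ⊆ closedBall (0:ℂ) 1) :
    cav (fun z => nl (SEG_B a z)) m R = ENNReal.ofReal
      (Real.log ‖1 - (starRingEnd ℂ) a * m‖ - (Real.log R + Real.posLog (R⁻¹ * ‖m - a‖))) := by
  have habs : |R| = R := abs_of_pos hR
  have hden : AnalyticOnNhd ℂ (fun z => 1 - (starRingEnd ℂ) a * z) (closedBall m |R|) := by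
    intro z _; fun_prop
  have hden0 : ∀ z ∈ closedBall m |R|, 1 - (starRingEnd ℂ) a * z ≠ 0 := by
    intro z hz
    rw [habs] at hz
    exact SEG_den ha (by simpa using hsub hz)
  have hnum : MeromorphicOn (fun z => z - a) (sphere m |R|) := by
    intro z _; fun_prop
  have hi1 : CircleIntegrable (fun z => Real.log ‖z - a‖) m R := hnum.circleIntegrable_log_norm
  have hi2 : CircleIntegrable (fun z => Real.log ‖1 - (starRingEnd ℂ) a * z‖) m R := by
    have : MeromorphicOn (fun z => 1 - (starRingEnd ℂ) a * z) (sphere m |R|) := by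
      intro z _; fun_prop
    exact this.circleIntegrable_log_norm
  have hav1 : Real.circleAverage (fun z => Real.log ‖z - a‖) m R
      = Real.log R + Real.posLog (R⁻¹ * ‖m - a‖) :=
    circleAverage_log_norm_sub_const_eq_log_radius_add_posLog hR.ne'
  have hav2 : Real.circleAverage (fun z => Real.log ‖1 - (starRingEnd ℂ) a * z‖) m R
      = Real.log ‖1 - (starRingEnd ℂ) a * m‖ :=
    AnalyticOnNhd.circleAverage_log_norm_of_ne_zero hden hden0
  rw [SEG_cav_ofReal (F := fun z => Real.log ‖1 - (starRingEnd ℂ) a * z‖ - Real.log ‖z - a‖)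
    hR.ne' (hi2.sub hi1) {a} (Set.countable_singleton a)]
  · have h3 := Real.circleAverage_fun_sub hi2 hi1
    rw [h3, hav1, hav2]
  · intro z hz hza
    rw [habs] at hz
    have hz1 : ‖z‖ ≤ 1 := by simpa using hsub (sphere_subset_closedBall hz)
    have hne : z - a ≠ 0 := sub_ne_zero.2 hza
    have h1 := SEG_B_le ha hz1
    have h0 : 0 < ‖1 - (starRingEnd ℂ) a * z‖ := norm_pos_iff.2 (SEG_den ha hz1)
    rw [SEG_B, norm_div, div_le_one h0] at h1
    have := Real.log_le_log (norm_pos_iff.2 hne) h1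
    linarith
  · intro z hz hza
    rw [habs] at hz
    have hz1 : ‖z‖ ≤ 1 := by simpa using hsub (sphere_subset_closedBall hz)
    have hne : z - a ≠ 0 := sub_ne_zero.2 hza
    have hd := SEG_den ha hz1
    rw [SEG_nl_of_ne (by rw [SEG_B]; exact div_ne_zero hne hd), SEG_B, norm_div,
      Real.log_div (norm_ne_zero_iff.2 hne) (norm_ne_zero_iff.2 hd)]
    congr 1
    ring

theorem SEG_cav_B_defect {a m : ℂ} {s : ℝ} (ha : ‖a‖ < 1) (hs : 0 < s)
    (hsub : closedBall m s ⊆ closedBall (0:ℂ) 1) :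
    cav (fun z => nl (SEG_B a z)) m (s / 2) ≤ cav (fun z => nl (SEG_B a z)) m s
      + (if ‖m - a‖ ≤ s then ENNReal.ofReal (Real.log 2) else 0) := by
  have hs2 : 0 < s / 2 := by positivity
  rw [SEG_cav_B ha hs hsub,
    SEG_cav_B ha hs2 ((closedBall_subset_closedBall (by linarith)).trans hsub)]
  set A := Real.log ‖1 - (starRingEnd ℂ) a * m‖
  have hlog : Real.log (s / 2) = Real.log s - Real.log 2 :=
    Real.log_div hs.ne' two_ne_zero
  have hinv : (s / 2)⁻¹ * ‖m - a‖ = 2 * (s⁻¹ * ‖m - a‖) := by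
    field_simp
  rw [hlog, hinv]
  set x := s⁻¹ * ‖m - a‖ with hx
  have hx0 : 0 ≤ x := by positivity
  split_ifs with h
  · refine le_trans (ENNReal.ofReal_le_ofReal ?_) ENNReal.ofReal_add_le
    have := Real.posLog_le_posLog hx0 (by linarith : x ≤ 2 * x)
    linarith
  · rw [add_zero]
    apply ENNReal.ofReal_le_ofReal
    push Not at h
    have hx1 : 1 < x := by
      rw [hx, inv_mul_eq_div, one_lt_div hs]
      exact h
    rw [Real.posLog_eq_log (x := x) (by rw [abs_of_pos (by linarith)]; exact hx1.le),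
      Real.posLog_eq_log (x := 2 * x) (by rw [abs_of_pos (by linarith)]; linarith),
      Real.log_mul two_ne_zero (by linarith)]
    linarith

theorem SEG_cav_dec {H g : ℂ → ℂ} {s : Multiset ℂ} {m : ℂ} {R : ℝ} (hR : 0 ≤ R)
    (hsub : closedBall m R ⊆ closedBall (0:ℂ) 1)
    (hd : ∀ z ∈ closedBall (0:ℂ) 1, nl (H z) = (s.map (fun a => nl (SEG_B a z))).sum + nl (g z)) :
    cav (fun z => nl (H z)) m R =
      (s.map (fun a => cav (fun z => nl (SEG_B a z)) m R)).sum + cav (fun z => nl (g z)) m R := by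
  have hcm : Measurable (fun t : ℝ => circleMap m R t) := (continuous_circleMap m R).measurable
  unfold cav
  have h1 : ∫⁻ t in Ioc (0:ℝ) (2 * Real.pi), nl (H (circleMap m R t)) =
      (s.map (fun a => ∫⁻ t in Ioc (0:ℝ) (2 * Real.pi), nl (SEG_B a (circleMap m R t)))).sum
        + ∫⁻ t in Ioc (0:ℝ) (2 * Real.pi), nl (g (circleMap m R t)) := by
    rw [← SEG_lintegral_sum _ s _ hcm, ← lintegral_add_left (SEG_meas_sum s _ hcm)]
    apply lintegral_congr
    intro t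
    exact hd _ (hsub (circleMap_mem_closedBall m hR t))
  rw [h1, mul_add]
  congr 1
  exact (Multiset.sum_map_mul_left).symm

theorem SEG_sum_swap (s : Multiset ℂ) (I : Finset ℂ) (f : ℂ → ℂ → ℝ≥0∞) :
    ∑ m ∈ I, (s.map (fun a => f a m)).sum = (s.map (fun a => ∑ m ∈ I, f a m)).sum := by
  induction s using Multiset.induction_on with
  | empty => simp
  | cons a s ih =>
    simp only [Multiset.map_cons, Multiset.sum_cons]
    rw [Finset.sum_add_distrib, ih]

theorem SEG_defect1 {θ : ℝ} (hθ : 0 < θ) (hθ1 : θ < 1) : ∃ C : ℝ, 0 < C ∧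
    ∀ (H : ℂ → ℂ) (z₀ : ℂ) (s : ℝ) (I : Finset ℂ) (φ : ℂ → ℂ), 0 < s →
      AnalyticOnNhd ℂ H (closedBall 0 1) →
      (∀ z ∈ closedBall (0:ℂ) 1, ‖H z‖ ≤ 1) → z₀ ∈ closedBall (0:ℂ) θ →
      (∀ m ∈ I, closedBall (φ m) s ⊆ closedBall (0:ℂ) θ) →
      (∀ m ∈ I, ∀ m' ∈ I, m ≠ m' → 2 * s < ‖φ m - φ m'‖) →
      ∑ m ∈ I, cav (fun z => nl (H z)) (φ m) (s / 2)
        ≤ ∑ m ∈ I, cav (fun z => nl (H z)) (φ m) s + ENNReal.ofReal C * nl (H z₀) := by
  obtain ⟨κ, C, hκ, hC, hdec⟩ := SEG_decomp hθ hθ1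
  have hlog2 : 0 < Real.log 2 := Real.log_pos (by norm_num)
  refine ⟨Real.log 2 / κ, by positivity, ?_⟩
  intro H z₀ s I φ hs hH hb hz₀ hin hdis
  by_cases hH0 : H z₀ = 0
  · rw [hH0, nl_zero, ENNReal.mul_top (by simp; positivity)]
    exact le_top.trans le_add_self
  obtain ⟨S, g, hS, hg, hgb, hg0, hd, hcard, hgu⟩ := hdec H z₀ hH hb hz₀ hH0
  have hsub : closedBall (0:ℂ) θ ⊆ closedBall (0:ℂ) 1 := closedBall_subset_closedBall hθ1.le
  have hs2 : 0 < s / 2 := by positivity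
  have hsub2 : ∀ m ∈ I, closedBall (φ m) (s / 2) ⊆ closedBall (0:ℂ) θ := fun m hm =>
    (closedBall_subset_closedBall (by linarith)).trans (hin m hm)
  have hg1 : ∀ m ∈ I, cav (fun z => nl (g z)) (φ m) (s / 2) = cav (fun z => nl (g z)) (φ m) s := by
    intro m hm
    rw [SEG_cav_free hs (hg.mono ((hin m hm).trans hsub)) (fun z hz => hgb z (hsub (hin m hm hz)))
        (fun z hz => hg0 z (hin m hm hz)),
      SEG_cav_free hs2 (hg.mono ((hsub2 m hm).trans hsub))
        (fun z hz => hgb z (hsub (hsub2 m hm hz))) (fun z hz => hg0 z (hsub2 m hm hz))]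
  have hone : ∀ a ∈ S, ∑ m ∈ I, cav (fun z => nl (SEG_B a z)) (φ m) (s / 2)
      ≤ ∑ m ∈ I, cav (fun z => nl (SEG_B a z)) (φ m) s + ENNReal.ofReal (Real.log 2) := by
    intro a ha
    have h1 : ∑ m ∈ I, cav (fun z => nl (SEG_B a z)) (φ m) (s / 2)
        ≤ ∑ m ∈ I, (cav (fun z => nl (SEG_B a z)) (φ m) s
          + (if ‖φ m - a‖ ≤ s then ENNReal.ofReal (Real.log 2) else 0)) :=
      Finset.sum_le_sum fun m hm => SEG_cav_B_defect (hS a ha) hs ((hin m hm).trans hsub)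
    refine h1.trans ?_
    rw [Finset.sum_add_distrib]
    gcongr
    rw [← Finset.sum_filter, Finset.sum_const]
    have hc : (I.filter (fun m => ‖φ m - a‖ ≤ s)).card ≤ 1 := by
      rw [Finset.card_le_one]
      intro m hm m' hm'
      rw [Finset.mem_filter] at hm hm'
      by_contra hne
      have h2 := hdis m hm.1 m' hm'.1 hne
      have h3 : ‖φ m - φ m'‖ ≤ ‖φ m - a‖ + ‖φ m' - a‖ := by
        have := norm_sub_le (φ m - a) (φ m' - a)
        simpa using this
      linarith [hm.2, hm'.2]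
    calc _ ≤ (1:ℕ) • ENNReal.ofReal (Real.log 2) := by gcongr
      _ = ENNReal.ofReal (Real.log 2) := one_smul _ _
  calc ∑ m ∈ I, cav (fun z => nl (H z)) (φ m) (s / 2)
      = ∑ m ∈ I, ((S.map (fun a => cav (fun z => nl (SEG_B a z)) (φ m) (s / 2))).sum
          + cav (fun z => nl (g z)) (φ m) s) := by
        refine Finset.sum_congr rfl fun m hm => ?_
        rw [SEG_cav_dec hs2.le ((hsub2 m hm).trans hsub) hd, hg1 m hm]
    _ = (S.map (fun a => ∑ m ∈ I, cav (fun z => nl (SEG_B a z)) (φ m) (s / 2))).sum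
          + ∑ m ∈ I, cav (fun z => nl (g z)) (φ m) s := by
        rw [Finset.sum_add_distrib,
          SEG_sum_swap S I (fun a m => cav (fun z => nl (SEG_B a z)) (φ m) (s / 2))]
    _ ≤ (S.map (fun a => ∑ m ∈ I, cav (fun z => nl (SEG_B a z)) (φ m) s
          + ENNReal.ofReal (Real.log 2))).sum
          + ∑ m ∈ I, cav (fun z => nl (g z)) (φ m) s := by
        gcongr
        apply Multiset.sum_map_le_sum_map
        exact hone
    _ = ∑ m ∈ I, cav (fun z => nl (H z)) (φ m) s + S.card * ENNReal.ofReal (Real.log 2) := by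
        rw [Multiset.sum_map_add, Multiset.map_const', Multiset.sum_replicate, nsmul_eq_mul]
        rw [← SEG_sum_swap S I (fun a m => cav (fun z => nl (SEG_B a z)) (φ m) s)]
        have h2 : ∑ m ∈ I, cav (fun z => nl (H z)) (φ m) s =
            ∑ m ∈ I, (S.map (fun a => cav (fun z => nl (SEG_B a z)) (φ m) s)).sum
              + ∑ m ∈ I, cav (fun z => nl (g z)) (φ m) s := by
          rw [← Finset.sum_add_distrib]
          refine Finset.sum_congr rfl fun m hm => ?_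
          rw [SEG_cav_dec hs.le ((hin m hm).trans hsub) hd]
        rw [h2]
        ring
    _ ≤ _ := by
        refine add_le_add le_rfl ?_
        have h1 : ENNReal.ofReal (Real.log 2)
            = ENNReal.ofReal (Real.log 2 / κ) * ENNReal.ofReal κ := by
          rw [← ENNReal.ofReal_mul (by positivity), div_mul_cancel₀ _ hκ.ne']
        rw [h1, mul_left_comm]
        exact mul_le_mul_right hcard _

theorem defect (θ : ℝ) (hθ : 0 < θ) (hθ1 : θ < 1) : ∃ C : ℝ, 0 < C ∧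
    ∀ (c : ℂ) (r : ℝ) (h : ℂ → ℂ) (z₀ : ℂ) (s : ℝ) (I : Finset ℂ), 0 < r → 0 < s →
      AnalyticOnNhd ℂ h (closedBall c r) → (∀ z ∈ closedBall c r, ‖h z‖ ≤ 1) →
      z₀ ∈ closedBall c (θ * r) → (∀ m ∈ I, closedBall m s ⊆ closedBall c (θ * r)) →
      (∀ m ∈ I, ∀ m' ∈ I, m ≠ m' → 2 * s < ‖m - m'‖) →
      ∑ m ∈ I, cav (fun z => nl (h z)) m (s / 2)
        ≤ ∑ m ∈ I, cav (fun z => nl (h z)) m s + ENNReal.ofReal C * nl (h z₀) := by
  obtain ⟨C, hC, hmain⟩ := SEG_defect1 hθ hθ1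
  refine ⟨C, hC, ?_⟩
  intro c r h z₀ s I hr hs hh hb hz₀ hin hdis
  obtain ⟨hA, hB⟩ := SEG_scale hr hh hb
  have hrc : (r : ℂ) ≠ 0 := by exact_mod_cast hr.ne'
  have hback : ∀ z : ℂ, c + (r : ℂ) * ((z - c) / r) = z := by
    intro z; field_simp; ring
  have hmem : ∀ ζ : ℂ, c + (r : ℂ) * ζ ∈ closedBall c (θ * r) → ζ ∈ closedBall (0:ℂ) θ := by
    intro ζ hζ
    rw [mem_closedBall, dist_eq_norm, add_sub_cancel_left, norm_mul, Complex.norm_real,
      Real.norm_eq_abs, abs_of_pos hr] at hζ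
    rw [mem_closedBall, dist_zero_right]
    nlinarith
  have hcav : ∀ (m : ℂ) (R : ℝ), cav (fun z => nl (h z)) m R =
      cav (fun ζ => nl (h (c + (r : ℂ) * ζ))) ((m - c) / r) (R / r) := by
    intro m R
    unfold cav
    congr 1
    apply lintegral_congr
    intro t
    have : c + (r : ℂ) * circleMap ((m - c) / r) (R / r) t = circleMap m R t := by
      simp only [circleMap]
      push_cast
      field_simp
      ring
    show nl (h (circleMap m R t)) = nl (h (c + (r : ℂ) * circleMap ((m - c) / r) (R / r) t))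
    rw [this]
  have h1 := hmain (fun ζ => h (c + (r : ℂ) * ζ)) ((z₀ - c) / r) (s / r) I
    (fun m => (m - c) / r) (by positivity) hA hB (hmem _ (by rw [hback]; exact hz₀))
    (by
      intro m hm ζ hζ
      apply hmem
      apply hin m hm
      rw [mem_closedBall, dist_eq_norm] at hζ ⊢
      have e : c + (r : ℂ) * ζ - m = (r : ℂ) * (ζ - (m - c) / r) := by
        field_simp; ring
      rw [e, norm_mul, Complex.norm_real, Real.norm_eq_abs, abs_of_pos hr]
      calc r * ‖ζ - (m - c) / r‖ ≤ r * (s / r) := mul_le_mul_of_nonneg_left hζ hr.le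
        _ = s := by field_simp)
    (by
      intro m hm m' hm' hne
      have h2 := hdis m hm m' hm' hne
      have e : (m - c) / r - (m' - c) / r = (m - m') / (r : ℂ) := by ring
      rw [e, norm_div, Complex.norm_real, Real.norm_eq_abs, abs_of_pos hr, lt_div_iff₀ hr]
      calc 2 * (s / r) * r = 2 * s := by field_simp
        _ < _ := h2)
  simp only [hback] at h1
  have e2 : s / r / 2 = s / 2 / r := by ring
  rw [e2] at h1
  calc ∑ m ∈ I, cav (fun z => nl (h z)) m (s / 2)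
      = ∑ m ∈ I, cav (fun ζ => nl (h (c + (r : ℂ) * ζ))) ((m - c) / r) (s / 2 / r) :=
        Finset.sum_congr rfl fun m _ => hcav m (s / 2)
    _ ≤ _ := h1
    _ = _ := by
      congr 1
      exact Finset.sum_congr rfl fun m _ => (hcav m s).symm

end Muntz
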