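import Pool.Agent.Lib.MP_dde81e_an.TK2

/-! MP_dde81e_an, module TF : torus means are finite -/

namespace Muntz
open MeasureTheory Set Metric
open scoped ENNReal

theorem TF_cav_const_mul_le (k : ℝ≥0∞) (u : ℂ → ℝ≥0∞) (c : ℂ) (r : ℝ) :
    k * cav u c r ≤ cav (fun z => k * u z) c r := by
  unfold cav
  rw [mul_left_comm]
  gcongr
  exact lintegral_const_mul_le _ _

theorem TF_cav_mono {u v : ℂ → ℝ≥0∞} {c : ℂ} {r : ℝ} (hr : 0 ≤ r)
    (h : ∀ z ∈ sphere c r, u z ≤ v z) : cav u c r ≤ cav v c r := by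
  unfold cav
  gcongr with θ
  exact h _ (circleMap_mem_sphere c hr θ)

theorem TF_dom {F : ℂ × ℂ → ℂ} (hF : GoodF F) {f g : ℂ → ℂ} {S : Set ℂ} (hf : Differentiable ℂ f)
    (hg : Differentiable ℂ g) (hS : ∀ z ∈ S, -1 < (f z).re ∧ -1 < (g z).re) :
    AnalyticOnNhd ℂ (fun z => F (f z, g z)) S := by
  have hopen : IsOpen {z : ℂ | -1 < (f z).re ∧ -1 < (g z).re} :=
    (isOpen_lt continuous_const (Complex.continuous_re.comp hf.continuous)).inter
      (isOpen_lt continuous_const (Complex.continuous_re.comp hg.continuous))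
  have hd : DifferentiableOn ℂ (fun z => F (f z, g z)) {z : ℂ | -1 < (f z).re ∧ -1 < (g z).re} := by
    have : DifferentiableOn ℂ (fun z => (f z, g z)) {z : ℂ | -1 < (f z).re ∧ -1 < (g z).re} :=
      (hf.prodMk hg).differentiableOn
    exact hF.diff.comp this (fun z hz => hz)
  exact (hd.analyticOnNhd hopen).mono (fun z hz => hS z hz)

theorem TF_ball {m s : ℝ} (hsm : s < m) {z : ℂ} (hz : z ∈ closedBall (m : ℂ) s) : 0 < z.re := by
  rw [mem_closedBall, dist_eq_norm] at hz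
  have h1 : |(z - m).re| ≤ s := (Complex.abs_re_le_norm _).trans hz
  rw [Complex.sub_re, Complex.ofReal_re] at h1
  have := (abs_le.1 h1).1
  linarith

theorem TF_ball2 {β₀ β : ℂ} {t : ℝ} (hβ : ‖β₀‖ + t ≤ 1 / 2) (hb : β ∈ closedBall β₀ t) :
    -(1/2) ≤ β.re := by
  rw [mem_closedBall, dist_eq_norm] at hb
  have h1 : ‖β‖ ≤ 1/2 := by
    calc ‖β‖ = ‖β₀ + (β - β₀)‖ := by ring_nf
      _ ≤ ‖β₀‖ + ‖β - β₀‖ := norm_add_le _ _
      _ ≤ 1/2 := by linarith
  have h2 := (abs_le.1 ((Complex.abs_re_le_norm β).trans h1)).1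
  linarith

theorem TF_re {τ m s t : ℝ} {β₀ ζ β : ℂ} (hτ : 0 < τ) (hsm : s < m) (hβ : ‖β₀‖ + t ≤ 1 / 2)
    (hz : ζ ∈ closedBall (m : ℂ) s) (hb : β ∈ closedBall β₀ t) :
    -1 < ζ.re ∧ -1 < ((τ : ℂ) * ζ + β).re := by
  have h1 := TF_ball hsm hz
  have h2 := TF_ball2 hβ hb
  refine ⟨by linarith, ?_⟩
  simp only [Complex.add_re, Complex.mul_re, Complex.ofReal_re, Complex.ofReal_im, zero_mul,
    sub_zero]
  nlinarith [mul_pos hτ h1]

/-- a nonzero point in the open polydisc -/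
theorem TF_ne {F : ℂ × ℂ → ℂ} (hF : GoodF F) {τ s t : ℝ} {m : ℝ} {β₀ : ℂ} (hτ : 0 < τ)
    (hs : 0 < s) (hsm : s < m) (ht : 0 < t) (hβ : ‖β₀‖ + t ≤ 1 / 2) :
    ∃ ζ ∈ ball (m : ℂ) s, ∃ β ∈ ball β₀ t, F (ζ, (τ : ℂ) * ζ + β) ≠ 0 := by
  by_contra hcon
  push Not at hcon
  obtain ⟨x, y, hx, hy, hne⟩ := hF.ne
  -- step 1 : F (ζ, ·) vanishes for ζ in the disc
  have hHP : IsPreconnected {w : ℂ | -1 < w.re} := (convex_halfSpace_re_gt (-1)).isPreconnected
  have h1 : ∀ ζ ∈ ball (m : ℂ) s, ∀ w : ℂ, -1 < w.re → F (ζ, w) = 0 := by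
    intro ζ hζ
    have hζr := TF_ball hsm (ball_subset_closedBall hζ)
    have han : AnalyticOnNhd ℂ (fun w => F (ζ, w)) {w : ℂ | -1 < w.re} :=
      TF_dom hF (differentiable_const ζ) differentiable_id
        (fun z hz => ⟨by linarith, hz⟩)
    have hmem : (τ : ℂ) * ζ + β₀ ∈ {w : ℂ | -1 < w.re} :=
      (TF_re hτ hsm hβ (ball_subset_closedBall hζ) (mem_closedBall_self ht.le)).2
    have hev : (fun w => F (ζ, w)) =ᶠ[nhds ((τ : ℂ) * ζ + β₀)] 0 := by
      filter_upwards [ball_mem_nhds ((τ : ℂ) * ζ + β₀) ht] with w hw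
      have hb : w - (τ : ℂ) * ζ ∈ ball β₀ t := by
        rw [mem_ball, dist_eq_norm] at hw ⊢
        convert hw using 2
        ring
      have := hcon ζ hζ _ hb
      simpa using this
    intro w hw
    exact han.eqOn_zero_of_preconnected_of_eventuallyEq_zero hHP hmem hev hw
  have h2 : ∀ w : ℂ, -1 < w.re → ∀ z : ℂ, -1 < z.re → F (z, w) = 0 := by
    intro w hw
    have han : AnalyticOnNhd ℂ (fun z => F (z, w)) {z : ℂ | -1 < z.re} :=
      TF_dom hF differentiable_id (differentiable_const w) (fun z hz => ⟨hz, hw⟩)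
    have hmem : (m : ℂ) ∈ {z : ℂ | -1 < z.re} := by
      simp only [mem_ofPred_eq, Complex.ofReal_re]; linarith
    have hev : (fun z => F (z, w)) =ᶠ[nhds (m : ℂ)] 0 := by
      filter_upwards [ball_mem_nhds (m : ℂ) hs] with z hz
      exact h1 z hz w hw
    intro z hz
    exact han.eqOn_zero_of_preconnected_of_eventuallyEq_zero hHP hmem hev hz
  exact hne (h2 y (by simp only [Complex.ofReal_re]; linarith) x
    (by simp only [Complex.ofReal_re]; linarith))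

theorem TF_theta {c w : ℂ} {R : ℝ} (hR : 0 < R) (hw : w ∈ ball c R) :
    ∃ θ : ℝ, 0 ≤ θ ∧ θ < 1 ∧ w ∈ closedBall c (θ * R) := by
  refine ⟨‖w - c‖ / R, by positivity, ?_, ?_⟩
  · rw [mem_ball, dist_eq_norm] at hw
    rwa [div_lt_one hR]
  · rw [mem_closedBall, dist_eq_norm, div_mul_cancel₀ _ hR.ne']

/-- torus means are finite -/
theorem torus_fin {F : ℂ × ℂ → ℂ} (hF : GoodF F) {τ s t : ℝ} {m : ℝ} {β₀ : ℂ} (hτ : 0 < τ)
    (hs : 0 < s) (hsm : s < m) (ht : 0 < t) (hβ : ‖β₀‖ + t ≤ 1 / 2) :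
    cav (fun ζ => cav (fun β => nl (F (ζ, (τ : ℂ) * ζ + β))) β₀ t) (m : ℂ) s < ⊤ := by
  obtain ⟨z1, hz1, b1, hb1, hne⟩ := TF_ne hF hτ hs hsm ht hβ
  obtain ⟨θ1, h10, h11, h1m⟩ := TF_theta hs hz1
  obtain ⟨θ2, h20, h21, h2m⟩ := TF_theta ht hb1
  have hk1 : 0 < (1 - θ1) / (1 + θ1) := div_pos (by linarith) (by linarith)
  have hk2 : 0 < (1 - θ2) / (1 + θ2) := div_pos (by linarith) (by linarith)
  have A : ENNReal.ofReal ((1 - θ2) / (1 + θ2)) *
      cav (fun ζ => cav (fun β => nl (F (ζ, (τ : ℂ) * ζ + β))) β₀ t) (m : ℂ) s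
      ≤ cav (fun ζ => nl (F (ζ, (τ : ℂ) * ζ + b1))) (m : ℂ) s := by
    refine (TF_cav_const_mul_le _ _ _ _).trans (TF_cav_mono hs.le fun ζ hζ => ?_)
    have hζ' : ζ ∈ closedBall (m : ℂ) s := sphere_subset_closedBall hζ
    refine harnack_lower (h := fun β => F (ζ, (τ : ℂ) * ζ + β)) ht ?_ ?_ h20 h21 h2m
    · exact TF_dom hF (differentiable_const ζ) (by fun_prop)
        (fun β hb => TF_re hτ hsm hβ hζ' hb)
    · intro β hb
      obtain ⟨h1, h2⟩ := TF_re hτ hsm hβ hζ' hb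
      exact hF.bound _ h1 h2
  have B : ENNReal.ofReal ((1 - θ1) / (1 + θ1)) *
      cav (fun ζ => nl (F (ζ, (τ : ℂ) * ζ + b1))) (m : ℂ) s
      ≤ nl (F (z1, (τ : ℂ) * z1 + b1)) := by
    have hb1' : b1 ∈ closedBall β₀ t := ball_subset_closedBall hb1
    refine harnack_lower (h := fun ζ => F (ζ, (τ : ℂ) * ζ + b1)) hs ?_ ?_ h10 h11 h1m
    · exact TF_dom hF differentiable_id (by fun_prop)
        (fun ζ hζ => TF_re hτ hsm hβ hζ hb1')
    · intro ζ hζ
      obtain ⟨h1, h2⟩ := TF_re hτ hsm hβ hζ hb1'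
      exact hF.bound _ h1 h2
  have hfin : nl (F (z1, (τ : ℂ) * z1 + b1)) < ⊤ := lt_top_iff_ne_top.2 (nl_ne_top hne)
  have C : cav (fun ζ => nl (F (ζ, (τ : ℂ) * ζ + b1))) (m : ℂ) s < ⊤ := by
    have := B.trans_lt hfin
    exact (ENNReal.mul_lt_top_iff.1 this).elim (fun h => h.2) (fun h => by
      rcases h with h | h
      · exact absurd h (by simpa using hk1)
      · rw [h]; exact ENNReal.zero_lt_top)
  have := A.trans_lt C
  exact (ENNReal.mul_lt_top_iff.1 this).elim (fun h => h.2) (fun h => by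
      rcases h with h | h
      · exact absurd h (by simpa using hk2)
      · rw [h]; exact ENNReal.zero_lt_top)

end Muntz
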