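import Pool.Agent.Lib.MP_dde81e_an.TF

/-! MP_dde81e_an, module TJ : torus Jensen -/

namespace Muntz
open MeasureTheory Set Metric
open scoped ENNReal

theorem TJ_meas {F : ℂ × ℂ → ℂ} (hF : GoodF F) (τ : ℝ) :
    Measurable (fun p : ℂ × ℂ => nl (F (p.1, (τ : ℂ) * p.1 + p.2))) := by
  refine nl_continuous.measurable.comp (hF.meas.comp ?_)
  fun_prop

/-- swap of circle means -/
theorem TJ_swap {u : ℂ × ℂ → ℝ≥0∞} (hu : Measurable u) (c d : ℂ) (r s : ℝ) :
    cav (fun z => cav (fun w => u (z, w)) d s) c r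
      = cav (fun w => cav (fun z => u (z, w)) c r) d s := by
  have hm : Measurable (fun p : ℝ × ℝ => u (circleMap c r p.1, circleMap d s p.2)) :=
    hu.comp (by fun_prop)
  unfold cav
  rw [lintegral_const_mul, lintegral_const_mul]
  · rw [lintegral_lintegral_swap]
    exact hm.aemeasurable
  · exact Measurable.lintegral_prod_left' (f := fun p : ℝ × ℝ => u (circleMap c r p.1, circleMap d s p.2)) hm
  · exact Measurable.lintegral_prod_right' (f := fun p : ℝ × ℝ => u (circleMap c r p.1, circleMap d s p.2)) hm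

theorem TJ_cav_meas {u : ℂ × ℂ → ℝ≥0∞} (hu : Measurable u) (d : ℂ) (s : ℝ) :
    Measurable (fun z => cav (fun w => u (z, w)) d s) := by
  unfold cav
  refine Measurable.const_mul ?_ _
  have hm : Measurable (fun p : ℂ × ℝ => u (p.1, circleMap d s p.2)) := hu.comp (by fun_prop)
  exact hm.lintegral_prod_right'

theorem TJ_cav_add {u v : ℂ → ℝ≥0∞} (hu : Measurable u) (c : ℂ) (r : ℝ) :
    cav (fun z => u z + v z) c r = cav u c r + cav v c r := by
  have := lintegral_add_left (μ := volume.restrict (Ioc (0 : ℝ) (2 * Real.pi)))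
    (hu.comp (measurable_circleMap c r)) (fun θ => v (circleMap c r θ))
  simp only [Function.comp_apply] at this
  unfold cav
  rw [this, mul_add]

theorem TJ_cav_const (k : ℝ≥0∞) (c : ℂ) (r : ℝ) : cav (fun _ => k) c r = k := by
  unfold cav
  rw [lintegral_const, Measure.restrict_apply_univ, Real.volume_Ioc, sub_zero, mul_left_comm,
    ← ENNReal.ofReal_mul (by positivity), one_div, inv_mul_cancel₀ (by positivity)]
  simp

/-- translation invariance of the circle mean -/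
theorem TJ_shift {g : ℝ → ℝ≥0∞} (hg : Function.Periodic g (2 * Real.pi)) (a : ℝ) :
    ∫⁻ θ in Ioc (0 : ℝ) (2 * Real.pi), g (θ + a) = ∫⁻ θ in Ioc (0 : ℝ) (2 * Real.pi), g θ := by
  have hT : 0 < 2 * Real.pi := by positivity
  have h1 : ∫⁻ θ in Ioc (0 : ℝ) (2 * Real.pi), g (θ + a)
      = ∫⁻ θ in Ioc (0 + a) (2 * Real.pi + a), g θ := by
    have hmp : MeasurePreserving (fun θ : ℝ => θ + a) volume volume :=
      measurePreserving_add_right volume a
    have hemb : MeasurableEmbedding (fun θ : ℝ => θ + a) := measurableEmbedding_addRight a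
    rw [← hmp.setLIntegral_comp_preimage_emb hemb g (Ioc (0 + a) (2 * Real.pi + a))]
    congr 2
    ext θ
    simp
  rw [h1]
  have hd1 := isAddFundamentalDomain_Ioc hT a
  have hd2 := isAddFundamentalDomain_Ioc hT 0
  have := hd1.setLIntegral_eq hd2 g (by
    intro k x
    obtain ⟨k, n, rfl⟩ := k
    simp only [AddSubgroup.vadd_def, vadd_eq_add]
    have := hg.int_mul n x
    rw [add_comm]
    simpa [zsmul_eq_mul] using this)
  rw [zero_add, add_comm (2 * Real.pi) a, this, zero_add]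

theorem TJ_diag {u : ℂ × ℂ → ℝ≥0∞} (hu : Measurable u) (m β₀ : ℂ) (s t ρ : ℝ) :
    ENNReal.ofReal (1 / (2 * Real.pi)) * ∫⁻ φ in Ioc (0 : ℝ) (2 * Real.pi),
      cav (fun l => u (m + l * s, β₀ + l * (t * Complex.exp (φ * Complex.I)))) 0 ρ
    = cav (fun z => cav (fun w => u (z, w)) β₀ (ρ * t)) m (ρ * s) := by
  unfold cav
  have hm : Measurable (fun p : ℝ × ℝ => u (circleMap m (ρ * s) p.2,
      circleMap β₀ (ρ * t) (p.1 + p.2))) := hu.comp (by fun_prop)
  have e1 : ∀ φ θ : ℝ, u (m + circleMap 0 ρ θ * s,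
      β₀ + circleMap 0 ρ θ * (t * Complex.exp (φ * Complex.I)))
      = u (circleMap m (ρ * s) θ, circleMap β₀ (ρ * t) (φ + θ)) := by
    intro φ θ
    congr 1
    simp only [circleMap, Prod.mk.injEq]
    constructor
    · push_cast; ring
    · push_cast
      rw [add_mul (φ : ℂ) (θ : ℂ) Complex.I, Complex.exp_add]; ring
  simp_rw [e1]
  rw [lintegral_const_mul, lintegral_lintegral_swap, lintegral_const_mul]
  · congr 2
    refine lintegral_congr fun θ => ?_
    have hper : Function.Periodic (fun φ => u (circleMap m (ρ * s) θ, circleMap β₀ (ρ * t) φ))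
        (2 * Real.pi) := by
      intro φ
      simp only [periodic_circleMap β₀ (ρ * t) φ]
    exact TJ_shift hper θ
  · have hm2 : Measurable (fun p : ℝ × ℝ => u (circleMap m (ρ * s) p.1,
      circleMap β₀ (ρ * t) p.2)) := hu.comp (by fun_prop)
    exact hm2.lintegral_prod_right'
  · exact hm.aemeasurable
  · exact hm.lintegral_prod_right'

/-- two dimensional Jensen inequality for a zero at the centre -/
theorem TJ_key {F : ℂ × ℂ → ℂ} (hF : GoodF F) {τ s t m : ℝ} {β₀ : ℂ} (hτ : 0 < τ)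
    (h0 : F ((m : ℂ), (τ : ℂ) * m + β₀) = 0) (hs : 0 < s) (hsm : s < m) (ht : 0 < t)
    (hβ : ‖β₀‖ + t ≤ 1 / 2) :
    cav (fun z => cav (fun w => nl (F (z, (τ : ℂ) * z + w))) β₀ t) (m : ℂ) s
      + ENNReal.ofReal (Real.log 2)
    ≤ cav (fun z => cav (fun w => nl (F (z, (τ : ℂ) * z + w))) β₀ (t / 2)) (m : ℂ) (s / 2) := by
  have hu := TJ_meas hF τ
  have d1 := TJ_diag hu (m : ℂ) β₀ s t 1
  have d2 := TJ_diag hu (m : ℂ) β₀ s t (1/2)
  rw [one_mul, one_mul] at d1
  rw [show (1/2 : ℝ) * t = t / 2 by ring, show (1/2 : ℝ) * s = s / 2 by ring] at d2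
  rw [← d1, ← d2]
  have key : ∀ φ : ℝ, cav (fun l => (fun p : ℂ × ℂ => nl (F (p.1, (τ : ℂ) * p.1 + p.2)))
        ((m : ℂ) + l * s, β₀ + l * (t * Complex.exp (φ * Complex.I)))) 0 1
        + ENNReal.ofReal (Real.log 2)
      ≤ cav (fun l => (fun p : ℂ × ℂ => nl (F (p.1, (τ : ℂ) * p.1 + p.2)))
        ((m : ℂ) + l * s, β₀ + l * (t * Complex.exp (φ * Complex.I)))) 0 (1/2) := by
    intro φ
    have hmem : ∀ l ∈ closedBall (0 : ℂ) 1, (m : ℂ) + l * s ∈ closedBall (m : ℂ) s ∧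
        β₀ + l * (t * Complex.exp (φ * Complex.I)) ∈ closedBall β₀ t := by
      intro l hl
      rw [mem_closedBall, dist_zero_right] at hl
      constructor
      · rw [mem_closedBall, dist_eq_norm]
        rw [add_sub_cancel_left, norm_mul, Complex.norm_real, Real.norm_of_nonneg hs.le]
        nlinarith
      · rw [mem_closedBall, dist_eq_norm]
        rw [add_sub_cancel_left, norm_mul, norm_mul, Complex.norm_real,
          Real.norm_of_nonneg ht.le, Complex.norm_exp_ofReal_mul_I, mul_one]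
        nlinarith
    have := cav_zero_center (h := fun l => F ((m : ℂ) + l * s,
      (τ : ℂ) * ((m : ℂ) + l * s) + (β₀ + l * (t * Complex.exp (φ * Complex.I)))))
      (c := 0) (r := 1/2) (R := 1) ?_ ?_ ?_ (by norm_num) (by norm_num)
    · rw [show (1:ℝ) / (1/2) = 2 by norm_num] at this
      exact this
    · refine TF_dom hF (by fun_prop) (by fun_prop) (fun l hl => ?_)
      obtain ⟨h1, h2⟩ := hmem l hl
      exact TF_re hτ hsm hβ h1 h2
    · intro l hl
      obtain ⟨h1, h2⟩ := hmem l hl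
      obtain ⟨h3, h4⟩ := TF_re hτ hsm hβ h1 h2
      exact hF.bound _ h3 h4
    · simpa using h0
  have hc : ENNReal.ofReal (Real.log 2) = ENNReal.ofReal (1 / (2 * Real.pi)) *
      ∫⁻ _ in Ioc (0 : ℝ) (2 * Real.pi), ENNReal.ofReal (Real.log 2) :=
    (TJ_cav_const (ENNReal.ofReal (Real.log 2)) 0 0).symm
  refine (add_le_add_right hc.le _).trans ?_
  rw [← mul_add, ← lintegral_add_right _ measurable_const]
  gcongr with φ
  exact key φ

theorem torus_jensen {F : ℂ × ℂ → ℂ} (hF : GoodF F) {τ s t : ℝ} {m n : ℕ} (hτ : 0 < τ)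
    (h0 : F ((m : ℂ), (n : ℂ)) = 0) (hs : 0 < s) (hsm : s < m) (ht : 0 < t)
    (hβ : |(n : ℝ) - τ * m| + t ≤ 1 / 2) :
    ENNReal.ofReal (Real.log 2)
      ≤ cav (fun ζ => td F ζ τ (((n : ℝ) - τ * m : ℝ) : ℂ) t) (m : ℂ) (s / 2)
        + cav (fun β => rd F τ β (m : ℂ) s) (((n : ℝ) - τ * m : ℝ) : ℂ) t := by
  set β₀ : ℂ := (((n : ℝ) - τ * m : ℝ) : ℂ) with hβ₀
  have hβ' : ‖β₀‖ + t ≤ 1 / 2 := by
    rw [hβ₀, Complex.norm_real]; exact hβ
  have h0' : F (((m : ℝ) : ℂ), (τ : ℂ) * ((m : ℝ) : ℂ) + β₀) = 0 := by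
    rw [← h0, hβ₀]; congr 1
    push_cast
    simp
  have hu := TJ_meas hF τ
  have key := TJ_key hF (m := (m : ℝ)) hτ h0' hs hsm ht hβ'
  have hfin := torus_fin hF (m := (m : ℝ)) hτ hs hsm ht hβ'
  rw [Complex.ofReal_natCast] at key hfin
  -- first splitting
  have e1 : cav (fun z => cav (fun w => nl (F (z, (τ : ℂ) * z + w))) β₀ (t / 2)) (m : ℂ) (s / 2)
      ≤ cav (fun z => cav (fun w => nl (F (z, (τ : ℂ) * z + w))) β₀ t) (m : ℂ) (s / 2)
        + cav (fun ζ => td F ζ τ β₀ t) (m : ℂ) (s / 2) := by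
    rw [← TJ_cav_add (TJ_cav_meas hu β₀ t)]
    refine TF_cav_mono (by positivity) fun z _ => ?_
    unfold td
    exact le_add_tsub
  have hsw1 := TJ_swap hu (m : ℂ) β₀ (s / 2) t
  have hsw2 := TJ_swap hu (m : ℂ) β₀ s t
  simp only at hsw1 hsw2
  have hmeas2 : Measurable (fun β => cav (fun z => nl (F (z, (τ : ℂ) * z + β))) (m : ℂ) s) := by
    have hu' : Measurable (fun p : ℂ × ℂ => nl (F (p.2, (τ : ℂ) * p.2 + p.1))) :=
      hu.comp measurable_swap
    exact TJ_cav_meas hu' (m : ℂ) s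
  have e2 : cav (fun w => cav (fun z => nl (F (z, (τ : ℂ) * z + w))) (m : ℂ) (s / 2)) β₀ t
      ≤ cav (fun w => cav (fun z => nl (F (z, (τ : ℂ) * z + w))) (m : ℂ) s) β₀ t
        + cav (fun β => rd F τ β (m : ℂ) s) β₀ t := by
    rw [← TJ_cav_add hmeas2]
    refine TF_cav_mono ht.le fun w _ => ?_
    unfold rd leaf
    exact le_add_tsub
  rw [← hsw1, ← hsw2] at e2
  have e3 := (key.trans e1).trans (add_le_add_left e2 _)
  rw [add_assoc] at e3
  have e4 := (ENNReal.add_le_add_iff_left hfin.ne).1 e3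
  rwa [add_comm] at e4

end Muntz
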