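import Pool.Agent.Lib.MP_dde81e_an.Defs

/-! MP_dde81e_an, module TK1 : toolkit for `nl` -/

namespace Muntz
open MeasureTheory Set Metric
open scoped ENNReal

theorem nl_zero : nl 0 = ⊤ := by simp [nl]

theorem TK1_nl_of_ne {a : ℂ} (ha : a ≠ 0) : nl a = ENNReal.ofReal (-Real.log ‖a‖) := by
  simp [nl, ha]

theorem nl_continuous : Continuous nl := by
  rw [continuous_iff_continuousAt]
  intro a
  by_cases ha : a = 0
  · subst ha
    unfold ContinuousAt
    rw [nl_zero, ENNReal.tendsto_nhds_top_iff_nnreal]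
    intro x
    have hpos : 0 < Real.exp (-(x : ℝ) - 1) := Real.exp_pos _
    filter_upwards [Metric.ball_mem_nhds (0 : ℂ) hpos] with z hz
    by_cases hz0 : z = 0
    · subst hz0
      rw [nl_zero]
      exact ENNReal.coe_lt_top
    · rw [TK1_nl_of_ne hz0]
      have h1 : ‖z‖ < Real.exp (-(x : ℝ) - 1) := by simpa using hz
      have h2 : Real.log ‖z‖ < -(x : ℝ) - 1 := by
        rw [Real.log_lt_iff_lt_exp (norm_pos_iff.2 hz0)]
        exact h1
      rw [ENNReal.lt_ofReal_iff_toReal_lt ENNReal.coe_ne_top]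
      simp only [ENNReal.coe_toReal]
      linarith
  · have h1 : ∀ᶠ z in nhds a, z ≠ 0 := isOpen_ne.mem_nhds ha
    have h2 : nl =ᶠ[nhds a] fun z => ENNReal.ofReal (-Real.log ‖z‖) := by
      filter_upwards [h1] with z hz
      exact TK1_nl_of_ne hz
    have h3 : ContinuousAt (fun z : ℂ => ENNReal.ofReal (-Real.log ‖z‖)) a := by
      apply ENNReal.continuous_ofReal.continuousAt.comp
      apply ContinuousAt.neg
      exact (continuous_norm.continuousAt).log (norm_ne_zero_iff.2 ha)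
    exact h3.congr h2.symm

theorem nl_of_norm_le {a b : ℂ} (h : ‖a‖ ≤ ‖b‖) : nl b ≤ nl a := by
  by_cases ha : a = 0
  · subst ha
    rw [nl_zero]
    exact le_top
  · have hpa : 0 < ‖a‖ := norm_pos_iff.2 ha
    have hb : b ≠ 0 := norm_pos_iff.1 (lt_of_lt_of_le hpa h)
    rw [TK1_nl_of_ne ha, TK1_nl_of_ne hb]
    apply ENNReal.ofReal_le_ofReal
    have := Real.log_le_log hpa h
    linarith

theorem nl_mul {a b : ℂ} (ha : ‖a‖ ≤ 1) (hb : ‖b‖ ≤ 1) : nl (a * b) = nl a + nl b := by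
  by_cases ha0 : a = 0
  · subst ha0
    simp [nl_zero]
  by_cases hb0 : b = 0
  · subst hb0
    simp [nl_zero]
  rw [TK1_nl_of_ne ha0, TK1_nl_of_ne hb0, TK1_nl_of_ne (mul_ne_zero ha0 hb0), norm_mul,
    Real.log_mul (norm_ne_zero_iff.2 ha0) (norm_ne_zero_iff.2 hb0),
    ← ENNReal.ofReal_add]
  · congr 1
    ring
  · have := Real.log_nonpos (norm_nonneg a) ha
    linarith
  · have := Real.log_nonpos (norm_nonneg b) hb
    linarith

theorem nl_exp {h z : ℂ} (hz : 0 ≤ z.re) (hb : ‖h * Complex.exp z‖ ≤ 1) :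
    nl h = nl (h * Complex.exp z) + ENNReal.ofReal z.re := by
  by_cases h0 : h = 0
  · subst h0
    simp [nl_zero]
  have he : Complex.exp z ≠ 0 := Complex.exp_ne_zero z
  rw [TK1_nl_of_ne h0, TK1_nl_of_ne (mul_ne_zero h0 he), ← ENNReal.ofReal_add]
  · congr 1
    rw [norm_mul, Real.log_mul (norm_ne_zero_iff.2 h0) (norm_ne_zero_iff.2 he),
      Complex.norm_exp, Real.log_exp]
    ring
  · have := Real.log_nonpos (norm_nonneg _) hb
    linarith
  · exact hz

theorem nl_ne_top {a : ℂ} (ha : a ≠ 0) : nl a ≠ ⊤ := by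
  rw [TK1_nl_of_ne ha]
  exact ENNReal.ofReal_ne_top

end Muntz
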