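import Pool.Agent.Lib.MP_dde81e_an.CONC
import Pool.Agent.Lib.MP_dde81e_an.SLAB
import Pool.Agent.Lib.MP_dde81e_an.TK2

/-! MP_dde81e_an, module VC : vertical near concavity (from CONC, SLAB, TK2) (helper37) -/

namespace Muntz
open MeasureTheory Set Metric
open scoped ENNReal

/-- the point with real part `t` and imaginary part `q` -/
noncomputable def VC_pt (t q : ℝ) : ℂ := (t : ℂ) + (q : ℂ) * Complex.I

theorem VC_pt_re (t q : ℝ) : (VC_pt t q).re = t := by simp [VC_pt]

theorem VC_pt_im (t q : ℝ) : (VC_pt t q).im = q := by simp [VC_pt]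

theorem VC_circle (t q r φ : ℝ) : circleMap (VC_pt t q) r φ
    = VC_pt (t + r * Real.cos φ) (q + r * Real.sin φ) := by
  unfold circleMap VC_pt
  rw [Complex.exp_mul_I]
  push_cast
  ring

theorem VC_rect_closed (a b h : ℝ) : IsClosed (rect a b h) := by
  have h1 : IsClosed {σ : ℂ | σ.re ∈ Icc a b} := isClosed_Icc.preimage Complex.continuous_re
  have h2 : IsClosed {σ : ℂ | |σ.im| ≤ h} :=
    isClosed_le (Complex.continuous_im.abs) continuous_const
  exact h1.inter h2

/-- `nl ∘ f` cut off outside `S` -/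
noncomputable def VC_h (f : ℂ → ℂ) (S : Set ℂ) : ℂ → ℝ≥0∞ := S.indicator (fun σ => nl (f σ))

theorem VC_h_meas {f : ℂ → ℂ} {S : Set ℂ} (hS : MeasurableSet S) (hf : ContinuousOn f S) :
    Measurable (VC_h f S) := by
  classical
  unfold VC_h
  rw [← piecewise_eq_indicator]
  exact (nl_continuous.comp_continuousOn hf).measurable_piecewise continuousOn_const hS

theorem VC_pt_meas {α : Type*} [MeasurableSpace α] {x y : α → ℝ} (hx : Measurable x)
    (hy : Measurable y) : Measurable (fun p => VC_pt (x p) (y p)) := by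
  unfold VC_pt
  exact (Complex.measurable_ofReal.comp hx).add
    ((Complex.measurable_ofReal.comp hy).mul_const _)

/-- periodic functions: reflection of the circle -/
theorem VC_refl {W : ℝ → ℝ≥0∞} (hW : Function.Periodic W (2 * Real.pi)) :
    ∫⁻ φ in Ioc (0 : ℝ) (2 * Real.pi), W (Real.pi - φ)
      = ∫⁻ φ in Ioc (0 : ℝ) (2 * Real.pi), W φ := by
  have h1 : ∫⁻ φ in Ioc (0 : ℝ) (2 * Real.pi), W (Real.pi - φ)
      = ∫⁻ φ in Ico (-Real.pi) Real.pi, W φ := by
    rw [← lintegral_indicator measurableSet_Ioc, ← lintegral_indicator measurableSet_Ico,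
      ← lintegral_sub_left_eq_self (fun φ => (Ico (-Real.pi) Real.pi).indicator W φ) Real.pi]
    apply lintegral_congr
    intro φ
    by_cases h : φ ∈ Ioc (0 : ℝ) (2 * Real.pi)
    · have h' : Real.pi - φ ∈ Ico (-Real.pi) Real.pi := by
        constructor
        · linarith [h.2]
        · linarith [h.1]
      rw [indicator_of_mem h, indicator_of_mem h']
    · have h' : Real.pi - φ ∉ Ico (-Real.pi) Real.pi := by
        intro hh
        apply h
        constructor
        · linarith [hh.2]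
        · linarith [hh.1]
      rw [indicator_of_notMem h, indicator_of_notMem h']
  rw [h1, setLIntegral_congr Ico_ae_eq_Ioc]
  have : VAddInvariantMeasure (AddSubgroup.zmultiples (2 * Real.pi)) ℝ volume :=
    ⟨fun c s _ => measure_preimage_add _ _ _⟩
  have e1 : Ioc (-Real.pi) Real.pi = Ioc (-Real.pi) (-Real.pi + 2 * Real.pi) := by
    congr 1; ring
  have e2 : Ioc (0 : ℝ) (2 * Real.pi) = Ioc (0 : ℝ) (0 + 2 * Real.pi) := by
    congr 1; ring
  rw [e1, e2]
  apply IsAddFundamentalDomain.setLIntegral_eq (G := AddSubgroup.zmultiples (2 * Real.pi))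
  exacts [isAddFundamentalDomain_Ioc Real.two_pi_pos _, isAddFundamentalDomain_Ioc Real.two_pi_pos _,
    hW.map_vadd_zmultiples]

/-- the weighted integral on the horizontal line at height `q` -/
noncomputable def VC_Y (u : ℝ → ℝ) (h : ℂ → ℝ≥0∞) (q : ℝ) : ℝ≥0∞ :=
  ∫⁻ t : ℝ, ENNReal.ofReal (u t) * h (VC_pt t q)

theorem VC_Y_meas {u : ℝ → ℝ} {h : ℂ → ℝ≥0∞} (hu : Continuous u) (hh : Measurable h) :
    Measurable (VC_Y u h) := by
  unfold VC_Y
  apply Measurable.lintegral_prod_right' (f := fun p : ℝ × ℝ =>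
    ENNReal.ofReal (u p.2) * h (VC_pt p.2 p.1))
  exact (hu.measurable.comp measurable_snd).ennreal_ofReal.mul
    (hh.comp (VC_pt_meas measurable_snd measurable_fst))

/-- mean value inequality before the symmetrisation -/
theorem VC_mean1 {u : ℝ → ℝ} {f : ℂ → ℂ} {a b δ ρ : ℝ} (hu : Continuous u)
    (hus : ∀ t, t ∉ Icc a b → u t = 0) (hρ : 0 < ρ) (hδ : 8 * ρ ≤ δ)
    (hf : AnalyticOnNhd ℂ f (rect (a - δ) (b + δ) (4 * ρ)))
    (hf1 : ∀ σ ∈ rect (a - δ) (b + δ) (4 * ρ), ‖f σ‖ ≤ 1) {q r : ℝ} (hr : 0 ≤ r)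
    (hqr : |q| + r ≤ ρ) :
    ENNReal.ofReal (1 / (2 * Real.pi)) * (∫⁻ φ in Ioc (0 : ℝ) (2 * Real.pi), ∫⁻ t : ℝ,
      ENNReal.ofReal (u (t - r * Real.cos φ)) *
        VC_h f (rect (a - δ) (b + δ) (4 * ρ)) (VC_pt t (q + r * Real.sin φ)))
      ≤ VC_Y u (VC_h f (rect (a - δ) (b + δ) (4 * ρ))) q := by
  set S := rect (a - δ) (b + δ) (4 * ρ) with hS
  have hSm : MeasurableSet S := (VC_rect_closed _ _ _).measurableSet
  have hm : Measurable (VC_h f S) := VC_h_meas hSm hf.continuousOn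
  have h1 : ∀ φ : ℝ, (∫⁻ t : ℝ, ENNReal.ofReal (u (t - r * Real.cos φ)) *
        VC_h f S (VC_pt t (q + r * Real.sin φ)))
      = ∫⁻ t : ℝ, ENNReal.ofReal (u t) * VC_h f S (circleMap (VC_pt t q) r φ) := by
    intro φ
    rw [← lintegral_add_right_eq_self _ (r * Real.cos φ)]
    apply lintegral_congr
    intro t
    rw [VC_circle, add_sub_cancel_right]
  have hjm : Measurable (fun p : ℝ × ℝ => ENNReal.ofReal (u p.2) *
      VC_h f S (circleMap (VC_pt p.2 q) r p.1)) := by
    apply (hu.measurable.comp measurable_snd).ennreal_ofReal.mul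
    apply hm.comp
    have : (fun p : ℝ × ℝ => circleMap (VC_pt p.2 q) r p.1)
        = fun p : ℝ × ℝ => VC_pt (p.2 + r * Real.cos p.1) (q + r * Real.sin p.1) := by
      funext p; exact VC_circle _ _ _ _
    rw [this]
    apply VC_pt_meas
    · exact measurable_snd.add ((Real.measurable_cos.comp measurable_fst).const_mul r)
    · exact ((Real.measurable_sin.comp measurable_fst).const_mul r).const_add q
  have h2 : (∫⁻ φ in Ioc (0 : ℝ) (2 * Real.pi), ∫⁻ t : ℝ,
      ENNReal.ofReal (u (t - r * Real.cos φ)) * VC_h f S (VC_pt t (q + r * Real.sin φ)))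
      = ∫⁻ t : ℝ, ∫⁻ φ in Ioc (0 : ℝ) (2 * Real.pi),
        ENNReal.ofReal (u t) * VC_h f S (circleMap (VC_pt t q) r φ) := by
    rw [setLIntegral_congr_fun measurableSet_Ioc (fun φ _ => h1 φ)]
    exact lintegral_lintegral_swap (f := fun φ t : ℝ => ENNReal.ofReal (u t) *
      VC_h f S (circleMap (VC_pt t q) r φ)) hjm.aemeasurable
  rw [h2, ← lintegral_const_mul]
  · unfold VC_Y
    apply lintegral_mono
    intro t
    have hmt : Measurable (fun φ : ℝ => VC_h f S (circleMap (VC_pt t q) r φ)) :=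
      hm.comp (continuous_circleMap _ _).measurable
    show ENNReal.ofReal (1 / (2 * Real.pi)) * (∫⁻ φ in Ioc (0 : ℝ) (2 * Real.pi),
        ENNReal.ofReal (u t) * VC_h f S (circleMap (VC_pt t q) r φ))
      ≤ ENNReal.ofReal (u t) * VC_h f S (VC_pt t q)
    rw [lintegral_const_mul _ hmt]
    by_cases ht : t ∈ Icc a b
    · have hsub : closedBall (VC_pt t q) r ⊆ S := by
        intro z hz
        have hz' : ‖z - VC_pt t q‖ ≤ r := by simpa [dist_eq_norm] using hz
        have hre := (Complex.abs_re_le_norm (z - VC_pt t q)).trans hz'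
        have him := (Complex.abs_im_le_norm (z - VC_pt t q)).trans hz'
        rw [Complex.sub_re, VC_pt_re, abs_le] at hre
        rw [Complex.sub_im, VC_pt_im, abs_le] at him
        have hq1 := neg_abs_le q
        have hq2 := le_abs_self q
        have hq3 := abs_nonneg q
        refine ⟨⟨?_, ?_⟩, ?_⟩
        · linarith [ht.1]
        · linarith [ht.2]
        · rw [abs_le]
          constructor <;> linarith
      have hc := cav_le_center (h := f) (hf.mono hsub) (fun z hz => hf1 z (hsub hz)) hr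
      have hcen : VC_pt t q ∈ S := hsub (mem_closedBall_self hr)
      have e1 : VC_h f S (VC_pt t q) = nl (f (VC_pt t q)) := indicator_of_mem hcen _
      have e2 : (∫⁻ φ in Ioc (0 : ℝ) (2 * Real.pi), VC_h f S (circleMap (VC_pt t q) r φ))
          = ∫⁻ φ in Ioc (0 : ℝ) (2 * Real.pi), nl (f (circleMap (VC_pt t q) r φ)) := by
        apply lintegral_congr
        intro φ
        exact indicator_of_mem (hsub (circleMap_mem_closedBall _ hr φ)) _
      rw [e1, e2]
      calc _ = ENNReal.ofReal (u t) * (ENNReal.ofReal (1 / (2 * Real.pi)) *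
            ∫⁻ φ in Ioc (0 : ℝ) (2 * Real.pi), nl (f (circleMap (VC_pt t q) r φ))) := by ring
        _ ≤ _ := by gcongr; exact hc
    · rw [hus t ht]
      simp
  · exact (hjm.comp measurable_swap).lintegral_prod_right'

/-- the mean value inequality -/
theorem VC_mean {u : ℝ → ℝ} {f : ℂ → ℂ} {a b δ ρ M : ℝ} {J : ℝ≥0∞} (hu : Continuous u)
    (hu0 : ∀ t, 0 ≤ u t) (hus : ∀ t, t ∉ Icc a b → u t = 0) (hρ : 0 < ρ) (hδ : 8 * ρ ≤ δ)
    (hM : 0 ≤ M) (hsd : ∀ t r, -(M * r ^ 2) ≤ u (t + r) + u (t - r) - 2 * u t)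
    (hf : AnalyticOnNhd ℂ f (rect (a - δ) (b + δ) (4 * ρ)))
    (hf1 : ∀ σ ∈ rect (a - δ) (b + δ) (4 * ρ), ‖f σ‖ ≤ 1)
    (hJ : ∀ q : ℝ, |q| ≤ ρ → ∫⁻ t in Icc a b,
      VC_h f (rect (a - δ) (b + δ) (4 * ρ)) (VC_pt t q) ≤ J) {q r : ℝ} (hr : 0 ≤ r)
    (hqr : |q| + r ≤ ρ) :
    2 * (ENNReal.ofReal (1 / (2 * Real.pi)) * (∫⁻ φ in Ioc (0 : ℝ) (2 * Real.pi),
      VC_Y u (VC_h f (rect (a - δ) (b + δ) (4 * ρ))) (q + r * Real.sin φ)))
      ≤ 2 * VC_Y u (VC_h f (rect (a - δ) (b + δ) (4 * ρ))) q + ENNReal.ofReal (M * r ^ 2) * J := by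
  have hmean := VC_mean1 hu hus hρ hδ hf hf1 hr hqr
  set S := rect (a - δ) (b + δ) (4 * ρ) with hS
  have hSm : MeasurableSet S := (VC_rect_closed _ _ _).measurableSet
  have hm : Measurable (VC_h f S) := VC_h_meas hSm hf.continuousOn
  set W : ℝ → ℝ≥0∞ := fun φ => ∫⁻ t : ℝ, ENNReal.ofReal (u (t - r * Real.cos φ)) *
        VC_h f S (VC_pt t (q + r * Real.sin φ)) with hW
  have hper : Function.Periodic W (2 * Real.pi) := by
    intro φ
    simp only [hW, Real.cos_add_two_pi, Real.sin_add_two_pi]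
  have hWm : Measurable W := by
    apply Measurable.lintegral_prod_right' (f := fun p : ℝ × ℝ =>
      ENNReal.ofReal (u (p.2 - r * Real.cos p.1)) * VC_h f S (VC_pt p.2 (q + r * Real.sin p.1)))
    apply Measurable.mul
    · apply Measurable.ennreal_ofReal
      apply hu.measurable.comp
      exact measurable_snd.sub ((Real.measurable_cos.comp measurable_fst).const_mul r)
    · apply hm.comp
      exact VC_pt_meas measurable_snd
        (((Real.measurable_sin.comp measurable_fst).const_mul r).const_add q)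
  have hpt : ∀ φ : ℝ, 2 * VC_Y u (VC_h f S) (q + r * Real.sin φ)
      ≤ W φ + W (Real.pi - φ) + ENNReal.ofReal (M * r ^ 2) * J := by
    intro φ
    have hφ : |q + r * Real.sin φ| ≤ ρ := by
      have h1 : |r * Real.sin φ| ≤ r := by
        rw [abs_mul, abs_of_nonneg hr]
        exact mul_le_of_le_one_right hr (Real.abs_sin_le_one φ)
      exact (abs_add_le _ _).trans (by linarith)
    have hmp : ∀ y : ℝ, Measurable (fun t : ℝ => VC_h f S (VC_pt t y)) := fun y =>
      hm.comp (VC_pt_meas measurable_id measurable_const)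
    have hus1 : ∀ s : ℝ, Measurable (fun t : ℝ => ENNReal.ofReal (u (t - s))) := fun s =>
      (hu.measurable.comp (measurable_id.sub_const s)).ennreal_ofReal
    have hus2 : ∀ s : ℝ, Measurable (fun t : ℝ => ENNReal.ofReal (u (t + s))) := fun s =>
      (hu.measurable.comp (measurable_id.add_const s)).ennreal_ofReal
    have eW2 : W (Real.pi - φ) = ∫⁻ t : ℝ, ENNReal.ofReal (u (t + r * Real.cos φ)) *
        VC_h f S (VC_pt t (q + r * Real.sin φ)) := by
      simp only [hW, Real.cos_pi_sub, Real.sin_pi_sub, mul_neg, sub_neg_eq_add]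
    have hb : ENNReal.ofReal (M * r ^ 2) * (∫⁻ t in Icc a b,
        VC_h f S (VC_pt t (q + r * Real.sin φ))) ≤ ENNReal.ofReal (M * r ^ 2) * J := by
      gcongr
      exact hJ _ hφ
    refine le_trans ?_ (add_le_add_right hb _)
    rw [eW2, ← lintegral_indicator measurableSet_Icc, ← lintegral_const_mul _
      ((hmp _).indicator measurableSet_Icc)]
    show 2 * (∫⁻ t : ℝ, ENNReal.ofReal (u t) * VC_h f S (VC_pt t (q + r * Real.sin φ)))
      ≤ (∫⁻ t : ℝ, ENNReal.ofReal (u (t - r * Real.cos φ)) *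
        VC_h f S (VC_pt t (q + r * Real.sin φ))) + (∫⁻ t : ℝ,
        ENNReal.ofReal (u (t + r * Real.cos φ)) * VC_h f S (VC_pt t (q + r * Real.sin φ)))
        + ∫⁻ t : ℝ, ENNReal.ofReal (M * r ^ 2) * (Icc a b).indicator
          (fun t => VC_h f S (VC_pt t (q + r * Real.sin φ))) t
    have m0 : Measurable (fun t : ℝ => ENNReal.ofReal (u t) *
        VC_h f S (VC_pt t (q + r * Real.sin φ))) := hu.measurable.ennreal_ofReal.mul (hmp _)
    have m1 : Measurable (fun t : ℝ => ENNReal.ofReal (u (t - r * Real.cos φ)) *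
        VC_h f S (VC_pt t (q + r * Real.sin φ))) := (hus1 _).mul (hmp _)
    have m2 : Measurable (fun t : ℝ => ENNReal.ofReal (u (t + r * Real.cos φ)) *
        VC_h f S (VC_pt t (q + r * Real.sin φ))) := (hus2 _).mul (hmp _)
    have m12 : Measurable (fun t : ℝ => ENNReal.ofReal (u (t - r * Real.cos φ)) *
        VC_h f S (VC_pt t (q + r * Real.sin φ)) + ENNReal.ofReal (u (t + r * Real.cos φ)) *
        VC_h f S (VC_pt t (q + r * Real.sin φ))) := m1.add m2
    rw [← lintegral_const_mul _ m0, ← lintegral_add_left m1, ← lintegral_add_left m12]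
    apply lintegral_mono
    intro t
    show 2 * (ENNReal.ofReal (u t) * VC_h f S (VC_pt t (q + r * Real.sin φ)))
      ≤ ENNReal.ofReal (u (t - r * Real.cos φ)) * VC_h f S (VC_pt t (q + r * Real.sin φ)) +
        ENNReal.ofReal (u (t + r * Real.cos φ)) * VC_h f S (VC_pt t (q + r * Real.sin φ))
        + ENNReal.ofReal (M * r ^ 2) * (Icc a b).indicator
          (fun t => VC_h f S (VC_pt t (q + r * Real.sin φ))) t
    set H := VC_h f S (VC_pt t (q + r * Real.sin φ)) with hH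
    by_cases ht : t ∈ Icc a b
    · rw [indicator_of_mem ht]
      have hc2 : M * (r * Real.cos φ) ^ 2 ≤ M * r ^ 2 := by
        apply mul_le_mul_of_nonneg_left _ hM
        rw [mul_pow]
        have := Real.cos_sq_le_one φ
        nlinarith [sq_nonneg r]
      have hsd' := hsd t (r * Real.cos φ)
      have hreal : 2 * u t ≤ u (t - r * Real.cos φ) + u (t + r * Real.cos φ) + M * r ^ 2 := by
        linarith
      have hE : 2 * ENNReal.ofReal (u t) ≤ ENNReal.ofReal (u (t - r * Real.cos φ)) +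
          ENNReal.ofReal (u (t + r * Real.cos φ)) + ENNReal.ofReal (M * r ^ 2) := by
        rw [← ENNReal.ofReal_add (hu0 _) (hu0 _), ← ENNReal.ofReal_add
          (add_nonneg (hu0 _) (hu0 _)) (by positivity)]
        have h2 : (2 : ℝ≥0∞) = ENNReal.ofReal 2 := by simp
        rw [h2, ← ENNReal.ofReal_mul (by norm_num)]
        exact ENNReal.ofReal_le_ofReal hreal
      calc 2 * (ENNReal.ofReal (u t) * H) = (2 * ENNReal.ofReal (u t)) * H := by ring
        _ ≤ (ENNReal.ofReal (u (t - r * Real.cos φ)) +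
          ENNReal.ofReal (u (t + r * Real.cos φ)) + ENNReal.ofReal (M * r ^ 2)) * H := by gcongr
        _ = _ := by ring
    · rw [hus t ht]
      simp
  set c := ENNReal.ofReal (1 / (2 * Real.pi)) with hc
  have hcpi : c * ENNReal.ofReal (2 * Real.pi) = 1 := by
    rw [hc, ← ENNReal.ofReal_mul (by positivity)]
    rw [one_div_mul_cancel (by positivity)]
    simp
  have hint : (∫⁻ φ in Ioc (0 : ℝ) (2 * Real.pi), 2 * VC_Y u (VC_h f S) (q + r * Real.sin φ))
      ≤ (∫⁻ φ in Ioc (0 : ℝ) (2 * Real.pi), W φ) + (∫⁻ φ in Ioc (0 : ℝ) (2 * Real.pi),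
        W (Real.pi - φ)) + ENNReal.ofReal (2 * Real.pi) * (ENNReal.ofReal (M * r ^ 2) * J) := by
    have hWm2 : Measurable (fun φ : ℝ => W (Real.pi - φ)) :=
      hWm.comp (measurable_id.const_sub Real.pi)
    have hcst : (∫⁻ _ in Ioc (0 : ℝ) (2 * Real.pi), ENNReal.ofReal (M * r ^ 2) * J)
        = ENNReal.ofReal (2 * Real.pi) * (ENNReal.ofReal (M * r ^ 2) * J) := by
      rw [setLIntegral_const, Real.volume_Ioc, sub_zero, mul_comm]
    have hWm3 : Measurable (fun φ : ℝ => W φ + W (Real.pi - φ)) := hWm.add hWm2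
    rw [← hcst, ← lintegral_add_left hWm, ← lintegral_add_left hWm3]
    exact lintegral_mono hpt
  have hYm : Measurable (fun φ : ℝ => VC_Y u (VC_h f S) (q + r * Real.sin φ)) :=
    (VC_Y_meas hu hm).comp ((Real.measurable_sin.const_mul r).const_add q)
  rw [lintegral_const_mul _ hYm, VC_refl hper] at hint
  calc 2 * (c * ∫⁻ φ in Ioc (0 : ℝ) (2 * Real.pi), VC_Y u (VC_h f S) (q + r * Real.sin φ))
      = c * (2 * ∫⁻ φ in Ioc (0 : ℝ) (2 * Real.pi), VC_Y u (VC_h f S) (q + r * Real.sin φ)) := by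
        ring
    _ ≤ c * ((∫⁻ φ in Ioc (0 : ℝ) (2 * Real.pi), W φ) + (∫⁻ φ in Ioc (0 : ℝ) (2 * Real.pi), W φ)
        + ENNReal.ofReal (2 * Real.pi) * (ENNReal.ofReal (M * r ^ 2) * J)) := by gcongr
    _ = 2 * (c * ∫⁻ φ in Ioc (0 : ℝ) (2 * Real.pi), W φ)
        + (c * ENNReal.ofReal (2 * Real.pi)) * (ENNReal.ofReal (M * r ^ 2) * J) := by ring
    _ = 2 * (c * ∫⁻ φ in Ioc (0 : ℝ) (2 * Real.pi), W φ)
        + ENNReal.ofReal (M * r ^ 2) * J := by rw [hcpi, one_mul]
    _ ≤ _ := by gcongr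

theorem VC_lsc {u : ℝ → ℝ} {f : ℂ → ℂ} {a b δ ρ : ℝ} (hu : Continuous u)
    (hus : ∀ t, t ∉ Icc a b → u t = 0) (hρ : 0 < ρ) (hδ : 8 * ρ ≤ δ)
    (hf : AnalyticOnNhd ℂ f (rect (a - δ) (b + δ) (4 * ρ)))
    (hfin : ∀ q : ℝ, |q| ≤ ρ → VC_Y u (VC_h f (rect (a - δ) (b + δ) (4 * ρ))) q ≠ ⊤) :
    LowerSemicontinuousOn (fun q => (VC_Y u (VC_h f (rect (a - δ) (b + δ) (4 * ρ))) q).toReal)
      (Icc (-ρ) ρ) := by
  set S := rect (a - δ) (b + δ) (4 * ρ) with hS
  have hSm : MeasurableSet S := (VC_rect_closed _ _ _).measurableSet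
  have hm : Measurable (VC_h f S) := VC_h_meas hSm hf.continuousOn
  intro q₀ hq₀ y hy
  by_contra hcon
  rw [Filter.not_eventually] at hcon
  obtain ⟨s, hs, hsf⟩ := Filter.exists_seq_forall_of_frequently
    (hcon.and_eventually self_mem_nhdsWithin)
  have hs0 : Filter.Tendsto s Filter.atTop (nhds q₀) := tendsto_nhds_of_tendsto_nhdsWithin hs
  have hy0 : 0 ≤ y := le_trans ENNReal.toReal_nonneg (not_lt.1 (hsf 0).1)
  have hmem : ∀ t ∈ Icc a b, ∀ q ∈ Icc (-ρ) ρ, VC_pt t q ∈ S := by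
    intro t ht q hq
    refine ⟨⟨?_, ?_⟩, ?_⟩
    · rw [VC_pt_re]; linarith [ht.1]
    · rw [VC_pt_re]; linarith [ht.2]
    · rw [VC_pt_im, abs_le]; constructor <;> linarith [hq.1, hq.2]
  have hcont : ∀ t : ℝ, Filter.Tendsto (fun n => ENNReal.ofReal (u t) * VC_h f S (VC_pt t (s n)))
      Filter.atTop (nhds (ENNReal.ofReal (u t) * VC_h f S (VC_pt t q₀))) := by
    intro t
    by_cases ht : t ∈ Icc a b
    · have e : ∀ n, VC_h f S (VC_pt t (s n)) = nl (f (VC_pt t (s n))) := fun n =>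
        indicator_of_mem (hmem t ht _ (hsf n).2) _
      have e0 : VC_h f S (VC_pt t q₀) = nl (f (VC_pt t q₀)) :=
        indicator_of_mem (hmem t ht _ hq₀) _
      simp only [e, e0]
      apply ENNReal.Tendsto.const_mul _ (Or.inr ENNReal.ofReal_ne_top)
      have hc : ContinuousAt f (VC_pt t q₀) := (hf _ (hmem t ht _ hq₀)).continuousAt
      have hp : Continuous (fun q : ℝ => VC_pt t q) := by unfold VC_pt; fun_prop
      exact (nl_continuous.continuousAt.comp hc).tendsto.comp ((hp.tendsto q₀).comp hs0)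
    · rw [hus t ht]
      simp
  have hle : VC_Y u (VC_h f S) q₀ ≤ ENNReal.ofReal y := by
    have h1 : VC_Y u (VC_h f S) q₀ ≤ Filter.liminf (fun n => VC_Y u (VC_h f S) (s n))
        Filter.atTop := by
      have h2 : VC_Y u (VC_h f S) q₀ = ∫⁻ t : ℝ, Filter.liminf (fun n =>
          ENNReal.ofReal (u t) * VC_h f S (VC_pt t (s n))) Filter.atTop := by
        unfold VC_Y
        apply lintegral_congr
        intro t
        exact (hcont t).liminf_eq.symm
      rw [h2]
      apply lintegral_liminf_le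
      intro n
      exact hu.measurable.ennreal_ofReal.mul (hm.comp (VC_pt_meas measurable_id measurable_const))
    refine h1.trans ?_
    apply Filter.liminf_le_of_le
    · isBoundedDefault
    · intro z hz
      obtain ⟨n, hn⟩ := hz.exists
      refine hn.trans ?_
      have hn1 := not_lt.1 (hsf n).1
      have hn2 : |s n| ≤ ρ := abs_le.2 (hsf n).2
      rw [← ENNReal.ofReal_toReal (hfin _ hn2)]
      exact ENNReal.ofReal_le_ofReal hn1
  have : (VC_Y u (VC_h f S) q₀).toReal ≤ y := ENNReal.toReal_le_of_le_ofReal hy0 hle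
  linarith

theorem vertical_conc : ∃ C : ℝ, 0 < C ∧ ∀ (u : ℝ → ℝ) (f : ℂ → ℂ) (a b δ ρ M : ℝ), a ≤ b →
    0 < ρ → 8 * ρ ≤ δ → Continuous u → (∀ t, 0 ≤ u t) → (∀ t, t ∉ Icc a b → u t = 0) → 0 ≤ M →
    (∀ t r, -(M * r ^ 2) ≤ u (t + r) + u (t - r) - 2 * u t) →
    AnalyticOnNhd ℂ f (rect (a - δ) (b + δ) (4 * ρ)) →
    (∀ σ ∈ rect (a - δ) (b + δ) (4 * ρ), ‖f σ‖ ≤ 1) →
    ∀ q r : ℝ, 0 ≤ r → |q| + r ≤ ρ →
    (∫⁻ t : ℝ, ENNReal.ofReal (u t) * nl (f ((t : ℂ) + ((q - r : ℝ) : ℂ) * Complex.I)))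
      + (∫⁻ t : ℝ, ENNReal.ofReal (u t) * nl (f ((t : ℂ) + ((q + r : ℝ) : ℂ) * Complex.I)))
      ≤ 2 * (∫⁻ t : ℝ, ENNReal.ofReal (u t) * nl (f ((t : ℂ) + (q : ℂ) * Complex.I)))
        + ENNReal.ofReal (C * M * r ^ 2) * ∫⁻ t in Icc (a - δ / 2) (b + δ / 2), nl (f (t : ℂ)) := by
  obtain ⟨C, hC, hslab⟩ := slab
  refine ⟨2 * C, by positivity, ?_⟩
  intro u f a b δ ρ M hab hρ hδ hu hu0 hus hM hsd hf hf1 q r hr hqr
  -- trivial cases
  rcases hM.eq_or_lt with hM0 | hMpos
  · have hz : ∀ t, u t = 0 := by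
      intro t
      by_cases ht : t ∈ Icc a b
      · have h1 := hsd t (b - a + 1)
        rw [hus (t + (b - a + 1)) (by intro h; linarith [h.2, ht.1]),
          hus (t - (b - a + 1)) (by intro h; linarith [h.1, ht.2]), ← hM0] at h1
        have h2 := hu0 t
        nlinarith
      · exact hus t ht
    simp [hz]
  rcases hr.eq_or_lt with hr0 | hrpos
  · rw [← hr0, sub_zero, add_zero, ← two_mul]
    exact le_self_add
  set K := ∫⁻ t in Icc (a - δ / 2) (b + δ / 2), nl (f (t : ℂ)) with hK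
  by_cases hKtop : K = ⊤
  · rw [hKtop, ENNReal.mul_top]
    · simp
    · have : 0 < 2 * C * M * r ^ 2 := by positivity
      simpa using this
  set S := rect (a - δ) (b + δ) (4 * ρ) with hS
  have hSm : MeasurableSet S := (VC_rect_closed _ _ _).measurableSet
  have hm : Measurable (VC_h f S) := VC_h_meas hSm hf.continuousOn
  have hmem : ∀ t ∈ Icc a b, ∀ q : ℝ, |q| ≤ ρ → VC_pt t q ∈ S := by
    intro t ht q hq
    have hq' := abs_le.1 hq
    refine ⟨⟨?_, ?_⟩, ?_⟩
    · rw [VC_pt_re]; linarith [ht.1]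
    · rw [VC_pt_re]; linarith [ht.2]
    · rw [VC_pt_im, abs_le]; constructor <;> linarith [hq'.1, hq'.2]
  have hYeq : ∀ q : ℝ, |q| ≤ ρ → (∫⁻ t : ℝ, ENNReal.ofReal (u t) *
      nl (f ((t : ℂ) + (q : ℂ) * Complex.I))) = VC_Y u (VC_h f S) q := by
    intro q hq
    unfold VC_Y
    apply lintegral_congr
    intro t
    by_cases ht : t ∈ Icc a b
    · have e : VC_h f S (VC_pt t q) = nl (f (VC_pt t q)) := indicator_of_mem (hmem t ht q hq) _
      rw [e]
      rfl
    · rw [hus t ht]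
      simp
  have hJ : ∀ q : ℝ, |q| ≤ ρ → ∫⁻ t in Icc a b, VC_h f S (VC_pt t q) ≤ ENNReal.ofReal C * K := by
    intro q hq
    have h1 := hslab f a b δ ρ ((q : ℂ) * Complex.I) hab hρ hδ hf hf1 (by simpa using hq)
      (by simp; linarith)
    refine le_trans (le_of_eq ?_) h1
    apply setLIntegral_congr_fun measurableSet_Icc
    intro t ht
    exact indicator_of_mem (hmem t ht q hq) _
  obtain ⟨U, hU⟩ := isCompact_Icc.exists_bound_of_continuousOn (s := Icc a b) hu.continuousOn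
  have hYb : ∀ q : ℝ, |q| ≤ ρ → VC_Y u (VC_h f S) q ≤ ENNReal.ofReal U * (ENNReal.ofReal C * K) := by
    intro q hq
    have h2 : VC_Y u (VC_h f S) q ≤ ∫⁻ t : ℝ, ENNReal.ofReal U *
        (Icc a b).indicator (fun t => VC_h f S (VC_pt t q)) t := by
      unfold VC_Y
      apply lintegral_mono
      intro t
      show ENNReal.ofReal (u t) * VC_h f S (VC_pt t q) ≤ ENNReal.ofReal U *
        (Icc a b).indicator (fun t => VC_h f S (VC_pt t q)) t
      by_cases ht : t ∈ Icc a b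
      · rw [indicator_of_mem ht]
        gcongr
        exact (Real.le_norm_self _).trans (hU t ht)
      · rw [hus t ht]
        simp
    refine h2.trans ?_
    rw [lintegral_const_mul' _ _ ENNReal.ofReal_ne_top, lintegral_indicator measurableSet_Icc]
    gcongr
    exact hJ q hq
  have hbt : ENNReal.ofReal U * (ENNReal.ofReal C * K) ≠ ⊤ :=
    ENNReal.mul_ne_top ENNReal.ofReal_ne_top (ENNReal.mul_ne_top ENNReal.ofReal_ne_top hKtop)
  have hfin : ∀ q : ℝ, |q| ≤ ρ → VC_Y u (VC_h f S) q ≠ ⊤ := fun q hq =>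
    ne_top_of_le_ne_top hbt (hYb q hq)
  have hlsc := VC_lsc hu hus hρ hδ hf hfin
  have hsin : ∀ (q r φ : ℝ), 0 ≤ r → |q| + r ≤ ρ → |q + r * Real.sin φ| ≤ ρ := by
    intro q r φ hr hqr
    have h1 : |r * Real.sin φ| ≤ r := by
      rw [abs_mul, abs_of_nonneg hr]
      exact mul_le_of_le_one_right hr (Real.abs_sin_le_one φ)
    exact (abs_add_le _ _).trans (by linarith)
  have hconc := conc (y := fun q => (VC_Y u (VC_h f S) q).toReal) (D := M / 2 * (C * K.toReal))
    (M := (ENNReal.ofReal U * (ENNReal.ofReal C * K)).toReal) hρ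
    (mul_nonneg (by positivity) (mul_nonneg hC.le ENNReal.toReal_nonneg)) hlsc
    (fun q hq => ⟨ENNReal.toReal_nonneg, ENNReal.toReal_mono hbt (hYb q (abs_le.2 hq))⟩) ?_ q r hr hqr
  · have hq1 : |q - r| ≤ ρ := (abs_sub _ _).trans (by rw [abs_of_nonneg hr]; exact hqr)
    have hq2 : |q + r| ≤ ρ := (abs_add_le _ _).trans (by rw [abs_of_nonneg hr]; exact hqr)
    have hq3 : |q| ≤ ρ := by linarith
    rw [hYeq _ hq1, hYeq _ hq2, hYeq _ hq3]
    rw [← ENNReal.ofReal_toReal (hfin _ hq1), ← ENNReal.ofReal_toReal (hfin _ hq2),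
      ← ENNReal.ofReal_toReal (hfin _ hq3), ← ENNReal.ofReal_toReal hKtop,
      ← ENNReal.ofReal_add ENNReal.toReal_nonneg ENNReal.toReal_nonneg]
    have h2 : (2 : ℝ≥0∞) = ENNReal.ofReal 2 := by simp
    rw [h2, ← ENNReal.ofReal_mul (by norm_num), ← ENNReal.ofReal_mul (by positivity),
      ← ENNReal.ofReal_add (mul_nonneg (by norm_num) ENNReal.toReal_nonneg)
        (mul_nonneg (by positivity) ENNReal.toReal_nonneg)]
    apply ENNReal.ofReal_le_ofReal
    have : 4 * (M / 2 * (C * K.toReal)) * r ^ 2 = 2 * C * M * r ^ 2 * K.toReal := by ring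
    rw [← this]
    exact hconc
  · intro q r hr hqr
    have hmean := VC_mean hu hu0 hus hρ hδ hM hsd hf hf1 hJ hr.le hqr
    have hq3 : |q| ≤ ρ := by linarith
    have hYm : Measurable (fun φ : ℝ => VC_Y u (VC_h f S) (q + r * Real.sin φ)) :=
      (VC_Y_meas hu hm).comp ((Real.measurable_sin.const_mul r).const_add q)
    have hI : (∫ φ in (0:ℝ)..(2 * Real.pi), (VC_Y u (VC_h f S) (q + r * Real.sin φ)).toReal)
        = (∫⁻ φ in Ioc (0 : ℝ) (2 * Real.pi), VC_Y u (VC_h f S) (q + r * Real.sin φ)).toReal := by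
      rw [intervalIntegral.integral_of_le Real.two_pi_pos.le]
      apply integral_toReal hYm.aemeasurable
      exact Filter.Eventually.of_forall (fun φ => (hfin _ (hsin q r φ hr.le hqr)).lt_top)
    rw [hI]
    have hR := ENNReal.toReal_mono (ENNReal.add_ne_top.2 ⟨ENNReal.mul_ne_top (by simp) (hfin q hq3),
      ENNReal.mul_ne_top ENNReal.ofReal_ne_top (ENNReal.mul_ne_top ENNReal.ofReal_ne_top hKtop)⟩) hmean
    rw [ENNReal.toReal_add (ENNReal.mul_ne_top (by simp) (hfin q hq3))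
      (ENNReal.mul_ne_top ENNReal.ofReal_ne_top (ENNReal.mul_ne_top ENNReal.ofReal_ne_top hKtop))] at hR
    simp only [ENNReal.toReal_mul, ENNReal.toReal_ofNat] at hR
    rw [ENNReal.toReal_ofReal (by positivity), ENNReal.toReal_ofReal (by positivity),
      ENNReal.toReal_ofReal hC.le] at hR
    nlinarith [hR]

end Muntz
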